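import Pool.Agent.Lib.MP_efe3d7_co.Main

/-! From weighted networks to graphs. -/

set_option autoImplicit false

open Finset

namespace Pool.Agent.Lib.MP_efe3d7_co

theorem noSep_of_conn {n : ℕ} (G : SimpleGraph (Fin n)) [DecidableRel G.Adj]
    (hG : ∀ S : Finset (Fin n), S.card ≤ 2 → (G.induce ((↑S : Set (Fin n))ᶜ)).Connected) :
    NoSep G.edgeFinset univ := by
  intro c d A h
  obtain ⟨u, hu⟩ := h.ne
  obtain ⟨w, -, w1, w2, w3⟩ := h.ex
  have key : ∀ (p q : ↥((↑({c, d} : Finset (Fin n)) : Set (Fin n))ᶜ))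
      (_ : (G.induce ((↑({c, d} : Finset (Fin n)) : Set (Fin n))ᶜ)).Walk p q),
      p.1 ∈ A → q.1 ∈ A := by
    intro p q W
    induction W with
    | nil => exact id
    | @cons a b _ hab _ ih =>
      intro ha
      refine ih ?_
      by_contra hb
      have h1 : b.1 ≠ c ∧ b.1 ≠ d := by simpa using b.2
      exact h.no _ ha _ (mem_univ _) hb h1.1 h1.2 (by simpa using hab)
  have hu' : u ≠ c ∧ u ≠ d := ⟨fun e => h.hcA (e ▸ hu), fun e => h.hdA (e ▸ hu)⟩
  obtain ⟨W⟩ := (hG {c, d} card_le_two).preconnected ⟨u, by simpa using hu'⟩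
    ⟨w, by simpa using And.intro w2 w3⟩
  exact w1 (key _ _ W hu)

theorem chrom_pos {x μ μ' ρ z zz g : ℝ} (P : Par x μ μ' ρ z zz g) {n : ℕ}
    (G : SimpleGraph (Fin n)) [DecidableRel G.Adj] (hn : 4 ≤ n)
    (hG : ∀ S : Finset (Fin n), S.card ≤ 2 → (G.induce ((↑S : Set (Fin n))ᶜ)).Connected) :
    0 < (-1 : ℝ) ^ n * ∑ T ∈ G.edgeFinset.powerset, (-1 : ℝ) ^ T.card *
      (1 + x) ^ Nat.card (SimpleGraph.fromEdgeSet (↑T : Set (Sym2 (Fin n)))).ConnectedComponent := by
  have hN := noSep_of_conn G hG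
  have hc : (univ : Finset (Fin n)).card = n := by simp
  obtain ⟨t, -, htr, -, hE⟩ := exists_nbr (r := (⟨0, by omega⟩ : Fin n)) (hN ⟨1, by omega⟩ _)
    (by omega) (mem_univ _) (mem_univ _) (by simp)
  set y : Sym2 (Fin n) → ℝ := fun e => if e ∈ G.edgeFinset then 0 else 1 with hy
  have hμ := P.hμ
  have h1 := (main_all P _ _ G.edgeFinset univ rfl rfl hN (by omega) _ t y μ (Or.inl rfl)
    (mem_univ _) (mem_univ _) htr.symm hE ⟨fun a _ b _ _ h => if_neg h,
      fun b _ _ _ h => by rw [hy]; simp only [if_pos h]; exact ⟨by linarith, sq_nonneg μ⟩,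
      fun a _ b _ _ _ _ h => by rw [hy]; simp only [if_pos h]; exact ⟨by linarith, sq_nonneg μ⟩⟩).1
  have h2 : y s(⟨0, by omega⟩, t) = 0 := if_pos hE
  rw [Dv, Function.update_eq_self_iff.2 h2.symm, ff, hc, Fintype.card_fin, mul_div_assoc,
    div_self (pow_ne_zero _ (by linarith [P.hx])), mul_one, Zp, Polynomial.eval_finsetSum] at h1
  have hsub : G.edgeFinset ⊆ pairs univ := by
    intro e he
    induction e using Sym2.ind with
    | h a b => exact mk_mem_pairs.2 ⟨mem_univ _, mem_univ _, (by simpa using he : G.Adj a b).ne⟩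
  convert h1 using 2
  rw [← sum_subset (powerset_mono.2 hsub)]
  · refine sum_congr rfl fun T hT => ?_
    rw [Polynomial.eval_mul, Polynomial.eval_C, Polynomial.eval_pow, Polynomial.eval_X, comps,
      ← prod_const]
    congr 1
    refine prod_congr rfl fun e he => ?_
    rw [hy]
    simp only [if_pos (mem_powerset.1 hT he)]
    ring
  · intro T _ hT
    obtain ⟨e, he, he'⟩ := not_subset.1 fun h => hT (mem_powerset.2 h)
    rw [Polynomial.eval_mul, Polynomial.eval_C, prod_eq_zero he, zero_mul]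
    rw [hy]
    simp only [if_neg he']
    ring

end Pool.Agent.Lib.MP_efe3d7_co
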