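import Pool.Agent.Lib.MP_efe3d7_co.Nets

/-! A three-connected graph with one edge deleted. -/

set_option autoImplicit false

open Finset

namespace Pool.Agent.Lib.MP_efe3d7_co

variable {α : Type} [Fintype α] [DecidableEq α] {x μ μ' ρ z zz g : ℝ}

/-- The quantity whose sign says that the effective weight is at least `-τ`. -/
noncomputable def FF (x τ : ℝ) (V : Finset α) (y : Sym2 α → ℝ) (e : Sym2 α) : ℝ :=
  τ * Dv x V y e - x * Sv x V y e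

/-- The effect of one reduction step on the values. -/
structure Red (x τ μ : ℝ) (V V₁ : Finset α) (E₁ : Finset (Sym2 α)) (oe : Option (Sym2 α))
    (r t : α) (y y₁ : Sym2 α → ℝ) (κ θ : ℝ) : Prop where
  pos : 0 < κ
  hD : Dv x V y s(r, t) = κ * Dv x V₁ y₁ s(r, t)
  hS : Sv x V y s(r, t) = κ * θ * Sv x V₁ y₁ s(r, t)
  adm : Adm E₁ V₁ y₁ r t τ μ (μ ^ 2)
  same : ∀ e, oe ≠ some e → y₁ e = y e
  modif : ∀ e, oe = some e → ∃ w, -μ ≤ w ∧ w ≤ 0 ∧ y₁ e = y e * w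
  theta : (θ = 1 ∧ oe ≠ some s(r, t)) ∨ (-μ ≤ θ ∧ θ ≤ 0 ∧ oe = some s(r, t))

theorem step (P : Par x μ μ' ρ z zz g) {n m : ℕ} (hI : IH α x μ ρ n m) {E : Finset (Sym2 α)}
    {V : Finset α} (hn : V.card ≤ n) {r t v : α} {mk : Finset α} (hM : Marked E V v mk)
    {big : Prop} {τ : ℝ} (hτ : (big ∧ τ = ρ) ∨ (¬ big ∧ τ = μ)) (sel : α → α → Finset α → Prop)
    (hsel : ∀ c d A, Sep E V c d A → v ∈ A → sel c d A →
      r ∉ A ∧ t ∉ A ∧ (big → r ≠ c ∧ r ≠ d)) :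
    ∃ (V₁ : Finset α) (E₁ : Finset (Sym2 α)) (oe h : Option (Sym2 α)),
      ((oe = none ∧ V₁ = V ∧ E₁ = E ∧ h = none ∧ ∀ c d A, Sep E V c d A → v ∈ A → ¬ sel c d A) ∨
        ∃ c d A, Sep E V c d A ∧ v ∈ A ∧ sel c d A ∧ oe = some s(c, d) ∧ V₁ = V \ A ∧
          E₁ = insert s(c, d) E ∧
          ∀ c' d' X, Sep (insert s(c, d) E) (V \ A) c' d' X → c ∉ X → d ∉ X →
            Sep E V c' d' X ∧ v ∉ X ∧ ¬ sel c' d' (co V c' d' X)) ∧
      (∀ e ∈ h, e ∈ E ∧ (big → r ∉ e) ∧ ∃ p ∈ V, ∃ q ∈ V, p ≠ q ∧ p ∉ V₁ ∧ e = s(p, q)) ∧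
      ∀ y, Adm E V y r t τ μ (μ ^ 2) → (∀ e ∈ h, y e ≤ z) →
        ∃ y₁ κ θ, Red x τ μ V V₁ E₁ oe r t y y₁ κ θ := by
  have hμ := P.hμ
  have hμτ : μ ≤ τ := by rcases hτ with h | h <;> linarith [h.2, P.μρ]
  have hτ1 : τ ≤ 1 / 2 := by rcases hτ with h | h <;> linarith [h.2, P.μρ, P.ρ1]
  rcases exists_max_sep E V v sel with hno | ⟨c, d, A, h, hv, hs, hmax⟩
  · exact ⟨V, E, none, none, Or.inl ⟨rfl, rfl, rfl, rfl, hno⟩, by simp, fun y hA _ =>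
      ⟨y, 1, 1, one_pos, by ring, by ring, hA, fun _ _ => rfl, by simp, Or.inl ⟨rfl, by simp⟩⟩⟩
  · obtain ⟨hrA, htA, hbig⟩ := hsel c d A h hv hs
    have hcd := (hM c d A h).1
    obtain ⟨h₁, hh₁, hv₁⟩ := chain P hI v _ (insert s(c, d) E) _ c d rfl
      (h.card_inner_lt.trans_le hn) (h.card_inner_ge hcd) (mem_insert_self _ _)
      (mem_insert_of_mem (mem_insert_self _ _)) hcd (mem_insert_self _ _) (hM.inner h hv)
    have hrin : big → r ∉ insert c (insert d A) := fun hb => by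
      simp [(hbig hb).1, (hbig hb).2, hrA]
    refine ⟨V \ A, insert s(c, d) E, some s(c, d), h₁,
      Or.inr ⟨c, d, A, h, hv, hs, rfl, rfl, rfl, hmax⟩, fun e he => ?_, fun y hA hz => ?_⟩
    · obtain ⟨g1, p, hp, q, hq, g2, g3, g4, g5⟩ := hh₁ e he
      have hpA : p ∈ A := by simpa [g3, g4] using hp
      refine ⟨(mem_insert.1 g1).resolve_left (by rw [g5]; simp [g3, g4]), fun hb hr => ?_,
        p, h.sub hpA, q, h.inner_sub hq, g2, fun h1 => (mem_sdiff.1 h1).2 hpA, g5⟩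
      rw [g5] at hr
      rcases Sym2.mem_iff.1 hr with rfl | rfl
      · exact hrin hb hp
      · exact hrin hb hq
    · have hin : AdmU (insert s(c, d) E) (insert c (insert d A)) y s(c, d) μ := by
        refine ⟨fun p hp q hq h4 h5 => hA.non p (h.inner_sub hp) q (h.inner_sub hq) h4
          fun h6 => h5 (mem_insert_of_mem h6), fun p hp q hq h4 h5 h6 => ?_⟩
        have h7 := (mem_insert.1 h6).resolve_left h5
        rcases hτ with ⟨hb, -⟩ | ⟨-, hτ⟩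
        · exact hA.rest p (h.inner_sub hp) q (h.inner_sub hq) h4 (fun e => hrin hb (e ▸ hp))
            (fun e => hrin hb (e ▸ hq)) h7
        · rw [hτ] at hA
          refine hA.admU.rest p (h.inner_sub hp) q (h.inner_sub hq) h4 (fun e => ?_) h7
          have h8 : p ∉ A ∧ q ∉ A := by
            rcases Sym2.eq_iff.1 e with ⟨rfl, rfl⟩ | ⟨rfl, rfl⟩
            · exact ⟨hrA, htA⟩
            · exact ⟨htA, hrA⟩
          simp only [mem_insert, h8.1, h8.2, or_false] at hp hq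
          rcases hp with rfl | rfl <;> rcases hq with rfl | rfl
          · exact h4 rfl
          · exact h5 rfl
          · exact h5 Sym2.eq_swap
          · exact h4 rfl
      obtain ⟨κ, w, hκ, hw, hw', hred⟩ := reduce_val P.hx h.sub h.hc h.hd hcd h.hcA h.hdA
        (h.cross hA.non) ((hv₁ y hin).2 hz)
      have hadm : Adm (insert s(c, d) E) (V \ A) (Function.update y s(c, d) (y s(c, d) * w))
          r t τ μ (μ ^ 2) := by
        refine ⟨fun a ha b hb h1 h2 => ?_, fun b hb h1 h2 h4 => ?_,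
          fun a ha b hb h1 h2 h4 h5 => ?_⟩
        · rw [Function.update_of_ne fun e : s(a, b) = s(c, d) => h2 (e ▸ mem_insert_self _ _)]
          exact hA.non a (mem_sdiff.1 ha).1 b (mem_sdiff.1 hb).1 h1
            fun h4 => h2 (mem_insert_of_mem h4)
        · by_cases h5 : s(r, b) = s(c, d)
          · rw [h5, Function.update_self, sq]
            refine mul_range (by linarith) le_rfl hτ1 ?_ (by linarith) (by nlinarith)
            by_cases h6 : s(c, d) ∈ E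
            · rw [← h5] at h6 ⊢
              exact Or.inl (hA.root b (mem_sdiff.1 hb).1 h1 h2 h6)
            · exact Or.inr (hA.non c h.hc d h.hd hcd h6)
          · rw [Function.update_of_ne h5]
            exact hA.root b (mem_sdiff.1 hb).1 h1 h2 ((mem_insert.1 h4).resolve_left h5)
        · by_cases h6 : s(a, b) = s(c, d)
          · rw [h6, Function.update_self, sq]
            refine mul_range hμ.le le_rfl (by linarith) ?_ hw (by nlinarith)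
            by_cases h7 : s(c, d) ∈ E
            · rw [← h6] at h7 ⊢
              exact Or.inl (hA.rest a (mem_sdiff.1 ha).1 b (mem_sdiff.1 hb).1 h1 h2 h4 h7)
            · exact Or.inr (hA.non c h.hc d h.hd hcd h7)
          · rw [Function.update_of_ne h6]
            exact hA.rest a (mem_sdiff.1 ha).1 b (mem_sdiff.1 hb).1 h1 h2 h4
              ((mem_insert.1 h5).resolve_left h6)
      have hsame : ∀ e, some s(c, d) ≠ some e →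
          Function.update y s(c, d) (y s(c, d) * w) e = y e := fun e he =>
        Function.update_of_ne (fun h1 : e = s(c, d) => he (h1 ▸ rfl)) _ _
      have hmod : ∀ e, some s(c, d) = some e → ∃ w', -μ ≤ w' ∧ w' ≤ 0 ∧
          Function.update y s(c, d) (y s(c, d) * w) e = y e * w' := fun e he =>
        ⟨w, hw, hw', by rw [← Option.some.inj he, Function.update_self]⟩
      by_cases hrt : s(r, t) = s(c, d)
      · obtain ⟨e1, e2⟩ := (hred r t hrA htA).2 hrt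
        have hc : ∀ a ∈ V \ A, ∀ b ∈ V \ A, a ≠ b → s(a, b) ≠ s(r, t) →
            y s(a, b) = Function.update y s(c, d) (y s(c, d) * w) s(a, b) :=
          fun a _ b _ _ h1 => (Function.update_of_ne (hrt ▸ h1) _ _).symm
        rw [Dv_congr hc] at e1
        rw [Sv_congr hc] at e2
        exact ⟨_, κ, w, hκ, e1, e2, hadm, hsame, hmod, Or.inr ⟨hw, hw', by rw [hrt]⟩⟩
      · obtain ⟨e1, e2⟩ := (hred r t hrA htA).1 hrt
        exact ⟨_, κ, 1, hκ, e1, by rw [e2, mul_one], hadm, hsame, hmod,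
          Or.inl ⟨rfl, fun e => hrt (Option.some.inj e).symm⟩⟩

theorem FF_of_out {V V₂ : Finset α} {y y₂ : Sym2 α → ℝ} {e : Sym2 α} {τ σ κ θ hi : ℝ}
    (ho : Out x V₂ y₂ e (-σ) hi) (hκ : 0 < κ) (hD : Dv x V y e = κ * Dv x V₂ y₂ e)
    (hS : Sv x V y e = κ * θ * Sv x V₂ y₂ e) (_hτ : 0 ≤ τ) (h1 : θ * σ ≤ τ) (h2 : -θ * hi ≤ τ) :
    0 ≤ FF x τ V y e := by
  obtain ⟨a1, a2, a3⟩ := ho
  rw [FF, hD, hS]
  have : θ * (x * Sv x V₂ y₂ e) ≤ τ * Dv x V₂ y₂ e := by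
    rcases le_total 0 θ with h | h
    · nlinarith [mul_le_mul_of_nonneg_left a2 h, mul_le_mul_of_nonneg_right h1 a1.le]
    · nlinarith [mul_le_mul_of_nonneg_left a3 (neg_nonneg.2 h),
        mul_le_mul_of_nonneg_right h2 a1.le]
  nlinarith [mul_le_mul_of_nonneg_left this hκ.le]

omit [Fintype α] in
theorem pair_three {r t a c d : α} (hc : c ∈ ({r, t, a} : Finset α))
    (hd : d ∈ ({r, t, a} : Finset α)) (hcd : c ≠ d) :
    s(c, d) = s(r, t) ∨ s(c, d) = s(r, a) ∨ s(c, d) = s(t, a) := by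
  simp only [mem_insert, mem_singleton] at hc hd
  rcases hc with rfl | rfl | rfl <;> rcases hd with rfl | rfl | rfl <;> simp_all

/-- An edge that may serve as a handle. -/
def Hd (E : Finset (Sym2 α)) (V : Finset α) (r t : α) (big : Prop) (e : Sym2 α) : Prop :=
  e ∈ E ∧ e ≠ s(r, t) ∧ (big → r ∉ e) ∧ ∃ p ∈ V, ∃ q ∈ V, p ≠ q ∧ e = s(p, q)

theorem del (P : Par x μ μ' ρ z zz g) {n m : ℕ} (hI : IH α x μ ρ n m) {E : Finset (Sym2 α)}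
    {V : Finset α} (hn : V.card = n) (hm : E.card < m) (h4 : 4 ≤ V.card) {r t u v : α}
    (hr : r ∈ V) (ht : t ∈ V) (hrt : r ≠ t) (hE : s(r, t) ∈ E) (hMu : Marked E V u {v})
    (hMv : Marked E V v {u}) {big : Prop} {τ : ℝ} (hτ : (big ∧ τ = ρ) ∨ (¬ big ∧ τ = μ)) :
    ∃ (h₁ h₂ : Option (Sym2 α)) (o : Option α),
      (∀ e ∈ h₁, Hd E V r t big e) ∧ (∀ e ∈ h₂, Hd E V r t big e) ∧
      (∀ e ∈ h₁, ∀ e' ∈ h₂, e ≠ e') ∧
      (∀ a ∈ o, ¬ big ∧ a ∈ V ∧ r ≠ a ∧ t ≠ a ∧ s(r, a) ∈ E ∧ s(t, a) ∈ E ∧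
        (∀ e ∈ h₁, e ≠ s(r, a)) ∧ ∀ e ∈ h₂, e ≠ s(r, a)) ∧
      ∀ y, Adm E V y r t τ μ (μ ^ 2) → (∀ e ∈ h₁, y e ≤ z) → (∀ e ∈ h₂, y e ≤ z) →
        (∀ a ∈ o, -zz ≤ y s(r, a)) → 0 ≤ FF x τ V y s(r, t) := by
  have hμ := P.hμ
  have hμτ : μ ≤ τ := by rcases hτ with h | h <;> linarith [h.2, P.μρ]
  have hτ1 : τ ≤ 1 / 2 := by rcases hτ with h | h <;> linarith [h.2, P.μρ, P.ρ1]
  obtain ⟨V₁, E₁, oe₁, h₁, hs₁, hh₁, hv₁⟩ := step P hI hn.le hMu hτ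
    (fun c d A => r ∉ A ∧ t ∉ A ∧ (big → r ≠ c ∧ r ≠ d)) fun _ _ _ _ _ h => h
  -- structure after the first step
  obtain ⟨mk, hM₁, hQ, hsub₁, hr₁, ht₁, h3₁, hE₁, hE₁', hsz₁, hnone₁, hoe₁⟩ : ∃ mk : Finset α,
      Marked E₁ V₁ v mk ∧
      (∀ c d X, Sep E₁ V₁ c d X → v ∈ X → (big → r ≠ c ∧ r ≠ d) →
        r ∈ co V₁ c d X ∨ t ∈ co V₁ c d X) ∧ V₁ ⊆ V ∧ r ∈ V₁ ∧ t ∈ V₁ ∧ 3 ≤ V₁.card ∧ E ⊆ E₁ ∧
      (∀ e ∈ E₁, e ∈ E ∨ oe₁ = some e) ∧ (V₁.card < n ∨ (V₁ = V ∧ E₁ = E)) ∧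
      (oe₁ = none → h₁ = none) ∧
      ∀ e, oe₁ = some e → ∃ c ∈ V₁, ∃ d ∈ V₁, c ≠ d ∧ e = s(c, d) ∧ mk = {c, d} := by
    rcases hs₁ with ⟨a1, rfl, rfl, a4, a5⟩ | ⟨c, d, A, h, hu, hs, a1, rfl, rfl, hmax⟩
    · refine ⟨{u}, hMv, fun c d X h hv hok => ?_, Subset.rfl, hr, ht, by omega, Subset.rfl,
        fun e he => Or.inl he, Or.inr ⟨rfl, rfl⟩, fun _ => a4, by simp [a1]⟩
      obtain ⟨w, hw, hw'⟩ := ((hMv c d X h).2.2 hv).1
      rw [mem_singleton.1 hw] at hw'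
      by_contra hno
      push Not at hno
      exact a5 c d _ h.compl hw' ⟨hno.1, hno.2, hok⟩
    · have hcd := (hMu c d A h).1
      have key : ∀ c' d' X, Sep (insert s(c, d) E) (V \ A) c' d' X → c ∉ X → d ∉ X →
          c' ≠ d' ∧ v ∈ X := by
        intro c' d' X h' g1 g2
        obtain ⟨g3, g4, -⟩ := hmax c' d' X h' g1 g2
        refine ⟨(hMu _ _ _ g3).1, ?_⟩
        obtain ⟨w, hw, hw'⟩ := ((hMu _ _ _ g3.compl).2.2
          ((hMu _ _ _ g3).2.1.resolve_left g4)).1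
        rw [mem_singleton.1 hw] at hw'
        exact g3.mem_co_co.1 hw'
      have hM := marked_of_sides key
      refine ⟨{c, d}, hM, fun c' d' X h' hv hok => ?_, sdiff_subset, mem_sdiff.2 ⟨hr, hs.1⟩,
        mem_sdiff.2 ⟨ht, hs.2.1⟩, h.card_outer_ge hcd, subset_insert _ _, fun e he => ?_,
        Or.inl (hn ▸ h.card_outer_lt), by simp [a1], fun e he => ?_⟩
      · have g1 := ((hM _ _ _ h').2.2 hv).2
        obtain ⟨-, -, g2⟩ := hmax c' d' X h' (g1 c (by simp)) (g1 d (by simp))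
        by_contra hno
        push Not at hno
        refine g2 ⟨fun g3 => hno.1 ?_, fun g3 => hno.2 ?_, hok⟩
        · exact mem_co.2 ⟨mem_sdiff.2 ⟨hr, hs.1⟩, (mem_co.1 g3).2⟩
        · exact mem_co.2 ⟨mem_sdiff.2 ⟨ht, hs.2.1⟩, (mem_co.1 g3).2⟩
      · rcases mem_insert.1 he with rfl | he
        · exact Or.inr a1
        · exact Or.inl he
      · rw [a1] at he
        exact ⟨c, mem_sdiff.2 ⟨h.hc, h.hcA⟩, d, mem_sdiff.2 ⟨h.hd, h.hdA⟩, hcd,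
          (Option.some.inj he).symm, rfl⟩
  have hout : ∀ c d A, Sep E₁ V₁ c d A → v ∈ A → (big → r ≠ c ∧ r ≠ d) → r ∉ A ∧ t ∉ A := by
    intro c d A h hv hok
    rcases hQ c d A h hv hok with g1 | g1
    · obtain ⟨g2, g3, g4, g5⟩ := mem_co.1 g1
      exact ⟨g3, fun g6 => h.no t g6 r g2 g3 g4 g5 (Sym2.eq_swap ▸ hE₁ hE)⟩
    · obtain ⟨g2, g3, g4, g5⟩ := mem_co.1 g1
      exact ⟨fun g6 => h.no r g6 t g2 g3 g4 g5 (hE₁ hE), g3⟩
  obtain ⟨V₂, E₂, oe₂, h₂, hs₂, hh₂, hv₂⟩ := step P hI ((card_le_card hsub₁).trans hn.le) hM₁ hτ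
    (r := r) (t := t) (fun c d _ => big → r ≠ c ∧ r ≠ d)
    fun c d A h hv hok => ⟨(hout c d A h hv hok).1, (hout c d A h hv hok).2, hok⟩
  -- structure after the second step
  obtain ⟨hS₂, hsub₂, hr₂, ht₂, h3₂, hE₂, hE₂', hsz₂, hnone₂, hoe₂, hoe₁₂, hmk⟩ :
      (∀ c d X, Sep E₂ V₂ c d X → c ≠ d ∧ ¬ (big → r ≠ c ∧ r ≠ d)) ∧ V₂ ⊆ V₁ ∧ r ∈ V₂ ∧ t ∈ V₂ ∧
      3 ≤ V₂.card ∧ E₁ ⊆ E₂ ∧ (∀ e ∈ E₂, e ∈ E₁ ∨ oe₂ = some e) ∧
      (V₂.card < n ∨ (V₂ = V₁ ∧ E₂ = E₁)) ∧ (oe₂ = none → h₂ = none) ∧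
      (∀ e, oe₂ = some e → ∃ c ∈ V₂, ∃ d ∈ V₂, c ≠ d ∧ e = s(c, d)) ∧
      (∀ e, oe₁ = some e → oe₂ ≠ some e) ∧ ∀ w ∈ mk, w ∈ V₁ → w ∈ V₂ := by
    rcases hs₂ with ⟨a1, rfl, rfl, a4, a5⟩ | ⟨c, d, A, h, hv, hs, a1, rfl, rfl, hmax⟩
    · refine ⟨fun c d X h => ⟨(hM₁ c d X h).1, ?_⟩, Subset.rfl, hr₁, ht₁, h3₁, Subset.rfl,
        fun e he => Or.inl he, Or.inr ⟨rfl, rfl⟩, fun _ => a4, by simp [a1], by simp [a1],
        fun _ _ h => h⟩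
      rcases (hM₁ c d X h).2.1 with g1 | g1
      · exact a5 c d X h g1
      · exact a5 c d _ h.compl g1
    · obtain ⟨hcd, -, g0⟩ := hM₁ c d A h
      refine ⟨fun c' d' X h' => ?_, sdiff_subset, mem_sdiff.2 ⟨hr₁, (hout c d A h hv hs).1⟩,
        mem_sdiff.2 ⟨ht₁, (hout c d A h hv hs).2⟩, h.card_outer_ge hcd, subset_insert _ _,
        fun e he => ?_, Or.inl (h.card_outer_lt.trans_le ((card_le_card hsub₁).trans hn.le)),
        by simp [a1], fun e he => ?_, fun e he he' => ?_,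
        fun w hw hw' => mem_sdiff.2 ⟨hw', (g0 hv).2 w hw⟩⟩
      · rcases h'.side (mem_insert_self s(c, d) E₁) with g1 | g1
        · obtain ⟨g2, -, g3⟩ := hmax _ _ _ h' g1.1 g1.2
          exact ⟨(hM₁ _ _ _ g2).1, g3⟩
        · obtain ⟨g2, -, g3⟩ := hmax _ _ _ h'.compl g1.1 g1.2
          exact ⟨(hM₁ _ _ _ g2).1, g3⟩
      · rcases mem_insert.1 he with rfl | he
        · exact Or.inr a1
        · exact Or.inl he
      · rw [a1] at he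
        exact ⟨c, mem_sdiff.2 ⟨h.hc, h.hcA⟩, d, mem_sdiff.2 ⟨h.hd, h.hdA⟩, hcd,
          (Option.some.inj he).symm⟩
      · obtain ⟨c₁, -, d₁, -, -, g1, g2⟩ := hoe₁ e he
        obtain ⟨w, hw, hw'⟩ := (g0 hv).1
        rw [a1] at he'
        have g3 : w ∈ s(c, d) := by
          rw [Option.some.inj he', g1]
          rw [g2] at hw
          simpa using hw
        rcases Sym2.mem_iff.1 g3 with g4 | g4
        · exact (mem_co.1 hw').2.2.1 g4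
        · exact (mem_co.1 hw').2.2.2 g4
  have hoe₁' : ∀ e, oe₁ = some e → ∃ c ∈ V₂, ∃ d ∈ V₂, c ≠ d ∧ e = s(c, d) := by
    intro e he
    obtain ⟨c, hc, d, hd, g1, g2, g3⟩ := hoe₁ e he
    exact ⟨c, hmk c (by simp [g3]) hc, d, hmk d (by simp [g3]) hd, g1, g2⟩
  have hne₁ : ∀ e ∈ h₁, ∀ p ∈ V₁, ∀ q ∈ V₁, e ≠ s(p, q) := by
    intro e he p hp q hq e'
    obtain ⟨-, -, p', -, q', -, -, g1, g2⟩ := hh₁ e he
    rcases Sym2.eq_iff.1 (g2.symm.trans e') with g3 | g3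
    · exact g1 (g3.1 ▸ hp)
    · exact g1 (g3.1 ▸ hq)
  have hne₂ : ∀ e ∈ h₂, ∀ p ∈ V₂, ∀ q ∈ V₂, e ≠ s(p, q) := by
    intro e he p hp q hq e'
    obtain ⟨-, -, p', -, q', -, -, g1, g2⟩ := hh₂ e he
    rcases Sym2.eq_iff.1 (g2.symm.trans e') with g3 | g3
    · exact g1 (g3.1 ▸ hp)
    · exact g1 (g3.1 ▸ hq)
  have hoe₁h : ∀ e ∈ h₂, oe₁ ≠ some e := by
    intro e he he'
    obtain ⟨c, hc, d, hd, -, g2⟩ := hoe₁' e he'
    exact hne₂ e he c hc d hd g2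
  have hH₁ : ∀ e ∈ h₁, Hd E V r t big e := by
    intro e he
    obtain ⟨g1, g2, p, hp, q, hq, g3, -, g4⟩ := hh₁ e he
    exact ⟨g1, hne₁ e he r hr₁ t ht₁, g2, p, hp, q, hq, g3, g4⟩
  have hH₂ : ∀ e ∈ h₂, Hd E V r t big e := by
    intro e he
    obtain ⟨g1, g2, p, hp, q, hq, g3, -, g4⟩ := hh₂ e he
    exact ⟨(hE₁' e g1).resolve_right (hoe₁h e he), hne₂ e he r hr₂ t ht₂, g2, p, hsub₁ hp, q,
      hsub₁ hq, g3, g4⟩
  have hH₁₂ : ∀ e ∈ h₁, ∀ e' ∈ h₂, e ≠ e' := by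
    intro e he e' he'
    obtain ⟨-, -, p, hp, q, hq, -, -, g4⟩ := hh₂ e' he'
    rw [g4]
    exact hne₁ e he p hp q hq
  have hsz : V₂.card < n ∨ (V₂.card = n ∧ E₂.card < m) := by
    rcases hsz₂ with g1 | ⟨g1, g2⟩
    · exact Or.inl g1
    · rcases hsz₁ with g3 | ⟨g3, g4⟩
      · exact Or.inl (g1 ▸ g3)
      · exact Or.inr ⟨by rw [g1, g3, hn], by rw [g2, g4]; exact hm⟩
  -- values
  have hval : ∀ y, Adm E V y r t τ μ (μ ^ 2) → (∀ e ∈ h₁, y e ≤ z) → (∀ e ∈ h₂, y e ≤ z) →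
      ∃ (y₂ : Sym2 α → ℝ) (κ θ : ℝ), 0 < κ ∧ Dv x V y s(r, t) = κ * Dv x V₂ y₂ s(r, t) ∧
        Sv x V y s(r, t) = κ * θ * Sv x V₂ y₂ s(r, t) ∧ Adm E₂ V₂ y₂ r t τ μ (μ ^ 2) ∧
        -μ ≤ θ ∧ θ ≤ 1 ∧ ((oe₁ = some s(r, t) ∨ oe₂ = some s(r, t)) → θ ≤ 0) ∧
        (∀ e, oe₁ ≠ some e → oe₂ ≠ some e → y₂ e = y e) ∧
        ∀ e, (oe₁ = some e ∨ oe₂ = some e) → ∃ w, -μ ≤ w ∧ w ≤ 0 ∧ y₂ e = y e * w := by
    intro y hA g1 g2
    obtain ⟨y₁, κ₁, θ₁, R₁⟩ := hv₁ y hA g1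
    obtain ⟨y₂, κ₂, θ₂, R₂⟩ := hv₂ y₁ R₁.adm fun e he => by
      rw [R₁.same e (hoe₁h e he)]; exact g2 e he
    have g3 : (-μ ≤ θ₁ * θ₂ ∧ θ₁ * θ₂ ≤ 1) ∧
        ((oe₁ = some s(r, t) ∨ oe₂ = some s(r, t)) → θ₁ * θ₂ ≤ 0) := by
      rcases R₁.theta with ⟨a1, a2⟩ | ⟨a1, a2, a3⟩ <;>
        rcases R₂.theta with ⟨b1, b2⟩ | ⟨b1, b2, b3⟩
      · rw [a1, b1]
        exact ⟨⟨by linarith, by linarith⟩, fun h => (h.elim a2 b2).elim⟩
      · rw [a1, one_mul]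
        exact ⟨⟨b1, by linarith⟩, fun _ => b2⟩
      · rw [b1, mul_one]
        exact ⟨⟨a1, by linarith⟩, fun _ => a2⟩
      · exact absurd b3 (hoe₁₂ _ a3)
    refine ⟨y₂, κ₁ * κ₂, θ₁ * θ₂, mul_pos R₁.pos R₂.pos, by rw [R₁.hD, R₂.hD]; ring,
      by rw [R₁.hS, R₂.hS]; ring, R₂.adm, g3.1.1, g3.1.2, g3.2,
      fun e a1 a2 => by rw [R₂.same e a2, R₁.same e a1], fun e he => ?_⟩
    by_cases a1 : oe₁ = some e
    · rw [R₂.same e (hoe₁₂ e a1)]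
      exact R₁.modif e a1
    · rw [← R₁.same e a1]
      exact R₂.modif e (he.resolve_left a1)
  rcases hτ with ⟨hb, rfl⟩ | ⟨hb, rfl⟩
  · refine ⟨h₁, h₂, none, hH₁, hH₂, hH₁₂, by simp, fun y hA g1 g2 _ => ?_⟩
    obtain ⟨y₂, κ, θ, a1, a2, a3, a4, a5, a6, -⟩ := hval y hA g1 g2
    refine FF_of_out (star P hI (Or.inr rfl) le_rfl P.tri3 r _ E₂ V₂ t y₂ rfl hsz h3₂
      (fun c d X h => ⟨(hS₂ c d X h).1, ?_⟩) hr₂ ht₂ hrt (hE₂ (hE₁ hE)) a4) a1 a2 a3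
      (by linarith) (by nlinarith) (by nlinarith)
    by_contra hno
    push Not at hno
    exact (hS₂ c d X h).2 fun _ => ⟨hno.1.symm, hno.2.symm⟩
  have hN : NoSep E₂ V₂ := fun c d X h => (hS₂ c d X h).2 fun h => absurd h hb
  rcases h3₂.eq_or_lt with g3 | g3
  swap
  · refine ⟨h₁, h₂, none, hH₁, hH₂, hH₁₂, by simp, fun y hA g1 g2 _ => ?_⟩
    obtain ⟨y₂, κ, θ, a1, a2, a3, a4, a5, a6, -⟩ := hval y hA g1 g2
    exact FF_of_out (hI E₂ V₂ hsz hN g3 r t y₂ τ (Or.inl rfl) hr₂ ht₂ hrt (hE₂ (hE₁ hE)) a4)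
      a1 a2 a3 hμ.le (by nlinarith) (by nlinarith)
  obtain ⟨a, hV, n1, n2, n3, n4⟩ := hN.triangle g3.symm hr₂ ht₂ hrt
  have ha₂ : a ∈ V₂ := by rw [hV]; simp
  have ha : a ∈ V := hsub₁ (hsub₂ ha₂)
  have hM : τ ^ 2 ≤ τ * μ' := by nlinarith [P.μμ']
  have hμ' := P.μμ'
  have fin : ∀ y, Adm E V y r t τ τ (τ ^ 2) → (∀ e ∈ h₁, y e ≤ z) → (∀ e ∈ h₂, y e ≤ z) →
      ((oe₁ = some s(r, t) ∨ oe₂ = some s(r, t)) ∨ ∃ e, (e = s(r, a) ∨ e = s(t, a)) ∧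
        ((oe₁ ≠ some e ∧ oe₂ ≠ some e ∧ y e ≤ z) ∨
          ((oe₁ = some e ∨ oe₂ = some e) ∧ -zz ≤ y e))) → 0 ≤ FF x τ V y s(r, t) := by
    intro y hA g1 g2 hc
    obtain ⟨y₂, κ, θ, a1, a2, a3, a4, a5, a6, a7, a8, a9⟩ := hval y hA g1 g2
    have b1 := a4.root a ha₂ n1.symm n2.symm n3
    have b2 := a4.rest t ht₂ a ha₂ n2 hrt.symm n1.symm n4
    rw [hV] at a2 a3
    rcases hc with hc | ⟨e, he, hc⟩
    · exact FF_of_out (out_three P.hx hrt n1 n2 (P.tri1 _ _ (by linarith) (by linarith) b2.1 b2.2))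
        a1 a2 a3 hμ.le (by nlinarith [a7 hc]) (by linarith)
    · have b3 : y₂ e ≤ z := by
        rcases hc with ⟨c1, c2, c3⟩ | ⟨c1, c2⟩
        · rw [a8 e c1 c2]; exact c3
        · obtain ⟨w, w1, w2, w3⟩ := a9 e c1
          rw [w3]
          rcases le_total 0 (y e) with c3 | c3
          · nlinarith [P.z0]
          · nlinarith [P.μzz, P.zz0]
      refine FF_of_out (σ := τ) (out_three P.hx hrt n1 n2 ?_) a1 a2 a3 hμ.le (by nlinarith)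
        (by linarith)
      rcases he with rfl | rfl
      · exact (P.tri2 _ _ (by linarith) (by linarith) b1.1 b3).symm
      · exact P.tri2 _ _ (by linarith) (by linarith) b2.1 b3
  by_cases c0 : oe₁ = some s(r, t) ∨ oe₂ = some s(r, t)
  · exact ⟨h₁, h₂, none, hH₁, hH₂, hH₁₂, by simp, fun y hA g1 g2 _ => fin y hA g1 g2 (Or.inl c0)⟩
  have m1 : s(r, a) ≠ s(r, t) := by simp [n2.symm, hrt]
  have m2 : s(t, a) ≠ s(r, t) := by simp [n1.symm, hrt.symm]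
  have hpair : ∀ c ∈ V₂, ∀ d ∈ V₂, c ≠ d →
      s(c, d) = s(r, t) ∨ s(c, d) = s(r, a) ∨ s(c, d) = s(t, a) := by
    intro c hc d hd hcd
    rw [hV] at hc hd
    exact pair_three hc hd hcd
  by_cases c1 : ∃ e, (e = s(r, a) ∨ e = s(t, a)) ∧ oe₁ ≠ some e ∧ oe₂ ≠ some e
  · obtain ⟨e, he, c2, c3⟩ := c1
    have hE₀ : e ∈ E₂ := by rcases he with rfl | rfl <;> assumption
    have hHe : Hd E V r t big e := by
      refine ⟨(hE₁' e ((hE₂' e hE₀).resolve_right c3)).resolve_right c2, ?_, fun h => absurd h hb,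
        ?_⟩
      · rcases he with rfl | rfl <;> assumption
      · rcases he with rfl | rfl
        · exact ⟨r, hr, a, ha, n1, rfl⟩
        · exact ⟨t, ht, a, ha, n2, rfl⟩
    have hin : ∃ p ∈ V₂, ∃ q ∈ V₂, e = s(p, q) := by
      rcases he with rfl | rfl
      · exact ⟨r, hr₂, a, ha₂, rfl⟩
      · exact ⟨t, ht₂, a, ha₂, rfl⟩
    obtain ⟨p, hp, q, hq, hpq⟩ := hin
    have c4 : oe₁ = none ∨ oe₂ = none := by
      by_contra c4
      push Not at c4 c0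
      obtain ⟨e₁, k1⟩ := Option.ne_none_iff_exists'.1 c4.1
      obtain ⟨e₂, k2⟩ := Option.ne_none_iff_exists'.1 c4.2
      obtain ⟨c, hc, d, hd, k3, rfl⟩ := hoe₁' e₁ k1
      obtain ⟨c', hc', d', hd', k4, rfl⟩ := hoe₂ e₂ k2
      have k5 := hoe₁₂ _ k1
      rw [k1] at c0 c2
      rw [k2] at c0 c3 k5
      rcases hpair c hc d hd k3 with k6 | k6 | k6 <;>
        rcases hpair c' hc' d' hd' k4 with k7 | k7 | k7 <;> rw [k6] at c0 c2 k5 <;>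
        rw [k7] at c0 c3 k5 <;> rcases he with rfl | rfl <;> simp at c0 c2 c3 k5
    rcases c4 with c4 | c4
    · refine ⟨some e, h₂, none, fun e' he' => Option.some.inj he' ▸ hHe, hH₂,
        fun e₁ k1 e₂ k2 => ?_, by simp, fun y hA g1 g2 _ => fin y hA (by simp [hnone₁ c4]) g2
          (Or.inr ⟨e, he, Or.inl ⟨c2, c3, g1 e rfl⟩⟩)⟩
      rw [← Option.some.inj k1, hpq]
      exact (hne₂ e₂ k2 p hp q hq).symm
    · refine ⟨h₁, some e, none, hH₁, fun e' he' => Option.some.inj he' ▸ hHe,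
        fun e₁ k1 e₂ k2 => ?_, by simp, fun y hA g1 g2 _ => fin y hA g1 (by simp [hnone₂ c4])
          (Or.inr ⟨e, he, Or.inl ⟨c2, c3, g2 e rfl⟩⟩)⟩
      rw [← Option.some.inj k2, hpq]
      exact hne₁ e₁ k1 p (hsub₂ hp) q (hsub₂ hq)
  have c2 : ∀ e, (e = s(r, a) ∨ e = s(t, a)) → oe₁ = some e ∨ oe₂ = some e := by
    intro e he
    by_contra c2
    push Not at c2
    exact c1 ⟨e, he, c2⟩
  by_cases c3 : s(r, a) ∈ E ∧ s(t, a) ∈ E
  · refine ⟨h₁, h₂, some a, hH₁, hH₂, hH₁₂, fun a' ha' => ?_, fun y hA g1 g2 g4 =>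
      fin y hA g1 g2 (Or.inr ⟨_, Or.inl rfl, Or.inr ⟨c2 _ (Or.inl rfl), g4 a rfl⟩⟩)⟩
    rw [← Option.some.inj ha']
    exact ⟨hb, ha, n1, n2, c3.1, c3.2, fun e he => hne₁ e he r hr₁ a (hsub₂ ha₂),
      fun e he => hne₂ e he r hr₂ a ha₂⟩
  · refine ⟨h₁, h₂, none, hH₁, hH₂, hH₁₂, by simp, fun y hA g1 g2 _ => fin y hA g1 g2 (Or.inr ?_)⟩
    rcases not_and_or.1 c3 with c4 | c4
    · exact ⟨_, Or.inl rfl, Or.inr ⟨c2 _ (Or.inl rfl), by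
        rw [hA.non r hr a ha n1 c4]; linarith [P.zz0]⟩⟩
    · exact ⟨_, Or.inr rfl, Or.inr ⟨c2 _ (Or.inr rfl), by
        rw [hA.non t ht a ha n2 c4]; linarith [P.zz0]⟩⟩

end Pool.Agent.Lib.MP_efe3d7_co
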