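import Pool.Agent.Lib.MP_efe3d7_co.Z

/-! The signed and normalised partition function at `q = 1 + x`. -/

set_option autoImplicit false

open Finset Polynomial

namespace Pool.Agent.Lib.MP_efe3d7_co

variable {α : Type} [Fintype α] [DecidableEq α]

/-- `(-1)^|V|` times the partition function of the weighted graph on `V` at `q = 1 + x`. -/
noncomputable def ff (x : ℝ) (V : Finset α) (y : Sym2 α → ℝ) : ℝ :=
  (-1) ^ V.card * (Zp V y).eval (1 + x) * (1 + x) ^ V.card / (1 + x) ^ Fintype.card α

/-- Value with weight zero on `e`. -/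
noncomputable def Dv (x : ℝ) (V : Finset α) (y : Sym2 α → ℝ) (e : Sym2 α) : ℝ :=
  ff x V (Function.update y e 0)

/-- Minus the slope in the weight of `e`. -/
noncomputable def Sv (x : ℝ) (V : Finset α) (y : Sym2 α → ℝ) (e : Sym2 α) : ℝ :=
  ff x V (Function.update y e 0) - ff x V (Function.update y e 1)

variable {x : ℝ}

theorem ff_congr {V : Finset α} {y y' : Sym2 α → ℝ}
    (hy : ∀ a ∈ V, ∀ b ∈ V, a ≠ b → y s(a, b) = y' s(a, b)) : ff x V y = ff x V y' := by
  rw [ff, ff, Zp_congr hy]

theorem ff_aff (V : Finset α) (y : Sym2 α → ℝ) (e : Sym2 α) (t : ℝ) :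
    ff x V (Function.update y e t) = Dv x V y e - t * Sv x V y e := by
  rw [Dv, Sv, ff, ff, ff, Zp_aff V y e t]
  simp only [eval_add, eval_mul, eval_C, eval_sub]
  ring

theorem ff_self (V : Finset α) (y : Sym2 α → ℝ) (e : Sym2 α) :
    ff x V y = Dv x V y e - y e * Sv x V y e := by
  rw [← ff_aff, Function.update_eq_self]

theorem Dv_congr {V : Finset α} {y y' : Sym2 α → ℝ} {e : Sym2 α}
    (hy : ∀ a ∈ V, ∀ b ∈ V, a ≠ b → s(a, b) ≠ e → y s(a, b) = y' s(a, b)) :
    Dv x V y e = Dv x V y' e := by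
  refine ff_congr fun a ha b hb hab => ?_
  by_cases h : s(a, b) = e
  · rw [h, Function.update_self, Function.update_self]
  · rw [Function.update_of_ne h, Function.update_of_ne h, hy a ha b hb hab h]

theorem Sv_congr {V : Finset α} {y y' : Sym2 α → ℝ} {e : Sym2 α}
    (hy : ∀ a ∈ V, ∀ b ∈ V, a ≠ b → s(a, b) ≠ e → y s(a, b) = y' s(a, b)) :
    Sv x V y e = Sv x V y' e := by
  have key : ∀ t, ff x V (Function.update y e t) = ff x V (Function.update y' e t) := by
    intro t
    refine ff_congr fun a ha b hb hab => ?_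
    by_cases h : s(a, b) = e
    · rw [h, Function.update_self, Function.update_self]
    · rw [Function.update_of_ne h, Function.update_of_ne h, hy a ha b hb hab h]
  rw [Sv, Sv, key, key]

theorem Sv_merge (hx : 0 < x) {V : Finset α} {u v : α} (hu : u ∈ V) (hv : v ∈ V) (huv : u ≠ v)
    (y : Sym2 α → ℝ) : Sv x V y s(u, v) = ff x (V.erase v) (mergeW y u v) := by
  have h := congrArg (eval (1 + x)) (Zp_merge hu hv huv y)
  simp only [eval_mul, eval_X, eval_sub] at h
  have hc : V.card = (V.erase v).card + 1 := (card_erase_add_one hv).symm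
  rw [Sv, ff, ff, ff, ← h, hc]
  have : (1 + x) ≠ 0 := by linarith
  field_simp
  ring

theorem ff_ones (hx : 0 < x) {V : Finset α} {y : Sym2 α → ℝ}
    (hy : ∀ a ∈ V, ∀ b ∈ V, a ≠ b → y s(a, b) = 1) :
    ff x V y = (-1) ^ V.card * (1 + x) ^ V.card := by
  rw [ff, Zp_ones hy, eval_pow, eval_X]
  have : (1 + x) ≠ 0 := by linarith
  field_simp

theorem ff_cut (hx : 0 < x) {V A : Finset α} {a b : α} (hA : A ⊆ V) (ha : a ∈ V) (hb : b ∈ V)
    (hab : a ≠ b) (haA : a ∉ A) (hbA : b ∉ A) {y : Sym2 α → ℝ}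
    (hy : ∀ u ∈ A, ∀ v ∈ V, v ∉ A → v ≠ a → v ≠ b → y s(u, v) = 1) :
    (1 + x) * x * ff x V y =
      Dv x (insert a (insert b A)) y s(a, b) * Dv x (V \ A) y s(a, b) + x * y s(a, b) *
        (Sv x (insert a (insert b A)) y s(a, b) * Sv x (V \ A) y s(a, b)) := by
  have h := congrArg (eval (1 + x)) (Zp_cut hA ha hb hab haA hbA hy)
  simp only [eval_mul, eval_add, eval_sub, eval_pow, eval_X, eval_one, eval_C] at h
  have hc1 : (insert a (insert b A)).card = A.card + 2 := by
    rw [card_insert_of_notMem (by simp [hab, haA]), card_insert_of_notMem hbA]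
  have hc2 : V.card = (V \ A).card + A.card := (card_sdiff_add_card_eq_card hA).symm
  have hq : (1 + x) ≠ 0 := by linarith
  simp only [Dv, Sv, ff, hc1, hc2]
  have hN : (1 + x) ^ Fintype.card α ≠ 0 := pow_ne_zero _ hq
  field_simp
  rw [pow_add, pow_add, pow_add, pow_add]
  linear_combination ((-1) ^ (V \ A).card * (-1) ^ A.card * (1 + x) ^ (V \ A).card *
    (1 + x) ^ A.card) * h

theorem ff_two (hx : 0 < x) {a b : α} (hab : a ≠ b) (y : Sym2 α → ℝ) :
    ff x {a, b} y = (1 + x) * (x + y s(a, b)) := by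
  have h1 : ff x {a, b} (Function.update y s(a, b) 1) = (1 + x) ^ 2 := by
    rw [ff_ones hx, card_pair hab]
    · ring
    · intro u hu v hv huv
      have : s(u, v) = s(a, b) := by
        simp only [mem_insert, mem_singleton] at hu hv
        rcases hu with rfl | rfl <;> rcases hv with rfl | rfl <;> simp_all
      rw [this, Function.update_self]
  have h2 : Sv x {a, b} y s(a, b) = -(1 + x) := by
    rw [Sv_merge hx (by simp) (by simp) hab, ff_ones hx]
    · rw [card_erase_of_mem (by simp), card_pair hab]; ring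
    · intro u hu v hv huv
      simp only [mem_erase, mem_insert, mem_singleton] at hu hv
      exact absurd ((hu.2.resolve_right hu.1).trans (hv.2.resolve_right hv.1).symm) huv
  rw [ff_aff, h2] at h1
  rw [ff_self _ _ s(a, b), h2]
  linear_combination h1

theorem ff_three (hx : 0 < x) {a b p : α} (hab : a ≠ b) (hap : a ≠ p) (hbp : b ≠ p)
    (y : Sym2 α → ℝ) :
    ff x {a, b, p} y = (1 + x) * (x * (1 - x - y s(a, b) - y s(a, p) - y s(b, p)) -
      y s(a, b) * y s(a, p) * y s(b, p)) := by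
  have n1 : s(a, b) ≠ s(a, p) := by simp [hbp, hap, hab.symm]
  have n2 : s(a, b) ≠ s(b, p) := by simp [hab, hap]
  have n3 : s(a, p) ≠ s(b, p) := by simp [hab, hap]
  have hea : ({a, b, p} : Finset α).erase p = {a, b} := by
    ext z
    simp only [mem_erase, mem_insert, mem_singleton]
    constructor
    · rintro ⟨h1, h2 | h2 | h2⟩
      · exact Or.inl h2
      · exact Or.inr h2
      · exact absurd h2 h1
    · rintro (rfl | rfl)
      · exact ⟨hap, Or.inl rfl⟩
      · exact ⟨hbp, Or.inr (Or.inl rfl)⟩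
  have heb : ({a, b, p} : Finset α).erase b = {a, p} := by
    ext z
    simp only [mem_erase, mem_insert, mem_singleton]
    constructor
    · rintro ⟨h1, h2 | h2 | h2⟩
      · exact Or.inl h2
      · exact absurd h2 h1
      · exact Or.inr h2
    · rintro (rfl | rfl)
      · exact ⟨hab, Or.inl rfl⟩
      · exact ⟨hbp.symm, Or.inr (Or.inr rfl)⟩
  have s1 : ∀ y : Sym2 α → ℝ, Sv x {a, b, p} y s(a, b) = (1 + x) * (x + y s(a, p) * y s(b, p)) := by
    intro y
    rw [Sv_merge hx (by simp) (by simp) hab, heb, ff_two hx hap, mergeW_self]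
  have s2 : ∀ y : Sym2 α → ℝ, Sv x {a, b, p} y s(a, p) = (1 + x) * (x + y s(a, b) * y s(b, p)) := by
    intro y
    rw [Sv_merge hx (by simp) (by simp) hap, hea, ff_two hx hab, mergeW_self,
      Sym2.eq_swap (a := p)]
  have s3 : ∀ y : Sym2 α → ℝ, Sv x {a, b, p} y s(b, p) = (1 + x) * (x + y s(a, b) * y s(a, p)) := by
    intro y
    rw [Sv_merge hx (by simp) (by simp) hbp, hea, ff_two hx hab, Sym2.eq_swap (a := a),
      mergeW_self, Sym2.eq_swap (a := p), Sym2.eq_swap (a := b)]
  have step : ∀ (y : Sym2 α → ℝ) (e : Sym2 α), ff x {a, b, p} y =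
      ff x {a, b, p} (Function.update y e 1) + (1 - y e) * Sv x {a, b, p} y e := by
    intro y e
    rw [ff_aff, ff_self _ y e]
    ring
  have hcard : ({a, b, p} : Finset α).card = 3 := card_eq_three.2 ⟨a, b, p, hab, hap, hbp, rfl⟩
  rw [step y s(a, b), step _ s(a, p), step _ s(b, p), s1, s2, s3, ff_ones hx, hcard]
  · simp only [Function.update_self, Function.update_of_ne n1, Function.update_of_ne n1.symm,
      Function.update_of_ne n2.symm, Function.update_of_ne n3.symm]
    ring
  · intro u hu v hv huv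
    have : s(u, v) = s(a, b) ∨ s(u, v) = s(a, p) ∨ s(u, v) = s(b, p) := by
      simp only [mem_insert, mem_singleton] at hu hv
      rcases hu with rfl | rfl | rfl <;> rcases hv with rfl | rfl | rfl <;> simp_all
    rcases this with h | h | h <;> rw [h]
    · rw [Function.update_of_ne n2, Function.update_of_ne n1, Function.update_self]
    · rw [Function.update_of_ne n3, Function.update_self]
    · rw [Function.update_self]

theorem Dv_three (hx : 0 < x) {a b p : α} (hab : a ≠ b) (hap : a ≠ p) (hbp : b ≠ p)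
    (y : Sym2 α → ℝ) :
    Dv x {a, b, p} y s(a, b) = (1 + x) * x * (1 - x - y s(a, p) - y s(b, p)) := by
  have n1 : s(a, p) ≠ s(a, b) := by simp [hbp.symm, hab]
  have n2 : s(b, p) ≠ s(a, b) := by simp [hab.symm, hap.symm]
  rw [Dv, ff_three hx hab hap hbp, Function.update_self, Function.update_of_ne n1,
    Function.update_of_ne n2]
  ring

theorem Sv_three (hx : 0 < x) {a b p : α} (hab : a ≠ b) (hap : a ≠ p) (hbp : b ≠ p)
    (y : Sym2 α → ℝ) :
    Sv x {a, b, p} y s(a, b) = (1 + x) * (x + y s(a, p) * y s(b, p)) := by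
  have n1 : s(a, p) ≠ s(a, b) := by simp [hbp.symm, hab]
  have n2 : s(b, p) ≠ s(a, b) := by simp [hab.symm, hap.symm]
  rw [Sv, ff_three hx hab hap hbp, ff_three hx hab hap hbp, Function.update_self,
    Function.update_of_ne n1, Function.update_of_ne n2, Function.update_self,
    Function.update_of_ne n1, Function.update_of_ne n2]
  ring

/-- The effective weight of the network with terminal pair `e` lies in `[lo, hi]`. -/
def Out (x : ℝ) (V : Finset α) (y : Sym2 α → ℝ) (e : Sym2 α) (lo hi : ℝ) : Prop :=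
  0 < Dv x V y e ∧ lo * Dv x V y e ≤ -(x * Sv x V y e) ∧ -(x * Sv x V y e) ≤ hi * Dv x V y e

theorem Out.mono {V : Finset α} {y : Sym2 α → ℝ} {e : Sym2 α} {lo hi lo' hi' : ℝ}
    (h : Out x V y e lo hi) (h1 : lo' ≤ lo) (h2 : hi ≤ hi') : Out x V y e lo' hi' :=
  ⟨h.1, (mul_le_mul_of_nonneg_right h1 h.1.le).trans h.2.1,
    h.2.2.trans (mul_le_mul_of_nonneg_right h2 h.1.le)⟩

theorem Out.congr {V : Finset α} {y y' : Sym2 α → ℝ} {e : Sym2 α} {lo hi : ℝ}
    (h : Out x V y e lo hi)
    (hy : ∀ a ∈ V, ∀ b ∈ V, a ≠ b → s(a, b) ≠ e → y s(a, b) = y' s(a, b)) :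
    Out x V y' e lo hi := by
  rw [Out, ← Dv_congr hy, ← Sv_congr hy]
  exact h

/-- Replacing a network by an edge carrying its effective weight. -/
theorem reduce_val (hx : 0 < x) {V A : Finset α} {c d : α} (hA : A ⊆ V) (hc : c ∈ V) (hd : d ∈ V)
    (hcd : c ≠ d) (hcA : c ∉ A) (hdA : d ∉ A) {y : Sym2 α → ℝ}
    (hy : ∀ u ∈ A, ∀ v ∈ V, v ∉ A → v ≠ c → v ≠ d → y s(u, v) = 1) {lo hi : ℝ}
    (ho : Out x (insert c (insert d A)) y s(c, d) lo hi) :
    ∃ κ w : ℝ, 0 < κ ∧ lo ≤ w ∧ w ≤ hi ∧ ∀ r t : α, r ∉ A → t ∉ A →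
      (s(r, t) ≠ s(c, d) →
        Dv x V y s(r, t) = κ * Dv x (V \ A) (Function.update y s(c, d) (y s(c, d) * w)) s(r, t) ∧
        Sv x V y s(r, t) = κ * Sv x (V \ A) (Function.update y s(c, d) (y s(c, d) * w)) s(r, t)) ∧
      (s(r, t) = s(c, d) → Dv x V y s(r, t) = κ * Dv x (V \ A) y s(r, t) ∧
        Sv x V y s(r, t) = κ * w * Sv x (V \ A) y s(r, t)) := by
  obtain ⟨h0, h1, h2⟩ := ho
  set D₁ := Dv x (insert c (insert d A)) y s(c, d) with hD₁
  set S₁ := Sv x (insert c (insert d A)) y s(c, d) with hS₁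
  have hq : 0 < (1 + x) * x := by positivity
  refine ⟨D₁ / ((1 + x) * x), -(x * S₁) / D₁, by positivity, (le_div_iff₀ h0).2 h1,
    (div_le_iff₀ h0).2 h2, fun r t hr ht => ?_⟩
  have key : ∀ s : ℝ, ff x V (Function.update y s(r, t) s) = D₁ / ((1 + x) * x) *
      ff x (V \ A) (Function.update (Function.update y s(r, t) s) s(c, d)
        (Function.update y s(r, t) s s(c, d) * (-(x * S₁) / D₁))) := by
    intro s
    have hne : ∀ u ∈ A, ∀ v, s(u, v) ≠ s(r, t) := by
      intro u hu v h
      rcases Sym2.eq_iff.1 h with h | h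
      · exact hr (h.1 ▸ hu)
      · exact ht (h.1 ▸ hu)
    have hagree : ∀ a ∈ insert c (insert d A), ∀ b ∈ insert c (insert d A), a ≠ b →
        s(a, b) ≠ s(c, d) → Function.update y s(r, t) s s(a, b) = y s(a, b) := by
      intro a ha b hb hab hn
      refine Function.update_of_ne ?_ _ _
      simp only [mem_insert] at ha hb
      rcases ha with rfl | rfl | ha
      · rcases hb with rfl | rfl | hb
        · exact absurd rfl hab
        · exact absurd rfl hn
        · rw [Sym2.eq_swap]; exact hne b hb _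
      · rcases hb with rfl | rfl | hb
        · exact absurd Sym2.eq_swap hn
        · exact absurd rfl hab
        · rw [Sym2.eq_swap]; exact hne b hb _
      · exact hne a ha _
    have h3 := ff_cut hx hA hc hd hcd hcA hdA (y := Function.update y s(r, t) s)
      (fun u hu v hv h1 h2 h3 => by
        rw [Function.update_of_ne (hne u hu v)]; exact hy u hu v hv h1 h2 h3)
    rw [Dv_congr hagree, Sv_congr hagree, ← hD₁, ← hS₁] at h3
    rw [ff_aff (V \ A)]
    field_simp
    linear_combination h3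
  constructor
  · intro hne
    have k0 := key 0
    have k1 := key 1
    rw [Function.update_of_ne hne.symm, Function.update_comm hne] at k0 k1
    exact ⟨k0, by rw [Sv, Sv, k0, k1]; ring⟩
  · intro he
    have k0 := key 0
    have k1 := key 1
    rw [← he, Function.update_self, Function.update_idem, ff_aff (V \ A)] at k0 k1
    refine ⟨by rw [Dv, k0]; ring, by rw [Sv, k0, k1]; ring⟩

end Pool.Agent.Lib.MP_efe3d7_co
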