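import Pool.Agent.Lib.MP_efe3d7_co.F

/-! Three-terminal networks: the five-parameter form and the gluing formula. -/

set_option autoImplicit false

open Finset Polynomial

namespace Pool.Agent.Lib.MP_efe3d7_co

variable {α : Type} [Fintype α] [DecidableEq α] {x : ℝ}

theorem ff_isolated (hx : 0 < x) {U : Finset α} {w : α} (hw : w ∉ U) {y : Sym2 α → ℝ}
    (hy : ∀ v ∈ U, y s(w, v) = 1) : ff x (insert w U) y = -(1 + x) * ff x U y := by
  have h : Zp (insert w U) y = Zp U y := by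
    refine poly_ext fun n => ?_
    rw [eval_Zp, eval_Zp]
    refine sum_congr rfl fun c _ => ?_
    rw [W_insert hw, prod_eq_one, one_mul]
    intro v hv
    rw [hy v hv, ite_self]
  rw [ff, ff, h, card_insert_of_notMem hw]
  have : (1 + x) ≠ 0 := by linarith
  field_simp
  ring

theorem ff_del (hx : 0 < x) {V : Finset α} {u v : α} (hu : u ∈ V) (hv : v ∈ V) (huv : u ≠ v)
    (y : Sym2 α → ℝ) :
    ff x V y = ff x V (Function.update y s(u, v) 1) +
      (1 - y s(u, v)) * ff x (V.erase v) (mergeW y u v) := by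
  rw [← Sv_merge hx hu hv huv, ff_aff, ff_self V y s(u, v)]
  ring

/-- Prescribe the weights of the three pairs of terminals. -/
noncomputable def set3 (y : Sym2 α → ℝ) (r a b : α) (t₁ t₂ t₃ : ℝ) (e : Sym2 α) : ℝ :=
  if e = s(r, a) then t₁ else if e = s(r, b) then t₂ else if e = s(a, b) then t₃ else y e

omit [Fintype α] in
theorem set3_ra (y : Sym2 α → ℝ) (r a b : α) (t₁ t₂ t₃ : ℝ) :
    set3 y r a b t₁ t₂ t₃ s(r, a) = t₁ := by simp [set3]

omit [Fintype α] in
theorem set3_rb (y : Sym2 α → ℝ) {r a b : α} (hab : a ≠ b) (t₁ t₂ t₃ : ℝ) :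
    set3 y r a b t₁ t₂ t₃ s(r, b) = t₂ := by
  have : s(r, b) ≠ s(r, a) := fun h => hab (Sym2.congr_right.1 h).symm
  simp [set3, this]

omit [Fintype α] in
theorem set3_ab (y : Sym2 α → ℝ) {r a b : α} (hra : r ≠ a) (hrb : r ≠ b) (t₁ t₂ t₃ : ℝ) :
    set3 y r a b t₁ t₂ t₃ s(a, b) = t₃ := by
  have h1 : s(a, b) ≠ s(r, a) := by
    rw [Sym2.eq_swap (a := r)]
    exact fun h => hrb (Sym2.congr_right.1 h).symm
  have h2 : s(a, b) ≠ s(r, b) := fun h => hra (Sym2.congr_left.1 h).symm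
  simp [set3, h1, h2]

omit [Fintype α] in
theorem set3_out (y : Sym2 α → ℝ) {r a b u : α} (hr : u ≠ r) (ha : u ≠ a) (hb : u ≠ b)
    (t₁ t₂ t₃ : ℝ) (v : α) : set3 y r a b t₁ t₂ t₃ s(u, v) = y s(u, v) := by
  simp [set3, hr, ha, hb]

omit [Fintype α] in
theorem set3_out' (y : Sym2 α → ℝ) {r a b u : α} (hr : u ≠ r) (ha : u ≠ a) (hb : u ≠ b)
    (t₁ t₂ t₃ : ℝ) (v : α) : set3 y r a b t₁ t₂ t₃ s(v, u) = y s(v, u) := by
  rw [Sym2.eq_swap, set3_out y hr ha hb]

omit [Fintype α] in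
theorem set3_self (y : Sym2 α → ℝ) (r a b : α) :
    set3 y r a b (y s(r, a)) (y s(r, b)) (y s(a, b)) = y := by
  funext e
  unfold set3
  split_ifs with h1 h2 h3
  · rw [h1]
  · rw [h2]
  · rw [h3]
  · rfl

/-- The value of the network is given by the five parameters. -/
def Form (x : ℝ) (U : Finset α) (y : Sym2 α → ℝ) (r a b : α) (β₀ β₁ β₂ β₃ β₄ : ℝ) : Prop :=
  ∀ t₁ t₂ t₃ : ℝ, ff x U (set3 y r a b t₁ t₂ t₃) =
    β₀ - t₁ * β₁ - t₂ * β₂ - t₃ * β₃ - t₁ * t₂ * t₃ * β₄

theorem Form.eval {U : Finset α} {y : Sym2 α → ℝ} {r a b : α} {β₀ β₁ β₂ β₃ β₄ : ℝ}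
    (h : Form x U y r a b β₀ β₁ β₂ β₃ β₄) {y' : Sym2 α → ℝ}
    (hy : ∀ u ∈ U, ∀ v ∈ U, u ≠ r → u ≠ a → u ≠ b → y' s(u, v) = y s(u, v)) :
    ff x U y' = β₀ - y' s(r, a) * β₁ - y' s(r, b) * β₂ - y' s(a, b) * β₃ -
      y' s(r, a) * y' s(r, b) * y' s(a, b) * β₄ := by
  rw [← h]
  refine ff_congr fun u hu v hv huv => ?_
  unfold set3
  split_ifs with h1 h2 h3
  · rw [h1]
  · rw [h2]
  · rw [h3]
  · by_cases h4 : u ≠ r ∧ u ≠ a ∧ u ≠ b
    · exact hy u hu v hv h4.1 h4.2.1 h4.2.2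
    · rw [Sym2.eq_swap]
      refine hy v hv u hu ?_ ?_ ?_ <;> rintro rfl <;> simp_all [Sym2.eq_swap]

theorem Form.congr {U : Finset α} {y : Sym2 α → ℝ} {r a b : α} {β₀ β₁ β₂ β₃ β₄ : ℝ}
    (h : Form x U y r a b β₀ β₁ β₂ β₃ β₄) (hra : r ≠ a) (hrb : r ≠ b) (hab : a ≠ b)
    {y' : Sym2 α → ℝ}
    (hy : ∀ u ∈ U, ∀ v ∈ U, u ≠ r → u ≠ a → u ≠ b → y' s(u, v) = y s(u, v)) :
    Form x U y' r a b β₀ β₁ β₂ β₃ β₄ := by
  intro t₁ t₂ t₃
  rw [h.eval (y' := set3 y' r a b t₁ t₂ t₃), set3_ra, set3_rb _ hab, set3_ab _ hra hrb]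
  intro u hu v hv h1 h2 h3
  rw [set3_out _ h1 h2 h3, hy u hu v hv h1 h2 h3]

theorem exists_form (hx : 0 < x) {U : Finset α} (y : Sym2 α → ℝ) {r a b : α} (hr : r ∈ U)
    (ha : a ∈ U) (hb : b ∈ U) (hra : r ≠ a) (hrb : r ≠ b) (hab : a ≠ b) :
    ∃ β₀ β₁ β₂ β₃ β₄ : ℝ, Form x U y r a b β₀ β₁ β₂ β₃ β₄ := by
  have n1 : s(r, b) ≠ s(r, a) := fun h => hab (Sym2.congr_right.1 h).symm
  have n2 : s(a, b) ≠ s(r, a) := by
    rw [Sym2.eq_swap (a := r)]
    exact fun h => hrb (Sym2.congr_right.1 h).symm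
  have n3 : s(a, b) ≠ s(r, b) := fun h => hra (Sym2.congr_left.1 h).symm
  have u1 : ∀ t₁ t₂ t₃ s : ℝ, Function.update (set3 y r a b t₁ t₂ t₃) s(r, a) s =
      set3 y r a b s t₂ t₃ := by
    intro t₁ t₂ t₃ s
    funext e
    by_cases h : e = s(r, a)
    · rw [h, Function.update_self, set3_ra]
    · rw [Function.update_of_ne h]; simp [set3, h]
  have u2 : ∀ t₁ t₂ t₃ s : ℝ, Function.update (set3 y r a b t₁ t₂ t₃) s(r, b) s =
      set3 y r a b t₁ s t₃ := by
    intro t₁ t₂ t₃ s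
    funext e
    by_cases h : e = s(r, b)
    · rw [h, Function.update_self, set3_rb _ hab]
    · rw [Function.update_of_ne h]; simp [set3, h]
  have u3 : ∀ t₁ t₂ t₃ s : ℝ, Function.update (set3 y r a b t₁ t₂ t₃) s(a, b) s =
      set3 y r a b t₁ t₂ s := by
    intro t₁ t₂ t₃ s
    funext e
    by_cases h : e = s(a, b)
    · rw [h, Function.update_self, set3_ab _ hra hrb]
    · rw [Function.update_of_ne h]; simp [set3, h]
  set g : ℝ → ℝ → ℝ → ℝ := fun t₁ t₂ t₃ => ff x U (set3 y r a b t₁ t₂ t₃) with hg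
  have a3 : ∀ t₁ t₂ t₃, g t₁ t₂ t₃ = g t₁ t₂ 0 - t₃ * (g t₁ t₂ 0 - g t₁ t₂ 1) := by
    intro t₁ t₂ t₃
    have := ff_aff (x := x) U (set3 y r a b t₁ t₂ 0) s(a, b) t₃
    rwa [Dv, Sv, u3, u3, u3] at this
  -- merging `a` into `r`
  have m1 : ∀ t₂ t₃, g 0 t₂ t₃ - g 1 t₂ t₃ = ff x (U.erase a)
      (Function.update (mergeW y r a) s(r, b) (t₂ * t₃)) := by
    intro t₂ t₃
    have h := Sv_merge hx hr ha hra (set3 y r a b 0 t₂ t₃)
    rw [Sv, u1, u1] at h
    rw [hg]
    simp only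
    rw [h]
    refine ff_congr fun u hu v hv huv => ?_
    have key : ∀ v ∈ U.erase a, r ≠ v → mergeW (set3 y r a b 0 t₂ t₃) r a s(r, v) =
        Function.update (mergeW y r a) s(r, b) (t₂ * t₃) s(r, v) := by
      intro v hv hrv
      by_cases hvb : v = b
      · rw [hvb, Function.update_self, mergeW_self, set3_rb _ hab, set3_ab _ hra hrb]
      · rw [Function.update_of_ne (fun h => hvb (Sym2.congr_right.1 h)), mergeW_self, mergeW_self,
          set3_out' _ hrv.symm (ne_of_mem_erase hv) hvb,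
          set3_out' _ hrv.symm (ne_of_mem_erase hv) hvb]
    by_cases hur : u = r
    · subst hur; exact key v hv huv
    by_cases hvr : v = r
    · subst hvr; rw [Sym2.eq_swap]; exact key u hu (Ne.symm huv)
    rw [mergeW_of_ne _ _ hur hvr, Function.update_of_ne (by simp [hur, hvr]),
      mergeW_of_ne _ _ hur hvr]
    by_cases hub : u = b
    · exact set3_out' _ hvr (ne_of_mem_erase hv) (fun h => huv (hub.trans h.symm)) _ _ _ _
    · exact set3_out _ hur (ne_of_mem_erase hu) hub _ _ _ _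
  have a1 : ∀ t₁ t₂ t₃, g t₁ t₂ t₃ = g 0 t₂ t₃ - t₁ * (g 0 t₂ t₃ - g 1 t₂ t₃) := by
    intro t₁ t₂ t₃
    have := ff_aff (x := x) U (set3 y r a b 0 t₂ t₃) s(r, a) t₁
    rwa [Dv, Sv, u1, u1, u1] at this
  have a2 : ∀ t₁ t₂ t₃, g t₁ t₂ t₃ = g t₁ 0 t₃ - t₂ * (g t₁ 0 t₃ - g t₁ 1 t₃) := by
    intro t₁ t₂ t₃
    have := ff_aff (x := x) U (set3 y r a b t₁ 0 t₃) s(r, b) t₂
    rwa [Dv, Sv, u2, u2, u2] at this
  set D := Dv x (U.erase a) (mergeW y r a) s(r, b)
  set S := Sv x (U.erase a) (mergeW y r a) s(r, b)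
  have m2 : ∀ t₂ t₃, g 0 t₂ t₃ - g 1 t₂ t₃ = D - t₂ * t₃ * S := fun t₂ t₃ => by
    rw [m1, ff_aff]
  -- the mixed coefficient of `t₂ t₃` at `t₁ = 0` vanishes
  have m3 : g 0 0 1 - g 0 1 1 = g 0 0 0 - g 0 1 0 := by
    have h0 := Sv_merge hx hr hb hrb (set3 y r a b 0 0 0)
    have h1 := Sv_merge hx hr hb hrb (set3 y r a b 0 0 1)
    rw [Sv, u2, u2] at h0 h1
    rw [hg]
    simp only
    rw [h0, h1]
    refine ff_congr fun u hu v hv huv => ?_
    have key : ∀ v ∈ U.erase b, r ≠ v → mergeW (set3 y r a b 0 0 1) r b s(r, v) =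
        mergeW (set3 y r a b 0 0 0) r b s(r, v) := by
      intro v hv hrv
      by_cases hva : v = a
      · rw [hva, mergeW_self, mergeW_self, set3_ra, set3_ra, zero_mul, zero_mul]
      · rw [mergeW_self, mergeW_self, set3_out' _ hrv.symm hva (ne_of_mem_erase hv),
          set3_out' _ hrv.symm hva (ne_of_mem_erase hv),
          set3_out' _ hrv.symm hva (ne_of_mem_erase hv),
          set3_out' _ hrv.symm hva (ne_of_mem_erase hv)]
    by_cases hur : u = r
    · subst hur; exact key v hv huv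
    by_cases hvr : v = r
    · subst hvr; rw [Sym2.eq_swap]; exact key u hu (Ne.symm huv)
    rw [mergeW_of_ne _ _ hur hvr, mergeW_of_ne _ _ hur hvr]
    by_cases hua : u = a
    · rw [set3_out' _ hvr (fun h => huv (hua.trans h.symm)) (ne_of_mem_erase hv),
        set3_out' _ hvr (fun h => huv (hua.trans h.symm)) (ne_of_mem_erase hv)]
    · rw [set3_out _ hur hua (ne_of_mem_erase hu), set3_out _ hur hua (ne_of_mem_erase hu)]
  refine ⟨g 0 0 0, D, g 0 0 0 - g 0 1 0, g 0 0 0 - g 0 0 1, -S, fun t₁ t₂ t₃ => ?_⟩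
  change g t₁ t₂ t₃ = _
  rw [a1 t₁, m2, a2 0 t₂ t₃, a3 0 0 t₃, a3 0 1 t₃]
  linear_combination (-t₂ * t₃) * m3

theorem form_three (hx : 0 < x) (y : Sym2 α → ℝ) {r a b : α} (hra : r ≠ a) (hrb : r ≠ b)
    (hab : a ≠ b) :
    Form x {r, a, b} y r a b ((1 + x) * x * (1 - x)) ((1 + x) * x) ((1 + x) * x) ((1 + x) * x)
      (1 + x) := by
  intro t₁ t₂ t₃
  rw [ff_three hx hra hrb hab, set3_ra, set3_rb _ hab, set3_ab _ hra hrb]
  ring

/-- Gluing a network with interior `K` to an arbitrary network along three terminals. -/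
def Glue (x : ℝ) (K : Finset α) (y : Sym2 α → ℝ) (r a b : α) (D U W M A : ℝ) : Prop :=
  ∀ (B : Finset α) (y' : Sym2 α → ℝ) (β₀ β₁ β₂ β₃ β₄ : ℝ), Disjoint K B → r ∈ B → a ∈ B → b ∈ B →
    (∀ u ∈ K, ∀ v ∈ B, v ≠ r → v ≠ a → v ≠ b → y' s(u, v) = 1) →
    (∀ u ∈ K, ∀ v, (v ∈ K ∨ v = r ∨ v = a ∨ v = b) → y' s(u, v) = y s(u, v)) →
    Form x B y' r a b β₀ β₁ β₂ β₃ β₄ →
    ff x (K ∪ B) y' = D * β₀ - U * y' s(r, a) * β₁ - W * y' s(r, b) * β₂ - M * y' s(a, b) * β₃ -
      A * (y' s(r, a) * y' s(r, b) * y' s(a, b)) * β₄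

theorem glue_empty (y : Sym2 α → ℝ) (r a b : α) : Glue x ∅ y r a b 1 1 1 1 1 := by
  intro B y' β₀ β₁ β₂ β₃ β₄ _ _ _ _ _ _ h
  rw [empty_union, h.eval fun _ _ _ _ _ _ _ => rfl]
  ring

omit [Fintype α] in
theorem mergeW_eq (y : Sym2 α → ℝ) (u v : α) (e : Sym2 α) :
    mergeW y u v e = y e * if h : u ∈ e then y s(v, Sym2.Mem.other h) else 1 := rfl

theorem exists_glue (hx : 0 < x) {r a b : α} (hra : r ≠ a) (hrb : r ≠ b) (hab : a ≠ b)
    (K : Finset α) :
    ∀ y : Sym2 α → ℝ, ∃ D U W M A : ℝ, Glue x K y r a b D U W M A := by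
  induction K using Finset.induction_on with
  | empty => exact fun y => ⟨1, 1, 1, 1, 1, glue_empty y r a b⟩
  | insert u K hu ih =>
    have inner : ∀ F : Finset α, (∀ v ∈ F, v ≠ u ∧ (v ∈ K ∨ v = r ∨ v = a ∨ v = b)) →
        ∀ y : Sym2 α → ℝ, (∀ v, (v ∈ K ∨ v = r ∨ v = a ∨ v = b) → v ∉ F → v ≠ u →
          y s(u, v) = 1) → ∃ D U W M A : ℝ, Glue x (insert u K) y r a b D U W M A := by
      intro F
      induction F using Finset.induction_on with
      | empty =>
        intro _ y hy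
        obtain ⟨D, U, W, M, A, h⟩ := ih y
        refine ⟨-(1 + x) * D, -(1 + x) * U, -(1 + x) * W, -(1 + x) * M, -(1 + x) * A, ?_⟩
        intro B y' β₀ β₁ β₂ β₃ β₄ hd hr ha hb h1 h2 hf
        have huB : u ∉ B := disjoint_left.1 hd (mem_insert_self _ _)
        rw [insert_union, ff_isolated hx (by simp [hu, huB]),
          h B y' β₀ β₁ β₂ β₃ β₄ (disjoint_of_subset_left (subset_insert _ _) hd) hr ha hb
            (fun p hp => h1 p (mem_insert_of_mem hp))
            (fun p hp v hv => h2 p (mem_insert_of_mem hp) v (by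
              rcases hv with hv | hv
              · exact Or.inl (mem_insert_of_mem hv)
              · exact Or.inr hv)) hf]
        · ring
        · intro v hv
          have hvu : v ≠ u := by
            rintro rfl
            rcases mem_union.1 hv with h | h
            · exact hu h
            · exact huB h
          by_cases hv' : v ∈ K ∨ v = r ∨ v = a ∨ v = b
          · rw [h2 u (mem_insert_self _ _) v (by
              rcases hv' with hv' | hv'
              · exact Or.inl (mem_insert_of_mem hv')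
              · exact Or.inr hv')]
            exact hy v hv' (notMem_empty _) hvu
          · push Not at hv'
            exact h1 u (mem_insert_self _ _) v ((mem_union.1 hv).resolve_left hv'.1) hv'.2.1
              hv'.2.2.1 hv'.2.2.2
      | insert v F hvF ihF =>
        intro hF y hy
        obtain ⟨hvu, hvK⟩ := hF v (mem_insert_self _ _)
        obtain ⟨D, U, W, M, A, h⟩ := ihF (fun w hw => hF w (mem_insert_of_mem hw))
          (Function.update y s(v, u) 1) (by
            intro w hw hwF hwu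
            by_cases hwv : w = v
            · rw [hwv, Sym2.eq_swap, Function.update_self]
            · rw [Function.update_of_ne (by simp [hwv, hvu.symm])]
              exact hy w hw (by simp [hwv, hwF]) hwu)
        obtain ⟨D', U', W', M', A', h'⟩ := ih (mergeW y v u)
        set m : Sym2 α → ℝ := fun e => if h : v ∈ e then y s(u, Sym2.Mem.other h) else 1 with hm
        set c := 1 - y s(v, u) with hc
        refine ⟨D + c * D', U + c * U' * m s(r, a), W + c * W' * m s(r, b), M + c * M' * m s(a, b),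
          A + c * A' * (m s(r, a) * m s(r, b) * m s(a, b)), ?_⟩
        intro B y' β₀ β₁ β₂ β₃ β₄ hd hr ha hb h1 h2 hf
        have huB : u ∉ B := disjoint_left.1 hd (mem_insert_self _ _)
        have hur : u ≠ r := fun e => huB (e ▸ hr)
        have hua : u ≠ a := fun e => huB (e ▸ ha)
        have hub : u ≠ b := fun e => huB (e ▸ hb)
        have hT : ∀ w, (w ∈ K ∨ w = r ∨ w = a ∨ w = b) →
            (w ∈ insert u K ∨ w = r ∨ w = a ∨ w = b) := by
          intro w hw
          rcases hw with hw | hw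
          · exact Or.inl (mem_insert_of_mem hw)
          · exact Or.inr hw
        have hvV : v ∈ insert u K ∪ B := by
          rcases hvK with h | rfl | rfl | rfl
          · exact mem_union_left _ (mem_insert_of_mem h)
          · exact mem_union_right _ hr
          · exact mem_union_right _ ha
          · exact mem_union_right _ hb
        have hne : ∀ p q, p ≠ u → q ≠ u → s(p, q) ≠ s(v, u) := by
          intro p q hp hq
          simp [hp, hq]
        have hmm : ∀ p q, (p ∈ K ∨ p = r ∨ p = a ∨ p = b) → (q ∈ K ∨ q = r ∨ q = a ∨ q = b) →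
            mergeW y' v u s(p, q) = y' s(p, q) * m s(p, q) := by
          intro p q hp hq
          rw [mergeW_eq, hm]
          simp only
          split_ifs with hv
          · rw [h2 u (mem_insert_self _ _)]
            have := Sym2.other_mem hv
            rcases Sym2.mem_iff.1 this with e | e <;> rw [e]
            · exact hT _ hp
            · exact hT _ hq
          · rfl
        have her : (insert u K ∪ B).erase u = K ∪ B := by
          rw [insert_union, erase_insert (by simp [hu, huB])]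
        rw [ff_del hx hvV (mem_union_left _ (mem_insert_self _ _)) hvu y', her,
          h B (Function.update y' s(v, u) 1) β₀ β₁ β₂ β₃ β₄ hd hr ha hb,
          h' B (mergeW y' v u) β₀ β₁ β₂ β₃ β₄ (disjoint_of_subset_left (subset_insert _ _) hd)
            hr ha hb,
          Function.update_of_ne (hne _ _ hur.symm hua.symm),
          Function.update_of_ne (hne _ _ hur.symm hub.symm),
          Function.update_of_ne (hne _ _ hua.symm hub.symm),
          hmm r a (by simp) (by simp), hmm r b (by simp) (by simp), hmm a b (by simp) (by simp),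
          Sym2.eq_swap (a := v), h2 u (mem_insert_self _ _) v (hT v hvK), hc,
          Sym2.eq_swap (a := v)]
        · ring
        · intro p hp q hq q1 q2 q3
          have hqv : q ≠ v := by
            rintro rfl
            rcases hvK with h | h | h | h
            · exact disjoint_left.1 hd (mem_insert_of_mem h) hq
            · exact q1 h
            · exact q2 h
            · exact q3 h
          by_cases hpv : p = v
          · rw [hpv, mergeW_self, h1 u (mem_insert_self _ _) q hq q1 q2 q3, mul_one, ← hpv]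
            exact h1 p (mem_insert_of_mem hp) q hq q1 q2 q3
          · rw [mergeW_of_ne _ _ hpv hqv]
            exact h1 p (mem_insert_of_mem hp) q hq q1 q2 q3
        · intro p hp q hq
          rw [hmm p q (Or.inl hp) hq, h2 p (mem_insert_of_mem hp) q (hT q hq), mergeW_eq]
        · refine hf.congr hra hrb hab fun p hp q hq p1 p2 p3 => ?_
          have hpv : p ≠ v := by
            rintro rfl
            rcases hvK with h | h | h | h
            · exact disjoint_left.1 hd (mem_insert_of_mem h) hp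
            · exact p1 h
            · exact p2 h
            · exact p3 h
          by_cases hqv : q = v
          · rw [hqv, Sym2.eq_swap, mergeW_self, h1 u (mem_insert_self _ _) p hp p1 p2 p3, mul_one]
          · rw [mergeW_of_ne _ _ hpv hqv]
        · intro p hp q hq q1 q2 q3
          by_cases he : s(p, q) = s(v, u)
          · rw [he, Function.update_self]
          · rw [Function.update_of_ne he]
            exact h1 p hp q hq q1 q2 q3
        · intro p hp q hq
          by_cases he : s(p, q) = s(v, u)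
          · rw [he, Function.update_self, Function.update_self]
          · rw [Function.update_of_ne he, Function.update_of_ne he]
            exact h2 p hp q hq
        · refine hf.congr hra hrb hab fun p hp q hq _ _ _ => ?_
          exact Function.update_of_ne (hne _ _ (fun e => huB (e ▸ hp)) (fun e => huB (e ▸ hq))) _ _
    intro y
    refine inner ((K ∪ {r, a, b}).erase u) (fun v hv => ⟨ne_of_mem_erase hv, ?_⟩) y ?_
    · have := mem_of_mem_erase hv
      simp only [mem_union, mem_insert, mem_singleton] at this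
      exact this
    · intro v hv hv' hvu
      exact absurd (mem_erase.2 ⟨hvu, by simp only [mem_union, mem_insert, mem_singleton]; exact hv⟩) hv'

/-- A single vertex `d` joined to the three terminals. -/
theorem vertex3 (hx : 0 < x) {U : Finset α} {y : Sym2 α → ℝ} {z a b d : α} (hd : d ∉ U)
    (hz : z ∈ U) (ha : a ∈ U) (hb : b ∈ U) (hza : z ≠ a) (hzb : z ≠ b) (hab : a ≠ b)
    (hy : ∀ v ∈ U, v ≠ z → v ≠ a → v ≠ b → y s(d, v) = 1) {β₀ β₁ β₂ β₃ β₄ : ℝ}
    (h : Form x U y z a b β₀ β₁ β₂ β₃ β₄) :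
    Form x (insert d U) y d a b
      ((2 - x - y s(z, d)) * β₀ - (1 - x) * (y s(z, a) * β₁) - (1 - x) * (y s(z, b) * β₂))
      (β₀ - y s(z, d) * (y s(z, a) * β₁) - y s(z, b) * β₂)
      (β₀ - y s(z, a) * β₁ - y s(z, d) * (y s(z, b) * β₂))
      ((1 - x - y s(z, d)) * β₃ - x * (y s(z, a) * y s(z, b) * β₄))
      (-β₃ - y s(z, d) * (y s(z, a) * y s(z, b) * β₄)) := by
  intro t₁ t₂ t₃
  have hdz : d ≠ z := fun e => hd (e ▸ hz)
  have hda : d ≠ a := fun e => hd (e ▸ ha)
  have hdb : d ≠ b := fun e => hd (e ▸ hb)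
  have hUd : ∀ p ∈ U, p ≠ d := fun p hp e => hd (e ▸ hp)
  set y₀ := set3 y d a b t₁ t₂ t₃ with hy₀
  set y₁ := Function.update y₀ s(z, d) 1 with hy₁
  set y₂ := Function.update y₁ s(a, d) 1 with hy₂
  set y₃ := Function.update y₂ s(b, d) 1 with hy₃
  have hne : ∀ p q w, p ∈ U → q ∈ U → s(p, q) ≠ s(w, d) := by
    intro p q w hp hq e
    rcases Sym2.eq_iff.1 e with e | e
    · exact hd (e.2 ▸ hq)
    · exact hd (e.1 ▸ hp)
  have k0 : ∀ p ∈ U, ∀ q, p ≠ a → p ≠ b → y₀ s(p, q) = y s(p, q) := fun p hp q h1 h2 =>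
    set3_out _ (hUd p hp) h1 h2 _ _ _ _
  have k1 : ∀ p ∈ U, ∀ q ∈ U, y₁ s(p, q) = y₀ s(p, q) := fun p hp q hq =>
    Function.update_of_ne (hne _ _ _ hp hq) _ _
  have k2 : ∀ p ∈ U, ∀ q ∈ U, y₂ s(p, q) = y₀ s(p, q) := fun p hp q hq => by
    rw [hy₂, Function.update_of_ne (hne _ _ _ hp hq), k1 p hp q hq]
  have k3 : ∀ p ∈ U, ∀ q ∈ U, y₃ s(p, q) = y₀ s(p, q) := fun p hp q hq => by
    rw [hy₃, Function.update_of_ne (hne _ _ _ hp hq), k2 p hp q hq]
  have d0 : ∀ v ∈ U, v ≠ z → v ≠ a → v ≠ b → y₀ s(d, v) = 1 := fun v hv h1 h2 h3 => by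
    rw [hy₀, set3_out' _ (hUd v hv) h2 h3, hy v hv h1 h2 h3]
  have nd : ∀ v w, v ≠ d → v ≠ w → s(d, v) ≠ s(w, d) := fun v w h1 h2 => by
    simp [h1, h2]
  have d1 : ∀ v ∈ U, v ≠ z → y₁ s(d, v) = y₀ s(d, v) := fun v hv h1 =>
    Function.update_of_ne (nd _ _ (hUd v hv) h1) _ _
  have d2 : ∀ v ∈ U, v ≠ a → y₂ s(d, v) = y₁ s(d, v) := fun v hv h1 =>
    Function.update_of_ne (nd _ _ (hUd v hv) h1) _ _
  have d3 : ∀ v ∈ U, v ≠ b → y₃ s(d, v) = y₂ s(d, v) := fun v hv h1 =>
    Function.update_of_ne (nd _ _ (hUd v hv) h1) _ _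
  have e1 : y₁ s(d, z) = 1 := by rw [hy₁, Sym2.eq_swap, Function.update_self]
  have e2 : y₂ s(d, a) = 1 := by rw [hy₂, Sym2.eq_swap, Function.update_self]
  have e3 : y₃ s(d, b) = 1 := by rw [hy₃, Sym2.eq_swap, Function.update_self]
  have vda : y₀ s(d, a) = t₁ := set3_ra _ _ _ _ _ _ _
  have vdb : y₀ s(d, b) = t₂ := set3_rb _ hab _ _ _
  have vab : y₀ s(a, b) = t₃ := set3_ab _ hda hdb _ _ _
  have vza : y₀ s(z, a) = y s(z, a) := k0 z hz a hza hzb
  have vzb : y₀ s(z, b) = y s(z, b) := k0 z hz b hza hzb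
  have vzd : y₀ s(z, d) = y s(z, d) := k0 z hz d hza hzb
  have mg : ∀ (y' : Sym2 α → ℝ) (v : α), (v = z ∨ v = a ∨ v = b) →
      (∀ p ∈ U, ∀ q ∈ U, y' s(p, q) = y₀ s(p, q)) →
      (∀ p ∈ U, p ≠ z → p ≠ a → p ≠ b → y' s(d, p) = 1) →
      ∀ p ∈ U, ∀ q ∈ U, p ≠ z → p ≠ a → p ≠ b → mergeW y' v d s(p, q) = y s(p, q) := by
    intro y' v hv h1 h2 p hp q hq p1 p2 p3
    have hpv : p ≠ v := by rcases hv with rfl | rfl | rfl <;> assumption
    by_cases hqv : q = v
    · rw [hqv, Sym2.eq_swap, mergeW_self, h2 p hp p1 p2 p3, mul_one, Sym2.eq_swap, ← hqv,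
        h1 p hp q hq, k0 p hp q p2 p3]
    · rw [mergeW_of_ne _ _ hpv hqv, h1 p hp q hq, k0 p hp q p2 p3]
  have hm := mem_insert_self d U
  rw [ff_del hx (mem_insert_of_mem hz) hm hdz.symm y₀, ← hy₁,
    ff_del hx (mem_insert_of_mem ha) hm hda.symm y₁, ← hy₂,
    ff_del hx (mem_insert_of_mem hb) hm hdb.symm y₂, ← hy₃, erase_insert hd,
    ff_isolated hx hd, h.eval (y' := y₃) fun p hp q hq _ p2 p3 => by
      rw [k3 p hp q hq, k0 p hp q p2 p3],
    h.eval (mg y₀ z (by simp) (fun _ _ _ _ => rfl) d0),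
    h.eval (mg y₁ a (by simp) k1 fun p hp p1 p2 p3 => by rw [d1 p hp p1, d0 p hp p1 p2 p3]),
    h.eval (mg y₂ b (by simp) k2 fun p hp p1 p2 p3 => by
      rw [d2 p hp p2, d1 p hp p1, d0 p hp p1 p2 p3]),
    mergeW_self, mergeW_self, mergeW_of_ne _ _ hza.symm hzb.symm,
    Sym2.eq_swap (a := z) (b := a), mergeW_self, mergeW_of_ne _ _ hza hab.symm, mergeW_self,
    mergeW_of_ne _ _ hab hzb, Sym2.eq_swap (a := z) (b := b), mergeW_self,
    Sym2.eq_swap (a := a) (b := b), mergeW_self, Sym2.eq_swap (a := a) (b := d),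
    Sym2.eq_swap (a := b) (b := d), d2 b hb hab.symm, d2 z hz hza, d1 a ha hza.symm,
    d1 b hb hzb.symm, e1, e2, k3 a ha z hz, k3 b hb z hz, k3 b hb a ha, k2 a ha z hz,
    k2 b hb z hz, k2 b hb a ha, k1 a ha z hz, k1 b hb z hz, k1 b hb a ha,
    Sym2.eq_swap (a := a) (b := z), Sym2.eq_swap (a := b) (b := z),
    Sym2.eq_swap (a := b) (b := a), vda, vdb, vab, vza, vzb, vzd]
  · ring
  · intro v hv
    by_cases h3 : v = b
    · rw [h3, e3]
    rw [d3 v hv h3]
    by_cases h2 : v = a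
    · rw [h2, e2]
    rw [d2 v hv h2]
    by_cases h1 : v = z
    · rw [h1, e1]
    rw [d1 v hv h1, d0 v hv h1 h2 h3]

end Pool.Agent.Lib.MP_efe3d7_co
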