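import Pool.Agent.Lib.MP_efe3d7_co.R9

/-! The induction, strict positivity and the passage to graphs. -/

set_option autoImplicit false

open Finset

namespace Pool.Agent.Lib.MP_efe3d7_co

variable {α : Type} [Fintype α] [DecidableEq α] {x μ L : ℝ}

/-- The secondary measure. -/
noncomputable def lev2 (μ t : ℝ) : ℕ :=
  if t = 1 then 0 else if t = 1 - μ then 1 else if t = μ ^ 2 then 2 else 3

omit [Fintype α] in
theorem lev2_lt {V : Finset α} {y : Sym2 α → ℝ} {z v : α} (hv : v ∈ V) {t : ℝ}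
    (h : lev2 μ t < lev2 μ (y s(z, v))) :
    ∑ w ∈ V, lev2 μ (Function.update y s(z, v) t s(z, w)) < ∑ w ∈ V, lev2 μ (y s(z, w)) := by
  refine sum_lt_sum (fun w _ => ?_) ⟨v, hv, by rw [Function.update_self]; exact h⟩
  by_cases e : w = v
  · rw [e, Function.update_self]; exact h.le
  · rw [Function.update_of_ne (fun k => e (Sym2.congr_right.1 k))]

omit [Fintype α] in
theorem Mk.upd (P : Pn x μ L) {V : Finset α} {y : Sym2 α → ℝ} {z u p p' v : α}
    (h : Mk μ L V y z u p) (h2 : C2 V y z) (h4 : 4 ≤ V.card) {t : ℝ} (t1 : -μ ≤ t)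
    (t2 : t ≤ 1 - μ) (t3 : v ≠ u → v ≠ p' → t ≤ μ ^ 2)
    (hi : ∀ q ∈ V, q ≠ z → q ≠ u → q ≠ p' → y s(z, q) = 1 ∨ y s(z, q) ≤ μ ^ 2) :
    Mk μ L V (Function.update y s(z, v) t) z u p' := by
  have hμ := P.hμ
  have e1 : ∀ q, q ≠ v → Function.update y s(z, v) t s(z, q) = y s(z, q) := fun q hq =>
    Function.update_of_ne (fun e => hq (Sym2.congr_right.1 e)) _ _
  have e2 : Function.update y s(z, v) t s(z, v) = t := Function.update_self _ _ _
  have hc := h.cls.update P.ρ_lt v (t := t) (by linarith [P.L_ge, P.hμ2]) t2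
  have h2' : C2 V (Function.update y s(z, v) t) z := by
    intro A w hA a1 a2 hne hcl
    refine h2 A w hA a1 a2 hne fun p hp q hq b1 b2 => ?_
    have hpz : p ≠ z := fun e => a1 (e ▸ hp)
    have hqz : q ≠ z := fun e => b2 (by simp [e])
    rw [← hcl p hp q hq b1 b2, Function.update_of_ne (by simp [hpz, hqz])]
  refine ⟨hc, h.hu, h.uz, ?_, fun q hq a1 a2 => ?_, fun q hq a1 a2 a3 => ?_,
    fun A c hA a1 a2 a3 _ a5 => hP_of_C2 hc h2' h4 h.hu h.uz A c hA a1 a2 a3 a5⟩
  · by_cases e : u = v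
    · rw [e, e2]; linarith
    · rw [e1 u e]; exact h.u1
  · by_cases e : q = v
    · rw [e, e2]; exact t1
    · rw [e1 q e]; exact h.lo q hq a1 a2
  · by_cases e : q = v
    · rw [e, e2]; exact Or.inr (t3 (e ▸ a2) (e ▸ a3))
    · rw [e1 q e]; exact hi q hq a1 a2 a3

theorem ih_succ2 (P : Pn x μ L) {n : ℕ} (ih : IH2 α x μ L n) (V : Finset α) (z u : α)
    (hn : V.card ≤ n) (h3 : 3 ≤ V.card) : ∀ (m : ℕ) (y : Sym2 α → ℝ) (p : α),
      ∑ w ∈ V, lev2 μ (y s(z, w)) < m → Mk μ L V y z u p → 0 ≤ ff x V y := by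
  have hx := P.x_pos
  have hμ := P.hμ
  have hρ := P.ρ_pos
  have hL := P.L_ge
  have hφ := P.φ_pos
  have hφ' := P.φ_lt
  have n1 : 1 - μ ≠ 1 := P.ρ_lt.ne
  have n2 : μ ^ 2 ≠ 1 := by linarith
  have n3 : μ ^ 2 ≠ 1 - μ := hφ'.ne
  intro m
  induction m with
  | zero => intro y p hm; omega
  | succ m ihm =>
    intro y p hm hk
    have h := hk.cls
    rcases h3.eq_or_lt with h3' | h4
    · exact base_three2 P hk h3'.symm
    by_cases h2 : C2 V y z
    swap
    · exact cut_step2 P ih hn hk h2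
    have hS : ∀ v ∈ V, v ≠ z → 0 ≤ Sv x V y s(z, v) := by
      intro v hv hvz
      rw [Sv_merge hx h.hz hv hvz.symm]
      have c1 : (V.erase v).card < n ∧ 3 ≤ (V.erase v).card := by
        rw [card_erase_of_mem hv]; omega
      by_cases e : u = v
      · obtain ⟨u', a1, a2, a3⟩ := (h.merge hρ.le (by linarith) h2 hv hvz).exists_field (by omega)
        exact ih _ _ z u' p c1.1 (hk.merge P h2 hv hvz a1 a2 a3 (Or.inl e)) c1.2
      · refine ih _ _ z u p c1.1 (hk.merge P h2 hv hvz (mem_erase.2 ⟨e, hk.hu⟩) hk.uz ?_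
          (Or.inr rfl)) c1.2
        rw [mergeW_self]
        rcases h.w0 v hv u hk.hu hvz hk.uz (Ne.symm e) with k | k <;> rw [k]
        · simp
        · rw [mul_one]; exact hk.u1
    have step : ∀ v ∈ V, v ≠ z → ∀ t, y s(z, v) ≤ t → 0 ≤ ff x V (Function.update y s(z, v) t) →
        0 ≤ ff x V y := by
      intro v hv hvz t a1 a2
      rw [ff_aff] at a2
      rw [ff_self V y s(z, v)]
      nlinarith [mul_nonneg (sub_nonneg.2 a1) (hS v hv hvz)]
    by_cases hu1 : y s(z, u) = 1 - μ
    swap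
    · refine step u hk.hu hk.uz _ hk.wu.2 (ihm _ p ?_ (hk.upd P h2 h4 (by linarith) le_rfl
        (fun e => absurd rfl e) hk.hi))
      have := lev2_lt (μ := μ) (y := y) (z := z) hk.hu (t := 1 - μ) (by
        simp only [lev2, if_neg n1, if_neg hk.u1, if_neg hu1, if_true]; split_ifs <;> omega)
      omega
    by_cases w2 : ∀ v ∈ V, v ≠ z → v ≠ u → μ ^ 2 ≤ y s(z, v)
    swap
    · push Not at w2
      obtain ⟨v, hv, hvz, hvu, a1⟩ := w2
      refine step v hv hvz _ a1.le (ihm _ p ?_ (hk.upd P h2 h4 (by linarith) hφ'.le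
        (fun _ _ => le_rfl) hk.hi))
      have b1 : y s(z, v) ≠ 1 := by linarith
      have b2 : y s(z, v) ≠ 1 - μ := by linarith
      have := lev2_lt (μ := μ) (y := y) (z := z) hv (t := μ ^ 2) (by
        simp only [lev2, if_neg n2, if_neg n3, if_neg b1, if_neg b2, if_neg a1.ne, if_true]; omega)
      omega
    obtain ⟨d, hd, hdz, hdu, hd1, w1⟩ : ∃ d ∈ V, d ≠ z ∧ d ≠ u ∧ y s(z, d) ≠ 1 ∧
        ∀ v ∈ V, v ≠ z → v ≠ u → v ≠ d → y s(z, v) = 1 ∨ y s(z, v) = μ ^ 2 := by
      by_cases hp : p ∈ V ∧ p ≠ z ∧ p ≠ u ∧ y s(z, p) ≠ 1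
      · exact ⟨p, hp.1, hp.2.1, hp.2.2.1, hp.2.2.2, fun v hv a1 a2 a3 =>
          (hk.hi v hv a1 a2 a3).imp id fun k => le_antisymm k (w2 v hv a1 a2)⟩
      · obtain ⟨d, d1, d2, d3, -, d5⟩ := h.big h4 u u
        refine ⟨d, d1, d2, d3, d5, fun v hv a1 a2 _ => ?_⟩
        by_cases e : v = p
        · left
          by_contra k
          exact hp (e ▸ ⟨hv, a1, a2, k⟩)
        · exact (hk.hi v hv a1 a2 e).imp id fun k => le_antisymm k (w2 v hv a1 a2)
    by_cases hdτ : y s(z, d) = 1 - μ
    swap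
    · refine step d hd hdz _ ((h.w1 d hd hdz).resolve_left hd1).2 (ihm _ d ?_ (hk.upd P h2 h4
        (by linarith) le_rfl (fun _ e => absurd rfl e)
        fun q hq a1 a2 a3 => (w1 q hq a1 a2 a3).imp id le_of_eq))
      have := lev2_lt (μ := μ) (y := y) (z := z) hd (t := 1 - μ) (by
        simp only [lev2, if_neg n1, if_neg hd1, if_neg hdτ, if_true]; split_ifs <;> omega)
      omega
    by_cases hc : ∃ A a b, Cand V y z d A a b
    · classical
      obtain ⟨A₀, a₀, b₀, c₀⟩ := hc
      obtain ⟨A, hA, hmax⟩ := exists_max_image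
        ((univ : Finset (Finset α)).filter fun A => ∃ a b, Cand V y z d A a b) card
        ⟨A₀, by simpa using ⟨a₀, b₀, c₀⟩⟩
      obtain ⟨a, b, c⟩ := (mem_filter.1 hA).2
      exact cand_step2 P ih hn h4 h h2 hk.hu hk.uz hdu.symm hu1 w1 hdτ c fun A' a' b' c' =>
        hmax A' (by simpa using ⟨a', b', c'⟩)
    refine step d hd hdz 1 (by linarith) ?_
    set y' := Function.update y s(z, d) 1 with hy'
    have e1 : ∀ p q, p ≠ z → q ≠ z → y' s(p, q) = y s(p, q) :=
      fun p q a1 a2 => Function.update_of_ne (by simp [a1, a2]) _ _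
    have e2 : ∀ q, q ≠ d → y' s(z, q) = y s(z, q) :=
      fun q a1 => Function.update_of_ne (fun k => a1 (Sym2.congr_right.1 k)) _ _
    refine del_root2 P ih hn h4 h.hz hk.hu hk.uz (by rw [e2 u hdu.symm]; exact hu1)
      (fun p hp q hq a1 a2 a3 => ?_) (fun v hv hvz hvu => ?_)
      (fun A hA a1 hne hcl => ?_) ?_ (fun X c c' hX a1 hne f1 hcl w hw => ?_)
      (fun hcls => ihm _ z ?_ hcls)
    · rw [e1 p q a1 a2]; exact h.w0 p hp q hq a1 a2 a3
    · by_cases e : v = d
      · rw [e]; exact Or.inl (Function.update_self _ _ _)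
      · rw [e2 v e]; exact w1 v hv hvz hvu e
    · refine h.conn A hA a1 hne fun p hp q hq b1 b2 => ?_
      rw [← e1 p q (fun e => a1 (e ▸ hp)) (by simpa using b2)]
      exact hcl p hp q hq b1 b2
    · obtain ⟨v, v1, v2, v3, v4, v5⟩ := h.big h4 u d
      exact ⟨v, v1, v2, v3, by rw [e2 v v4]; exact v5⟩
    · by_cases hdX : d ∈ X
      · by_contra hw'
        push Not at hw'
        refine hc ⟨X, c, c', hX, a1, hdX, fun p hp hpd => by rw [← e2 p hpd]; exact f1 p hp,
          fun p hp q hq b1 b2 => ?_, w, hw, hw'.2.2.2, hw'.1, hw'.2.1, hw'.2.2.1⟩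
        rw [mem_insert, not_or] at b2
        rw [← e1 p q (fun e => a1 (e ▸ hp)) b2.1]
        exact hcl p hp q hq b1 b2.2
      · have f2 : ∀ p ∈ X, y s(z, p) = 1 := fun p hp => by
          rw [← e2 p (fun e => hdX (e ▸ hp))]; exact f1 p hp
        refine absurd (fun p hp q hq b1 b2 => ?_) (h.hC X c c' hX a1 hne f2)
        by_cases hqz : q = z
        · rw [hqz, Sym2.eq_swap]; exact f2 p hp
        · rw [← e1 p q (fun e => a1 (e ▸ hp)) hqz]; exact hcl p hp q hq b1 b2
    · have := lev2_lt (μ := μ) (y := y) (z := z) hd (t := 1) (by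
        simp only [lev2, if_neg hd1, if_pos hdτ, if_true]; omega)
      rw [← hy'] at this
      omega

theorem mk_nonneg (P : Pn x μ L) (n : ℕ) : IH2 α x μ L n := by
  induction n with
  | zero => intro V y z u p hn; omega
  | succ n ih =>
    intro V y z u p hn h h3
    exact ih_succ2 P ih V z u (by omega) h3 _ y p (Nat.lt_succ_self _) h

theorem plain_ne2 (P : Pn x μ L) (n : ℕ) : ∀ (V : Finset α) (y : Sym2 α → ℝ) (z : α), V.card < n →
    z ∈ V → (∀ u ∈ V, ∀ v ∈ V, u ≠ v → y s(u, v) = 0 ∨ y s(u, v) = 1) →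
    (∀ (A : Finset α) (c d : α), A ⊆ V → z ∉ A → A.Nonempty → (∀ p ∈ A, y s(z, p) = 1) →
      ¬ Cl V y A {c, d}) → ff x V y ≠ 0 := by
  have hx := P.x_pos
  have hτ := P.ρ_pos
  have hT : 0 < L := by linarith [P.L_ge]
  have hτ1 := P.ρ_lt
  have hq : (1 + x) ≠ 0 := by linarith
  induction n with
  | zero => intro V y z hn; omega
  | succ n ih =>
    intro V y z hn hz w hC
    by_cases conn : ∀ A : Finset α, A ⊆ V → z ∉ A → A.Nonempty → Cl V y A {z} →
        ∀ v ∈ V, v ≠ z → v ∈ A
    swap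
    · push Not at conn
      obtain ⟨A, hA, hzA, hne, hcl, v, hv, hvz, hvA⟩ := conn
      have hcut := ff_cut hx hA hz hv hvz.symm hzA hvA (y := y)
        (fun p hp q hq a1 a2 _ => hcl p hp q hq a1 (by simpa using a2))
      have hvU : v ∉ insert z A := by simp [hvz, hvA]
      have hva : ∀ p ∈ A, y s(v, p) = 1 := fun p hp => by
        rw [Sym2.eq_swap]; exact hcl p hp v hv hvA (by simpa using hvz)
      have s1 : Sv x (insert z (insert v A)) y s(z, v) = ff x (insert z A) y := by
        rw [Sv_merge hx (by simp) (by simp) hvz.symm, Finset.insert_comm, erase_insert hvU]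
        refine ff_congr fun p hp q hq hpq => ?_
        by_cases a1 : p = z
        · rw [a1, mergeW_self, hva q ((mem_insert.1 hq).resolve_left fun e => hpq (a1.trans e.symm)),
            mul_one]
        by_cases a2 : q = z
        · rw [a2, Sym2.eq_swap, mergeW_self, hva p ((mem_insert.1 hp).resolve_left a1), mul_one]
        rw [mergeW_of_ne _ _ a1 a2]
      have s2 := ff_aff (x := x) (insert z (insert v A)) y s(z, v) 1
      rw [s1, Finset.insert_comm z v, ff_isolated hx hvU, ff_congr (y' := y),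
        Finset.insert_comm v z] at s2
      · have s3 : Dv x (insert z (insert v A)) y s(z, v) = -x * ff x (insert z A) y := by linarith
        rw [s1, s3] at hcut
        have s4 := ff_self (x := x) (V \ A) y s(z, v)
        have k1 := ih (insert z A) y z (by
            have : (insert z A).card < V.card := card_lt_card
              (ssubset_iff_of_subset (insert_subset hz hA) |>.2 ⟨v, hv, hvU⟩)
            omega) (mem_insert_self _ _)
          (fun p hp q hq => w p (insert_subset hz hA hp) q (insert_subset hz hA hq))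
          (fun X c d hX a1 hne' f1 hc => hC X c d (hX.trans (insert_subset hz hA)) a1 hne' f1
            fun p hp q hq b1 b2 => by
              by_cases hq' : q ∈ insert z A
              · exact hc p hp q hq' b1 b2
              · rw [mem_insert, not_or] at hq'
                exact hcl p ((mem_insert.1 (hX hp)).resolve_left fun e => a1 (e ▸ hp)) q hq hq'.2
                  (by simpa using hq'.1))
        have k2 := ih (V \ A) y z (by
            obtain ⟨p, hp⟩ := hne
            have : (V \ A).card < V.card := card_lt_card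
              (ssubset_iff_of_subset sdiff_subset |>.2 ⟨p, hA hp, by simp [hp]⟩)
            omega) (mem_sdiff.2 ⟨hz, hzA⟩)
          (fun p hp q hq => w p (mem_sdiff.1 hp).1 q (mem_sdiff.1 hq).1)
          (fun X c d hX a1 hne' f1 hc => hC X c d (hX.trans sdiff_subset) a1 hne' f1
            fun p hp q hq b1 b2 => by
              by_cases hq' : q ∈ A
              · rw [Sym2.eq_swap]
                exact hcl q hq' p (mem_sdiff.1 (hX hp)).1 (mem_sdiff.1 (hX hp)).2
                  (by simpa using fun e : p = z => a1 (e ▸ hp))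
              · exact hc p hp q (mem_sdiff.2 ⟨hq, hq'⟩) b1 b2)
        intro h0
        rw [h0] at hcut
        have : x * (ff x (insert z A) y * ff x (V \ A) y) = 0 := by
          rw [s4]; linear_combination hcut
        exact mul_ne_zero hx.ne' (mul_ne_zero k1 k2) this
      · intro p hp q hq _
        refine Function.update_of_ne (fun e => ?_) _ _
        rcases Sym2.eq_iff.1 e with e | e
        · exact hvU (e.2 ▸ hq)
        · exact hvU (e.1 ▸ hp)
      · intro p hp
        by_cases a1 : p = z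
        · rw [a1, Sym2.eq_swap, Function.update_self]
        · rw [Function.update_of_ne (by simp [a1, hvz]),
            hva p ((mem_insert.1 hp).resolve_left a1)]
    have h : Cls (1 - μ) L V y z := ⟨hz, fun p hp q hq _ _ => w p hp q hq, fun v hv hvz => by
      rcases w z hz v hv hvz.symm with e | e
      · rw [e]; exact Or.inr ⟨by linarith, hτ.le⟩
      · exact Or.inl e, hC, conn⟩
    by_cases h1 : V.card ≤ 1
    · rw [ff_ones hx fun a ha b hb hab => absurd (card_le_one.1 h1 a ha b hb) hab]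
      exact mul_ne_zero (pow_ne_zero _ (by norm_num)) (pow_ne_zero _ hq)
    by_cases h2 : V.card = 2
    · refine (ff_card_two hx h2 fun p hp q hq hpq => ?_).ne'
      rcases w p hp q hq hpq with e | e <;> simp [e]
    obtain ⟨v, hv, hv0⟩ : ∃ v ∈ V.erase z, y s(z, v) ≠ 1 := by
      by_contra hno
      push Not at hno
      refine hC (V.erase z) z z (erase_subset _ _) (notMem_erase _ _)
        (by rw [← card_pos, card_erase_of_mem hz]; omega) hno fun p _ q hq a1 a2 => ?_
      exact absurd (mem_erase.2 ⟨by simpa using a2, hq⟩) a1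
    have hvz := ne_of_mem_erase hv
    have hvV := mem_of_mem_erase hv
    have e0 := (w z hz v hvV hvz.symm).resolve_right hv0
    have k0 : ∀ t, -L ≤ t → t ≤ 1 - μ → 0 ≤ ff x V (Function.update y s(z, v) t) := by
      intro t a1 a2
      refine mk_nonneg P _ V _ z v z (Nat.lt_succ_self _) (mk_of P (h.update hτ1 v a1 a2) hvV hvz
        (by rw [Function.update_self]; linarith) fun q hq b1 b2 => ?_) (by omega)
      rw [Function.update_of_ne (fun e => b2 (Sym2.congr_right.1 e))]
      rcases w z hz q hq b1.symm with e | e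
      · rw [e]; exact Or.inr ⟨by linarith [P.hμ], P.φ_pos.le⟩
      · exact Or.inl e
    have k1 := k0 _ (by linarith) le_rfl
    have k2 := k0 _ le_rfl (by linarith)
    have w' : ∀ p ∈ V.erase v, ∀ q ∈ V.erase v, p ≠ q →
        mergeW y z v s(p, q) = 0 ∨ mergeW y z v s(p, q) = 1 := by
      have key : ∀ q ∈ V.erase v, z ≠ q →
          mergeW y z v s(z, q) = 0 ∨ mergeW y z v s(z, q) = 1 := by
        intro q hq hzq
        rw [mergeW_self]
        rcases w z hz q (mem_of_mem_erase hq) hzq with e | e <;>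
        rcases w v hvV q (mem_of_mem_erase hq) (ne_of_mem_erase hq).symm with e' | e' <;>
        simp [e, e']
      intro p hp q hq hpq
      by_cases a1 : p = z
      · rw [a1]; exact key q hq (a1 ▸ hpq)
      by_cases a2 : q = z
      · rw [a2, Sym2.eq_swap]; exact key p hp (Ne.symm a1)
      rw [mergeW_of_ne _ _ a1 a2]
      exact w p (mem_of_mem_erase hp) q (mem_of_mem_erase hq) hpq
    have k3 := ih (V.erase v) (mergeW y z v) z (by rw [card_erase_of_mem hvV]; omega)
      (mem_erase.2 ⟨hvz.symm, hz⟩) w' (fun X c d hX a1 hne f1 hc => by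
        have key : ∀ p ∈ X, y s(z, p) = 1 ∧ y s(v, p) = 1 := by
          intro p hp
          have h1 := f1 p hp
          rw [mergeW_self] at h1
          exact mul_eq_one_of (w v hvV p (mem_of_mem_erase (hX hp))
            (ne_of_mem_erase (hX hp)).symm) h1
        refine hC X c d (hX.trans (erase_subset _ _)) a1 hne (fun p hp => (key p hp).1)
          fun p hp q hq b1 b2 => ?_
        by_cases hqv : q = v
        · rw [hqv, Sym2.eq_swap]; exact (key p hp).2
        by_cases hqz : q = z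
        · rw [hqz, Sym2.eq_swap]; exact (key p hp).1
        rw [← mergeW_of_ne y v (u := z) (fun e => a1 (e ▸ hp)) hqz]
        exact hc p hp q (mem_erase.2 ⟨hqv, hq⟩) b1 b2)
    rw [← Sv_merge hx hz hvV hvz.symm] at k3
    rw [ff_aff] at k1 k2
    rw [ff_self V y s(z, v), e0]
    intro h0
    rcases lt_or_gt_of_ne k3 with k | k
    · nlinarith
    · nlinarith

theorem chrom_pos_root2 (P : Pn x μ L) {n : ℕ} (G : SimpleGraph (Fin n)) [DecidableRel G.Adj]
    (hn : 3 ≤ n) (z : Fin n)
    (hz : (G.induce ((↑({z} : Finset (Fin n)) : Set (Fin n))ᶜ)).Connected)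
    (hG : ∀ S : Finset (Fin n), S.card ≤ 2 → z ∉ S →
      (G.induce ((↑S : Set (Fin n))ᶜ)).Connected) :
    0 < (-1 : ℝ) ^ n * ∑ T ∈ G.edgeFinset.powerset, (-1 : ℝ) ^ T.card * (1 + x) ^
      Nat.card (SimpleGraph.fromEdgeSet (↑T : Set (Sym2 (Fin n)))).ConnectedComponent := by
  rw [← whitney_eq P.x_pos G]
  set y : Sym2 (Fin n) → ℝ := fun e => if e ∈ G.edgeFinset then (0 : ℝ) else 1 with hy
  have w : ∀ e, y e = 0 ∨ y e = 1 := fun e => by
    rw [hy]
    by_cases h : e ∈ G.edgeFinset <;> simp only [h, if_true, if_false] <;> simp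
  have hC : ∀ (A : Finset (Fin n)) (c d : Fin n), A ⊆ univ → z ∉ A → A.Nonempty →
      (∀ p ∈ A, y s(z, p) = 1) → ¬ Cl univ y A {c, d} := by
    intro A c d _ hzA ⟨u, hu⟩ f1 hc
    have hS : ((({c, d} : Finset (Fin n)) \ A).erase z).card ≤ 2 :=
      (card_le_card ((erase_subset _ _).trans sdiff_subset)).trans card_le_two
    refine hzA (closed_walk G (hG _ hS (notMem_erase _ _)) (fun p hp q hq a1 a2 => ?_) hu
      (fun e => (mem_sdiff.1 (mem_of_mem_erase e)).2 hu) (notMem_erase _ _))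
    by_cases hqz : q = z
    · rw [hqz, Sym2.eq_swap]; exact f1 p hp
    · exact hc p hp q hq a1 fun e => a2 (mem_erase.2 ⟨hqz, mem_sdiff.2 ⟨e, a1⟩⟩)
  have h : Cls (1 - μ) L univ y z := ⟨mem_univ _, fun _ _ _ _ _ _ _ => w _, fun v _ _ => by
      rcases w s(z, v) with e | e
      · rw [e]; exact Or.inr ⟨by linarith [P.L_ge], P.ρ_pos.le⟩
      · exact Or.inl e, hC, fun A _ hzA ⟨u, hu⟩ hc v _ hvz =>
    closed_walk G hz hc hu (by simpa using fun e : u = z => hzA (e ▸ hu)) (by simpa using hvz)⟩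
  obtain ⟨u, hu⟩ := mk_plain P h (by simp; omega) fun v _ _ => w _
  exact lt_of_le_of_ne (mk_nonneg P _ _ _ z u z (Nat.lt_succ_self _) hu (by simpa using hn))
    (plain_ne2 P _ _ _ z (Nat.lt_succ_self _) (mem_univ _) (fun _ _ _ _ _ => w _) hC).symm

theorem pn_of (h0 : 0 < x) (h1 : x ≤ 1 / 4) : ∃ μ L, Pn x μ L := by
  have h2 : Real.sqrt (1 - 4 * x) ^ 2 = 1 - 4 * x := Real.sq_sqrt (by linarith)
  have h3 := Real.sqrt_nonneg (1 - 4 * x)
  have h4 : Real.sqrt (1 - 4 * x) < 1 := by nlinarith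
  have h5 : 0 < (1 - Real.sqrt (1 - 4 * x)) / 2 := by linarith
  refine ⟨(1 - Real.sqrt (1 - 4 * x)) / 2, (1 - (1 - Real.sqrt (1 - 4 * x)) / 2) /
    ((1 - Real.sqrt (1 - 4 * x)) / 2), h5, by linarith, by nlinarith, mul_div_cancel₀ _ h5.ne'⟩

end Pool.Agent.Lib.MP_efe3d7_co
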