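import Pool.Agent.Lib.MP_efe3d7_co.Merge

/-! The main induction. -/

set_option autoImplicit false

open Finset

namespace Pool.Agent.Lib.MP_efe3d7_co

variable {α : Type} [Fintype α] [DecidableEq α] {x μ μ' ρ z zz g : ℝ}

/-- The edges other than the terminal edge. -/
def EE (E : Finset (Sym2 α)) (V : Finset α) (r t : α) : Finset (Sym2 α) :=
  (E ∩ pairs V).erase s(r, t)

omit [Fintype α] in
theorem mk_mem_EE {E : Finset (Sym2 α)} {V : Finset α} {r t a b : α} :
    s(a, b) ∈ EE E V r t ↔ s(a, b) ≠ s(r, t) ∧ s(a, b) ∈ E ∧ a ∈ V ∧ b ∈ V ∧ a ≠ b := by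
  rw [EE, mem_erase, mem_inter, mk_mem_pairs]

/-- The scale of an edge. -/
noncomputable def sc (r : α) (τ μ : ℝ) (e : Sym2 α) : ℝ := if r ∈ e then τ else μ

/-- Admissible weights, one of which may be somewhat larger. -/
structure AdmX (E : Finset (Sym2 α)) (V : Finset α) (y : Sym2 α → ℝ) (r t : α) (τ μ g : ℝ)
    (o : Option (Sym2 α)) : Prop where
  non : ∀ e ∈ pairs V, e ∉ E → y e = 1
  bd : ∀ e ∈ EE E V r t, -sc r τ μ e ≤ y e ∧ y e ≤ g ∧ (o ≠ some e → y e ≤ sc r τ μ e ^ 2)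

omit [Fintype α] in
theorem adm_of {E : Finset (Sym2 α)} {V : Finset α} {y : Sym2 α → ℝ} {r t : α} {τ m : ℝ}
    (hr : r ∈ V) (h1 : ∀ e ∈ pairs V, e ∉ E → y e = 1)
    (h2 : ∀ e ∈ EE E V r t, -sc r τ μ e ≤ y e ∧ y e ≤ sc r τ μ e ^ 2 ∧ (r ∉ e → y e ≤ m)) :
    Adm E V y r t τ μ m := by
  refine ⟨fun a ha b hb hab h => h1 _ (mk_mem_pairs.2 ⟨ha, hb, hab⟩) h,
    fun b hb hbr hbt h => ?_, fun a ha b hb hab har hbr h => ?_⟩
  · have := h2 _ (mk_mem_EE.2 ⟨fun e => hbt (Sym2.congr_right.1 e), h, hr, hb, hbr.symm⟩)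
    rw [sc, if_pos (Sym2.mem_mk_left r b)] at this
    exact ⟨this.1, this.2.1⟩
  · have h3 : r ∉ s(a, b) := by simp [har.symm, hbr.symm]
    have := h2 _ (mk_mem_EE.2 ⟨by simp [har, hbr], h, ha, hb, hab⟩)
    rw [sc, if_neg h3] at this
    exact ⟨this.1, this.2.2 h3⟩

omit [Fintype α] in
theorem Adm.admX {E : Finset (Sym2 α)} {V : Finset α} {y : Sym2 α → ℝ} {r t : α} {τ : ℝ}
    (hA : Adm E V y r t τ μ (μ ^ 2)) (h1 : τ ^ 2 ≤ g) (h2 : μ ^ 2 ≤ g) :
    AdmX E V y r t τ μ g none := by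
  have key : ∀ e ∈ EE E V r t, -sc r τ μ e ≤ y e ∧ y e ≤ sc r τ μ e ^ 2 := by
    intro e he
    induction e using Sym2.ind with
    | h a b =>
      obtain ⟨a1, a2, ha, hb, hab⟩ := mk_mem_EE.1 he
      by_cases har : a = r
      · subst har
        rw [sc, if_pos (Sym2.mem_mk_left a b)]
        exact hA.root b hb hab.symm (fun e => a1 (e ▸ rfl)) a2
      by_cases hbr : b = r
      · subst hbr
        rw [sc, if_pos (Sym2.mem_mk_right a b)]
        rw [Sym2.eq_swap] at a1 a2 ⊢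
        exact hA.root a ha hab (fun e => a1 (e ▸ rfl)) a2
      · rw [sc, if_neg (by simp [Ne.symm har, Ne.symm hbr])]
        exact hA.rest a ha b hb hab har hbr a2
  refine ⟨fun e he h => ?_, fun e he => ⟨(key e he).1, (key e he).2.trans ?_, fun _ => (key e he).2⟩⟩
  · induction e using Sym2.ind with
    | h a b =>
      obtain ⟨ha, hb, hab⟩ := mk_mem_pairs.1 he
      exact hA.non a ha b hb hab h
  · unfold sc
    split_ifs
    · exact h1
    · exact h2

/-- Changing the weight of an optional edge. -/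
noncomputable def upd (y : Sym2 α → ℝ) (o : Option (Sym2 α)) (s : ℝ) (e : Sym2 α) : ℝ :=
  if o = some e then s else y e

omit [Fintype α] in
theorem upd_none (y : Sym2 α → ℝ) (s : ℝ) : upd y none s = y := by
  funext e; simp [upd]

omit [Fintype α] in
theorem upd_some (y : Sym2 α → ℝ) (e : Sym2 α) (s : ℝ) :
    upd y (some e) s = Function.update y e s := by
  funext e'
  simp [upd, Function.update_apply, eq_comm]

omit [Fintype α] in
theorem upd_comm (y : Sym2 α → ℝ) {o o' : Option (Sym2 α)} (h : ∀ e, o = some e → o' ≠ some e)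
    (s s' : ℝ) : upd (upd y o s) o' s' = upd (upd y o' s') o s := by
  funext e
  unfold upd
  by_cases h1 : o = some e
  · rw [if_neg (h e h1), if_pos h1, if_pos h1]
  · rw [if_neg h1, if_neg h1]

theorem FF_upd {V : Finset α} {e : Sym2 α} {o : Option (Sym2 α)} (he : o ≠ some e) (τ : ℝ)
    (y : Sym2 α → ℝ) (s : ℝ) : FF x τ V (upd y o s) e = FF x τ V (upd y o 0) e +
      s * (FF x τ V (upd y o 1) e - FF x τ V (upd y o 0) e) := by
  cases o with
  | none => simp [upd_none]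
  | some e' =>
    simp only [upd_some]
    exact FF_aff (fun h : e' = e => he (h ▸ rfl)) τ y s

theorem exists_filter {β : Type} (h : Option β) (p : β → Prop) :
    ∃ k : Option β, (∀ e, k = some e → e ∈ h ∧ p e) ∧ ∀ e ∈ h, k = some e ∨ ¬ p e := by
  cases h with
  | none => exact ⟨none, by simp, by simp⟩
  | some e =>
    by_cases hp : p e
    · exact ⟨some e, fun e' he => Option.some.inj he ▸ ⟨rfl, hp⟩, fun e' he => Or.inl he⟩
    · exact ⟨none, by simp, fun e' he => Or.inr (Option.some.inj he ▸ hp)⟩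

/-- Number of positive weights. -/
noncomputable def kp (S : Finset (Sym2 α)) (y : Sym2 α → ℝ) : ℕ := (S.filter fun e => 0 < y e).card

/-- Number of negative weights. -/
noncomputable def kn (S : Finset (Sym2 α)) (y : Sym2 α → ℝ) : ℕ := (S.filter fun e => y e < 0).card

theorem FF_nonneg (P : Par x μ μ' ρ z zz g) {n m : ℕ} (hI : IH α x μ ρ n m)
    {E : Finset (Sym2 α)} {V : Finset α} (hn : V.card = n) (hm : E.card = m) (hN : NoSep E V)
    (h4 : 4 ≤ V.card) {r t : α} (hr : r ∈ V) (ht : t ∈ V) (hrt : r ≠ t) (hE : s(r, t) ∈ E)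
    {big : Prop} {τ : ℝ} (hτ : (big ∧ τ = ρ) ∨ (¬ big ∧ τ = μ)) :
    ∀ (k j : ℕ) (y : Sym2 α → ℝ) (o : Option (Sym2 α)), kp (EE E V r t) y ≤ k →
      kn (EE E V r t) y ≤ j → AdmX E V y r t τ μ g o → 0 ≤ FF x τ V y s(r, t) := by
  have hμ := P.hμ
  have hμτ : μ ≤ τ := by rcases hτ with h | h <;> linarith [h.2, P.μρ]
  have hτρ : τ ≤ ρ := by rcases hτ with h | h <;> linarith [h.2, P.μρ]
  have hτ' : τ = μ ∨ τ = ρ := by rcases hτ with h | h <;> simp [h.2]
  have hsc : ∀ e, μ ≤ sc r τ μ e := fun e => by unfold sc; split_ifs <;> linarith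
  have hsc2 : ∀ e, μ ^ 2 ≤ sc r τ μ e ^ 2 := fun e => pow_le_pow_left₀ hμ.le (hsc e) 2
  have hg : μ ^ 2 ≤ g := le_trans (pow_le_pow_left₀ hμ.le P.μρ 2) P.ρg
  have hM0 : 0 ≤ μ ^ 2 := sq_nonneg μ
  have hdel : ∀ u v, s(u, v) ∈ EE E V r t → _ := fun u v huv =>
    del P hI hn (E := E.erase s(u, v)) (hm ▸ card_erase_lt_of_mem (mk_mem_EE.1 huv).2.1) h4 hr ht
      hrt (mem_erase.2 ⟨(mk_mem_EE.1 huv).1.symm, hE⟩) (hN.marked_erase h4 u v)
      (Sym2.eq_swap (a := v) ▸ hN.marked_erase h4 v u) hτ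
  have hEE : ∀ e₀, ∀ e ∈ EE (E.erase e₀) V r t, e ∈ EE E V r t ∧ e ≠ e₀ := by
    intro e₀ e he
    simp only [EE, mem_erase, mem_inter] at he ⊢
    tauto
  have hHd : ∀ e₀ e, Hd (E.erase e₀) V r t big e → e ∈ EE E V r t ∧ e ≠ e₀ ∧ sc r τ μ e = μ := by
    rintro e₀ e ⟨a1, a2, a3, p, hp, q, hq, hpq, rfl⟩
    refine ⟨mk_mem_EE.2 ⟨a2, mem_of_mem_erase a1, hp, hq, hpq⟩, (mem_erase.1 a1).1, ?_⟩
    unfold sc
    split_ifs with h
    · rcases hτ with h1 | h1
      · exact absurd h (a3 h1.1)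
      · exact h1.2
    · rfl
  intro k
  induction k using Nat.strong_induction_on with
  | _ k ih1 =>
  intro j
  induction j using Nat.strong_induction_on with
  | _ j ih2 =>
  intro y o hk hj hA
  by_cases hpos : ∃ e ∈ EE E V r t, 0 < y e
  swap
  · push Not at hpos
    have hA0 : Adm E V y r t τ μ 0 := adm_of hr hA.non fun e he =>
      ⟨(hA.bd e he).1, (hpos e he).trans (sq_nonneg _), fun _ => hpos e he⟩
    have htri : ∀ y₁ y₂, -τ ≤ y₁ → y₁ ≤ τ ^ 2 → -μ ≤ y₂ → y₂ ≤ 0 → Tri x y₁ y₂ τ := by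
      intro y₁ y₂ a1 a2 a3 a4
      rcases hτ' with h | h
      · rw [h] at a1 a2 ⊢
        exact P.tri2 _ _ (by linarith [P.μμ']) (by nlinarith [P.μμ']) a3 (by linarith [P.z0])
      · rw [h] at a1 a2 ⊢
        exact P.tri3 _ _ a1 a2 a3 (by linarith)
    have hmer : ∀ v, s(r, v) ∈ EE E V r t → FF x τ V (Function.update y s(r, v) 1) s(r, t) ≤
        FF x τ V (Function.update y s(r, v) 0) s(r, t) := by
      intro v hv
      obtain ⟨a1, a2, -, a4, a5⟩ := mk_mem_EE.1 hv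
      exact FF_merge P hI hn hN h4 hr ht a4 hrt a5 (fun e => a1 (e ▸ rfl)) hE hτ' hμτ le_rfl hM0
        htri (Or.inl le_rfl) hA0
    by_cases hneg : ∃ v, s(r, v) ∈ EE E V r t ∧ y s(r, v) < 0
    · obtain ⟨v, hv, hv'⟩ := hneg
      have h1 := FF_aff (x := x) (V := V) (mk_mem_EE.1 hv).1 τ y (y s(r, v))
      rw [Function.update_eq_self] at h1
      have h2 : 0 ≤ FF x τ V (Function.update y s(r, v) 0) s(r, t) := by
        refine ih2 _ (lt_of_lt_of_le ?_ hj) _ none ?_ le_rfl ⟨fun e he h => ?_, fun e he => ?_⟩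
        · refine card_lt_card ⟨fun e he => ?_, fun h => ?_⟩
          · obtain ⟨a1, a2⟩ := mem_filter.1 he
            by_cases h : e = s(r, v)
            · rw [h, Function.update_self] at a2; exact absurd a2 (lt_irrefl _)
            · rw [Function.update_of_ne h] at a2; exact mem_filter.2 ⟨a1, a2⟩
          · have := (mem_filter.1 (h (mem_filter.2 ⟨hv, hv'⟩))).2
            rw [Function.update_self] at this
            exact absurd this (lt_irrefl _)
        · refine le_trans (card_le_card fun e he => ?_) hk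
          obtain ⟨a1, a2⟩ := mem_filter.1 he
          by_cases h : e = s(r, v)
          · rw [h, Function.update_self] at a2; exact absurd a2 (lt_irrefl _)
          · rw [Function.update_of_ne h] at a2; exact mem_filter.2 ⟨a1, a2⟩
        · rw [Function.update_of_ne fun e' : e = s(r, v) => h (e' ▸ (mk_mem_EE.1 hv).2.1)]
          exact hA.non e he h
        · by_cases h : e = s(r, v)
          · rw [h, Function.update_self]
            exact ⟨by linarith [hsc s(r, v)], by linarith, fun _ => sq_nonneg _⟩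
          · rw [Function.update_of_ne h]
            exact ⟨(hA.bd e he).1, (hA.bd e he).2.1, fun _ => (hpos e he).trans (sq_nonneg _)⟩
      nlinarith [mul_nonneg (neg_nonneg.2 hv'.le) (sub_nonneg.2 (hmer v hv))]
    · push Not at hneg
      obtain ⟨v, hv, hvr, hvt, hvE⟩ := exists_nbr (hN t t) (by omega) hr ht hrt
      have hv' : s(r, v) ∈ EE E V r t :=
        mk_mem_EE.2 ⟨fun e => hvt (Sym2.congr_right.1 e), hvE, hr, hv, hvr.symm⟩
      have h0 : y s(r, v) = 0 := le_antisymm (hpos _ hv') (hneg v hv')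
      obtain ⟨h₁, h₂, o', d1, d2, -, d4, d5⟩ := hdel r v hv'
      have h1 := d5 (Function.update y s(r, v) 1) (adm_of hr (fun e he h => ?_) fun e he => ?_)
        (fun e he => ?_) (fun e he => ?_) (fun a ha => ?_)
      · have h2 := hmer v hv'
        rw [← h0, Function.update_eq_self] at h2
        linarith
      · by_cases h' : e = s(r, v)
        · rw [h', Function.update_self]
        · rw [Function.update_of_ne h']
          exact hA.non e he fun h2 => h (mem_erase.2 ⟨h', h2⟩)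
      · obtain ⟨a1, a2⟩ := hEE _ e he
        rw [Function.update_of_ne a2]
        exact ⟨(hA.bd e a1).1, (hpos e a1).trans (sq_nonneg _), fun _ => (hpos e a1).trans hM0⟩
      · obtain ⟨a1, a2, -⟩ := hHd _ e (d1 e he)
        rw [Function.update_of_ne a2]
        exact (hpos e a1).trans P.z0
      · obtain ⟨a1, a2, -⟩ := hHd _ e (d2 e he)
        rw [Function.update_of_ne a2]
        exact (hpos e a1).trans P.z0
      · obtain ⟨-, a1, a2, a3, a4, -⟩ := d4 a ha
        rw [Function.update_of_ne (mem_erase.1 a4).1]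
        exact le_trans (by linarith [P.zz0]) (hneg a (mk_mem_EE.2
          ⟨fun e => a3 (Sym2.congr_right.1 e).symm, mem_of_mem_erase a4, hr, a1, a2⟩))
  obtain ⟨e₀, he₀, hy₀, hA'⟩ : ∃ e₀ ∈ EE E V r t, 0 < y e₀ ∧ AdmX E V y r t τ μ g (some e₀) := by
    by_cases h : ∃ e ∈ EE E V r t, 0 < y e ∧ o = some e
    · obtain ⟨e, a1, a2, a3⟩ := h
      exact ⟨e, a1, a2, a3 ▸ hA⟩
    · obtain ⟨e, a1, a2⟩ := hpos
      refine ⟨e, a1, a2, hA.non, fun e' he' => ⟨(hA.bd e' he').1, (hA.bd e' he').2.1, fun _ => ?_⟩⟩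
      by_cases h1 : o = some e'
      · exact le_trans (not_lt.1 fun h2 => h ⟨e', he', h2, h1⟩) (sq_nonneg _)
      · exact (hA.bd e' he').2.2 h1
  clear hA hpos
  induction e₀ using Sym2.ind with
  | h u v =>
  obtain ⟨h₁, h₂, o', d1, d2, d3, d4, d5⟩ := hdel u v he₀
  generalize s(u, v) = e₀ at *
  obtain ⟨k₁, p1, q1⟩ := exists_filter h₁ fun e => z < y e
  obtain ⟨k₂, p2, q2⟩ := exists_filter h₂ fun e => z < y e
  obtain ⟨k₃, p3, q3⟩ := exists_filter (o'.map fun a => s(r, a)) fun e => y e < -zz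
  have p3' : ∀ e, k₃ = some e → ∃ a ∈ o', e = s(r, a) ∧ y e < -zz := by
    intro e he
    obtain ⟨a1, a2⟩ := p3 e he
    obtain ⟨a, ha, rfl⟩ := Option.mem_map.1 a1
    exact ⟨a, ha, rfl, a2⟩
  have r1 : ∀ e, k₁ = some e → e ∈ EE E V r t ∧ e ≠ e₀ ∧ sc r τ μ e = μ ∧ 0 < y e := fun e he =>
    have := hHd _ e (d1 e (p1 e he).1)
    ⟨this.1, this.2.1, this.2.2, lt_of_le_of_lt P.z0 (p1 e he).2⟩
  have r2 : ∀ e, k₂ = some e → e ∈ EE E V r t ∧ e ≠ e₀ ∧ sc r τ μ e = μ ∧ 0 < y e := fun e he =>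
    have := hHd _ e (d2 e (p2 e he).1)
    ⟨this.1, this.2.1, this.2.2, lt_of_le_of_lt P.z0 (p2 e he).2⟩
  have r3 : ∀ e, k₃ = some e → e ∈ EE E V r t ∧ e ≠ e₀ ∧ sc r τ μ e = μ ∧ y e < 0 := by
    intro e he
    obtain ⟨a, ha, rfl, a2⟩ := p3' e he
    obtain ⟨b0, b1, b2, b3, b4, -⟩ := d4 a ha
    refine ⟨mk_mem_EE.2 ⟨fun e => b3 (Sym2.congr_right.1 e).symm, mem_of_mem_erase b4, hr, b1, b2⟩,
      (mem_erase.1 b4).1, ?_, by linarith [P.zz0]⟩
    rw [sc, if_pos (Sym2.mem_mk_left r a)]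
    exact (hτ.resolve_left fun h => b0 h.1).2
  have c01 : ∀ e, some e₀ = some e → k₁ ≠ some e := fun e he h =>
    (r1 e h).2.1 (Option.some.inj he).symm
  have c02 : ∀ e, some e₀ = some e → k₂ ≠ some e := fun e he h =>
    (r2 e h).2.1 (Option.some.inj he).symm
  have c03 : ∀ e, some e₀ = some e → k₃ ≠ some e := fun e he h =>
    (r3 e h).2.1 (Option.some.inj he).symm
  have c12 : ∀ e, k₁ = some e → k₂ ≠ some e := fun e he h => d3 e (p1 e he).1 e (p2 e h).1 rfl
  have c13 : ∀ e, k₁ = some e → k₃ ≠ some e := fun e he h => by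
    linarith [(r1 e he).2.2.2, (r3 e h).2.2.2]
  have c23 : ∀ e, k₂ = some e → k₃ ≠ some e := fun e he h => by
    linarith [(r2 e he).2.2.2, (r3 e h).2.2.2]
  have hrtE : s(r, t) ∉ EE E V r t := notMem_erase _ _
  obtain ⟨Y, hY⟩ : ∃ Y : ℝ → ℝ → ℝ → ℝ → Sym2 α → ℝ, ∀ a b c d,
      Y a b c d = upd (upd (upd (upd y (some e₀) a) k₁ b) k₂ c) k₃ d := ⟨_, fun _ _ _ _ => rfl⟩
  have hval : ∀ a b c d e, (e = e₀ ∧ Y a b c d e = a) ∨ (k₁ = some e ∧ Y a b c d e = b) ∨
      (k₂ = some e ∧ Y a b c d e = c) ∨ (k₃ = some e ∧ Y a b c d e = d) ∨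
      (e ≠ e₀ ∧ k₁ ≠ some e ∧ k₂ ≠ some e ∧ k₃ ≠ some e ∧ Y a b c d e = y e) := by
    intro a b c d e
    rw [hY]
    unfold upd
    split_ifs with a1 a2 a3 a4
    · exact Or.inr (Or.inr (Or.inr (Or.inl ⟨a1, rfl⟩)))
    · exact Or.inr (Or.inr (Or.inl ⟨a2, rfl⟩))
    · exact Or.inr (Or.inl ⟨a3, rfl⟩)
    · exact Or.inl ⟨(Option.some.inj a4).symm, rfl⟩
    · exact Or.inr (Or.inr (Or.inr (Or.inr ⟨fun h => a4 (h ▸ rfl), a3, a2, a1, rfl⟩)))
  have hEsub : ∀ e ∈ EE E V r t, e ∈ E := fun e he => (mem_inter.1 (mem_of_mem_erase he)).1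
  have hnon : ∀ a b c d, ∀ e ∈ pairs V, e ∉ E → Y a b c d e = 1 := by
    intro a b c d e he h
    rcases hval a b c d e with a1 | a1 | a1 | a1 | a1
    · exact absurd (hEsub _ (a1.1 ▸ he₀)) h
    · exact absurd (hEsub _ (r1 e a1.1).1) h
    · exact absurd (hEsub _ (r2 e a1.1).1) h
    · exact absurd (hEsub _ (r3 e a1.1).1) h
    · rw [a1.2.2.2.2]; exact hA'.non e he h
  have hX : ∀ a b c d o, -μ ≤ a → a ≤ g → -μ ≤ b → b ≤ g → -μ ≤ c → c ≤ g → -μ ≤ d → d ≤ 0 →
      (o = some e₀ ∨ a ≤ μ ^ 2) → (o = k₁ ∨ b ≤ μ ^ 2) → (o = k₂ ∨ c ≤ μ ^ 2) →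
      AdmX E V (Y a b c d) r t τ μ g o := by
    intro a b c d o a1 a2 b1 b2 c1 c2 d1 d2 s1 s2 s3
    refine ⟨hnon a b c d, fun e he => ?_⟩
    have t1 := hsc e
    have t2 := hsc2 e
    rcases hval a b c d e with ⟨w1, w2⟩ | ⟨w1, w2⟩ | ⟨w1, w2⟩ | ⟨w1, w2⟩ | ⟨w1, -, -, -, w2⟩ <;>
      rw [w2]
    · exact ⟨by linarith, a2, fun h => (s1.resolve_left (w1 ▸ h)).trans t2⟩
    · exact ⟨by linarith, b2, fun h => (s2.resolve_left (w1 ▸ h)).trans t2⟩
    · exact ⟨by linarith, c2, fun h => (s3.resolve_left (w1 ▸ h)).trans t2⟩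
    · exact ⟨by linarith, by linarith, fun _ => by linarith⟩
    · exact ⟨(hA'.bd e he).1, (hA'.bd e he).2.1, fun _ =>
        (hA'.bd e he).2.2 fun h => w1 (Option.some.inj h).symm⟩
  have hkp : ∀ a b c d, d ≤ 0 → (EE E V r t).filter (fun e => 0 < Y a b c d e) ⊆
      (EE E V r t).filter fun e => 0 < y e := by
    intro a b c d hd e he
    obtain ⟨a1, a2⟩ := mem_filter.1 he
    refine mem_filter.2 ⟨a1, ?_⟩
    rcases hval a b c d e with ⟨w1, w2⟩ | ⟨w1, w2⟩ | ⟨w1, w2⟩ | ⟨w1, w2⟩ | ⟨w1, -, -, -, w2⟩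
    · exact w1 ▸ hy₀
    · exact (r1 e w1).2.2.2
    · exact (r2 e w1).2.2.2
    · linarith
    · exact w2 ▸ a2
  have K : Known μ z zz g (fun a b c d => FF x τ V (Y a b c d) s(r, t)) (k₁ ≠ none) (k₂ ≠ none)
      (k₃ ≠ none) := by
    refine ⟨⟨fun a b c d => ?_, fun a b c d => ?_, fun a b c d => ?_, fun a b c d => ?_⟩,
      fun h a b c d => ?_, fun h a b c d => ?_, fun h a b c d => ?_, fun a b c d h1 h2 => ?_,
      fun h => ?_, fun b c d h => ?_, fun h a b c h1 => ?_⟩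
    · simp only [hY, upd_comm _ c01, upd_comm _ c02, upd_comm _ c03]
      exact FF_upd (fun h : some e₀ = some s(r, t) => hrtE (Option.some.inj h ▸ he₀)) _ _ _
    · simp only [hY, upd_comm _ c12, upd_comm _ c13]
      exact FF_upd (fun h => hrtE (r1 _ h).1) _ _ _
    · simp only [hY, upd_comm _ c23]
      exact FF_upd (fun h => hrtE (r2 _ h).1) _ _ _
    · simp only [hY]
      exact FF_upd (fun h => hrtE (r3 _ h).1) _ _ _
    · simp only [hY, not_not.1 h, upd_none]
    · simp only [hY, not_not.1 h, upd_none]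
    · simp only [hY, not_not.1 h, upd_none]
    · obtain ⟨a1, a2, b1, b2, c1, c2, e1, e2, h1⟩ := h1
      have hlt : kp (EE E V r t) (Y a b c d) < k := by
        refine lt_of_lt_of_le (card_lt_card ⟨hkp a b c d e2, fun h => ?_⟩) hk
        rcases h2 with h2 | ⟨h2, h3⟩ | ⟨h2, h3⟩
        · have := (mem_filter.1 (h (mem_filter.2 ⟨he₀, hy₀⟩))).2
          rcases hval a b c d e₀ with w | w | w | w | w
          · linarith [w.2]
          · exact c01 _ rfl w.1
          · exact c02 _ rfl w.1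
          · exact c03 _ rfl w.1
          · exact w.1 rfl
        · obtain ⟨e, he⟩ := Option.ne_none_iff_exists'.1 h2
          have := (mem_filter.1 (h (mem_filter.2 ⟨(r1 e he).1, (r1 e he).2.2.2⟩))).2
          rcases hval a b c d e with w | w | w | w | w
          · exact (r1 e he).2.1 w.1
          · linarith [w.2]
          · exact c12 _ he w.1
          · exact c13 _ he w.1
          · exact w.2.1 he
        · obtain ⟨e, he⟩ := Option.ne_none_iff_exists'.1 h2
          have := (mem_filter.1 (h (mem_filter.2 ⟨(r2 e he).1, (r2 e he).2.2.2⟩))).2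
          rcases hval a b c d e with w | w | w | w | w
          · exact (r2 e he).2.1 w.1
          · exact c12 _ w.1 he
          · linarith [w.2]
          · exact c23 _ he w.1
          · exact w.2.2.1 he
      rcases h1 with h1 | h1 | h1
      · exact ih1 _ hlt _ _ k₂ le_rfl le_rfl
          (hX a b c d _ a1 a2 b1 b2 c1 c2 e1 e2 (Or.inr h1.1) (Or.inr h1.2) (Or.inl rfl))
      · exact ih1 _ hlt _ _ k₁ le_rfl le_rfl
          (hX a b c d _ a1 a2 b1 b2 c1 c2 e1 e2 (Or.inr h1.1) (Or.inl rfl) (Or.inr h1.2))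
      · exact ih1 _ hlt _ _ (some e₀) le_rfl le_rfl
          (hX a b c d _ a1 a2 b1 b2 c1 c2 e1 e2 (Or.inl rfl) (Or.inr h1.1) (Or.inr h1.2))
    · obtain ⟨e, he⟩ := Option.ne_none_iff_exists'.1 h
      refine ih2 _ (lt_of_lt_of_le (card_lt_card ⟨fun e' he' => ?_, fun h => ?_⟩) hj) _ (some e₀)
        ((card_le_card (hkp _ _ _ _ le_rfl)).trans hk) le_rfl
        (hX _ _ _ _ _ (by linarith) le_rfl (by linarith) hg (by linarith) hg (by linarith) le_rfl
          (Or.inl rfl) (Or.inr le_rfl) (Or.inr le_rfl))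
      · obtain ⟨a1, a2⟩ := mem_filter.1 he'
        refine mem_filter.2 ⟨a1, ?_⟩
        rcases hval g (μ ^ 2) (μ ^ 2) 0 e' with w | w | w | w | w
        · linarith [w.2]
        · linarith [w.2]
        · linarith [w.2]
        · linarith [w.2]
        · exact w.2.2.2.2 ▸ a2
      · have := (mem_filter.1 (h (mem_filter.2 ⟨(r3 e he).1, (r3 e he).2.2.2⟩))).2
        rcases hval g (μ ^ 2) (μ ^ 2) 0 e with w | w | w | w | w
        · linarith [w.2]
        · linarith [w.2]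
        · linarith [w.2]
        · linarith [w.2]
        · exact w.2.2.2.1 he
    · obtain ⟨b1, b2, c1, c2, e1, e2⟩ := h
      have hz := P.zμ
      have hzz := P.zzμ
      have hz0 := P.z0
      refine d5 _ (adm_of hr (fun e he h => ?_) fun e he => ?_) (fun e he => ?_) (fun e he => ?_)
        fun a ha => ?_
      · by_cases h' : e = e₀
        · rcases hval 1 b c d e with w | w | w | w | w
          · exact w.2
          · exact absurd h' (r1 e w.1).2.1
          · exact absurd h' (r2 e w.1).2.1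
          · exact absurd h' (r3 e w.1).2.1
          · exact absurd h' w.1
        · exact hnon _ _ _ _ e he fun h2 => h (mem_erase.2 ⟨h', h2⟩)
      · obtain ⟨a1, a2⟩ := hEE _ e he
        have t1 := hsc e
        have t2 := hsc2 e
        rcases hval 1 b c d e with ⟨w1, w2⟩ | ⟨w1, w2⟩ | ⟨w1, w2⟩ | ⟨w1, w2⟩ | ⟨w1, -, -, -, w2⟩
        · exact absurd w1 a2
        · rw [w2]; exact ⟨by linarith, by linarith, fun _ => by linarith⟩
        · rw [w2]; exact ⟨by linarith, by linarith, fun _ => by linarith⟩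
        · rw [w2]; exact ⟨by linarith, by linarith, fun _ => by linarith⟩
        · rw [w2]
          have t3 := (hA'.bd e a1).2.2 fun h => w1 (Option.some.inj h).symm
          exact ⟨(hA'.bd e a1).1, t3, fun h => by rwa [sc, if_neg h] at t3⟩
      · rcases hval 1 b c d e with w | w | w | w | w
        · exact absurd w.1 (hHd _ e (d1 e he)).2.1
        · linarith [w.2]
        · linarith [w.2]
        · linarith [w.2]
        · rw [w.2.2.2.2]; exact not_lt.1 ((q1 e he).resolve_left w.2.1)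
      · rcases hval 1 b c d e with w | w | w | w | w
        · exact absurd w.1 (hHd _ e (d2 e he)).2.1
        · linarith [w.2]
        · linarith [w.2]
        · linarith [w.2]
        · rw [w.2.2.2.2]; exact not_lt.1 ((q2 e he).resolve_left w.2.2.1)
      · obtain ⟨-, -, -, -, -, -, a1, a2⟩ := d4 a ha
        rcases hval 1 b c d s(r, a) with w | w | w | w | w
        · linarith [w.2, P.zz0]
        · exact absurd rfl (a1 _ (p1 _ w.1).1)
        · exact absurd rfl (a2 _ (p2 _ w.1).1)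
        · linarith [w.2]
        · rw [w.2.2.2.2]
          exact not_lt.1 ((q3 _ (Option.mem_map.2 ⟨a, ha, rfl⟩)).resolve_left w.2.2.2.1)
    · obtain ⟨e, he⟩ := Option.ne_none_iff_exists'.1 h
      obtain ⟨a', ha', rfl, -⟩ := p3' e he
      obtain ⟨-, b1, b2, b3, -, b5, -⟩ := d4 a' ha'
      obtain ⟨a1, a2, a3, a4, a5, a6⟩ := h1
      have hAd := hX a b c 0 none a1 (a2.trans hg) a3 (a4.trans hg) a5 (a6.trans hg) (by linarith)
        le_rfl (Or.inr a2) (Or.inr a4) (Or.inr a6)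
      have := FF_merge P hI hn hN h4 hr ht b1 hrt b2 b3 hE (Or.inr rfl) hμτ hτρ le_rfl P.tri3
        (Or.inr (mem_of_mem_erase b5)) (y := Y a b c 0) (adm_of hr hAd.non fun e he =>
          ⟨(hAd.bd e he).1, (hAd.bd e he).2.2 (by simp), fun h => by
            have t3 := (hAd.bd e he).2.2 (by simp)
            rwa [sc, if_neg h] at t3⟩)
      simp only [hY, he, upd_some, Function.update_idem] at this ⊢
      exact this
  have hb : ∀ k' : Option (Sym2 α), (∀ e, k' = some e → e ∈ EE E V r t ∧ e ≠ e₀ ∧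
      sc r τ μ e = μ ∧ 0 < y e) → ∃ b, 0 ≤ b ∧ b ≤ μ ^ 2 ∧ ∀ e, k' = some e → y e = b := by
    intro k' h
    cases k' with
    | none => exact ⟨0, le_rfl, hM0, by simp⟩
    | some e =>
      obtain ⟨a1, a2, a3, a4⟩ := h e rfl
      exact ⟨y e, a4.le, a3 ▸ (hA'.bd e a1).2.2 fun h => a2 (Option.some.inj h).symm,
        fun e' he => Option.some.inj he ▸ rfl⟩
  obtain ⟨b, b1, b2, b3⟩ := hb k₁ r1
  obtain ⟨c, c1, c2, c3⟩ := hb k₂ r2
  obtain ⟨d, e1, e2, e3⟩ : ∃ d, -μ ≤ d ∧ d ≤ 0 ∧ ∀ e, k₃ = some e → y e = d := by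
    cases k₃ with
    | none => exact ⟨0, by linarith, le_rfl, by simp⟩
    | some e =>
      obtain ⟨a1, -, a3, a4⟩ := r3 e rfl
      exact ⟨y e, a3 ▸ (hA'.bd e a1).1, a4.le, fun e' he => Option.some.inj he ▸ rfl⟩
  have hy : Y (y e₀) b c d = y := by
    funext e
    rcases hval (y e₀) b c d e with w | w | w | w | w
    · rw [w.2, w.1]
    · rw [w.2, b3 e w.1]
    · rw [w.2, c3 e w.1]
    · rw [w.2, e3 e w.1]
    · exact w.2.2.2.2
  have := P.box K hy₀.le (hA'.bd _ he₀).2.1 b1 b2 c1 c2 e1 e2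
  rwa [hy] at this

theorem main_all (P : Par x μ μ' ρ z zz g) :
    ∀ (n m : ℕ) (E : Finset (Sym2 α)) (V : Finset α), V.card = n → E.card = m →
      Main x μ ρ E V := by
  intro n
  induction n using Nat.strong_induction_on with
  | _ n ih1 =>
  intro m
  induction m using Nat.strong_induction_on with
  | _ m ih2 =>
  intro E V hn hm hN h4 r t y τ hτ hr ht hrt hE hA
  have hI : IH α x μ ρ n m := fun E' V' h => by
    rcases h with h | h
    · exact ih1 _ h _ E' V' rfl rfl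
    · exact ih2 _ h.2 E' V' h.1 rfl
  have hμ := P.hμ
  have hτ0 : 0 < τ := by rcases hτ with h | h <;> linarith [P.μρ]
  have hτρ : τ ≤ ρ := by rcases hτ with h | h <;> linarith [P.μρ]
  have h1 := Sv_pos P hI hn hN h4 hr ht hrt hτ hA
  have hAX := hA.admX (g := g) (le_trans (pow_le_pow_left₀ hτ0.le hτρ 2) P.ρg)
    (le_trans (pow_le_pow_left₀ hμ.le P.μρ 2) P.ρg)
  have h2 : 0 ≤ FF x τ V y s(r, t) := by
    rcases hτ with h | h
    · exact FF_nonneg P hI hn hm hN h4 hr ht hrt hE (big := False) (Or.inr ⟨id, h⟩) _ _ y none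
        le_rfl le_rfl hAX
    · exact FF_nonneg P hI hn hm hN h4 hr ht hrt hE (big := True) (Or.inl ⟨trivial, h⟩) _ _ y none
        le_rfl le_rfl hAX
  rw [FF] at h2
  have h3 := mul_pos P.hx h1
  exact ⟨(mul_pos_iff_of_pos_left hτ0).1 (by linarith), by linarith, by linarith⟩

end Pool.Agent.Lib.MP_efe3d7_co
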