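import Pool.Agent.Lib.MP_efe3d7_co.Del

/-! Contracting an edge at the root. -/

set_option autoImplicit false

open Finset

namespace Pool.Agent.Lib.MP_efe3d7_co

variable {α : Type} [Fintype α] [DecidableEq α] {x μ μ' ρ z zz g : ℝ}

theorem mul_range' {τ σ u w m : ℝ} (h0 : 0 ≤ μ) (h1 : μ ≤ τ) (h2 : τ ≤ σ) (h3 : σ ≤ 1 / 2)
    (hm : m ≤ μ ^ 2) (hu : (-τ ≤ u ∧ u ≤ τ ^ 2) ∨ u = 1) (hw : (-μ ≤ w ∧ w ≤ m) ∨ w = 1)
    (h : (-τ ≤ u ∧ u ≤ τ ^ 2) ∨ (-μ ≤ w ∧ w ≤ m)) : -σ ≤ u * w ∧ u * w ≤ σ ^ 2 := by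
  have a1 : μ ^ 2 ≤ τ ^ 2 := pow_le_pow_left₀ h0 h1 2
  have a2 : τ ^ 2 ≤ σ ^ 2 := pow_le_pow_left₀ (h0.trans h1) h2 2
  rw [sq σ]
  rcases h with h | h
  · rw [mul_comm]
    refine mul_range (by linarith) le_rfl h3 ?_ (by linarith) (by nlinarith)
    rcases hw with hw | hw
    · exact Or.inl ⟨by linarith, by linarith⟩
    · exact Or.inr hw
  · refine mul_range (by linarith) le_rfl h3 ?_ (by linarith) (by nlinarith)
    rcases hu with hu | hu
    · exact Or.inl ⟨by linarith, by linarith⟩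
    · exact Or.inr hu

omit [Fintype α] in
theorem Adm.merge {E : Finset (Sym2 α)} {V : Finset α} {y : Sym2 α → ℝ} {r t v t' : α}
    {τ σ m : ℝ} (hA : Adm E V y r t τ μ m) (h0 : 0 ≤ μ) (h1 : μ ≤ τ) (h2 : τ ≤ σ)
    (h3 : σ ≤ 1 / 2) (hm : m ≤ μ ^ 2) (hr : r ∈ V) (hv : v ∈ V) (hrv : r ≠ v)
    (ht : v = t ∨ t' = t) :
    Adm (mergeE E V r v) (V.erase v) (mergeW y r v) r t' σ μ m := by
  have key : ∀ b ∈ V.erase v, b ≠ r → s(r, b) ∉ mergeE E V r v → mergeW y r v s(r, b) = 1 := by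
    intro b hb hbr hE
    obtain ⟨hbv, hb⟩ := mem_erase.1 hb
    rw [mem_mergeE_self hb, not_or] at hE
    rw [mergeW_self, hA.non r hr b hb hbr.symm hE.1, hA.non v hv b hb hbv.symm hE.2, mul_one]
  refine ⟨fun a ha b hb hab hE => ?_, fun b hb hbr hbt hE => ?_, fun a ha b hb hab har hbr hE => ?_⟩
  · by_cases har : a = r
    · subst har
      exact key b hb hab.symm hE
    by_cases hbr : b = r
    · subst hbr
      rw [Sym2.eq_swap] at hE ⊢
      exact key a ha hab hE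
    · rw [mem_mergeE_of_ne har hbr] at hE
      rw [mergeW_of_ne y v har hbr]
      exact hA.non a (mem_of_mem_erase ha) b (mem_of_mem_erase hb) hab hE
  · obtain ⟨hbv, hb⟩ := mem_erase.1 hb
    have hbt' : b ≠ t := by
      rcases ht with h | h
      · exact h ▸ hbv
      · exact h ▸ hbt
    rw [mem_mergeE_self hb] at hE
    rw [mergeW_self]
    refine mul_range' h0 h1 h2 h3 hm ?_ ?_ ?_
    · by_cases h : s(r, b) ∈ E
      · exact Or.inl (hA.root b hb hbr hbt' h)
      · exact Or.inr (hA.non r hr b hb hbr.symm h)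
    · by_cases h : s(v, b) ∈ E
      · exact Or.inl (hA.rest v hv b hb hbv.symm hrv.symm hbr h)
      · exact Or.inr (hA.non v hv b hb hbv.symm h)
    · rcases hE with h | h
      · exact Or.inl (hA.root b hb hbr hbt' h)
      · exact Or.inr (hA.rest v hv b hb hbv.symm hrv.symm hbr h)
  · rw [mem_mergeE_of_ne har hbr] at hE
    rw [mergeW_of_ne y v har hbr]
    exact hA.rest a (mem_of_mem_erase ha) b (mem_of_mem_erase hb) hab har hbr hE

/-- The slope at the terminal edge is positive. -/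
theorem Sv_pos (P : Par x μ μ' ρ z zz g) {n m : ℕ} (hI : IH α x μ ρ n m) {E : Finset (Sym2 α)}
    {V : Finset α} (hn : V.card = n) (hN : NoSep E V) (h4 : 4 ≤ V.card) {r t : α} (hr : r ∈ V)
    (ht : t ∈ V) (hrt : r ≠ t) {τ : ℝ} (hτ : τ = μ ∨ τ = ρ) {y : Sym2 α → ℝ}
    (hA : Adm E V y r t τ μ (μ ^ 2)) : 0 < Sv x V y s(r, t) := by
  have hμ := P.hμ
  have hμτ : μ ≤ τ := by rcases hτ with h | h <;> linarith [P.μρ]
  have hτρ : τ ≤ ρ := by rcases hτ with h | h <;> linarith [P.μρ]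
  have hR := hN.rooted_merge hr ht hrt
  have hc : (V.erase t).card + 1 = V.card := card_erase_add_one ht
  have hr' : r ∈ V.erase t := mem_erase.2 ⟨hrt, hr⟩
  obtain ⟨c, hc1, hc2⟩ := exists_mem_ne (s := V.erase t) (by omega) r
  obtain ⟨b, hb, hbr, -, hE⟩ := exists_nbr (fun A h => (hR c c A h).1 rfl) (by omega) hr' hc1
    hc2.symm
  have hA' := fun t' => hA.merge (t' := t') hμ.le hμτ hτρ P.ρ1 le_rfl hr ht hrt (Or.inl rfl)
  obtain ⟨a1, a2, a3⟩ := star P hI (Or.inr rfl) le_rfl P.tri3 r _ _ _ b _ rfl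
    (Or.inl (by omega)) (by omega) hR hr' hb hbr.symm hE (hA' b)
  obtain ⟨b1, b2⟩ := (hA' r).root b hb hbr hbr hE
  rw [Sv_merge P.hx hr ht hrt, ff_self _ _ s(r, b)]
  set D := Dv x (V.erase t) (mergeW y r t) s(r, b)
  set S := Sv x (V.erase t) (mergeW y r t) s(r, b)
  set w := mergeW y r t s(r, b)
  have hρ : 0 < ρ := by linarith
  have h5 : w * (x * S) ≤ ρ ^ 3 * D := by
    rcases le_total 0 w with h | h
    · have : w * (x * S) ≤ w * (ρ * D) := mul_le_mul_of_nonneg_left (by linarith) h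
      have : w * (ρ * D) ≤ ρ ^ 2 * (ρ * D) := mul_le_mul_of_nonneg_right b2 (by positivity)
      linarith
    · have : w * (x * S) ≤ w * (-(ρ ^ 2 * D)) := mul_le_mul_of_nonpos_left (by linarith) h
      have : -w * (ρ ^ 2 * D) ≤ ρ * (ρ ^ 2 * D) :=
        mul_le_mul_of_nonneg_right (by linarith) (by positivity)
      linarith
  have h6 : 0 < x * (D - w * S) := by nlinarith [mul_pos (sub_pos.2 P.ρ3) a1]
  exact (mul_pos_iff_of_pos_left P.hx).1 h6

theorem FF_aff {V : Finset α} {e e' : Sym2 α} (he : e' ≠ e) (τ : ℝ) (y : Sym2 α → ℝ) (s : ℝ) :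
    FF x τ V (Function.update y e' s) e = FF x τ V (Function.update y e' 0) e +
      s * (FF x τ V (Function.update y e' 1) e - FF x τ V (Function.update y e' 0) e) := by
  have k : ∀ s s' : ℝ, ff x V (Function.update (Function.update y e' s) e s') =
      Dv x V (Function.update y e s') e' - s * Sv x V (Function.update y e s') e' :=
    fun s s' => by rw [Function.update_comm he, ff_aff]
  unfold FF
  rw [Dv, Dv, Dv, Sv, Sv, Sv]
  simp only [k]
  ring

/-- Contraction of a root edge. -/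
theorem FF_merge (P : Par x μ μ' ρ z zz g) {n m : ℕ} (hI : IH α x μ ρ n m) {E : Finset (Sym2 α)}
    {V : Finset α} (hn : V.card = n) (hN : NoSep E V) (h4 : 4 ≤ V.card) {r t v : α} (hr : r ∈ V)
    (ht : t ∈ V) (hv : v ∈ V) (hrt : r ≠ t) (hrv : r ≠ v) (htv : t ≠ v) (hE : s(r, t) ∈ E)
    {τ σ m₀ : ℝ} (hσ : σ = μ ∨ σ = ρ) (hμτ : μ ≤ τ) (hτσ : τ ≤ σ) (hm₀ : m₀ ≤ μ ^ 2)
    (htri : ∀ y₁ y₂, -σ ≤ y₁ → y₁ ≤ σ ^ 2 → -μ ≤ y₂ → y₂ ≤ m₀ → Tri x y₁ y₂ σ)
    (hc : σ ≤ τ ∨ s(t, v) ∈ E) {y : Sym2 α → ℝ} (hA : Adm E V y r t τ μ m₀) :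
    FF x τ V (Function.update y s(r, v) 1) s(r, t) ≤
      FF x τ V (Function.update y s(r, v) 0) s(r, t) := by
  have hμ := P.hμ
  have hσ1 : σ ≤ 1 / 2 := by rcases hσ with h | h <;> linarith [P.μρ, P.ρ1]
  have hne : s(r, v) ≠ s(r, t) := fun e => htv (Sym2.congr_right.1 e).symm
  have hc' : (V.erase v).card + 1 = V.card := card_erase_add_one hv
  have hr' : r ∈ V.erase v := mem_erase.2 ⟨hrv, hr⟩
  have ht' : t ∈ V.erase v := mem_erase.2 ⟨htv, ht⟩
  obtain ⟨a1, a2, a3⟩ := star P hI hσ hm₀ htri r _ _ _ t _ rfl (Or.inl (by omega)) (by omega)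
    (hN.rooted_merge hr hv hrv) hr' ht' hrt ((mem_mergeE_self ht).2 (Or.inl hE))
    (hA.merge hμ.le hμτ hτσ hσ1 hm₀ hr hv hrv (Or.inr rfl))
  have key : ∀ s, Sv x V (Function.update y s(r, t) s) s(r, v) =
      Dv x (V.erase v) (mergeW y r v) s(r, t) -
        s * y s(v, t) * Sv x (V.erase v) (mergeW y r v) s(r, t) := by
    intro s
    rw [Sv_merge P.hx hr hv hrv, ← ff_aff]
    have k : ∀ b ∈ V.erase v, mergeW (Function.update y s(r, t) s) r v s(r, b) =
        Function.update (mergeW y r v) s(r, t) (s * y s(v, t)) s(r, b) := by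
      intro b hb
      have n1 : ∀ b, s(v, b) ≠ s(r, t) := fun b => by simp [hrv.symm, htv.symm]
      rw [mergeW_self, Function.update_of_ne (n1 b)]
      by_cases hbt : b = t
      · rw [hbt, Function.update_self, Function.update_self]
      · have n2 : s(r, b) ≠ s(r, t) := fun e => hbt (Sym2.congr_right.1 e)
        rw [Function.update_of_ne n2, Function.update_of_ne n2, mergeW_self]
    refine ff_congr fun a ha b hb hab => ?_
    by_cases har : a = r
    · rw [har]; exact k b hb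
    by_cases hbr : b = r
    · rw [hbr, Sym2.eq_swap (a := a)]; exact k a ha
    · have n2 : s(a, b) ≠ s(r, t) := by simp [har, hbr]
      rw [mergeW_of_ne _ v har hbr, Function.update_of_ne n2, Function.update_of_ne n2,
        mergeW_of_ne _ v har hbr]
  have hθ : y s(v, t) * (x * Sv x (V.erase v) (mergeW y r v) s(r, t)) ≤
      τ * Dv x (V.erase v) (mergeW y r v) s(r, t) := by
    have hθ' : y s(v, t) * σ ≤ τ ∧ -y s(v, t) * σ ^ 2 ≤ τ := by
      by_cases h : s(v, t) ∈ E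
      · obtain ⟨b1, b2⟩ := hA.rest v hv t ht htv.symm hrv.symm hrt.symm h
        constructor
        · nlinarith
        · have b3 : σ ^ 2 ≤ 1 := by nlinarith
          nlinarith [mul_le_mul_of_nonneg_right (neg_le.1 b1) (sq_nonneg σ),
            mul_le_mul_of_nonneg_left b3 hμ.le]
      · rw [hA.non v hv t ht htv.symm h]
        have := hc.resolve_right (Sym2.eq_swap ▸ h)
        constructor
        · linarith
        · nlinarith [sq_nonneg σ]
    rcases le_total 0 (y s(v, t)) with h | h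
    · nlinarith [mul_le_mul_of_nonneg_left a2 h, mul_le_mul_of_nonneg_right hθ'.1 a1.le]
    · nlinarith [mul_le_mul_of_nonneg_left a3 (neg_nonneg.2 h),
        mul_le_mul_of_nonneg_right hθ'.2 a1.le]
  have k : ∀ s s' : ℝ, ff x V (Function.update (Function.update y s(r, v) s) s(r, t) s') =
      Dv x V (Function.update y s(r, t) s') s(r, v) -
        s * Sv x V (Function.update y s(r, t) s') s(r, v) :=
    fun s s' => by rw [Function.update_comm hne, ff_aff]
  unfold FF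
  rw [Dv, Dv, Sv, Sv]
  simp only [k, key]
  linarith

end Pool.Agent.Lib.MP_efe3d7_co
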