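import Mathlib

/-! Numerical parameters. -/

set_option autoImplicit false

namespace Pool.Agent.Lib.MP_efe3d7_co

/-- The series composition of the weights `y₁`, `y₂` lies in `[-τ, 0]`. -/
def Tri (x y₁ y₂ τ : ℝ) : Prop :=
  0 < 1 - x - y₁ - y₂ ∧ 0 ≤ x + y₁ * y₂ ∧ x + y₁ * y₂ ≤ τ * (1 - x - y₁ - y₂)

/-- Affine in each of the four variables. -/
def Aff4 (Φ : ℝ → ℝ → ℝ → ℝ → ℝ) : Prop :=
  (∀ a b c d, Φ a b c d = Φ 0 b c d + a * (Φ 1 b c d - Φ 0 b c d)) ∧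
  (∀ a b c d, Φ a b c d = Φ a 0 c d + b * (Φ a 1 c d - Φ a 0 c d)) ∧
  (∀ a b c d, Φ a b c d = Φ a b 0 d + c * (Φ a b 1 d - Φ a b 0 d)) ∧
  (∀ a b c d, Φ a b c d = Φ a b c 0 + d * (Φ a b c 1 - Φ a b c 0))

/-- The hypotheses of the extrapolation step. -/
structure Known (μ z zz g : ℝ) (Φ : ℝ → ℝ → ℝ → ℝ → ℝ) (b1 b2 bn : Prop) : Prop where
  aff : Aff4 Φ
  I1 : ¬ b1 → ∀ a b c d, Φ a b c d = Φ a 0 c d
  I2 : ¬ b2 → ∀ a b c d, Φ a b c d = Φ a b 0 d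
  In : ¬ bn → ∀ a b c d, Φ a b c d = Φ a b c 0
  K1 : ∀ a b c d, (-μ ≤ a ∧ a ≤ g ∧ -μ ≤ b ∧ b ≤ g ∧ -μ ≤ c ∧ c ≤ g ∧ -μ ≤ d ∧ d ≤ 0 ∧
    ((a ≤ μ ^ 2 ∧ b ≤ μ ^ 2) ∨ (a ≤ μ ^ 2 ∧ c ≤ μ ^ 2) ∨ (b ≤ μ ^ 2 ∧ c ≤ μ ^ 2))) →
    (a ≤ 0 ∨ (b1 ∧ b ≤ 0) ∨ (b2 ∧ c ≤ 0)) → 0 ≤ Φ a b c d
  K2 : bn → 0 ≤ Φ g (μ ^ 2) (μ ^ 2) 0
  K3 : ∀ b c d, (-μ ≤ b ∧ b ≤ z ∧ -μ ≤ c ∧ c ≤ z ∧ -zz ≤ d ∧ d ≤ 0) → 0 ≤ Φ 1 b c d
  K4 : bn → ∀ a b c, (-μ ≤ a ∧ a ≤ μ ^ 2 ∧ -μ ≤ b ∧ b ≤ μ ^ 2 ∧ -μ ≤ c ∧ c ≤ μ ^ 2) →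
    Φ a b c 1 ≤ Φ a b c 0

/-- A consistent system of parameters. -/
structure Par (x μ μ' ρ z zz g : ℝ) : Prop where
  hx : 0 < x
  hμ : 0 < μ
  μρ : μ ≤ ρ
  μμ' : μ ≤ μ'
  ρ1 : ρ ≤ 1 / 2
  μ'1 : μ' ≤ 1 / 2
  ρ3 : ρ ^ 3 < x
  z0 : 0 ≤ z
  zz0 : 0 ≤ zz
  zμ : z ≤ μ ^ 2
  zzμ : zz ≤ μ
  μzz : μ * zz ≤ z
  ρg : ρ ^ 2 ≤ g
  tri1 : ∀ y₁ y₂, -μ' ≤ y₁ → y₁ ≤ μ * μ' → -μ ≤ y₂ → y₂ ≤ μ ^ 2 → Tri x y₁ y₂ μ'
  tri2 : ∀ y₁ y₂, -μ' ≤ y₁ → y₁ ≤ μ * μ' → -μ ≤ y₂ → y₂ ≤ z → Tri x y₁ y₂ μ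
  tri3 : ∀ y₁ y₂, -ρ ≤ y₁ → y₁ ≤ ρ ^ 2 → -μ ≤ y₂ → y₂ ≤ μ ^ 2 → Tri x y₁ y₂ ρ
  ext : ∀ D₀ D₁ S₀ S₁ c : ℝ, 0 < D₀ → 0 ≤ D₁ → x * D₁ ≤ μ * D₀ →
    0 ≤ S₀ + μ * S₁ → S₀ + μ * S₁ ≤ μ * (D₀ + μ * D₁) →
    0 ≤ S₀ - μ ^ 2 * S₁ → S₀ - μ ^ 2 * S₁ ≤ μ * (D₀ - μ ^ 2 * D₁) → -μ' ≤ c → c ≤ μ * μ' →
    0 < D₀ - c * D₁ ∧ S₀ - c * S₁ ≤ μ' * (D₀ - c * D₁) ∧
      -(S₀ - c * S₁) ≤ μ * μ' * (D₀ - c * D₁)
  lp : ∀ (Φ : ℝ → ℝ → ℝ → ℝ → ℝ) (b1 b2 bn : Prop), Known μ z zz g Φ b1 b2 bn →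
    0 ≤ Φ g (μ ^ 2) (μ ^ 2) (-μ)

theorem aff_nonneg {φ : ℝ → ℝ} (h : ∀ t, φ t = φ 0 + t * (φ 1 - φ 0)) {l u t : ℝ} (hl : l ≤ t)
    (hu : t ≤ u) (h1 : 0 ≤ φ l) (h2 : 0 ≤ φ u) : 0 ≤ φ t := by
  rw [h t]
  rw [h l] at h1
  rw [h u] at h2
  rcases le_total 0 (φ 1 - φ 0) with h3 | h3
  · nlinarith [mul_le_mul_of_nonneg_right hl h3]
  · nlinarith [mul_le_mul_of_nonpos_right hu h3]

theorem Par.box {x μ μ' ρ z zz g : ℝ} (P : Par x μ μ' ρ z zz g) {Φ : ℝ → ℝ → ℝ → ℝ → ℝ}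
    {b1 b2 bn : Prop} (K : Known μ z zz g Φ b1 b2 bn) {a b c d : ℝ} (ha : 0 ≤ a) (ha' : a ≤ g)
    (hb : 0 ≤ b) (hb' : b ≤ μ ^ 2) (hc : 0 ≤ c) (hc' : c ≤ μ ^ 2) (hd : -μ ≤ d) (hd' : d ≤ 0) :
    0 ≤ Φ a b c d := by
  have hμ := P.hμ
  have hg : μ ^ 2 ≤ g := le_trans (pow_le_pow_left₀ hμ.le P.μρ 2) P.ρg
  have hM : 0 ≤ μ ^ 2 := sq_nonneg μ
  have h4 : 0 ≤ Φ g (μ ^ 2) (μ ^ 2) d := by
    by_cases hn : bn
    · exact aff_nonneg (φ := fun t => Φ g (μ ^ 2) (μ ^ 2) t) (fun t => K.aff.2.2.2 _ _ _ t) hd hd'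
        (P.lp Φ b1 b2 bn K) (K.K2 hn)
    · rw [K.In hn, ← K.In hn _ _ _ (-μ)]
      exact P.lp Φ b1 b2 bn K
  have h3 : 0 ≤ Φ g (μ ^ 2) c d := by
    by_cases h2 : b2
    · exact aff_nonneg (φ := fun t => Φ g (μ ^ 2) t d) (fun t => K.aff.2.2.1 _ _ t _) hc hc'
        (K.K1 _ _ _ _ ⟨by linarith, le_rfl, by linarith, hg, by linarith, by linarith, hd, hd',
          Or.inr (Or.inr ⟨le_rfl, hM⟩)⟩ (Or.inr (Or.inr ⟨h2, le_rfl⟩))) h4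
    · rw [K.I2 h2, ← K.I2 h2 _ _ (μ ^ 2)]
      exact h4
  have h2 : 0 ≤ Φ g b c d := by
    by_cases h1 : b1
    · exact aff_nonneg (φ := fun t => Φ g t c d) (fun t => K.aff.2.1 _ t _ _) hb hb'
        (K.K1 _ _ _ _ ⟨by linarith, le_rfl, by linarith, by linarith, by linarith, by linarith,
          hd, hd', Or.inr (Or.inr ⟨hM, hc'⟩)⟩ (Or.inr (Or.inl ⟨h1, le_rfl⟩))) h3
    · rw [K.I1 h1, ← K.I1 h1 _ (μ ^ 2)]
      exact h3
  exact aff_nonneg (φ := fun t => Φ t b c d) (fun t => K.aff.1 t _ _ _) ha ha'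
    (K.K1 _ _ _ _ ⟨by linarith, by linarith, by linarith, by linarith, by linarith, by linarith,
      hd, hd', Or.inl ⟨hM, hb'⟩⟩ (Or.inl le_rfl)) h2

theorem tri_of_corners {x τ l₁ u₁ l₂ u₂ y₁ y₂ : ℝ} (h1 : l₁ ≤ y₁) (h2 : y₁ ≤ u₁) (h3 : l₂ ≤ y₂)
    (h4 : y₂ ≤ u₂) (c1 : Tri x l₁ l₂ τ) (c2 : Tri x l₁ u₂ τ) (c3 : Tri x u₁ l₂ τ)
    (c4 : Tri x u₁ u₂ τ) : Tri x y₁ y₂ τ := by
  refine ⟨by linarith [c4.1], ?_, ?_⟩
  · refine aff_nonneg (φ := fun t => x + t * y₂) (fun t => by ring) h1 h2 ?_ ?_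
    · exact aff_nonneg (φ := fun t => x + l₁ * t) (fun t => by ring) h3 h4 c1.2.1 c2.2.1
    · exact aff_nonneg (φ := fun t => x + u₁ * t) (fun t => by ring) h3 h4 c3.2.1 c4.2.1
  · rw [← sub_nonneg]
    refine aff_nonneg (φ := fun t => τ * (1 - x - t - y₂) - (x + t * y₂)) (fun t => by ring)
      h1 h2 ?_ ?_
    · exact aff_nonneg (φ := fun t => τ * (1 - x - l₁ - t) - (x + l₁ * t)) (fun t => by ring)
        h3 h4 (sub_nonneg.2 c1.2.2) (sub_nonneg.2 c2.2.2)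
    · exact aff_nonneg (φ := fun t => τ * (1 - x - u₁ - t) - (x + u₁ * t)) (fun t => by ring)
        h3 h4 (sub_nonneg.2 c3.2.2) (sub_nonneg.2 c4.2.2)

theorem lp_large (Φ : ℝ → ℝ → ℝ → ℝ → ℝ) (b1 b2 bn : Prop)
    (K : Known (33 / 100) (895 / 10000) (271 / 1000) (1 / 4) Φ b1 b2 bn) :
    0 ≤ Φ (1 / 4) ((33 / 100) ^ 2) ((33 / 100) ^ 2) (-(33 / 100)) := by
  obtain ⟨⟨A1, A2, A3, A4⟩, I1, I2, In, K1, K2, K3, K4⟩ := K
  obtain ⟨e, ex⟩ : ∃ e : Fin 16 → ℝ, ∀ a b c d, Φ a b c d =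
      (1 - a) * ((1 - b) * ((1 - c) * ((1 - d) * e 0 + d * e 1) + c * ((1 - d) * e 2 + d * e 3)) +
        b * ((1 - c) * ((1 - d) * e 4 + d * e 5) + c * ((1 - d) * e 6 + d * e 7))) +
      a * ((1 - b) * ((1 - c) * ((1 - d) * e 8 + d * e 9) + c * ((1 - d) * e 10 + d * e 11)) +
        b * ((1 - c) * ((1 - d) * e 12 + d * e 13) + c * ((1 - d) * e 14 + d * e 15))) := by
    refine ⟨![Φ 0 0 0 0, Φ 0 0 0 1, Φ 0 0 1 0, Φ 0 0 1 1, Φ 0 1 0 0, Φ 0 1 0 1, Φ 0 1 1 0,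
      Φ 0 1 1 1, Φ 1 0 0 0, Φ 1 0 0 1, Φ 1 0 1 0, Φ 1 0 1 1, Φ 1 1 0 0, Φ 1 1 0 1, Φ 1 1 1 0,
      Φ 1 1 1 1], fun a b c d => ?_⟩
    rw [A1 a b c d, A2 0 b c d, A2 1 b c d, A3 0 0 c d, A3 0 1 c d, A3 1 0 c d, A3 1 1 c d,
      A4 0 0 0 d, A4 0 0 1 d, A4 0 1 0 d, A4 0 1 1 d, A4 1 0 0 d, A4 1 0 1 d, A4 1 1 0 d,
      A4 1 1 1 d]
    simp only [Matrix.cons_val]
    ring
  clear A1 A2 A3 A4
  by_cases h1 : b1 <;> by_cases h2 : b2 <;> by_cases hn : bn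
  · have p1 := K1 (-(33/100)) (-(33/100)) (-(33/100)) (-(33/100)) (by norm_num)
      (Or.inl (by norm_num))
    have p2 := K1 (-(33/100)) (-(33/100)) (-(33/100)) 0 (by norm_num)
      (Or.inl (by norm_num))
    have p3 := K1 (-(33/100)) 0 ((33/100)^2) 0 (by norm_num)
      (Or.inl (by norm_num))
    have p4 := K1 (-(33/100)) 0 (1/4) 0 (by norm_num)
      (Or.inl (by norm_num))
    have p5 := K1 (-(33/100)) ((33/100)^2) 0 0 (by norm_num)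
      (Or.inl (by norm_num))
    have p6 := K1 (-(33/100)) (1/4) (-(33/100)) (-(33/100)) (by norm_num)
      (Or.inl (by norm_num))
    have p7 := K1 0 (-(33/100)) (-(33/100)) (-(33/100)) (by norm_num)
      (Or.inl (by norm_num))
    have p8 := K1 0 0 (1/4) 0 (by norm_num)
      (Or.inl (by norm_num))
    have p9 := K1 0 ((33/100)^2) (1/4) (-(33/100)) (by norm_num)
      (Or.inl (by norm_num))
    have p10 := K1 0 ((33/100)^2) (1/4) 0 (by norm_num)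
      (Or.inl (by norm_num))
    have p11 := K1 ((33/100)^2) (1/4) 0 (-(33/100)) (by norm_num)
      (Or.inr (Or.inr ⟨h2, by norm_num⟩))
    have p12 := K3 (895/10000) (895/10000) (-(271/1000)) (by norm_num)
    have p13 := K4 hn (-(33/100)) (-(33/100)) ((33/100)^2) (by norm_num)
    have p14 := K4 hn ((33/100)^2) (-(33/100)) ((33/100)^2) (by norm_num)
    have p15 := K4 hn ((33/100)^2) ((33/100)^2) (-(33/100)) (by norm_num)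
    have p16 := K4 hn ((33/100)^2) ((33/100)^2) ((33/100)^2) (by norm_num)
    simp only [ex] at p1 p2 p3 p4 p5 p6 p7 p8 p9 p10 p11 p12 p13 p14 p15 p16 ⊢
    linarith
  · have p1 := K1 (-(33/100)) (-(33/100)) (1/4) 0 (by norm_num)
      (Or.inl (by norm_num))
    have p2 := K1 (-(33/100)) 0 (-(33/100)) 0 (by norm_num)
      (Or.inl (by norm_num))
    have p3 := K1 (-(33/100)) ((33/100)^2) (-(33/100)) 0 (by norm_num)
      (Or.inl (by norm_num))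
    have p4 := K1 (-(33/100)) ((33/100)^2) 0 0 (by norm_num)
      (Or.inl (by norm_num))
    have p5 := K1 0 (-(33/100)) (-(33/100)) 0 (by norm_num)
      (Or.inl (by norm_num))
    have p6 := K1 0 ((33/100)^2) (1/4) 0 (by norm_num)
      (Or.inl (by norm_num))
    have p7 := K1 ((33/100)^2) (1/4) 0 0 (by norm_num)
      (Or.inr (Or.inr ⟨h2, by norm_num⟩))
    have p8 := K3 (895/10000) (895/10000) 0 (by norm_num)
    have q0 := In hn 0 0 0 1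
    have q1 := In hn 0 0 1 1
    have q2 := In hn 0 1 0 1
    have q3 := In hn 0 1 1 1
    have q4 := In hn 1 0 0 1
    have q5 := In hn 1 0 1 1
    have q6 := In hn 1 1 0 1
    have q7 := In hn 1 1 1 1
    simp only [ex] at p1 p2 p3 p4 p5 p6 p7 p8 q0 q1 q2 q3 q4 q5 q6 q7 ⊢
    linarith
  · have p1 := K1 (-(33/100)) (-(33/100)) ((33/100)^2) (-(33/100)) (by norm_num)
      (Or.inl (by norm_num))
    have p2 := K1 (-(33/100)) (-(33/100)) ((33/100)^2) 0 (by norm_num)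
      (Or.inl (by norm_num))
    have p3 := K1 0 ((33/100)^2) ((33/100)^2) 0 (by norm_num)
      (Or.inl (by norm_num))
    have p4 := K1 0 (1/4) ((33/100)^2) (-(33/100)) (by norm_num)
      (Or.inl (by norm_num))
    have p5 := K1 0 (1/4) ((33/100)^2) 0 (by norm_num)
      (Or.inl (by norm_num))
    have p6 := K1 (1/4) 0 ((33/100)^2) (-(33/100)) (by norm_num)
      (Or.inr (Or.inl ⟨h1, by norm_num⟩))
    have p7 := K3 (895/10000) (895/10000) (-(271/1000)) (by norm_num)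
    have p8 := K4 hn ((33/100)^2) ((33/100)^2) ((33/100)^2) (by norm_num)
    have q0 := I2 h2 0 0 1 0
    have q1 := I2 h2 0 0 1 1
    have q2 := I2 h2 0 1 1 0
    have q3 := I2 h2 0 1 1 1
    have q4 := I2 h2 1 0 1 0
    have q5 := I2 h2 1 0 1 1
    have q6 := I2 h2 1 1 1 0
    have q7 := I2 h2 1 1 1 1
    simp only [ex] at p1 p2 p3 p4 p5 p6 p7 p8 q0 q1 q2 q3 q4 q5 q6 q7 ⊢
    linarith
  · have p1 := K1 (-(33/100)) 0 ((33/100)^2) 0 (by norm_num)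
      (Or.inl (by norm_num))
    have p2 := K1 (-(33/100)) ((33/100)^2) ((33/100)^2) 0 (by norm_num)
      (Or.inl (by norm_num))
    have p3 := K1 0 (1/4) ((33/100)^2) 0 (by norm_num)
      (Or.inl (by norm_num))
    have p4 := K3 (895/10000) (895/10000) 0 (by norm_num)
    have q0 := I2 h2 0 0 1 0
    have q1 := I2 h2 0 0 1 1
    have q2 := I2 h2 0 1 1 0
    have q3 := I2 h2 0 1 1 1
    have q4 := I2 h2 1 0 1 0
    have q5 := I2 h2 1 0 1 1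
    have q6 := I2 h2 1 1 1 0
    have q7 := I2 h2 1 1 1 1
    have q8 := In hn 0 0 0 1
    have q9 := In hn 0 0 1 1
    have q10 := In hn 0 1 0 1
    have q11 := In hn 0 1 1 1
    have q12 := In hn 1 0 0 1
    have q13 := In hn 1 0 1 1
    have q14 := In hn 1 1 0 1
    have q15 := In hn 1 1 1 1
    simp only [ex] at p1 p2 p3 p4 q0 q1 q2 q3 q4 q5 q6 q7 q8 q9 q10 q11 q12 q13 q14 q15 ⊢
    linarith
  · have p1 := K1 (-(33/100)) ((33/100)^2) (-(33/100)) (-(33/100)) (by norm_num)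
      (Or.inl (by norm_num))
    have p2 := K1 (-(33/100)) ((33/100)^2) (-(33/100)) 0 (by norm_num)
      (Or.inl (by norm_num))
    have p3 := K1 0 ((33/100)^2) ((33/100)^2) 0 (by norm_num)
      (Or.inl (by norm_num))
    have p4 := K1 0 ((33/100)^2) (1/4) (-(33/100)) (by norm_num)
      (Or.inl (by norm_num))
    have p5 := K1 0 ((33/100)^2) (1/4) 0 (by norm_num)
      (Or.inl (by norm_num))
    have p6 := K1 (1/4) ((33/100)^2) 0 (-(33/100)) (by norm_num)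
      (Or.inr (Or.inr ⟨h2, by norm_num⟩))
    have p7 := K3 (895/10000) (895/10000) (-(271/1000)) (by norm_num)
    have p8 := K4 hn ((33/100)^2) ((33/100)^2) ((33/100)^2) (by norm_num)
    have q0 := I1 h1 0 1 0 0
    have q1 := I1 h1 0 1 0 1
    have q2 := I1 h1 0 1 1 0
    have q3 := I1 h1 0 1 1 1
    have q4 := I1 h1 1 1 0 0
    have q5 := I1 h1 1 1 0 1
    have q6 := I1 h1 1 1 1 0
    have q7 := I1 h1 1 1 1 1
    simp only [ex] at p1 p2 p3 p4 p5 p6 p7 p8 q0 q1 q2 q3 q4 q5 q6 q7 ⊢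
    linarith
  · have p1 := K1 (-(33/100)) ((33/100)^2) 0 0 (by norm_num)
      (Or.inl (by norm_num))
    have p2 := K1 (-(33/100)) ((33/100)^2) ((33/100)^2) 0 (by norm_num)
      (Or.inl (by norm_num))
    have p3 := K1 0 ((33/100)^2) (1/4) 0 (by norm_num)
      (Or.inl (by norm_num))
    have p4 := K3 (895/10000) (895/10000) 0 (by norm_num)
    have q0 := I1 h1 0 1 0 0
    have q1 := I1 h1 0 1 0 1
    have q2 := I1 h1 0 1 1 0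
    have q3 := I1 h1 0 1 1 1
    have q4 := I1 h1 1 1 0 0
    have q5 := I1 h1 1 1 0 1
    have q6 := I1 h1 1 1 1 0
    have q7 := I1 h1 1 1 1 1
    have q8 := In hn 0 0 0 1
    have q9 := In hn 0 0 1 1
    have q10 := In hn 0 1 0 1
    have q11 := In hn 0 1 1 1
    have q12 := In hn 1 0 0 1
    have q13 := In hn 1 0 1 1
    have q14 := In hn 1 1 0 1
    have q15 := In hn 1 1 1 1
    simp only [ex] at p1 p2 p3 p4 q0 q1 q2 q3 q4 q5 q6 q7 q8 q9 q10 q11 q12 q13 q14 q15 ⊢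
    linarith
  · have p1 := K1 (-(33/100)) ((33/100)^2) ((33/100)^2) 0 (by norm_num)
      (Or.inl (by norm_num))
    have p2 := K1 0 ((33/100)^2) ((33/100)^2) (-(33/100)) (by norm_num)
      (Or.inl (by norm_num))
    have p3 := K3 (895/10000) (895/10000) (-(271/1000)) (by norm_num)
    have p4 := K4 hn ((33/100)^2) ((33/100)^2) ((33/100)^2) (by norm_num)
    have q0 := I1 h1 0 1 0 0
    have q1 := I1 h1 0 1 0 1
    have q2 := I1 h1 0 1 1 0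
    have q3 := I1 h1 0 1 1 1
    have q4 := I1 h1 1 1 0 0
    have q5 := I1 h1 1 1 0 1
    have q6 := I1 h1 1 1 1 0
    have q7 := I1 h1 1 1 1 1
    have q8 := I2 h2 0 0 1 0
    have q9 := I2 h2 0 0 1 1
    have q10 := I2 h2 0 1 1 0
    have q11 := I2 h2 0 1 1 1
    have q12 := I2 h2 1 0 1 0
    have q13 := I2 h2 1 0 1 1
    have q14 := I2 h2 1 1 1 0
    have q15 := I2 h2 1 1 1 1
    simp only [ex] at p1 p2 p3 p4 q0 q1 q2 q3 q4 q5 q6 q7 q8 q9 q10 q11 q12 q13 q14 q15 ⊢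
    linarith
  · have p1 := K1 0 ((33/100)^2) ((33/100)^2) 0 (by norm_num)
      (Or.inl (by norm_num))
    have p2 := K3 (895/10000) (895/10000) 0 (by norm_num)
    have q0 := I1 h1 0 1 0 0
    have q1 := I1 h1 0 1 0 1
    have q2 := I1 h1 0 1 1 0
    have q3 := I1 h1 0 1 1 1
    have q4 := I1 h1 1 1 0 0
    have q5 := I1 h1 1 1 0 1
    have q6 := I1 h1 1 1 1 0
    have q7 := I1 h1 1 1 1 1
    have q8 := I2 h2 0 0 1 0
    have q9 := I2 h2 0 0 1 1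
    have q10 := I2 h2 0 1 1 0
    have q11 := I2 h2 0 1 1 1
    have q12 := I2 h2 1 0 1 0
    have q13 := I2 h2 1 0 1 1
    have q14 := I2 h2 1 1 1 0
    have q15 := I2 h2 1 1 1 1
    have q16 := In hn 0 0 0 1
    have q17 := In hn 0 0 1 1
    have q18 := In hn 0 1 0 1
    have q19 := In hn 0 1 1 1
    have q20 := In hn 1 0 0 1
    have q21 := In hn 1 0 1 1
    have q22 := In hn 1 1 0 1
    have q23 := In hn 1 1 1 1
    simp only [ex] at p1 p2 q0 q1 q2 q3 q4 q5 q6 q7 q8 q9 q10 q11 q12 q13 q14 q15 q16 q17 q18 q19 q20 q21 q22 q23 ⊢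
    linarith

theorem par_large {x : ℝ} (h1 : 18 / 100 ≤ x) (h2 : x ≤ 19 / 100) :
    Par x (33 / 100) (345 / 1000) (354 / 1000) (895 / 10000) (271 / 1000) (1 / 4) := by
  refine ⟨by linarith, by norm_num, by norm_num, by norm_num, by norm_num, by norm_num,
    by linarith [show (354 / 1000 : ℝ) ^ 3 < 18 / 100 by norm_num], by norm_num, by norm_num,
    by norm_num, by norm_num, by norm_num, by norm_num, ?_, ?_, ?_, ?_, lp_large⟩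
  · intro y₁ y₂ a b c d
    refine tri_of_corners a b c d ?_ ?_ ?_ ?_ <;> exact ⟨by linarith, by linarith, by linarith⟩
  · intro y₁ y₂ a b c d
    refine tri_of_corners a b c d ?_ ?_ ?_ ?_ <;> exact ⟨by linarith, by linarith, by linarith⟩
  · intro y₁ y₂ a b c d
    refine tri_of_corners a b c d ?_ ?_ ?_ ?_ <;> exact ⟨by linarith, by linarith, by linarith⟩
  · intro D₀ D₁ S₀ S₁ c a1 a2 a3 a4 a5 a6 a7 a8 a9
    have a10 : 18 / 100 * D₁ ≤ 33 / 100 * D₀ := le_trans (mul_le_mul_of_nonneg_right h1 a2) a3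
    refine ⟨by nlinarith [mul_le_mul_of_nonneg_right a9 a2], ?_, ?_⟩
    · rw [← sub_nonneg]
      exact aff_nonneg (φ := fun t => 345 / 1000 * (D₀ - t * D₁) - (S₀ - t * S₁))
        (fun t => by ring) a8 a9 (by linarith) (by linarith)
    · rw [← sub_nonneg]
      exact aff_nonneg (φ := fun t => 33 / 100 * (345 / 1000) * (D₀ - t * D₁) - -(S₀ - t * S₁))
        (fun t => by ring) a8 a9 (by linarith) (by linarith)

theorem par_small {x : ℝ} (h1 : 0 < x) (h2 : x ≤ 18 / 100) :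
    Par x (9 / 5 * x) (9 / 5 * x) (9 / 5 * x) ((9 / 5 * x) ^ 2) (9 / 5 * x) 1 := by
  set μ := 9 / 5 * x with hμ
  have hx : x = 5 / 9 * μ := by rw [hμ]; ring
  have m0 : 0 < μ := by linarith
  have m1 : μ ≤ 324 / 1000 := by linarith
  have m2 : μ ^ 2 ≤ 324 / 1000 * μ := by nlinarith
  have m3 : μ ^ 3 ≤ 105 / 1000 * μ := by nlinarith
  have m4 : μ ^ 4 ≤ 35 / 1000 * μ := by nlinarith
  have p2 : 0 ≤ μ ^ 2 := by positivity
  have p3 : 0 ≤ μ ^ 3 := by positivity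
  have p4 : 0 ≤ μ ^ 4 := by positivity
  have tri : ∀ y₁ y₂, -μ ≤ y₁ → y₁ ≤ μ ^ 2 → -μ ≤ y₂ → y₂ ≤ μ ^ 2 → Tri x y₁ y₂ μ := by
    intro y₁ y₂ a b c d
    rw [hx]
    refine tri_of_corners a b c d ?_ ?_ ?_ ?_ <;>
      exact ⟨by nlinarith, by nlinarith, by nlinarith⟩
  refine ⟨h1, m0, le_rfl, le_rfl, by linarith, by linarith, by linarith, p2, m0.le, le_rfl,
    le_rfl, by rw [sq], by linarith, fun y₁ y₂ a b => tri y₁ y₂ a (by rw [sq]; exact b),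
    fun y₁ y₂ a b => tri y₁ y₂ a (by rw [sq]; exact b), tri, ?_, ?_⟩
  · intro D₀ D₁ S₀ S₁ c a1 a2 a3 a4 a5 a6 a7 a8 a9
    rw [← sq] at a9
    have a10 : 5 / 9 * D₁ ≤ D₀ := by
      rw [hx] at a3
      exact le_of_mul_le_mul_left (by linarith) m0
    have a11 : c * D₁ ≤ 105 / 1000 * D₁ := mul_le_mul_of_nonneg_right (by nlinarith) a2
    have a12 : 0 < D₀ - c * D₁ := by linarith
    refine ⟨a12, ?_, ?_⟩
    · rw [← sub_nonneg]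
      exact aff_nonneg (φ := fun t => μ * (D₀ - t * D₁) - (S₀ - t * S₁))
        (fun t => by ring) a8 a9 (by linarith) (by linarith)
    · have a13 := aff_nonneg (φ := fun t => S₀ - t * S₁) (fun t => by ring) a8 a9
        (by linarith) (by linarith)
      have a14 : 0 ≤ μ * μ * (D₀ - c * D₁) := by positivity
      linarith
  · intro Φ b1 b2 bn K
    have h3 := K.K3 (μ ^ 2) (μ ^ 2) (-μ) ⟨by linarith, le_rfl, by linarith, le_rfl, le_rfl,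
      by linarith⟩
    exact h3

end Pool.Agent.Lib.MP_efe3d7_co
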