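import Mathlib

/-! Separations of order at most two. -/

set_option autoImplicit false

open Finset

namespace Pool.Agent.Lib.MP_efe3d7_co

variable {α : Type} [DecidableEq α]

/-- `A` is one side of a separation of the graph `(V, E)` by the vertices `c`, `d`. -/
structure Sep (E : Finset (Sym2 α)) (V : Finset α) (c d : α) (A : Finset α) : Prop where
  sub : A ⊆ V
  hc : c ∈ V
  hd : d ∈ V
  hcA : c ∉ A
  hdA : d ∉ A
  ne : A.Nonempty
  ex : ∃ z ∈ V, z ∉ A ∧ z ≠ c ∧ z ≠ d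
  no : ∀ u ∈ A, ∀ v ∈ V, v ∉ A → v ≠ c → v ≠ d → s(u, v) ∉ E

/-- The other side. -/
def co (V : Finset α) (c d : α) (A : Finset α) : Finset α :=
  V.filter fun z => z ∉ A ∧ z ≠ c ∧ z ≠ d

theorem mem_co {V A : Finset α} {c d z : α} :
    z ∈ co V c d A ↔ z ∈ V ∧ z ∉ A ∧ z ≠ c ∧ z ≠ d := mem_filter

variable {E : Finset (Sym2 α)} {V A : Finset α} {c d : α}

omit [DecidableEq α] in
theorem Sep.symm (h : Sep E V c d A) : Sep E V d c A :=
  ⟨h.sub, h.hd, h.hc, h.hdA, h.hcA, h.ne, by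
    obtain ⟨z, h1, h2, h3, h4⟩ := h.ex
    exact ⟨z, h1, h2, h4, h3⟩, fun u hu v hv h1 h2 h3 => h.no u hu v hv h1 h3 h2⟩

theorem Sep.mem_co_co (h : Sep E V c d A) {z : α} : z ∈ co V c d (co V c d A) ↔ z ∈ A := by
  simp only [mem_co]
  constructor
  · rintro ⟨h1, h2, h3, h4⟩
    by_contra h5
    exact h2 ⟨h1, h5, h3, h4⟩
  · intro hz
    exact ⟨h.sub hz, fun h1 => h1.2.1 hz, fun e => h.hcA (e ▸ hz), fun e => h.hdA (e ▸ hz)⟩

theorem Sep.compl (h : Sep E V c d A) : Sep E V c d (co V c d A) := by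
  refine ⟨filter_subset _ _, h.hc, h.hd, fun h1 => (mem_co.1 h1).2.2.1 rfl,
    fun h1 => (mem_co.1 h1).2.2.2 rfl, ?_, ?_, ?_⟩
  · obtain ⟨z, hz⟩ := h.ex
    exact ⟨z, mem_co.2 hz⟩
  · obtain ⟨z, hz⟩ := h.ne
    exact ⟨z, mem_co.1 (h.mem_co_co.2 hz)⟩
  · intro u hu v hv h1 h2 h3
    have hvA : v ∈ A := h.mem_co_co.1 (mem_co.2 ⟨hv, h1, h2, h3⟩)
    obtain ⟨h4, h5, h6, h7⟩ := mem_co.1 hu
    rw [Sym2.eq_swap]
    exact h.no v hvA u h4 h5 h6 h7

theorem Sep.sdiff_eq (h : Sep E V c d A) : V \ A = insert c (insert d (co V c d A)) := by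
  ext z
  simp only [mem_sdiff, mem_insert, mem_co]
  constructor
  · rintro ⟨h1, h2⟩
    by_cases h3 : z = c
    · exact Or.inl h3
    by_cases h4 : z = d
    · exact Or.inr (Or.inl h4)
    · exact Or.inr (Or.inr ⟨h1, h2, h3, h4⟩)
  · rintro (rfl | rfl | h1)
    · exact ⟨h.hc, h.hcA⟩
    · exact ⟨h.hd, h.hdA⟩
    · exact ⟨h1.1, h1.2.1⟩

theorem Sep.inner_sub (h : Sep E V c d A) : insert c (insert d A) ⊆ V :=
  insert_subset h.hc (insert_subset h.hd h.sub)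

theorem Sep.card_inner_lt (h : Sep E V c d A) : (insert c (insert d A)).card < V.card := by
  refine card_lt_card ⟨h.inner_sub, fun h1 => ?_⟩
  obtain ⟨z, h2, h3, h4, h5⟩ := h.ex
  have := h1 h2
  simp [h3, h4, h5] at this

theorem Sep.card_outer_lt (h : Sep E V c d A) : (V \ A).card < V.card := by
  rw [h.sdiff_eq]; exact h.compl.card_inner_lt

theorem Sep.card_inner_ge (h : Sep E V c d A) (hcd : c ≠ d) :
    3 ≤ (insert c (insert d A)).card := by
  rw [card_insert_of_notMem (by simp [hcd, h.hcA]), card_insert_of_notMem h.hdA]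
  have := h.ne.card_pos
  omega

theorem Sep.card_outer_ge (h : Sep E V c d A) (hcd : c ≠ d) : 3 ≤ (V \ A).card := by
  rw [h.sdiff_eq]; exact h.compl.card_inner_ge hcd

theorem Sep.side {U X : Finset α} {c' d' : α} (h : Sep E U c' d' X) (he : s(c, d) ∈ E) :
    (c ∉ X ∧ d ∉ X) ∨ (c ∉ co U c' d' X ∧ d ∉ co U c' d' X) := by
  by_cases h1 : c ∈ X
  · refine Or.inr ⟨fun h2 => (mem_co.1 h2).2.1 h1, fun h2 => ?_⟩
    obtain ⟨h3, h4, h5, h6⟩ := mem_co.1 h2
    exact h.no c h1 d h3 h4 h5 h6 he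
  by_cases h2 : d ∈ X
  · refine Or.inr ⟨fun h3 => ?_, fun h3 => (mem_co.1 h3).2.1 h2⟩
    obtain ⟨h3, h4, h5, h6⟩ := mem_co.1 h3
    exact h.no d h2 c h3 h4 h5 h6 (Sym2.eq_swap ▸ he)
  · exact Or.inl ⟨h1, h2⟩

theorem Sep.lift (h : Sep E V c d A) {X : Finset α} {c' d' : α}
    (h' : Sep (insert s(c, d) E) (insert c (insert d A)) c' d' X) (hc : c ∉ X) (hd : d ∉ X) :
    Sep E V c' d' X ∧ X ⊆ A := by
  have hXA : X ⊆ A := by
    intro z hz
    rcases mem_insert.1 (h'.sub hz) with rfl | h1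
    · exact absurd hz hc
    rcases mem_insert.1 h1 with rfl | h1
    · exact absurd hz hd
    · exact h1
  refine ⟨⟨hXA.trans h.sub, h.inner_sub h'.hc, h.inner_sub h'.hd, h'.hcA, h'.hdA, h'.ne, ?_, ?_⟩,
    hXA⟩
  · obtain ⟨z, h1, h2⟩ := h'.ex
    exact ⟨z, h.inner_sub h1, h2⟩
  · intro u hu v hv h1 h2 h3 he
    by_cases h4 : v ∈ insert c (insert d A)
    · exact h'.no u hu v h4 h1 h2 h3 (mem_insert_of_mem he)
    · simp only [mem_insert, not_or] at h4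
      exact h.no u (hXA hu) v hv h4.2.2 h4.1 h4.2.1 he

theorem Sep.lift_outer (h : Sep E V c d A) {X : Finset α} {c' d' : α}
    (h' : Sep (insert s(c, d) E) (V \ A) c' d' X) (hc : c ∉ X) (hd : d ∉ X) :
    Sep E V c' d' X ∧ X ⊆ co V c d A := by
  rw [h.sdiff_eq] at h'
  exact h.compl.lift h' hc hd

/-- No separation of order at most two. -/
def NoSep (E : Finset (Sym2 α)) (V : Finset α) : Prop := ∀ c d A, ¬ Sep E V c d A

/-- Every separation has order two and contains `r`. -/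
def Rooted (E : Finset (Sym2 α)) (V : Finset α) (r : α) : Prop :=
  ∀ c d A, Sep E V c d A → c ≠ d ∧ (c = r ∨ d = r)

/-- Every separation has order two and separates `v` from the set `m`. -/
def Marked (E : Finset (Sym2 α)) (V : Finset α) (v : α) (m : Finset α) : Prop :=
  ∀ c d A, Sep E V c d A → c ≠ d ∧ (v ∈ A ∨ v ∈ co V c d A) ∧
    (v ∈ A → (∃ z ∈ m, z ∈ co V c d A) ∧ ∀ z ∈ m, z ∉ A)

theorem Rooted.inner {r : α} (hR : Rooted E V r) (h : Sep E V c d A) :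
    Rooted (insert s(c, d) E) (insert c (insert d A)) r := by
  intro c' d' X h'
  rcases h'.side (mem_insert_self s(c, d) E) with h1 | h1
  · exact hR _ _ _ (h.lift h' h1.1 h1.2).1
  · exact hR _ _ _ (h.lift h'.compl h1.1 h1.2).1

theorem Rooted.outer {r : α} (hR : Rooted E V r) (h : Sep E V c d A) :
    Rooted (insert s(c, d) E) (V \ A) r := by
  rw [h.sdiff_eq]; exact hR.inner h.compl

theorem marked_of_sides {U : Finset α} {v : α}
    (key : ∀ c' d' X, Sep (insert s(c, d) E) U c' d' X → c ∉ X → d ∉ X → c' ≠ d' ∧ v ∈ X) :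
    Marked (insert s(c, d) E) U v {c, d} := by
  intro c' d' X h'
  have hs := h'.side (mem_insert_self s(c, d) E)
  refine ⟨?_, ?_, fun hv => ?_⟩
  · rcases hs with h1 | h1
    · exact (key _ _ _ h' h1.1 h1.2).1
    · exact (key _ _ _ h'.compl h1.1 h1.2).1
  · rcases hs with h1 | h1
    · exact Or.inl (key _ _ _ h' h1.1 h1.2).2
    · exact Or.inr (key _ _ _ h'.compl h1.1 h1.2).2
  · have h2 : ¬ (c ∉ co U c' d' X ∧ d ∉ co U c' d' X) := fun h1 =>
      (mem_co.1 (key _ _ _ h'.compl h1.1 h1.2).2).2.1 hv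
    have h3 := hs.resolve_right h2
    refine ⟨?_, ?_⟩
    · by_contra h4
      push Not at h4
      exact h2 ⟨h4 c (by simp), h4 d (by simp)⟩
    · intro z hz
      rcases mem_insert.1 hz with rfl | hz
      · exact h3.1
      · rw [mem_singleton.1 hz]; exact h3.2

theorem Marked.inner {v : α} {m : Finset α} (hM : Marked E V v m) (h : Sep E V c d A)
    (hv : v ∈ A) : Marked (insert s(c, d) E) (insert c (insert d A)) v {c, d} := by
  refine marked_of_sides fun c' d' X h' h1 h2 => ?_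
  obtain ⟨h3, h4⟩ := h.lift h' h1 h2
  refine ⟨(hM _ _ _ h3).1, ?_⟩
  rcases (hM _ _ _ h3).2.1 with h5 | h5
  · exact h5
  · obtain ⟨z, hz, hz'⟩ := ((hM _ _ _ h3.compl).2.2 h5).1
    exact absurd (h4 (h3.mem_co_co.1 hz')) (((hM _ _ _ h).2.2 hv).2 z hz)

/-- Choice of a largest side containing `v`. -/
theorem exists_max_sep (E : Finset (Sym2 α)) (V : Finset α) (v : α)
    (sel : α → α → Finset α → Prop) :
    (∀ c d A, Sep E V c d A → v ∈ A → ¬ sel c d A) ∨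
    ∃ c d A, Sep E V c d A ∧ v ∈ A ∧ sel c d A ∧
      ∀ c' d' X, Sep (insert s(c, d) E) (V \ A) c' d' X → c ∉ X → d ∉ X →
        Sep E V c' d' X ∧ v ∉ X ∧ ¬ sel c' d' (co V c' d' X) := by
  classical
  by_cases hex : ∃ c d A, Sep E V c d A ∧ v ∈ A ∧ sel c d A
  · right
    set S := V.powerset.filter fun A => ∃ c d, Sep E V c d A ∧ v ∈ A ∧ sel c d A with hS
    have hne : S.Nonempty := by
      obtain ⟨c, d, A, h⟩ := hex
      exact ⟨A, mem_filter.2 ⟨mem_powerset.2 h.1.sub, c, d, h⟩⟩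
    obtain ⟨A, hA, hmax⟩ := exists_max_image S card hne
    obtain ⟨c, d, h, hv, hs⟩ := (mem_filter.1 hA).2
    refine ⟨c, d, A, h, hv, hs, fun c' d' X h' h1 h2 => ?_⟩
    obtain ⟨h3, h4⟩ := h.lift_outer h' h1 h2
    have hvX : v ∉ X := fun h5 => (mem_co.1 (h4 h5)).2.1 hv
    refine ⟨h3, hvX, fun h5 => ?_⟩
    have hsub : A ⊆ co V c' d' X := by
      intro z hz
      refine mem_co.2 ⟨h.sub hz, fun h6 => (mem_co.1 (h4 h6)).2.1 hz, ?_, ?_⟩
      · rintro rfl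
        exact (mem_sdiff.1 h'.hc).2 hz
      · rintro rfl
        exact (mem_sdiff.1 h'.hd).2 hz
    have h6 := hmax (co V c' d' X) (mem_filter.2 ⟨mem_powerset.2 h3.compl.sub, c', d', h3.compl,
      hsub hv, h5⟩)
    obtain ⟨z, hz, hz'⟩ := h'.ex
    refine absurd h6 (not_le.2 (card_lt_card ⟨hsub, fun h7 => ?_⟩))
    exact (mem_sdiff.1 hz).2 (h7 (mem_co.2 ⟨(mem_sdiff.1 hz).1, hz'⟩))
  · left
    intro c d A h hv hs
    exact hex ⟨c, d, A, h, hv, hs⟩

theorem NoSep.sep_erase (hN : NoSep E V) {u v : α} (h : Sep (E.erase s(u, v)) V c d A) :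
    (u ∈ A ∧ v ∈ co V c d A) ∨ (v ∈ A ∧ u ∈ co V c d A) := by
  by_contra hno
  refine hN c d A ⟨h.sub, h.hc, h.hd, h.hcA, h.hdA, h.ne, h.ex, fun a ha b hb h1 h2 h3 he => ?_⟩
  refine h.no a ha b hb h1 h2 h3 (mem_erase.2 ⟨fun h4 => hno ?_, he⟩)
  rcases Sym2.eq_iff.1 h4 with ⟨rfl, rfl⟩ | ⟨rfl, rfl⟩
  · exact Or.inl ⟨ha, mem_co.2 ⟨hb, h1, h2, h3⟩⟩
  · exact Or.inr ⟨ha, mem_co.2 ⟨hb, h1, h2, h3⟩⟩

theorem NoSep.ne_of_sep_erase (hN : NoSep E V) (h4 : 4 ≤ V.card) {u v : α}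
    (h : Sep (E.erase s(u, v)) V c c A) (hu : u ∈ A) (hv : v ∈ co V c c A) : False := by
  obtain ⟨hv1, hv2, hv3, _⟩ := mem_co.1 hv
  by_cases h1 : ∃ u' ∈ A, u' ≠ u
  · obtain ⟨u', hu', hne⟩ := h1
    refine hN c u (A.erase u) ⟨(erase_subset _ _).trans h.sub, h.hc, h.sub hu,
      fun h2 => h.hcA (mem_of_mem_erase h2), notMem_erase _ _, ⟨u', mem_erase.2 ⟨hne, hu'⟩⟩,
      ⟨v, hv1, fun h2 => hv2 (mem_of_mem_erase h2), hv3, fun e => hv2 (e ▸ hu)⟩, ?_⟩
    intro a ha b hb h2 h3 h5 he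
    have hbA : b ∉ A := fun h6 => h2 (mem_erase.2 ⟨h5, h6⟩)
    refine h.no a (mem_of_mem_erase ha) b hb hbA h3 h3 (mem_erase.2 ⟨fun h6 => ?_, he⟩)
    rcases Sym2.eq_iff.1 h6 with h7 | h7
    · exact (mem_erase.1 ha).1 h7.1
    · exact h5 h7.2
  · push Not at h1
    have h2 : ¬ V ⊆ {u, c, v} := fun h2 => by
      have := (card_le_card h2).trans card_le_three
      omega
    obtain ⟨z, hz, hz'⟩ := not_subset.1 h2
    simp only [mem_insert, mem_singleton, not_or] at hz'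
    refine hN c v A ⟨h.sub, h.hc, hv1, h.hcA, hv2, h.ne,
      ⟨z, hz, fun h3 => hz'.1 (h1 z h3), hz'.2.1, hz'.2.2⟩, ?_⟩
    intro a ha b hb h3 h5 h6 he
    refine h.no a ha b hb h3 h5 h5 (mem_erase.2 ⟨fun h7 => ?_, he⟩)
    rcases Sym2.eq_iff.1 h7 with h8 | h8
    · exact h6 h8.2
    · exact hv2 (h8.1 ▸ ha)

theorem NoSep.marked_erase (hN : NoSep E V) (h4 : 4 ≤ V.card) (u v : α) :
    Marked (E.erase s(u, v)) V u {v} := by
  intro c d A h
  have h1 := hN.sep_erase h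
  refine ⟨?_, ?_, fun hu => ?_⟩
  · rintro rfl
    rcases h1 with h1 | h1
    · exact hN.ne_of_sep_erase h4 h h1.1 h1.2
    · rw [Sym2.eq_swap] at h
      exact hN.ne_of_sep_erase h4 h h1.1 h1.2
  · rcases h1 with h1 | h1
    · exact Or.inl h1.1
    · exact Or.inr h1.2
  · have h2 := h1.resolve_right fun h2 => (mem_co.1 h2.2).2.1 hu
    exact ⟨⟨v, mem_singleton_self v, h2.2⟩, fun z hz => by
      rw [mem_singleton.1 hz]; exact (mem_co.1 h2.2).2.1⟩

/-- Edges after merging `v` into `u`. -/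
def mergeE (E : Finset (Sym2 α)) (V : Finset α) (u v : α) : Finset (Sym2 α) :=
  E ∪ (V.filter fun z => s(v, z) ∈ E).image fun z => s(u, z)

theorem mem_mergeE_self {u v z : α} (hz : z ∈ V) :
    s(u, z) ∈ mergeE E V u v ↔ s(u, z) ∈ E ∨ s(v, z) ∈ E := by
  simp only [mergeE, mem_union, mem_image, mem_filter]
  constructor
  · rintro (h | ⟨w, hw, h⟩)
    · exact Or.inl h
    · rw [Sym2.congr_right.1 h] at hw
      exact Or.inr hw.2
  · rintro (h | h)
    · exact Or.inl h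
    · exact Or.inr ⟨z, ⟨hz, h⟩, rfl⟩

theorem mem_mergeE_of_ne {u v a b : α} (ha : a ≠ u) (hb : b ≠ u) :
    s(a, b) ∈ mergeE E V u v ↔ s(a, b) ∈ E := by
  simp only [mergeE, mem_union, mem_image, mem_filter]
  constructor
  · rintro (h | ⟨w, _, h⟩)
    · exact h
    · rcases Sym2.eq_iff.1 h with h | h
      · exact absurd h.1.symm ha
      · exact absurd h.1.symm hb
  · exact Or.inl

theorem NoSep.rooted_merge (hN : NoSep E V) {u v : α} (hu : u ∈ V) (hv : v ∈ V) (huv : u ≠ v) :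
    Rooted (mergeE E V u v) (V.erase v) u := by
  have key : ∀ c d A, Sep (mergeE E V u v) (V.erase v) c d A → u ∈ A → False := by
    intro c d A h huA
    refine hN c d (insert v A) ⟨insert_subset hv (h.sub.trans (erase_subset _ _)),
      mem_of_mem_erase h.hc, mem_of_mem_erase h.hd, ?_, ?_, insert_nonempty _ _, ?_, ?_⟩
    · simp [h.hcA, (mem_erase.1 h.hc).1]
    · simp [h.hdA, (mem_erase.1 h.hd).1]
    · obtain ⟨z, h1, h2, h3⟩ := h.ex
      exact ⟨z, mem_of_mem_erase h1, by simp [h2, (mem_erase.1 h1).1], h3⟩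
    · intro a ha b hb h1 h2 h3 he
      simp only [mem_insert, not_or] at h1
      have hb' : b ∈ V.erase v := mem_erase.2 ⟨h1.1, hb⟩
      rcases mem_insert.1 ha with rfl | ha
      · exact h.no u huA b hb' h1.2 h2 h3 ((mem_mergeE_self hb).2 (Or.inr he))
      · exact h.no a ha b hb' h1.2 h2 h3 (mem_union_left _ he)
  intro c d A h
  have h1 : c = u ∨ d = u := by
    by_contra h1
    push Not at h1
    by_cases h2 : u ∈ A
    · exact key c d A h h2
    · exact key c d _ h.compl (mem_co.2 ⟨mem_erase.2 ⟨huv, hu⟩, h2, h1.1.symm, h1.2.symm⟩)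
  refine ⟨?_, h1⟩
  rintro rfl
  have h2 : c = u := h1.elim id id
  subst h2
  refine hN c v A ⟨h.sub.trans (erase_subset _ _), hu, hv, h.hcA,
    fun h2 => notMem_erase v V (h.sub h2), h.ne, ?_, ?_⟩
  · obtain ⟨z, h1, h2, h3, _⟩ := h.ex
    exact ⟨z, mem_of_mem_erase h1, h2, h3, (mem_erase.1 h1).1⟩
  · intro a ha b hb h2 h3 h4 he
    exact h.no a ha b (mem_erase.2 ⟨h4, hb⟩) h2 h3 h3 (mem_union_left _ he)

theorem exists_nbr {r : α} (h : ∀ A, ¬ Sep E V c c A) (h3 : 3 ≤ V.card) (hr : r ∈ V) (hc : c ∈ V)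
    (hrc : r ≠ c) : ∃ z ∈ V, z ≠ r ∧ z ≠ c ∧ s(r, z) ∈ E := by
  by_contra hno
  push Not at hno
  have h2 : ¬ V ⊆ {r, c} := fun h2 => by
    have := (card_le_card h2).trans card_le_two
    omega
  obtain ⟨z, hz, hz'⟩ := not_subset.1 h2
  simp only [mem_insert, mem_singleton, not_or] at hz'
  refine h {r} ⟨singleton_subset_iff.2 hr, hc, hc, by simp [hrc.symm], by simp [hrc.symm],
    singleton_nonempty r, ⟨z, hz, by simp [hz'.1], hz'.2, hz'.2⟩, ?_⟩
  intro u hu v hv h4 h5 _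
  rw [mem_singleton.1 hu]
  exact hno v hv (by simpa using h4) h5

theorem NoSep.triangle (hN : NoSep E V) (h3 : V.card = 3) {a b : α} (ha : a ∈ V) (hb : b ∈ V)
    (hab : a ≠ b) : ∃ p, V = {a, b, p} ∧ a ≠ p ∧ b ≠ p ∧ s(a, p) ∈ E ∧ s(b, p) ∈ E := by
  obtain ⟨p, hp, h1, h2, h4⟩ := exists_nbr (hN b b) h3.ge ha hb hab
  have hV : V = {a, b, p} := by
    symm
    refine eq_of_subset_of_card_le (insert_subset ha (insert_subset hb (singleton_subset_iff.2 hp)))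
      ?_
    rw [h3, card_eq_three.2 ⟨a, b, p, hab, h1.symm, h2.symm, rfl⟩]
  obtain ⟨p', hp', h1', h2', h4'⟩ := exists_nbr (hN a a) h3.ge hb ha hab.symm
  have : p' = p := by
    rw [hV] at hp'
    simpa [h1', h2'] using hp'
  exact ⟨p, hV, h1.symm, h2.symm, h4, this ▸ h4'⟩

end Pool.Agent.Lib.MP_efe3d7_co
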