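import Pool.Agent.Lib.MP_efe3d7_co.F
import Pool.Agent.Lib.MP_efe3d7_co.Sep
import Pool.Agent.Lib.MP_efe3d7_co.Par

/-! Effective weights of star-like and chain-like networks. -/

set_option autoImplicit false

open Finset

namespace Pool.Agent.Lib.MP_efe3d7_co

variable {α : Type} [Fintype α] [DecidableEq α]

/-- Admissible weights with root `r`; the pair `r t` is not restricted. -/
structure Adm (E : Finset (Sym2 α)) (V : Finset α) (y : Sym2 α → ℝ) (r t : α) (τ μ m : ℝ) :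
    Prop where
  non : ∀ a ∈ V, ∀ b ∈ V, a ≠ b → s(a, b) ∉ E → y s(a, b) = 1
  root : ∀ b ∈ V, b ≠ r → b ≠ t → s(r, b) ∈ E → -τ ≤ y s(r, b) ∧ y s(r, b) ≤ τ ^ 2
  rest : ∀ a ∈ V, ∀ b ∈ V, a ≠ b → a ≠ r → b ≠ r → s(a, b) ∈ E → -μ ≤ y s(a, b) ∧ y s(a, b) ≤ m

/-- Admissible weights without root; the pair `e` is not restricted. -/
structure AdmU (E : Finset (Sym2 α)) (V : Finset α) (y : Sym2 α → ℝ) (e : Sym2 α) (μ : ℝ) :
    Prop where
  non : ∀ a ∈ V, ∀ b ∈ V, a ≠ b → s(a, b) ∉ E → y s(a, b) = 1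
  rest : ∀ a ∈ V, ∀ b ∈ V, a ≠ b → s(a, b) ≠ e → s(a, b) ∈ E → -μ ≤ y s(a, b) ∧ y s(a, b) ≤ μ ^ 2

omit [Fintype α] [DecidableEq α] in
theorem AdmU.adm {E : Finset (Sym2 α)} {V : Finset α} {y : Sym2 α → ℝ} {r t : α} {μ : ℝ}
    (h : AdmU E V y s(r, t) μ) (hr : r ∈ V) : Adm E V y r t μ μ (μ ^ 2) :=
  ⟨h.non, fun b hb h1 h2 h3 => h.rest r hr b hb h1.symm (fun e => h2 (Sym2.congr_right.1 e)) h3,
    fun a ha b hb h1 h2 h3 h4 => h.rest a ha b hb h1 (by simp [h2, h3]) h4⟩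

omit [Fintype α] [DecidableEq α] in
theorem Adm.admU {E : Finset (Sym2 α)} {V : Finset α} {y : Sym2 α → ℝ} {r t : α} {μ : ℝ}
    (h : Adm E V y r t μ μ (μ ^ 2)) : AdmU E V y s(r, t) μ := by
  refine ⟨h.non, fun a ha b hb h1 h2 h3 => ?_⟩
  by_cases h4 : a = r
  · subst h4
    exact h.root b hb h1.symm (fun e => h2 (e ▸ rfl)) h3
  by_cases h5 : b = r
  · subst h5
    rw [Sym2.eq_swap] at h2 h3 ⊢
    exact h.root a ha h1 (fun e => h2 (e ▸ rfl)) h3
  · exact h.rest a ha b hb h1 h4 h5 h3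

omit [Fintype α] [DecidableEq α] in
theorem Adm.mono {E : Finset (Sym2 α)} {V : Finset α} {y : Sym2 α → ℝ} {r t : α}
    {τ μ m τ' m' : ℝ} (h : Adm E V y r t τ μ m) (h0 : 0 ≤ τ) (h1 : τ ≤ τ') (h2 : m ≤ m') :
    Adm E V y r t τ' μ m' :=
  ⟨h.non, fun b hb a1 a2 a3 => ⟨by linarith [(h.root b hb a1 a2 a3).1],
    (h.root b hb a1 a2 a3).2.trans (pow_le_pow_left₀ h0 h1 2)⟩,
    fun a ha b hb a1 a2 a3 a4 => ⟨(h.rest a ha b hb a1 a2 a3 a4).1,
      (h.rest a ha b hb a1 a2 a3 a4).2.trans h2⟩⟩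

/-- The statement proved by induction. -/
def Main (x μ ρ : ℝ) (E : Finset (Sym2 α)) (V : Finset α) : Prop :=
  NoSep E V → 4 ≤ V.card → ∀ (r t : α) (y : Sym2 α → ℝ) (τ : ℝ), (τ = μ ∨ τ = ρ) → r ∈ V → t ∈ V →
    r ≠ t → s(r, t) ∈ E → Adm E V y r t τ μ (μ ^ 2) → Out x V y s(r, t) (-τ) 0

/-- The induction hypothesis. -/
def IH (α : Type) [Fintype α] [DecidableEq α] (x μ ρ : ℝ) (n m : ℕ) : Prop :=
  ∀ (E : Finset (Sym2 α)) (V : Finset α), (V.card < n ∨ (V.card = n ∧ E.card < m)) → Main x μ ρ E V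

variable {x μ μ' ρ z zz g : ℝ}

theorem Tri.symm {y₁ y₂ τ : ℝ} (h : Tri x y₁ y₂ τ) : Tri x y₂ y₁ τ :=
  ⟨by linarith [h.1], by linarith [h.2.1], by linarith [h.2.2]⟩

theorem out_three (hx : 0 < x) {a b p : α} (hab : a ≠ b) (hap : a ≠ p) (hbp : b ≠ p)
    {y : Sym2 α → ℝ} {τ : ℝ} (h : Tri x (y s(a, p)) (y s(b, p)) τ) :
    Out x {a, b, p} y s(a, b) (-τ) 0 := by
  rw [Out, Dv_three hx hab hap hbp, Sv_three hx hab hap hbp]
  have hq : 0 < (1 + x) * x := by positivity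
  refine ⟨mul_pos hq h.1, ?_, ?_⟩
  · nlinarith [mul_le_mul_of_nonneg_left h.2.2 hq.le]
  · nlinarith [mul_nonneg hq.le h.2.1]

theorem Out.scale {V V' : Finset α} {y y' : Sym2 α → ℝ} {e : Sym2 α} {lo hi κ : ℝ}
    (h : Out x V' y' e lo hi) (hκ : 0 < κ)
    (h1 : Dv x V y e = κ * Dv x V' y' e ∧ Sv x V y e = κ * Sv x V' y' e) : Out x V y e lo hi := by
  rw [Out, h1.1, h1.2]
  refine ⟨mul_pos hκ h.1, ?_, ?_⟩
  · nlinarith [mul_le_mul_of_nonneg_left h.2.1 hκ.le]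
  · nlinarith [mul_le_mul_of_nonneg_left h.2.2 hκ.le]

theorem mul_range {τ σ u w : ℝ} (h0 : 0 ≤ τ) (h1 : τ ≤ σ) (h2 : σ ≤ 1 / 2)
    (hu : (-τ ≤ u ∧ u ≤ τ ^ 2) ∨ u = 1) (hw : -σ ≤ w) (hw' : w ≤ τ * σ) :
    -σ ≤ u * w ∧ u * w ≤ τ * σ := by
  rcases hu with hu | hu
  · have h3 : 0 ≤ τ * σ := mul_nonneg h0 (h0.trans h1)
    have h4 : τ * σ ≤ σ := by nlinarith
    have h5 : τ ^ 2 ≤ τ := by nlinarith
    have h6 : |u| ≤ τ := abs_le.2 ⟨hu.1, hu.2.trans h5⟩
    have h7 : |w| ≤ σ := abs_le.2 ⟨hw, hw'.trans h4⟩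
    have h8 : |u * w| ≤ τ * σ := by
      rw [abs_mul]; exact mul_le_mul h6 h7 (abs_nonneg _) h0
    exact ⟨by linarith [(abs_le.1 h8).1], (abs_le.1 h8).2⟩
  · rw [hu, one_mul]; exact ⟨hw, hw'⟩

theorem Out.scale_mul {V V' : Finset α} {y y' : Sym2 α → ℝ} {e : Sym2 α} {τ κ w : ℝ}
    (h : Out x V' y' e (-τ) (τ ^ 2)) (hκ : 0 < κ) (h0 : 0 ≤ τ) (h2 : τ ≤ 1 / 2) (hw : -τ ≤ w)
    (hw' : w ≤ τ ^ 2)
    (h1 : Dv x V y e = κ * Dv x V' y' e ∧ Sv x V y e = κ * w * Sv x V' y' e) :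
    Out x V y e (-τ) (τ ^ 2) := by
  rw [Out, h1.1, h1.2]
  obtain ⟨a1, a2, a3⟩ := h
  have h3 := mul_range h0 le_rfl h2 (Or.inl ⟨hw, hw'⟩) ((le_div_iff₀ a1).2 a2)
    (by rw [← sq]; exact (div_le_iff₀ a1).2 a3)
  have h4 : -(x * (κ * w * Sv x V' y' e)) =
      w * (-(x * Sv x V' y' e) / Dv x V' y' e) * (κ * Dv x V' y' e) := by
    field_simp
  have h5 := mul_pos hκ a1
  rw [h4]
  exact ⟨h5, mul_le_mul_of_nonneg_right h3.1 h5.le,
    mul_le_mul_of_nonneg_right (by rw [sq]; exact h3.2) h5.le⟩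

omit [Fintype α] [DecidableEq α] in
theorem Sep.cross {E : Finset (Sym2 α)} {V A : Finset α} {c d : α} (h : Sep E V c d A)
    {y : Sym2 α → ℝ} (hy : ∀ a ∈ V, ∀ b ∈ V, a ≠ b → s(a, b) ∉ E → y s(a, b) = 1) :
    ∀ u ∈ A, ∀ v ∈ V, v ∉ A → v ≠ c → v ≠ d → y s(u, v) = 1 :=
  fun u hu v hv h1 h2 h3 => hy u (h.sub hu) v hv (fun e => h1 (e ▸ hu)) (h.no u hu v hv h1 h2 h3)

theorem star (P : Par x μ μ' ρ z zz g) {n m : ℕ} (hI : IH α x μ ρ n m) {τ m₀ : ℝ}
    (hτ : τ = μ ∨ τ = ρ) (hm₀ : m₀ ≤ μ ^ 2)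
    (htri : ∀ y₁ y₂, -τ ≤ y₁ → y₁ ≤ τ ^ 2 → -μ ≤ y₂ → y₂ ≤ m₀ → Tri x y₁ y₂ τ) (r : α) :
    ∀ (k : ℕ) (E : Finset (Sym2 α)) (V : Finset α) (t : α) (y : Sym2 α → ℝ), V.card = k →
      (V.card < n ∨ (V.card = n ∧ E.card < m)) → 3 ≤ V.card → Rooted E V r → r ∈ V → t ∈ V →
      r ≠ t → s(r, t) ∈ E → Adm E V y r t τ μ m₀ → Out x V y s(r, t) (-τ) (τ ^ 2) := by
  have hτ0 : 0 ≤ τ := by rcases hτ with h | h <;> linarith [P.hμ, P.μρ]
  have hτ1 : τ ≤ 1 / 2 := by rcases hτ with h | h <;> linarith [P.ρ1, P.μρ]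
  intro k
  induction k using Nat.strong_induction_on with
  | _ k ih =>
  intro E V t y hk hsz h3 hR hr ht hrt hE hA
  by_cases hN : NoSep E V
  · rcases h3.eq_or_lt with h3 | h3
    · obtain ⟨p, hV, h1, h2, h4, h5⟩ := hN.triangle h3.symm hr ht hrt
      have hp : p ∈ V := by rw [hV]; simp
      have h6 := hA.root p hp h1.symm h2.symm h4
      have h7 := hA.rest t ht p hp h2 hrt.symm h1.symm h5
      rw [hV]
      exact (out_three P.hx hrt h1 h2 (htri _ _ h6.1 h6.2 h7.1 h7.2)).mono le_rfl (sq_nonneg τ)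
    · exact (hI E V hsz hN h3 r t y τ hτ hr ht hrt hE (hA.mono hτ0 le_rfl hm₀)).mono le_rfl
        (sq_nonneg τ)
  · obtain ⟨p, A, h, hrp, htA⟩ : ∃ p A, Sep E V r p A ∧ r ≠ p ∧ t ∉ A := by
      obtain ⟨p, A, h, hrp⟩ : ∃ p A, Sep E V r p A ∧ r ≠ p := by
        simp only [NoSep, not_forall, not_not] at hN
        obtain ⟨c, d, A, h⟩ := hN
        obtain ⟨h1, rfl | rfl⟩ := hR c d A h
        · exact ⟨d, A, h, h1⟩
        · exact ⟨c, A, h.symm, h1.symm⟩
      by_cases htA : t ∈ A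
      · exact ⟨p, _, h.compl, hrp, fun h1 => (mem_co.1 h1).2.1 htA⟩
      · exact ⟨p, A, h, hrp, htA⟩
    have hn : V.card ≤ n := by omega
    have hin : Out x (insert r (insert p A)) y s(r, p) (-τ) (τ ^ 2) := by
      refine ih _ (hk ▸ h.card_inner_lt) (insert s(r, p) E) _ p y rfl
        (Or.inl (h.card_inner_lt.trans_le hn)) (h.card_inner_ge hrp) (hR.inner h)
        (mem_insert_self _ _) (mem_insert_of_mem (mem_insert_self _ _)) hrp (mem_insert_self _ _)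
        ⟨fun a ha b hb h1 h2 => hA.non a (h.inner_sub ha) b (h.inner_sub hb) h1
          fun h4 => h2 (mem_insert_of_mem h4), fun b hb h1 h2 h4 => ?_, fun a ha b hb h1 h2 h4 h5 =>
          hA.rest a (h.inner_sub ha) b (h.inner_sub hb) h1 h2 h4
            ((mem_insert.1 h5).resolve_left (by simp [h2, h4]))⟩
      have hbA : b ∈ A := by simpa [h1, h2] using hb
      exact hA.root b (h.sub hbA) h1 (fun e => htA (e ▸ hbA))
        ((mem_insert.1 h4).resolve_left fun e => h2 (Sym2.congr_right.1 e))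
    obtain ⟨κ, w, hκ, hw, hw', hred⟩ := reduce_val P.hx h.sub hr h.hd hrp h.hcA h.hdA
      (h.cross hA.non) hin
    have hout := fun y' => ih _ (hk ▸ h.card_outer_lt) (insert s(r, p) E) (V \ A) t y' rfl
      (Or.inl (h.card_outer_lt.trans_le hn)) (h.card_outer_ge hrp) (hR.outer h)
      (mem_sdiff.2 ⟨hr, h.hcA⟩) (mem_sdiff.2 ⟨ht, htA⟩) hrt (mem_insert_of_mem hE)
    by_cases hpt : s(r, t) = s(r, p)
    · refine (hout y ⟨fun a ha b hb h1 h2 => hA.non a (mem_sdiff.1 ha).1 b (mem_sdiff.1 hb).1 h1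
          fun h4 => h2 (mem_insert_of_mem h4), fun b hb h1 h2 h4 => ?_, fun a ha b hb h1 h2 h4 h5 =>
          hA.rest a (mem_sdiff.1 ha).1 b (mem_sdiff.1 hb).1 h1 h2 h4
            ((mem_insert.1 h5).resolve_left (by simp [h2, h4]))⟩).scale_mul hκ hτ0 hτ1 hw hw'
          ((hred r t h.hcA htA).2 hpt)
      exact hA.root b (mem_sdiff.1 hb).1 h1 h2
        ((mem_insert.1 h4).resolve_left fun e => h2 (Sym2.congr_right.1 (e.trans hpt.symm)))
    · refine (hout _ ⟨fun a ha b hb h1 h2 => ?_, fun b hb h1 h2 h4 => ?_,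
        fun a ha b hb h1 h2 h4 h5 => ?_⟩).scale hκ ((hred r t h.hcA htA).1 hpt)
      · rw [Function.update_of_ne fun e : s(a, b) = s(r, p) => h2 (e ▸ mem_insert_self _ _)]
        exact hA.non a (mem_sdiff.1 ha).1 b (mem_sdiff.1 hb).1 h1
          fun h4 => h2 (mem_insert_of_mem h4)
      · by_cases hbp : b = p
        · subst hbp
          rw [Function.update_self, sq]
          refine mul_range hτ0 le_rfl hτ1 ?_ hw (by rw [← sq]; exact hw')
          by_cases h5 : s(r, b) ∈ E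
          · exact Or.inl (hA.root b h.hd h1 h2 h5)
          · exact Or.inr (hA.non r hr b h.hd hrp h5)
        · have h5 : s(r, b) ≠ s(r, p) := fun e => hbp (Sym2.congr_right.1 e)
          rw [Function.update_of_ne h5]
          exact hA.root b (mem_sdiff.1 hb).1 h1 h2 ((mem_insert.1 h4).resolve_left h5)
      · have h6 : s(a, b) ≠ s(r, p) := by simp [h2, h4]
        rw [Function.update_of_ne h6]
        exact hA.rest a (mem_sdiff.1 ha).1 b (mem_sdiff.1 hb).1 h1 h2 h4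
          ((mem_insert.1 h5).resolve_left h6)

omit [Fintype α] in
theorem AdmU.update {E : Finset (Sym2 α)} {V V' : Finset α} {y : Sym2 α → ℝ} {e e' : Sym2 α}
    (h : AdmU E V y e μ) (hV : V' ⊆ V) {w : ℝ} (hw : -μ ≤ w) (hw' : w ≤ μ ^ 2) :
    AdmU (insert e' E) V' (Function.update y e' w) e μ := by
  refine ⟨fun a ha b hb h1 h2 => ?_, fun a ha b hb h1 h2 h3 => ?_⟩
  · rw [Function.update_of_ne fun e : s(a, b) = e' => h2 (e ▸ mem_insert_self _ _)]
    exact h.non a (hV ha) b (hV hb) h1 fun h4 => h2 (mem_insert_of_mem h4)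
  · by_cases h4 : s(a, b) = e'
    · rw [h4, Function.update_self]; exact ⟨hw, hw'⟩
    · rw [Function.update_of_ne h4]
      exact h.rest a (hV ha) b (hV hb) h1 h2 ((mem_insert.1 h3).resolve_left h4)

/-- A slightly too large weight on one edge of a three-connected network. -/
theorem out_ext (P : Par x μ μ' ρ z zz g) {E : Finset (Sym2 α)} {V : Finset α}
    (hM : Main x μ ρ E V) (hN : NoSep E V) (h4 : 4 ≤ V.card) {a b c d : α} (ha : a ∈ V)
    (hb : b ∈ V) (hc : c ∈ V) (hd : d ∈ V) (hab : a ≠ b) (hcd : c ≠ d) (he : s(a, b) ∈ E)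
    (he' : s(c, d) ∈ E) (hne : s(a, b) ≠ s(c, d)) {y : Sym2 α → ℝ}
    (hA : ∀ w, -μ ≤ w → w ≤ μ ^ 2 → AdmU E V (Function.update y s(c, d) w) s(a, b) μ) {w : ℝ}
    (hw : -μ' ≤ w) (hw' : w ≤ μ * μ') :
    Out x V (Function.update y s(c, d) w) s(a, b) (-μ') (μ * μ') := by
  have hμ := P.hμ
  have e1 : ∀ w s : ℝ, ff x V (Function.update (Function.update y s(c, d) w) s(a, b) s) =
      Dv x V (Function.update y s(a, b) s) s(c, d) -
        w * Sv x V (Function.update y s(a, b) s) s(c, d) := by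
    intro w s
    rw [Function.update_comm hne.symm, ff_aff]
  have o1 := hM hN h4 a b _ μ (Or.inl rfl) ha hb hab he
    ((hA (-μ) le_rfl (by nlinarith)).adm ha)
  have o2 := hM hN h4 a b _ μ (Or.inl rfl) ha hb hab he
    ((hA (μ ^ 2) (by nlinarith) le_rfl).adm ha)
  have o3 : Out x V (Function.update y s(a, b) 0) s(c, d) (-μ) 0 := by
    refine hM hN h4 c d _ μ (Or.inl rfl) hc hd hcd he' (AdmU.adm ⟨?_, ?_⟩ hc)
    · intro u hu v hv h1 h2
      have := (hA 0 (by linarith) (sq_nonneg μ)).non u hu v hv h1 h2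
      rw [Function.update_of_ne fun e : s(u, v) = s(c, d) => h2 (e ▸ he')] at this
      rw [Function.update_of_ne fun e : s(u, v) = s(a, b) => h2 (e ▸ he), this]
    · intro u hu v hv h1 h2 h3
      by_cases h5 : s(u, v) = s(a, b)
      · rw [h5, Function.update_self]; exact ⟨by linarith, sq_nonneg μ⟩
      · have := (hA 0 (by linarith) (sq_nonneg μ)).rest u hu v hv h1 h5 h3
        rw [Function.update_of_ne h2] at this
        rw [Function.update_of_ne h5]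
        exact this
  simp only [Out, Dv, Sv] at o1 o2 ⊢
  simp only [e1] at o1 o2 ⊢
  obtain ⟨p1, p2, p3⟩ := o3
  set D₀ := Dv x V (Function.update y s(a, b) 0) s(c, d)
  set D₁ := Sv x V (Function.update y s(a, b) 0) s(c, d)
  set D₀' := Dv x V (Function.update y s(a, b) 1) s(c, d)
  set D₁' := Sv x V (Function.update y s(a, b) 1) s(c, d)
  have p4 : 0 ≤ D₁ := by
    by_contra p4
    nlinarith [mul_pos P.hx (neg_pos.2 (not_le.1 p4))]
  obtain ⟨q1, q2, q3⟩ := P.ext D₀ D₁ (x * (D₀ - D₀')) (x * (D₁ - D₁')) w p1 p4 (by linarith)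
    (by linarith [o1.2.2]) (by linarith [o1.2.1]) (by linarith [o2.2.2]) (by linarith [o2.2.1])
    hw hw'
  exact ⟨q1, by linarith, by linarith⟩

theorem chain (P : Par x μ μ' ρ z zz g) {n m : ℕ} (hI : IH α x μ ρ n m) (u : α) :
    ∀ (k : ℕ) (E : Finset (Sym2 α)) (V : Finset α) (a b : α), V.card = k → V.card < n →
      3 ≤ V.card → a ∈ V → b ∈ V → a ≠ b → s(a, b) ∈ E → Marked E V u {a, b} →
      ∃ h : Option (Sym2 α),
        (∀ e ∈ h, e ∈ E ∧ ∃ p ∈ V, ∃ q ∈ V, p ≠ q ∧ p ≠ a ∧ p ≠ b ∧ e = s(p, q)) ∧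
        ∀ y, AdmU E V y s(a, b) μ → Out x V y s(a, b) (-μ') (μ * μ') ∧
          ((∀ e ∈ h, y e ≤ z) → Out x V y s(a, b) (-μ) 0) := by
  have hμ := P.hμ
  have hμ' := P.μμ'
  have hM : μ ^ 2 ≤ μ * μ' := by nlinarith
  have hM0 : 0 ≤ μ * μ' := by nlinarith
  intro k
  induction k using Nat.strong_induction_on with
  | _ k ih =>
  intro E V a b hk hn h3 ha hb hab hE hMk
  rcases exists_max_sep E V u (fun _ _ _ => True) with hno | ⟨c, d, A, h, huA, -, hmax⟩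
  · have hN : NoSep E V := fun c d A h => by
      rcases (hMk c d A h).2.1 with h1 | h1
      · exact hno c d A h h1 trivial
      · exact hno c d _ h.compl h1 trivial
    rcases h3.eq_or_lt with h3 | h3
    · obtain ⟨p, hV, h1, h2, h4, h5⟩ := hN.triangle h3.symm ha hb hab
      have hp : p ∈ V := by rw [hV]; simp
      refine ⟨some s(b, p), fun e he => ?_, fun y hA => ?_⟩
      · rw [← Option.some.inj he]
        exact ⟨h5, p, hp, b, hb, h2.symm, h1.symm, h2.symm, Sym2.eq_swap⟩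
      · have h6 := hA.rest a ha p hp h1 (by simp [h2.symm, hab]) h4
        have h7 := hA.rest b hb p hp h2 (by simp [h1.symm, hab.symm]) h5
        rw [hV]
        exact ⟨(out_three P.hx hab h1 h2 (P.tri1 _ _ (by linarith) (by linarith) h7.1 h7.2)).mono
          le_rfl hM0, fun h8 => out_three P.hx hab h1 h2
            (P.tri2 _ _ (by linarith) (by linarith) h7.1 (h8 _ rfl))⟩
    · refine ⟨none, by simp, fun y hA => ?_⟩
      have := hI E V (Or.inl hn) hN h3 a b y μ (Or.inl rfl) ha hb hab hE (hA.adm ha)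
      exact ⟨this.mono (by linarith) hM0, fun _ => this⟩
  · obtain ⟨hcd, -, h1⟩ := hMk c d A h
    obtain ⟨⟨q, hq, hq'⟩, h2⟩ := h1 huA
    have haA : a ∉ A := h2 a (by simp)
    have hbA : b ∉ A := h2 b (by simp)
    have hne : s(a, b) ≠ s(c, d) := by
      intro e
      have : q ∈ s(c, d) := by rw [← e]; simpa using hq
      rcases Sym2.mem_iff.1 this with h4 | h4
      · exact (mem_co.1 hq').2.2.1 h4
      · exact (mem_co.1 hq').2.2.2 h4
    obtain ⟨h₁, hh₁, hv₁⟩ := ih _ (hk ▸ h.card_inner_lt) (insert s(c, d) E) _ c d rfl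
      (h.card_inner_lt.trans hn) (h.card_inner_ge hcd) (mem_insert_self _ _)
      (mem_insert_of_mem (mem_insert_self _ _)) hcd (mem_insert_self _ _) (hMk.inner h huA)
    have hN : NoSep (insert s(c, d) E) (V \ A) := fun c' d' X h' => by
      rcases h'.side (mem_insert_self s(c, d) E) with h4 | h4
      · exact (hmax _ _ _ h' h4.1 h4.2).2.2 trivial
      · exact (hmax _ _ _ h'.compl h4.1 h4.2).2.2 trivial
    have hin : ∀ y, AdmU E V y s(a, b) μ →
        AdmU (insert s(c, d) E) (insert c (insert d A)) y s(c, d) μ := by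
      intro y hA
      refine ⟨fun p hp q hq h4 h5 => hA.non p (h.inner_sub hp) q (h.inner_sub hq) h4
        fun h6 => h5 (mem_insert_of_mem h6), fun p hp q hq h4 h5 h6 =>
        hA.rest p (h.inner_sub hp) q (h.inner_sub hq) h4 ?_ ((mem_insert.1 h6).resolve_left h5)⟩
      intro e
      have h7 : p ∉ A ∧ q ∉ A := by
        rcases Sym2.eq_iff.1 e with ⟨rfl, rfl⟩ | ⟨rfl, rfl⟩
        · exact ⟨haA, hbA⟩
        · exact ⟨hbA, haA⟩
      simp only [mem_insert, h7.1, h7.2, or_false] at hp hq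
      rcases hp with rfl | rfl <;> rcases hq with rfl | rfl
      · exact h4 rfl
      · exact h5 rfl
      · exact h5 Sym2.eq_swap
      · exact h4 rfl
    have hycd : ∀ y, AdmU E V y s(a, b) μ →
        (-μ ≤ y s(c, d) ∧ y s(c, d) ≤ μ ^ 2) ∨ y s(c, d) = 1 := by
      intro y hA
      by_cases h5 : s(c, d) ∈ E
      · exact Or.inl (hA.rest c h.hc d h.hd hcd hne.symm h5)
      · exact Or.inr (hA.non c h.hc d h.hd hcd h5)
    have ha2 : a ∈ V \ A := mem_sdiff.2 ⟨ha, haA⟩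
    have hb2 : b ∈ V \ A := mem_sdiff.2 ⟨hb, hbA⟩
    have hc2 : c ∈ V \ A := mem_sdiff.2 ⟨h.hc, h.hcA⟩
    have hd2 : d ∈ V \ A := mem_sdiff.2 ⟨h.hd, h.hdA⟩
    rcases (h.card_outer_ge hcd).eq_or_lt with h4 | h4
    · obtain ⟨p, hV, g1, g2, g4, g5⟩ := hN.triangle h4.symm ha2 hb2 hab
      have hp : p ∈ V := (mem_sdiff.1 (hV ▸ (by simp : p ∈ ({a, b, p} : Finset α)))).1
      have n1 : s(a, p) ≠ s(b, p) := by simp [hab, g1]
      have n2 : s(a, p) ≠ s(a, b) := by simp [g2.symm, hab]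
      have n3 : s(b, p) ≠ s(a, b) := by simp [g1.symm, hab.symm]
      have hcase : s(c, d) = s(a, p) ∨ s(c, d) = s(b, p) := by
        rw [hV] at hc2 hd2
        simp only [mem_insert, mem_singleton] at hc2 hd2
        rcases hc2 with rfl | rfl | rfl <;> rcases hd2 with rfl | rfl | rfl <;> simp_all
      obtain ⟨e₀, he₀, hE₀, hne₀, htri⟩ : ∃ e₀, (e₀ = s(p, a) ∨ e₀ = s(p, b)) ∧ e₀ ∈ E ∧
          e₀ ≠ s(a, b) ∧ ∀ (y : Sym2 α → ℝ) (w τ : ℝ), Tri x w (y e₀) τ →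
            Out x (V \ A) (Function.update y s(c, d) w) s(a, b) (-τ) 0 := by
        rcases hcase with e | e
        · refine ⟨s(b, p), Or.inr Sym2.eq_swap, (mem_insert.1 g5).resolve_left (e ▸ n1.symm), n3,
            fun y w τ ht => ?_⟩
          rw [hV]
          refine out_three P.hx hab g1 g2 ?_
          rwa [e, Function.update_self, Function.update_of_ne n1.symm]
        · refine ⟨s(a, p), Or.inl Sym2.eq_swap, (mem_insert.1 g4).resolve_left (e ▸ n1), n2,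
            fun y w τ ht => ?_⟩
          rw [hV]
          refine out_three P.hx hab g1 g2 (Tri.symm ?_)
          rwa [e, Function.update_self, Function.update_of_ne n1]
      refine ⟨some e₀, fun e he => ?_, fun y hA => ?_⟩
      · rw [← Option.some.inj he]
        rcases he₀ with e | e
        · exact ⟨hE₀, p, hp, a, ha, g1.symm, g1.symm, g2.symm, e⟩
        · exact ⟨hE₀, p, hp, b, hb, g2.symm, g1.symm, g2.symm, e⟩
      · obtain ⟨κ, w, hκ, hw, hw', hred⟩ := reduce_val P.hx h.sub h.hc h.hd hcd h.hcA h.hdA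
          (h.cross hA.non) (hv₁ y (hin y hA)).1
        have h5 := mul_range hμ.le hμ' P.μ'1 (hycd y hA) hw hw'
        have h6 : -μ ≤ y e₀ ∧ y e₀ ≤ μ ^ 2 := by
          rcases he₀ with e | e
          · rw [e] at hE₀ hne₀ ⊢
            exact hA.rest p hp a ha g1.symm hne₀ hE₀
          · rw [e] at hE₀ hne₀ ⊢
            exact hA.rest p hp b hb g2.symm hne₀ hE₀
        exact ⟨((htri y _ _ (P.tri1 _ _ h5.1 h5.2 h6.1 h6.2)).mono le_rfl hM0).scale hκ
          ((hred a b haA hbA).1 hne), fun h7 => (htri y _ _ (P.tri2 _ _ h5.1 h5.2 h6.1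
            (h7 _ rfl))).scale hκ ((hred a b haA hbA).1 hne)⟩
    · have hMain := hI (insert s(c, d) E) (V \ A) (Or.inl (h.card_outer_lt.trans hn))
      refine ⟨h₁, fun e he => ?_, fun y hA => ⟨?_, fun h7 => ?_⟩⟩
      · obtain ⟨g1, p, hp, q, hq, g2, g3, g4, g5⟩ := hh₁ e he
        have hpA : p ∈ A := by simpa [g3, g4] using hp
        refine ⟨(mem_insert.1 g1).resolve_left ?_, p, h.sub hpA, q, h.inner_sub hq, g2,
          fun e => haA (e ▸ hpA), fun e => hbA (e ▸ hpA), g5⟩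
        rw [g5]
        simp [g3, g4]
      · obtain ⟨κ, w, hκ, hw, hw', hred⟩ := reduce_val P.hx h.sub h.hc h.hd hcd h.hcA h.hdA
          (h.cross hA.non) (hv₁ y (hin y hA)).1
        have h5 := mul_range hμ.le hμ' P.μ'1 (hycd y hA) hw hw'
        exact (out_ext P hMain hN h4 ha2 hb2 hc2 hd2 hab hcd (mem_insert_of_mem hE)
          (mem_insert_self _ _) hne (fun w h1 h2 => hA.update sdiff_subset h1 h2) h5.1 h5.2).scale
          hκ ((hred a b haA hbA).1 hne)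
      · obtain ⟨κ, w, hκ, hw, hw', hred⟩ := reduce_val P.hx h.sub h.hc h.hd hcd h.hcA h.hdA
          (h.cross hA.non) ((hv₁ y (hin y hA)).2 h7)
        have h5 := mul_range hμ.le le_rfl (hμ'.trans P.μ'1) (hycd y hA) hw (by nlinarith)
        exact (hMain hN h4 a b _ μ (Or.inl rfl) ha2 hb2 hab (mem_insert_of_mem hE)
          ((hA.update sdiff_subset h5.1 (by rw [sq]; exact h5.2)).adm ha2)).scale
          hκ ((hred a b haA hbA).1 hne)

end Pool.Agent.Lib.MP_efe3d7_co
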