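import Pool.Agent.Lib.MP_efe3d7_co.R10
import Pool.Agent.Lib.MP_efe3d7_co.H.Main

set_option autoImplicit false

namespace Pool.Agent.Lib.MP_efe3d7_co.OldThreeHalves

/-- For every 3-connected graph `G` on `n` vertices, `(-1)^n` times the chromatic polynomial of
`G` (Whitney expansion) is positive on `(1, 3/2]`. -/
theorem result :
    ∀ (n : ℕ) (G : SimpleGraph (Fin n)) [DecidableRel G.Adj],
      4 ≤ n →
      (∀ S : Finset (Fin n), S.card ≤ 2 →
        (G.induce ((↑S : Set (Fin n))ᶜ)).Connected) →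
      ∀ x : ℝ, 1 < x → x ≤ 3 / 2 →
        0 < (-1 : ℝ) ^ n * ∑ T ∈ G.edgeFinset.powerset,
          (-1 : ℝ) ^ T.card *
            x ^ Nat.card (SimpleGraph.fromEdgeSet (↑T : Set (Sym2 (Fin n)))).ConnectedComponent := by
  intro n G _ hn hG x h1 h2
  have e : x = 1 + (x - 1) := by ring
  rw [e]
  by_cases k : x ≤ 5 / 4
  · obtain ⟨μ, L, P⟩ := Pool.Agent.Lib.MP_efe3d7_co.pn_of (x := x - 1) (by linarith) (by linarith)
    exact Pool.Agent.Lib.MP_efe3d7_co.chrom_pos_root2 P G (by omega) ⟨0, by omega⟩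
      (hG _ (by simp)) fun S h _ => hG S h
  · rw [← Pool.Agent.Lib.MP_efe3d7_co.whitney_eq (by linarith)]
    exact Pool.Agent.Lib.MP_efe3d7_co.H.ff_pos (by linarith) (by linarith) G hn hG

end Pool.Agent.Lib.MP_efe3d7_co.OldThreeHalves
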