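import Pool.Agent.Lib.MP_efe3d7_co.Bridge

set_option autoImplicit false

namespace Pool.Agent.Results.MP_efe3d7_co.ZeroFree

/-- For every 3-connected graph `G` on `n` vertices and every real `x` with `1 < x ≤ 1.19`,
`(-1)^n` times the chromatic polynomial of `G` (Whitney expansion) at `x` is positive. -/
theorem result :
    ∀ (n : ℕ) (G : SimpleGraph (Fin n)) [DecidableRel G.Adj],
      4 ≤ n →
      (∀ S : Finset (Fin n), S.card ≤ 2 →
        (G.induce ((↑S : Set (Fin n))ᶜ)).Connected) →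
      ∀ x : ℝ, 1 < x → x ≤ 119 / 100 →
        0 < (-1 : ℝ) ^ n * ∑ T ∈ G.edgeFinset.powerset,
          (-1 : ℝ) ^ T.card *
            x ^ Nat.card (SimpleGraph.fromEdgeSet (↑T : Set (Sym2 (Fin n)))).ConnectedComponent := by
  intro n G _ hn hG x h1 h2
  have e : x = 1 + (x - 1) := by ring
  rw [e]
  rcases le_total (x - 1) (18 / 100) with h | h
  · exact Pool.Agent.Lib.MP_efe3d7_co.chrom_pos
      (Pool.Agent.Lib.MP_efe3d7_co.par_small (by linarith) h) G hn hG
  · exact Pool.Agent.Lib.MP_efe3d7_co.chrom_pos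
      (Pool.Agent.Lib.MP_efe3d7_co.par_large h (by linarith)) G hn hG

end Pool.Agent.Results.MP_efe3d7_co.ZeroFree
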