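import Pool.Agent.Lib.MP_efe3d7_co.R1

/-! Rooted networks: the class, and closure of the class under the local operations. -/

set_option autoImplicit false

open Finset

namespace Pool.Agent.Lib.MP_efe3d7_co

variable {α : Type} [DecidableEq α] {τ T : ℝ}

/-- All edges leaving `A` inside `V` end in `S`. -/
def Cl (V : Finset α) (y : Sym2 α → ℝ) (A S : Finset α) : Prop :=
  ∀ u ∈ A, ∀ v ∈ V, v ∉ A → v ∉ S → y s(u, v) = 1

/-- Rooted networks: plain edges off the root, weights in `[-T, τ]` at the root, every set without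
an edge to the root has three neighbours, and the network minus the root is connected. -/
structure Cls (τ T : ℝ) (V : Finset α) (y : Sym2 α → ℝ) (z : α) : Prop where
  hz : z ∈ V
  w0 : ∀ u ∈ V, ∀ v ∈ V, u ≠ z → v ≠ z → u ≠ v → y s(u, v) = 0 ∨ y s(u, v) = 1
  w1 : ∀ v ∈ V, v ≠ z → y s(z, v) = 1 ∨ (-T ≤ y s(z, v) ∧ y s(z, v) ≤ τ)
  hC : ∀ (A : Finset α) (c d : α), A ⊆ V → z ∉ A → A.Nonempty → (∀ p ∈ A, y s(z, p) = 1) →
    ¬ Cl V y A {c, d}
  conn : ∀ A : Finset α, A ⊆ V → z ∉ A → A.Nonempty → Cl V y A {z} → ∀ v ∈ V, v ≠ z → v ∈ A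

/-- The network minus the root has no cut vertex. -/
def C2 (V : Finset α) (y : Sym2 α → ℝ) (z : α) : Prop :=
  ∀ (A : Finset α) (w : α), A ⊆ V → z ∉ A → w ∉ A → A.Nonempty → Cl V y A {z, w} →
    ∀ v ∈ V, v ≠ z → v ≠ w → v ∈ A

theorem Cl.compl {V A S : Finset α} {y : Sym2 α → ℝ} (h : Cl V y A S) (_hA : A ⊆ V) :
    Cl V y ((V \ A) \ S) S := by
  intro u hu v hv hv1 hv2
  simp only [mem_sdiff] at hu hv1
  have : v ∈ A := by
    by_contra hvA
    exact hv1 ⟨⟨hv, hvA⟩, hv2⟩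
  rw [Sym2.eq_swap]
  exact h v this u hu.1.1 hu.1.2 hu.2

/-- Connectivity through a distinguished vertex. -/
theorem conn_of {V : Finset α} {y : Sym2 α → ℝ} {z w : α} (_hw : w ∈ V) (_hwz : w ≠ z)
    (h : ∀ A : Finset α, A ⊆ V → z ∉ A → w ∉ A → A.Nonempty → ¬ Cl V y A {z}) :
    ∀ A : Finset α, A ⊆ V → z ∉ A → A.Nonempty → Cl V y A {z} → ∀ v ∈ V, v ≠ z → v ∈ A := by
  intro A hA hz hne hcl v hv hvz
  by_cases hwA : w ∈ A
  · by_contra hvA
    refine h ((V \ A) \ {z}) (fun p hp => (mem_sdiff.1 (mem_sdiff.1 hp).1).1) (by simp)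
      (by simp [hwA]) ⟨v, by simp [hv, hvA, hvz]⟩ (hcl.compl hA)
  · exact absurd hcl (h A hA hz hwA hne)

theorem mul_eq_one_of {s t : ℝ} (ht : t = 0 ∨ t = 1) (h : s * t = 1) : s = 1 ∧ t = 1 := by
  rcases ht with rfl | rfl
  · simp at h
  · exact ⟨by simpa using h, rfl⟩

/-- Merging a vertex into the root. -/
theorem cls_merge (hτ : 0 ≤ τ) (hT : 0 ≤ T) {V : Finset α} {y : Sym2 α → ℝ} {z v : α}
    (hz : z ∈ V) (hvz : v ≠ z)
    (w0 : ∀ u ∈ V, ∀ w ∈ V, u ≠ z → w ≠ z → u ≠ w → y s(u, w) = 0 ∨ y s(u, w) = 1)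
    (hv : v ∈ V)
    (w1 : ∀ w ∈ V, w ≠ z → w ≠ v → y s(z, w) = 1 ∨ (-T ≤ y s(z, w) ∧ y s(z, w) ≤ τ))
    (hC : ∀ (A : Finset α) (c d : α), A ⊆ V → z ∉ A → v ∉ A → A.Nonempty →
      (∀ p ∈ A, y s(z, p) = 1) → (∀ p ∈ A, y s(v, p) = 1) → ¬ Cl V y A {c, d})
    (conn : ∀ A : Finset α, A ⊆ V → z ∉ A → v ∉ A → A.Nonempty → Cl V y A {z, v} →
      ∀ w ∈ V, w ≠ z → w ≠ v → w ∈ A) :
    Cls τ T (V.erase v) (mergeW y z v) z := by
  refine ⟨mem_erase.2 ⟨hvz.symm, hz⟩, ?_, ?_, ?_, ?_⟩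
  · intro u hu w hw h1 h2 h3
    rw [mergeW_of_ne _ _ h1 h2]
    exact w0 u (mem_of_mem_erase hu) w (mem_of_mem_erase hw) h1 h2 h3
  · intro w hw h1
    rw [mergeW_self]
    rcases w0 v hv w (mem_of_mem_erase hw) hvz h1 (ne_of_mem_erase hw).symm with h | h
    · rw [h, mul_zero]; exact Or.inr ⟨by linarith, hτ⟩
    · rw [h, mul_one]; exact w1 w (mem_of_mem_erase hw) h1 (ne_of_mem_erase hw)
  · intro A c d hA hzA hne hfree hcl
    have hvA : v ∉ A := fun h => notMem_erase v V (hA h)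
    have key : ∀ p ∈ A, y s(z, p) = 1 ∧ y s(v, p) = 1 := by
      intro p hp
      have h1 := hfree p hp
      rw [mergeW_self] at h1
      exact mul_eq_one_of (w0 v hv p (mem_of_mem_erase (hA hp)) hvz (fun e => hzA (e ▸ hp))
        (ne_of_mem_erase (hA hp)).symm) h1
    refine hC A c d (hA.trans (erase_subset _ _)) hzA hvA hne (fun p hp => (key p hp).1)
      (fun p hp => (key p hp).2) fun p hp q hq h1 h2 => ?_
    by_cases hqv : q = v
    · rw [hqv, Sym2.eq_swap]; exact (key p hp).2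
    by_cases hqz : q = z
    · rw [hqz, Sym2.eq_swap]; exact (key p hp).1
    rw [← mergeW_of_ne y v (u := z) (fun e => hzA (e ▸ hp)) hqz]
    exact hcl p hp q (mem_erase.2 ⟨hqv, hq⟩) h1 h2
  · intro A hA hzA hne hcl w hw hwz
    have hvA : v ∉ A := fun h => notMem_erase v V (hA h)
    refine conn A (hA.trans (erase_subset _ _)) hzA hvA hne (fun p hp q hq h1 h2 => ?_) w
      (mem_of_mem_erase hw) hwz (ne_of_mem_erase hw)
    simp only [mem_insert, mem_singleton, not_or] at h2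
    rw [← mergeW_of_ne y v (u := z) (fun e => hzA (e ▸ hp)) h2.1]
    exact hcl p hp q (mem_erase.2 ⟨h2.2, hq⟩) h1 (by simpa using h2.1)

theorem Cls.merge (hτ : 0 ≤ τ) (hT : 0 ≤ T) {V : Finset α} {y : Sym2 α → ℝ} {z v : α}
    (h : Cls τ T V y z) (h2 : C2 V y z) (hv : v ∈ V) (hvz : v ≠ z) :
    Cls τ T (V.erase v) (mergeW y z v) z :=
  cls_merge hτ hT h.hz hvz h.w0 hv (fun w hw h1 _ => h.w1 w hw h1)
    (fun A c d hA hzA _ hne h1 _ => h.hC A c d hA hzA hne h1)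
    (fun A hA hzA hvA hne hcl => h2 A v hA hzA hvA hne hcl)

/-- Changing the weight of one root edge to a value in the interval. -/
theorem Cls.update (hτ : τ < 1) {V : Finset α} {y : Sym2 α → ℝ} {z : α} (h : Cls τ T V y z)
    (v : α) {t : ℝ} (h1 : -T ≤ t) (h2 : t ≤ τ) : Cls τ T V (Function.update y s(z, v) t) z := by
  have hne : ∀ p q, p ≠ z → q ≠ z → Function.update y s(z, v) t s(p, q) = y s(p, q) :=
    fun p q hp hq => Function.update_of_ne (by simp [hp, hq]) _ _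
  refine ⟨h.hz, fun p hp q hq e1 e2 e3 => ?_, fun p hp e1 => ?_, ?_, ?_⟩
  · rw [hne p q e1 e2]; exact h.w0 p hp q hq e1 e2 e3
  · by_cases hpv : p = v
    · rw [hpv, Function.update_self]; exact Or.inr ⟨h1, h2⟩
    · rw [Function.update_of_ne (fun e => hpv (Sym2.congr_right.1 e))]; exact h.w1 p hp e1
  · intro A c d hA hzA hn hfree hcl
    have key : ∀ p ∈ A, y s(z, p) = 1 := by
      intro p hp
      have := hfree p hp
      by_cases hpv : p = v
      · rw [hpv, Function.update_self] at this; linarith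
      · rwa [Function.update_of_ne (fun e => hpv (Sym2.congr_right.1 e))] at this
    refine h.hC A c d hA hzA hn key fun p hp q hq e1 e2 => ?_
    by_cases hqz : q = z
    · rw [hqz, Sym2.eq_swap]; exact key p hp
    · rw [← hne p q (fun e => hzA (e ▸ hp)) hqz]; exact hcl p hp q hq e1 e2
  · intro A hA hzA hn hcl
    refine h.conn A hA hzA hn fun p hp q hq e1 e2 => ?_
    rw [← hne p q (fun e => hzA (e ▸ hp)) (by simpa using e2)]
    exact hcl p hp q hq e1 e2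

/-- One side of a cut vertex. -/
theorem Cls.side (hτ : τ < 1) {V U : Finset α} {y : Sym2 α → ℝ} {z w : α} (h : Cls τ T V y z)
    (hU : U ⊆ V) (hzU : z ∈ U) (hw : w ∈ U) (hwz : w ≠ z)
    (hcl : ∀ p ∈ U, p ≠ z → p ≠ w → ∀ q ∈ V, q ∉ U → y s(p, q) = 1) {t : ℝ} (h1 : -T ≤ t)
    (h2 : t ≤ τ) : Cls τ T U (Function.update y s(z, w) t) z := by
  have h' := h.update hτ w h1 h2
  have hne : ∀ p q, p ≠ z → q ≠ z → Function.update y s(z, w) t s(p, q) = y s(p, q) :=
    fun p q hp hq => Function.update_of_ne (by simp [hp, hq]) _ _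
  have up : ∀ (A S : Finset α), A ⊆ U → z ∉ A → w ∉ A →
      Cl U (Function.update y s(z, w) t) A S → Cl V (Function.update y s(z, w) t) A S := by
    intro A S hA hzA hwA hc p hp q hq e1 e2
    by_cases hqU : q ∈ U
    · exact hc p hp q hqU e1 e2
    · rw [hne p q (fun e => hzA (e ▸ hp)) (fun e => hqU (e ▸ hzU))]
      exact hcl p (hA hp) (fun e => hzA (e ▸ hp)) (fun e => hwA (e ▸ hp)) q hq hqU
  refine ⟨hzU, fun p hp q hq => h'.w0 p (hU hp) q (hU hq), fun p hp => h'.w1 p (hU hp), ?_, ?_⟩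
  · intro A c d hA hzA hn hfree hc
    have hwA : w ∉ A := by
      intro hwA
      have := hfree w hwA
      rw [Function.update_self] at this
      linarith
    exact h'.hC A c d (hA.trans hU) hzA hn hfree (up A _ hA hzA hwA hc)
  · refine conn_of hw hwz fun A hA hzA hwA hn hc => ?_
    exact hwA (h'.conn A (hA.trans hU) hzA hn (up A _ hA hzA hwA hc) w (hU hw) hwz)

theorem Cls.big {V : Finset α} {y : Sym2 α → ℝ} {z : α} (h : Cls τ T V y z) (h4 : 4 ≤ V.card)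
    (c c' : α) : ∃ v ∈ V, v ≠ z ∧ v ≠ c ∧ v ≠ c' ∧ y s(z, v) ≠ 1 := by
  by_contra hno
  push Not at hno
  refine h.hC (V \ {z, c, c'}) c c' sdiff_subset (by simp) ?_ ?_ ?_
  · rw [← card_pos]
    have h1 := le_card_sdiff ({z, c, c'} : Finset α) V
    have h2 : ({z, c, c'} : Finset α).card ≤ 3 := card_le_three
    omega
  · intro p hp
    simp only [mem_sdiff, mem_insert, mem_singleton, not_or] at hp
    exact hno p hp.1 hp.2.1 hp.2.2.1 hp.2.2.2
  · intro p hp q hq e1 e2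
    simp only [mem_sdiff, mem_insert, mem_singleton, not_or, not_and, not_not] at hp e1 e2
    have hqz : q = z := by
      by_contra hqz
      exact e2.2 (e1 hq hqz e2.1)
    rw [hqz, Sym2.eq_swap]
    exact hno p hp.1 hp.2.1 hp.2.2.1 hp.2.2.2

/-- A root-free three-terminal network. -/
structure Net (K U : Finset α) (y : Sym2 α → ℝ) (r u v : α) : Prop where
  mem : ∀ q, q ∈ U ↔ q ∈ K ∨ q = r ∨ q = u ∨ q = v
  hr : r ∉ K
  hu : u ∉ K
  hv : v ∉ K
  ru : r ≠ u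
  rv : r ≠ v
  uv : u ≠ v
  ne : K.Nonempty
  net : ∀ (X : Finset α) (c d : α), X ⊆ K → X.Nonempty → ¬ Cl U y X {c, d}
  w01 : ∀ p ∈ K, ∀ q ∈ U, p ≠ q → y s(p, q) = 0 ∨ y s(p, q) = 1

theorem Net.swap₁ {K U : Finset α} {y : Sym2 α → ℝ} {r u v : α} (h : Net K U y r u v) :
    Net K U y u r v :=
  ⟨fun q => by rw [h.mem]; tauto, h.hu, h.hr, h.hv, h.ru.symm, h.uv, h.rv, h.ne, h.net, h.w01⟩

theorem Net.swap₂ {K U : Finset α} {y : Sym2 α → ℝ} {r u v : α} (h : Net K U y r u v) :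
    Net K U y r v u :=
  ⟨fun q => by rw [h.mem]; tauto, h.hr, h.hv, h.hu, h.rv, h.ru, h.uv.symm, h.ne, h.net, h.w01⟩

theorem Net.congr {K U : Finset α} {y y' : Sym2 α → ℝ} {r u v : α} (h : Net K U y r u v)
    (hy : ∀ p ∈ K, ∀ q ∈ U, y' s(p, q) = y s(p, q)) : Net K U y' r u v :=
  ⟨h.mem, h.hr, h.hu, h.hv, h.ru, h.rv, h.uv, h.ne,
    fun X c d hX hn hc => h.net X c d hX hn fun p hp q hq e1 e2 => by
      rw [← hy p (hX hp) q hq]; exact hc p hp q hq e1 e2,
    fun p hp q hq e => by rw [hy p hp q hq]; exact h.w01 p hp q hq e⟩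

/-- A set meeting the interior and closed off by two terminals contains the third one. -/
theorem Net.third {K U V' A S : Finset α} {y : Sym2 α → ℝ} {r u v : α} (h : Net K U y r u v)
    (hU : U ⊆ V') (hc : Cl V' y A S) (hS : ∀ q ∈ S, q ∈ U → q = u ∨ q = v) {k : α} (hk : k ∈ K)
    (hkA : k ∈ A) : r ∈ A := by
  by_contra hr
  refine h.net (A ∩ K) u v inter_subset_right ⟨k, mem_inter.2 ⟨hkA, hk⟩⟩ ?_
  intro p hp q hq e1 e2
  simp only [mem_insert, mem_singleton, not_or] at e2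
  refine hc p (mem_inter.1 hp).1 q (hU hq) (fun hqA => ?_) (fun hqS => ?_)
  · rcases (h.mem q).1 hq with e | e | e | e
    · exact e1 (mem_inter.2 ⟨hqA, e⟩)
    · exact hr (e ▸ hqA)
    · exact e2.1 e
    · exact e2.2 e
  · rcases hS q hqS hq with e | e
    · exact e2.1 e
    · exact e2.2 e

theorem Net.w0 {K U : Finset α} {y : Sym2 α → ℝ} {r u v : α} (h : Net K U y r u v)
    (huv : y s(u, v) = 0 ∨ y s(u, v) = 1) :
    ∀ p ∈ U, ∀ q ∈ U, p ≠ r → q ≠ r → p ≠ q → y s(p, q) = 0 ∨ y s(p, q) = 1 := by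
  intro p hp q hq e1 e2 e3
  rcases (h.mem p).1 hp with h1 | h1 | h1 | h1
  · exact h.w01 p h1 q hq e3
  · exact absurd h1 e1
  all_goals
    rcases (h.mem q).1 hq with h2 | h2 | h2 | h2
    · rw [Sym2.eq_swap]; exact h.w01 q h2 p hp e3.symm
    · exact absurd h2 e2
    · first | exact absurd (h1.trans h2.symm) e3 | (rw [h1, h2, Sym2.eq_swap]; exact huv)
    · first | exact absurd (h1.trans h2.symm) e3 | (rw [h1, h2]; exact huv)

theorem Net.cls₁ (hτ : 0 ≤ τ) (hT : 0 ≤ T) (hτ1 : τ < 1) {K U : Finset α} {y : Sym2 α → ℝ}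
    {r u v : α} (h : Net K U y r u v) (hu : -T ≤ y s(r, u) ∧ y s(r, u) ≤ τ)
    (hv : -T ≤ y s(r, v) ∧ y s(r, v) ≤ τ) (huv : y s(u, v) = 0 ∨ y s(u, v) = 1) :
    Cls τ T U y r := by
  have hrU : r ∈ U := (h.mem r).2 (by simp)
  refine ⟨hrU, h.w0 huv, fun p hp e => ?_, fun A c d hA hrA hn hfree hc => ?_, ?_⟩
  · rcases (h.mem p).1 hp with h1 | h1 | h1 | h1
    · rw [Sym2.eq_swap]
      rcases h.w01 p h1 r hrU e with h2 | h2
      · rw [h2]; exact Or.inr ⟨by linarith, hτ⟩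
      · exact Or.inl h2
    · exact absurd h1 e
    · rw [h1]; exact Or.inr hu
    · rw [h1]; exact Or.inr hv
  · refine h.net A c d (fun p hp => ?_) hn hc
    rcases (h.mem p).1 (hA hp) with h1 | h1 | h1 | h1
    · exact h1
    · exact absurd (h1 ▸ hp) hrA
    · have := hfree p hp; rw [h1] at this; linarith [hu.2]
    · have := hfree p hp; rw [h1] at this; linarith [hv.2]
  · obtain ⟨k, hk⟩ := h.ne
    refine conn_of ((h.mem k).2 (Or.inl hk)) (fun e => h.hr (e ▸ hk)) ?_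
    intro A hA hrA hkA hn hc
    have hk' : k ∈ (U \ A) \ {r} := by
      simp only [mem_sdiff, mem_singleton]
      exact ⟨⟨(h.mem k).2 (Or.inl hk), hkA⟩, fun e => h.hr (e ▸ hk)⟩
    have h1 := h.swap₁.third Subset.rfl (hc.compl hA) (by simp +contextual) hk hk'
    have h2 := h.swap₂.swap₁.third Subset.rfl (hc.compl hA) (by simp +contextual) hk hk'
    obtain ⟨p, hp⟩ := hn
    rcases (h.mem p).1 (hA hp) with e | e | e | e
    · exact (mem_sdiff.1 (mem_sdiff.1 h1).1).2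
        (h.swap₁.third Subset.rfl hc (by simp +contextual) e hp)
    · exact hrA (e ▸ hp)
    · exact (mem_sdiff.1 (mem_sdiff.1 h1).1).2 (e ▸ hp)
    · exact (mem_sdiff.1 (mem_sdiff.1 h2).1).2 (e ▸ hp)

theorem Net.cls₂ (hτ : 0 ≤ τ) (hT : 0 ≤ T) (hτ1 : τ < 1) {K U : Finset α} {y : Sym2 α → ℝ}
    {r u v : α} (h : Net K U y r u v) (hv : -T ≤ y s(r, v) ∧ y s(r, v) ≤ τ)
    (huv : y s(u, v) = 0 ∨ y s(u, v) = 1) : Cls τ T (U.erase u) (mergeW y r u) r := by
  have hrU : r ∈ U := (h.mem r).2 (by simp)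
  refine cls_merge hτ hT hrU h.ru.symm (h.w0 huv) ((h.mem u).2 (by simp)) (fun p hp e e' => ?_)
    (fun A c d hA hrA huA hn hfree _ hc => ?_) ?_
  · rcases (h.mem p).1 hp with h1 | h1 | h1 | h1
    · rw [Sym2.eq_swap]
      rcases h.w01 p h1 r hrU e with h2 | h2
      · rw [h2]; exact Or.inr ⟨by linarith, hτ⟩
      · exact Or.inl h2
    · exact absurd h1 e
    · exact absurd h1 e'
    · rw [h1]; exact Or.inr hv
  · refine h.net A c d (fun p hp => ?_) hn hc
    rcases (h.mem p).1 (hA hp) with h1 | h1 | h1 | h1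
    · exact h1
    · exact absurd (h1 ▸ hp) hrA
    · exact absurd (h1 ▸ hp) huA
    · have := hfree p hp; rw [h1] at this; linarith [hv.2]
  · intro A hA hrA huA hn hc w hw e1 e2
    have hvA : v ∈ A := by
      obtain ⟨p, hp⟩ := hn
      rcases (h.mem p).1 (hA hp) with e | e | e | e
      · exact h.swap₂.swap₁.third Subset.rfl hc (by simp +contextual) e hp
      · exact absurd (e ▸ hp) hrA
      · exact absurd (e ▸ hp) huA
      · exact e ▸ hp
    by_contra hwA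
    rcases (h.mem w).1 hw with e | e | e | e
    · have := h.swap₂.swap₁.third Subset.rfl (hc.compl hA) (by simp +contextual) e
        (by simp [hw, hwA, e1, e2])
      exact (mem_sdiff.1 (mem_sdiff.1 this).1).2 hvA
    · exact e1 e
    · exact e2 e
    · exact hwA (e ▸ hvA)

theorem Net.cls₃ (hτ1 : τ < 1) {K U : Finset α} {y : Sym2 α → ℝ}
    {r u v z : α} (h : Net K U y r u v) (hz : z ∉ U) (hK : ∀ p ∈ K, y s(z, p) = 1)
    (hr : -T ≤ y s(z, r) ∧ y s(z, r) ≤ τ) (hu : -T ≤ y s(z, u) ∧ y s(z, u) ≤ τ)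
    (hv : -T ≤ y s(z, v) ∧ y s(z, v) ≤ τ) (hru : y s(r, u) = 0 ∨ y s(r, u) = 1)
    (hrv : y s(r, v) = 0 ∨ y s(r, v) = 1) (huv : y s(u, v) = 0 ∨ y s(u, v) = 1) :
    Cls τ T (insert z U) y z := by
  have hsub : U ⊆ insert z U := subset_insert _ _
  have hS : ∀ a b : α, ∀ q ∈ ({z} : Finset α), q ∈ U → q = a ∨ q = b := by
    intro a b q hq hqU
    rw [mem_singleton.1 hq] at hqU
    exact absurd hqU hz
  refine ⟨mem_insert_self _ _, fun p hp q hq e1 e2 e3 => ?_, fun p hp e => ?_,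
    fun A c d hA hzA hn hfree hc => ?_, ?_⟩
  · have hp' := (mem_insert.1 hp).resolve_left e1
    have hq' := (mem_insert.1 hq).resolve_left e2
    by_cases e4 : p = r
    · rcases (h.mem q).1 hq' with h2 | h2 | h2 | h2
      · rw [Sym2.eq_swap]; exact h.w01 q h2 p hp' e3.symm
      · exact absurd (e4.trans h2.symm) e3
      · rw [e4, h2]; exact hru
      · rw [e4, h2]; exact hrv
    by_cases e5 : q = r
    · rcases (h.mem p).1 hp' with h2 | h2 | h2 | h2
      · exact h.w01 p h2 q hq' e3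
      · exact absurd h2 e4
      · rw [e5, h2, Sym2.eq_swap]; exact hru
      · rw [e5, h2, Sym2.eq_swap]; exact hrv
    exact h.w0 huv p hp' q hq' e4 e5 e3
  · rcases (h.mem p).1 ((mem_insert.1 hp).resolve_left e) with h1 | h1 | h1 | h1
    · exact Or.inl (hK p h1)
    · rw [h1]; exact Or.inr hr
    · rw [h1]; exact Or.inr hu
    · rw [h1]; exact Or.inr hv
  · refine h.net A c d (fun p hp => ?_) hn fun p hp q hq => hc p hp q (hsub hq)
    rcases (h.mem p).1 ((mem_insert.1 (hA hp)).resolve_left fun e => hzA (e ▸ hp))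
      with h1 | h1 | h1 | h1
    · exact h1
    · have := hfree p hp; rw [h1] at this; linarith [hr.2]
    · have := hfree p hp; rw [h1] at this; linarith [hu.2]
    · have := hfree p hp; rw [h1] at this; linarith [hv.2]
  · obtain ⟨k, hk⟩ := h.ne
    have hkU := (h.mem k).2 (Or.inl hk)
    refine conn_of (hsub hkU) (fun e => hz (e ▸ hkU)) ?_
    intro A hA hzA hkA hn hc
    have hk' : k ∈ (insert z U \ A) \ {z} := by
      simp only [mem_sdiff, mem_singleton]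
      exact ⟨⟨hsub hkU, hkA⟩, fun e => hz (e ▸ hkU)⟩
    have h0 := h.third hsub (hc.compl hA) (hS _ _) hk hk'
    have h1 := h.swap₁.third hsub (hc.compl hA) (hS _ _) hk hk'
    have h2 := h.swap₂.swap₁.third hsub (hc.compl hA) (hS _ _) hk hk'
    obtain ⟨p, hp⟩ := hn
    rcases (h.mem p).1 ((mem_insert.1 (hA hp)).resolve_left fun e => hzA (e ▸ hp))
      with e | e | e | e
    · exact (mem_sdiff.1 (mem_sdiff.1 h1).1).2 (h.swap₁.third hsub hc (hS _ _) e hp)
    · exact (mem_sdiff.1 (mem_sdiff.1 h0).1).2 (e ▸ hp)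
    · exact (mem_sdiff.1 (mem_sdiff.1 h1).1).2 (e ▸ hp)
    · exact (mem_sdiff.1 (mem_sdiff.1 h2).1).2 (e ▸ hp)

end Pool.Agent.Lib.MP_efe3d7_co
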