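import Pool.Agent.Lib.MP_efe3d7_co.R2

/-! The inequalities for the two sides of an essential root edge. -/

set_option autoImplicit false

open Finset

namespace Pool.Agent.Lib.MP_efe3d7_co

variable {α : Type} [Fintype α] [DecidableEq α] {x τ T : ℝ}

/-- The parameters. -/
structure Pm (x τ T : ℝ) : Prop where
  hx : 0 < x
  hτ : x + 2 * τ = 1
  hT : τ * T = x
  hTT : T ^ 2 ≤ τ

theorem Pm.τ_pos (P : Pm x τ T) : 0 < τ := by
  have h1 : 0 ≤ τ := (sq_nonneg T).trans P.hTT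
  rcases h1.eq_or_lt with h | h
  · have := P.hT; rw [← h, zero_mul] at this; linarith [P.hx]
  · exact h

theorem Pm.T_pos (P : Pm x τ T) : 0 < T := by
  have := P.hT
  by_contra h
  nlinarith [P.τ_pos, P.hx]

theorem Pm.τ_lt (P : Pm x τ T) : τ < 1 / 2 := by linarith [P.hτ, P.hx]

theorem Pm.cube (P : Pm x τ T) : x ^ 2 ≤ τ ^ 3 := by
  rw [← P.hT, mul_pow]
  nlinarith [P.hTT, sq_nonneg τ]

theorem nn_of {c a b : ℝ} (hc : 0 < c) (e : c * a = b) (hb : 0 ≤ b) : 0 ≤ a :=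
  (mul_nonneg_iff_of_pos_left hc).1 (e ▸ hb)

/-- The induction hypothesis. -/
def IH (α : Type) [Fintype α] [DecidableEq α] (x τ T : ℝ) (n : ℕ) : Prop :=
  ∀ (V : Finset α) (y : Sym2 α → ℝ) (z : α), V.card < n → Cls τ T V y z → 3 ≤ V.card →
    0 ≤ ff x V y

/-- The six inequalities on the five parameters of the inner network. -/
structure Six (x τ D U W M A : ℝ) : Prop where
  f1 : 0 ≤ τ * M - A
  f2 : 0 ≤ (1 + τ) * D - U - W - τ * M + A
  f3 : 0 ≤ D - U - τ * M + A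
  f4 : 0 ≤ D - W - τ * M + A
  f5 : 0 ≤ τ * (1 - τ) * (2 * D - U - W - 2 * τ * M + 2 * A) -
    (x * M + τ * A + τ ^ 2 * (τ * M - A))
  f6 : 0 ≤ x * (1 - τ) * (2 * D - U - W - 2 * τ * M + 2 * A) +
    τ * (x * M + τ * A + τ ^ 2 * (τ * M - A))

theorem alg_final (P : Pm x τ T) {D U W M A r₀ r₁ r₂ r₃ r₄ : ℝ} (h : Six x τ D U W M A)
    (g1 : 0 ≤ r₀ - r₁ - r₂) (g2 : 0 ≤ r₀ - τ * r₁ - τ * r₂ - r₃ - τ ^ 2 * r₄)
    (g3 : 0 ≤ r₁ + τ * r₄) (g3' : 0 ≤ r₁ - T * r₄) (g4 : 0 ≤ r₂ + τ * r₄) (g4' : 0 ≤ r₂ - T * r₄) :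
    0 ≤ D * ((2 - x - τ) * r₀ - (1 - x) * r₁ - (1 - x) * r₂) - U * (r₀ - τ * r₁ - r₂) -
      W * (r₀ - r₁ - τ * r₂) - M * ((1 - x - τ) * r₃ - x * r₄) - A * (-r₃ - τ * r₄) := by
  obtain ⟨f1, f2, f3, f4, f5, f6⟩ := h
  have hτ := P.τ_pos
  have h1 : 0 ≤ 1 - τ := by linarith [P.τ_lt]
  have hx : x = 1 - 2 * τ := by linarith [P.hτ]
  set ρ := x * M + τ * A + τ ^ 2 * (τ * M - A) with hρ
  set k₁ := (1 - τ) * (D - U - τ * M + A) with hk₁
  set k₂ := (1 - τ) * (D - W - τ * M + A) with hk₂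
  have p1 : 0 ≤ k₁ := mul_nonneg h1 f3
  have p2 : 0 ≤ k₂ := mul_nonneg h1 f4
  have f5' : 0 ≤ τ * (k₁ + k₂) - ρ := by rw [hk₁, hk₂]; linarith
  have f6' : 0 ≤ T * (k₁ + k₂) + ρ := by
    have : τ * (T * (k₁ + k₂) + ρ) = x * (1 - τ) * (2 * D - U - W - 2 * τ * M + 2 * A) + τ * ρ := by
      rw [hk₁, hk₂, ← P.hT]; ring
    exact nn_of hτ this f6
  have key : 0 ≤ k₁ * r₁ + k₂ * r₂ + ρ * r₄ := by
    rcases le_total 0 r₄ with h | h
    · nlinarith [mul_nonneg p1 g3', mul_nonneg p2 g4', mul_nonneg f6' h]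
    · nlinarith [mul_nonneg p1 g3, mul_nonneg p2 g4, mul_nonneg f5' (neg_nonneg.2 h)]
  have e : D * ((2 - x - τ) * r₀ - (1 - x) * r₁ - (1 - x) * r₂) - U * (r₀ - τ * r₁ - r₂) -
      W * (r₀ - r₁ - τ * r₂) - M * ((1 - x - τ) * r₃ - x * r₄) - A * (-r₃ - τ * r₄) =
      (τ * M - A) * (r₀ - τ * r₁ - τ * r₂ - r₃ - τ ^ 2 * r₄) +
      ((1 + τ) * D - U - W - τ * M + A) * (r₀ - r₁ - r₂) + (k₁ * r₁ + k₂ * r₂ + ρ * r₄) := by
    rw [hk₁, hk₂, hρ, hx]; ring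
  rw [e]
  exact add_nonneg (add_nonneg (mul_nonneg f1 g2) (mul_nonneg f2 g1)) key

theorem six_path (P : Pm x τ T) : Six x τ 1 0 0 1 0 := by
  have hτ := P.τ_pos
  have h1 := P.τ_lt
  have hx : x = 1 - 2 * τ := by linarith [P.hτ]
  have h3 := P.cube
  have h4 := P.hx
  refine ⟨by linarith, by linarith, by linarith, by linarith, ?_, ?_⟩
  · rw [hx] at h3 ⊢; nlinarith
  · have : 0 ≤ 1 - τ := by linarith
    have h5 : 0 ≤ 2 * 1 - 0 - 0 - 2 * τ * 1 + 2 * 0 := by linarith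
    have h6 : 0 ≤ x * 1 + τ * 0 + τ ^ 2 * (τ * 1 - 0) := by
      have := pow_pos hτ 3
      nlinarith
    exact add_nonneg (mul_nonneg (mul_nonneg h4.le this) h5) (mul_nonneg hτ.le h6)

theorem six_of_tests (P : Pm x τ T) {D U W M A : ℝ}
    (td : 0 ≤ x * (1 - x) * D - x * τ * U - x * τ * W - x * M - τ ^ 2 * A)
    (ta : 0 ≤ x * (1 - x) * D - x * τ * U - x * W - x * τ * M - τ ^ 2 * A)
    (tb : 0 ≤ x * (1 - x) * D - x * U - x * τ * W - x * τ * M - τ ^ 2 * A)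
    (kab : 0 ≤ x * M + τ * A) (kab' : 0 ≤ x * M - T * A) (kda : 0 ≤ x * U + τ * A)
    (kdb : 0 ≤ x * W + τ * A)
    (st : 0 ≤ x * (1 - x) * (1 - τ) * D - x * τ * (1 - τ) * (U + W + M) + (x + τ ^ 3) * A) :
    Six x τ D U W M A := by
  have hτ := P.τ_pos
  have h1 : 0 < 1 - τ := by linarith [P.τ_lt]
  have hx : x = 1 - 2 * τ := by linarith [P.hτ]
  have h3 := P.cube
  have h4 := P.hx
  have f1 : 0 ≤ τ * M - A := by
    have e : x * (τ * M - A) = τ * (x * M - T * A) := by rw [mul_sub τ, ← mul_assoc τ T, P.hT]; ring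
    exact nn_of h4 e (mul_nonneg hτ.le kab')
  refine ⟨f1, ?_, ?_, ?_, ?_, ?_⟩
  · have e : x * (2 * τ * (1 - τ)) * ((1 + τ) * D - U - W - τ * M + A) =
        x * (1 - τ) * (x * (1 - x) * D - x * τ * U - x * τ * W - x * M - τ ^ 2 * A) +
        τ * (1 - τ) * (x * (1 - x) * D - x * τ * U - x * W - x * τ * M - τ ^ 2 * A) +
        τ * (1 - τ) * (x * (1 - x) * D - x * U - x * τ * W - x * τ * M - τ ^ 2 * A) +
        (1 - τ) * (x + τ ^ 2) * (x * M + τ * A) +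
        τ * (x * (1 - x) * (1 - τ) * D - x * τ * (1 - τ) * (U + W + M) + (x + τ ^ 3) * A) := by
      rw [hx]; ring
    exact nn_of (by positivity) e (add_nonneg (add_nonneg (add_nonneg (add_nonneg
      (mul_nonneg (by positivity) td) (mul_nonneg (by positivity) ta))
      (mul_nonneg (by positivity) tb)) (mul_nonneg (by positivity) kab)) (mul_nonneg hτ.le st))
  · have e : x * (2 * τ * (1 - τ) ^ 2) * (D - U - τ * M + A) =
        τ * (1 - τ) * (x * (1 - x) * D - x * U - x * τ * W - x * τ * M - τ ^ 2 * A) +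
        τ * (1 - τ) ^ 2 * (x * W + τ * A) + x ^ 2 * (1 - τ) ^ 2 * (τ * M - A) +
        x * (x * (1 - x) * (1 - τ) * D - x * τ * (1 - τ) * (U + W + M) + (x + τ ^ 3) * A) := by
      rw [hx]; ring
    exact nn_of (by positivity) e (add_nonneg (add_nonneg (add_nonneg
      (mul_nonneg (by positivity) tb) (mul_nonneg (by positivity) kdb))
      (mul_nonneg (by positivity) f1)) (mul_nonneg h4.le st))
  · have e : x * (2 * τ * (1 - τ) ^ 2) * (D - W - τ * M + A) =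
        τ * (1 - τ) * (x * (1 - x) * D - x * τ * U - x * W - x * τ * M - τ ^ 2 * A) +
        τ * (1 - τ) ^ 2 * (x * U + τ * A) + x ^ 2 * (1 - τ) ^ 2 * (τ * M - A) +
        x * (x * (1 - x) * (1 - τ) * D - x * τ * (1 - τ) * (U + W + M) + (x + τ ^ 3) * A) := by
      rw [hx]; ring
    exact nn_of (by positivity) e (add_nonneg (add_nonneg (add_nonneg
      (mul_nonneg (by positivity) ta) (mul_nonneg (by positivity) kda))
      (mul_nonneg (by positivity) f1)) (mul_nonneg h4.le st))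
  · have e : x * (τ * (1 - τ) * (2 * D - U - W - 2 * τ * M + 2 * A) -
        (x * M + τ * A + τ ^ 2 * (τ * M - A))) =
        (1 - τ) ^ 2 * (x * (1 - x) * D - x * τ * U - x * τ * W - x * M - τ ^ 2 * A) +
        τ * (x * (1 - x) * (1 - τ) * D - x * τ * (1 - τ) * (U + W + M) + (x + τ ^ 3) * A) := by
      rw [hx]; ring
    exact nn_of h4 e (add_nonneg (mul_nonneg (by positivity) td) (mul_nonneg hτ.le st))
  · have h5 : 0 ≤ τ ^ 3 - x ^ 2 := by linarith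
    have e : τ * (x * (1 - τ) * (2 * D - U - W - 2 * τ * M + 2 * A) +
        τ * (x * M + τ * A + τ ^ 2 * (τ * M - A))) =
        (τ * (τ ^ 3 - x ^ 2) + x * (1 - τ)) * (τ * M - A) +
        (x * (1 - x) * (1 - τ) * D - x * τ * (1 - τ) * (U + W + M) + (x + τ ^ 3) * A) := by
      rw [hx]; ring
    exact nn_of hτ e (add_nonneg (mul_nonneg (by positivity) f1) st)

theorem rng_mul (P : Pm x τ T) {s t : ℝ} (hs : s = 0 ∨ s = 1) (h1 : -T ≤ t) (h2 : t ≤ τ) :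
    -T ≤ t * s ∧ t * s ≤ τ := by
  rcases hs with rfl | rfl
  · rw [mul_zero]; exact ⟨by linarith [P.T_pos], P.τ_pos.le⟩
  · rw [mul_one]; exact ⟨h1, h2⟩

theorem six_net (P : Pm x τ T) {n : ℕ} (ih : IH α x τ T n) {K U : Finset α} {y : Sym2 α → ℝ}
    {d a b z : α} (h : Net K U y d a b) (hz : z ∉ U) (hn : U.card + 1 < n)
    (hK : ∀ p ∈ K, y s(z, p) = 1) (hzd : y s(z, d) = τ)
    (h1 : y s(d, a) = 0 ∨ y s(d, a) = 1) (h2 : y s(d, b) = 0 ∨ y s(d, b) = 1) {D W₁ W₂ M A : ℝ}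
    (hg : Glue x K y d a b D W₁ W₂ M A) :
    Six x τ D (W₁ * y s(d, a)) (W₂ * y s(d, b)) M (A * (y s(d, a) * y s(d, b))) := by
  have hx := P.hx
  have hq : 0 < 1 + x := by linarith
  have hτ := P.τ_pos
  have hT := P.T_pos
  have hτ1 : τ < 1 := by linarith [P.τ_lt]
  have hTτ : -T ≤ τ := by linarith
  have hU : U = K ∪ {d, a, b} := by
    ext q
    rw [h.mem]
    simp only [mem_union, mem_insert, mem_singleton]
  have hdj : Disjoint K {d, a, b} := by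
    rw [disjoint_right]
    intro q hq
    simp only [mem_insert, mem_singleton] at hq
    rcases hq with rfl | rfl | rfl
    exacts [h.hr, h.hu, h.hv]
  have hcard : 4 ≤ U.card := by
    rw [hU, card_union_of_disjoint hdj, card_eq_three.2 ⟨d, a, b, h.ru, h.rv, h.uv, rfl⟩]
    have := card_pos.2 h.ne
    omega
  have hdU : d ∈ U := (h.mem d).2 (by simp)
  have haU : a ∈ U := (h.mem a).2 (by simp)
  have hbU : b ∈ U := (h.mem b).2 (by simp)
  have kne : ∀ p ∈ K, p ≠ d ∧ p ≠ a ∧ p ≠ b := fun p hp =>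
    ⟨fun e => h.hr (e ▸ hp), fun e => h.hu (e ▸ hp), fun e => h.hv (e ▸ hp)⟩
  have gev : ∀ y' : Sym2 α → ℝ, (∀ p ∈ K, ∀ q, y' s(p, q) = y s(p, q)) → ff x U y' =
      (1 + x) * (x * (1 - x) * D - x * W₁ * y' s(d, a) - x * W₂ * y' s(d, b) - x * M * y' s(a, b) -
        A * (y' s(d, a) * y' s(d, b) * y' s(a, b))) := by
    intro y' hy'
    rw [hU, hg {d, a, b} y' _ _ _ _ _ hdj (by simp) (by simp) (by simp)
      (fun u _ v hv e1 e2 e3 => by simp [e1, e2, e3] at hv) (fun u hu v _ => hy' u hu v)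
      (form_three hx y' h.ru h.rv h.uv)]
    ring
  have ag : ∀ t₁ t₂ t₃ : ℝ, ∀ p ∈ K, ∀ q, set3 y d a b t₁ t₂ t₃ s(p, q) = y s(p, q) :=
    fun t₁ t₂ t₃ p hp q => set3_out _ (kne p hp).1 (kne p hp).2.1 (kne p hp).2.2 _ _ _ _
  have nt : ∀ t₁ t₂ t₃ : ℝ, Net K U (set3 y d a b t₁ t₂ t₃) d a b :=
    fun t₁ t₂ t₃ => h.congr fun p hp q _ => ag t₁ t₂ t₃ p hp q
  have G : ∀ t₁ t₂ t₃ : ℝ, ff x U (set3 y d a b t₁ t₂ t₃) =
      (1 + x) * (x * (1 - x) * D - x * W₁ * t₁ - x * W₂ * t₂ - x * M * t₃ - A * (t₁ * t₂ * t₃)) := by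
    intro t₁ t₂ t₃
    rw [gev _ (ag t₁ t₂ t₃), set3_ra, set3_rb _ h.uv, set3_ab _ h.ru h.rv]
  have va : ∀ t₁ t₂ t₃ : ℝ, set3 y d a b t₁ t₂ t₃ s(d, a) = t₁ := fun _ _ _ => set3_ra _ _ _ _ _ _ _
  have vb : ∀ t₁ t₂ t₃ : ℝ, set3 y d a b t₁ t₂ t₃ s(d, b) = t₂ := fun _ _ _ => set3_rb _ h.uv _ _ _
  have vc : ∀ t₁ t₂ t₃ : ℝ, set3 y d a b t₁ t₂ t₃ s(a, b) = t₃ :=
    fun _ _ _ => set3_ab _ h.ru h.rv _ _ _
  have va' : ∀ t₁ t₂ t₃ : ℝ, set3 y d a b t₁ t₂ t₃ s(a, d) = t₁ :=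
    fun _ _ _ => by rw [Sym2.eq_swap, va]
  have vb' : ∀ t₁ t₂ t₃ : ℝ, set3 y d a b t₁ t₂ t₃ s(b, d) = t₂ :=
    fun _ _ _ => by rw [Sym2.eq_swap, vb]
  have vc' : ∀ t₁ t₂ t₃ : ℝ, set3 y d a b t₁ t₂ t₃ s(b, a) = t₃ :=
    fun _ _ _ => by rw [Sym2.eq_swap, vc]
  have n1 : s(d, b) ≠ s(d, a) := fun e => h.uv (Sym2.congr_right.1 e).symm
  have n2 : s(a, b) ≠ s(d, a) := by
    rw [Sym2.eq_swap (a := d)]
    exact fun e => h.rv (Sym2.congr_right.1 e).symm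
  have n3 : s(a, b) ≠ s(d, b) := fun e => h.ru (Sym2.congr_left.1 e).symm
  have upd : ∀ (y' : Sym2 α → ℝ) (u v : α), u ∉ K → v ∉ K →
      (∀ p ∈ K, ∀ q, y' s(p, q) = y s(p, q)) →
      ∀ p ∈ K, ∀ q, Function.update y' s(u, v) 1 s(p, q) = y s(p, q) := by
    intro y' u v hu hv hy' p hp q
    rw [Function.update_of_ne, hy' p hp q]
    intro e
    rcases Sym2.eq_iff.1 e with e | e
    · exact hu (e.1 ▸ hp)
    · exact hv (e.1 ▸ hp)
  have ce : ∀ u ∈ U, (U.erase u).card < n ∧ 3 ≤ (U.erase u).card := fun u hu => by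
    rw [card_erase_of_mem hu]; omega
  set s₁ := y s(d, a) with hs₁
  set s₂ := y s(d, b) with hs₂
  have s1n : 0 ≤ s₁ := by rcases h1 with e | e <;> rw [e] <;> norm_num
  have s2n : 0 ≤ s₂ := by rcases h2 with e | e <;> rw [e] <;> norm_num
  have td := ih U _ d (by omega) ((nt (τ * s₁) (τ * s₂) 1).cls₁ hτ.le hT.le hτ1
    (by rw [va]; exact rng_mul P h1 hTτ le_rfl) (by rw [vb]; exact rng_mul P h2 hTτ le_rfl)
    (by rw [vc]; exact Or.inr rfl)) (by omega)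
  have ta := ih U _ a (by omega) ((nt (τ * s₁) s₂ τ).swap₁.cls₁ hτ.le hT.le hτ1
    (by rw [va']; exact rng_mul P h1 hTτ le_rfl) (by rw [vc]; exact ⟨hTτ, le_rfl⟩)
    (by rw [vb]; exact h2)) (by omega)
  have tb := ih U _ b (by omega) ((nt s₁ (τ * s₂) τ).swap₂.swap₁.cls₁ hτ.le hT.le hτ1
    (by rw [vb']; exact rng_mul P h2 hTτ le_rfl) (by rw [vc']; exact ⟨hTτ, le_rfl⟩)
    (by rw [va]; exact h1)) (by omega)
  rw [G] at td ta tb
  have kab : ∀ s : ℝ, -T ≤ s → s ≤ τ → 0 ≤ x * M + s * (A * (s₁ * s₂)) := by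
    intro s e1 e2
    have k := ih _ _ a (ce b hbU).1 ((nt (s * s₁) s₂ 0).swap₁.swap₂.cls₂ hτ.le hT.le hτ1
      (by rw [va']; exact rng_mul P h1 e1 e2) (by rw [vb']; exact h2)) (ce b hbU).2
    have e := ff_del hx haU hbU h.uv (set3 y d a b (s * s₁) s₂ 0)
    rw [G, gev _ (upd _ a b h.hu h.hv (ag _ _ _)), Function.update_self,
      Function.update_of_ne n2.symm, Function.update_of_ne n3.symm, va, vb, vc] at e
    refine nn_of hq ?_ k
    linear_combination e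
  have kda : 0 ≤ x * W₁ + τ * (A * s₂) := by
    have k := ih _ _ d (ce a haU).1 ((nt 0 (τ * s₂) 1).cls₂ hτ.le hT.le hτ1
      (by rw [vb]; exact rng_mul P h2 hTτ le_rfl) (by rw [vc]; exact Or.inr rfl)) (ce a haU).2
    have e := ff_del hx hdU haU h.ru (set3 y d a b 0 (τ * s₂) 1)
    rw [G, gev _ (upd _ d a h.hr h.hu (ag _ _ _)), Function.update_self,
      Function.update_of_ne n1, Function.update_of_ne n2, va, vb, vc] at e
    refine nn_of hq ?_ k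
    linear_combination e
  have kdb : 0 ≤ x * W₂ + τ * (A * s₁) := by
    have k := ih _ _ d (ce b hbU).1 ((nt (τ * s₁) 0 1).swap₂.cls₂ hτ.le hT.le hτ1
      (by rw [va]; exact rng_mul P h1 hTτ le_rfl) (by rw [vc']; exact Or.inr rfl)) (ce b hbU).2
    have e := ff_del hx hdU hbU h.rv (set3 y d a b (τ * s₁) 0 1)
    rw [G, gev _ (upd _ d b h.hr h.hv (ag _ _ _)), Function.update_self,
      Function.update_of_ne n1.symm, Function.update_of_ne n3, va, vb, vc] at e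
    refine nn_of hq ?_ k
    linear_combination e
  have st : 0 ≤ x * (1 - x) * (1 - τ) * D - x * τ * (1 - τ) * (W₁ * s₁ + W₂ * s₂ + M) +
      (x + τ ^ 3) * (A * (s₁ * s₂)) := by
    have hza : z ≠ a := fun e => hz (e ▸ haU)
    have hzb : z ≠ b := fun e => hz (e ▸ hbU)
    have hzd' : z ≠ d := fun e => hz (e ▸ hdU)
    have kz : ∀ p ∈ K, p ≠ z := fun p hp e => hz (e ▸ (h.mem p).2 (Or.inl hp))
    set y' := set3 y z a b τ τ 1 with hy'
    have ag' : ∀ p ∈ K, ∀ q, y' s(p, q) = y s(p, q) :=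
      fun p hp q => set3_out _ (kz p hp) (kne p hp).2.1 (kne p hp).2.2 _ _ _ _
    have agd : ∀ q, y' s(d, q) = y s(d, q) := fun q => set3_out _ hzd'.symm h.ru h.rv _ _ _ _
    have e1 : y' s(z, a) = τ := set3_ra _ _ _ _ _ _ _
    have e2 : y' s(z, b) = τ := set3_rb _ h.uv _ _ _
    have e3 : y' s(a, b) = 1 := set3_ab _ hza hzb _ _ _
    have e4 : y' s(z, d) = τ := by rw [Sym2.eq_swap, agd, Sym2.eq_swap, hzd]
    have k := ih _ y' z (by rw [card_insert_of_notMem hz]; exact hn)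
      ((h.congr fun p hp q _ => ag' p hp q).cls₃ hτ1 hz
        (fun p hp => by rw [Sym2.eq_swap, ag' p hp, Sym2.eq_swap, hK p hp])
        (by rw [e4]; exact ⟨hTτ, le_rfl⟩) (by rw [e1]; exact ⟨hTτ, le_rfl⟩)
        (by rw [e2]; exact ⟨hTτ, le_rfl⟩) (by rw [agd]; exact h1) (by rw [agd]; exact h2)
        (Or.inr e3)) (by rw [card_insert_of_notMem hz]; omega)
    have hf := vertex3 hx (U := {z, a, b}) (y := y') (d := d) (by simp [hzd'.symm, h.ru, h.rv])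
      (by simp) (by simp) (by simp) hza hzb h.uv (fun v hv e1 e2 e3 => by simp [e1, e2, e3] at hv)
      (form_three hx y' hza hzb h.uv)
    have hV : insert z U = K ∪ insert d {z, a, b} := by
      ext q
      simp only [mem_union, mem_insert, mem_singleton, h.mem]
      tauto
    rw [hV, hg _ y' _ _ _ _ _ _ (by simp) (by simp) (by simp) _ (fun u hu v _ => ag' u hu v) hf,
      agd, agd, e1, e2, e3, e4, ← hs₁, ← hs₂] at k
    · refine nn_of hq ?_ k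
      have hx' : x = 1 - 2 * τ := by linarith [P.hτ]
      rw [hx']
      ring
    · rw [disjoint_right]
      intro q hq
      simp only [mem_insert, mem_singleton] at hq
      rcases hq with rfl | rfl | rfl | rfl
      exacts [h.hr, fun e => kz _ e rfl, h.hu, h.hv]
    · intro u hu v hv c1 c2 c3
      have : v = z := by simpa [c1, c2, c3] using hv
      rw [this, ag' u hu, Sym2.eq_swap, hK u hu]
  refine six_of_tests P (nn_of hq ?_ td) (nn_of hq ?_ ta) (nn_of hq ?_ tb) (kab τ hTτ le_rfl)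
    (by have := kab (-T) le_rfl hTτ; linarith) ?_ ?_ st
  · ring
  · ring
  · ring
  · have := mul_nonneg s1n kda
    linarith
  · have := mul_nonneg s2n kdb
    linarith

end Pool.Agent.Lib.MP_efe3d7_co
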