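import Pool.Agent.Lib.MP_efe3d7_co.R4

/-! The essential root edge, the induction, strict positivity and the passage to graphs. -/

set_option autoImplicit false

open Finset

namespace Pool.Agent.Lib.MP_efe3d7_co

variable {α : Type} [Fintype α] [DecidableEq α] {x τ T : ℝ}

theorem Form.merge₁ (hx : 0 < x) {U : Finset α} {y : Sym2 α → ℝ} {r a b : α} {β₀ β₁ β₂ β₃ β₄ : ℝ}
    (h : Form x U y r a b β₀ β₁ β₂ β₃ β₄) (hr : r ∈ U) (ha : a ∈ U) (hra : r ≠ a) (hrb : r ≠ b)
    (hab : a ≠ b) (t₂ t₃ : ℝ) :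
    ff x (U.erase a) (mergeW (set3 y r a b 0 t₂ t₃) r a) = β₁ + t₂ * t₃ * β₄ := by
  have n1 : s(r, b) ≠ s(r, a) := fun h => hab (Sym2.congr_right.1 h).symm
  have n2 : s(a, b) ≠ s(r, a) := by
    rw [Sym2.eq_swap (a := r)]
    exact fun h => hrb (Sym2.congr_right.1 h).symm
  have e := ff_del hx hr ha hra (set3 y r a b 0 t₂ t₃)
  rw [h, h.eval (y' := Function.update (set3 y r a b 0 t₂ t₃) s(r, a) 1) (fun u _ v _ a1 a2 a3 => by
      rw [Function.update_of_ne (by simp [a1, a2]), set3_out _ a1 a2 a3]),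
    Function.update_self, Function.update_of_ne n1, Function.update_of_ne n2, set3_ra,
    set3_rb _ hab, set3_ab _ hra hrb] at e
  linarith

theorem Form.swap {U : Finset α} {y : Sym2 α → ℝ} {r a b : α} {β₀ β₁ β₂ β₃ β₄ : ℝ}
    (h : Form x U y r a b β₀ β₁ β₂ β₃ β₄) (hra : r ≠ a) (hrb : r ≠ b) (hab : a ≠ b) :
    Form x U y r b a β₀ β₂ β₁ β₃ β₄ := by
  intro t₁ t₂ t₃
  rw [h.eval (y' := set3 y r b a t₁ t₂ t₃) (fun u _ v _ a1 a2 a3 => set3_out _ a1 a3 a2 _ _ _ _),
    set3_ra, set3_rb _ hab.symm, Sym2.eq_swap (a := a), set3_ab _ hrb hra]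
  ring

theorem cand_step (P : Pm x τ T) {n : ℕ} (ih : IH α x τ T n) {V : Finset α}
    {y : Sym2 α → ℝ} {z d : α} {A : Finset α} {a b : α} (hn : V.card ≤ n) (h4 : 4 ≤ V.card)
    (h : Cls τ T V y z) (h2 : C2 V y z) (w1 : ∀ v ∈ V, v ≠ z → y s(z, v) = 1 ∨ y s(z, v) = τ)
    (hd : y s(z, d) = τ) (c : Cand V y z d A a b)
    (hmax : ∀ (A' : Finset α) (a' b' : α), Cand V y z d A' a' b' → A'.card ≤ A.card) :
    0 ≤ ff x V y := by
  have hx := P.hx
  have hτ := P.τ_pos
  have hT := P.T_pos
  have hτ1 : τ < 1 := by linarith [P.τ_lt]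
  obtain ⟨g1, g2, g3, g4⟩ := c.genuine h h2
  obtain ⟨k1, k2, k3, -⟩ := c.swap.genuine h h2
  have hzU : z ∈ V \ A := mem_sdiff.2 ⟨h.hz, c.hz⟩
  have haU : a ∈ V \ A := mem_sdiff.2 ⟨g1, g2⟩
  have hbU : b ∈ V \ A := mem_sdiff.2 ⟨k1, k2⟩
  have hdU : d ∉ V \ A := by simp [c.hd]
  have hdz : d ≠ z := fun e => c.hz (e ▸ c.hd)
  have hda : d ≠ a := fun e => g2 (e ▸ c.hd)
  have hdb : d ≠ b := fun e => k2 (e ▸ c.hd)
  obtain ⟨w, w₁, w₂, w₃, w₄, w₅⟩ := c.prop
  have hlt : (V \ A).card < V.card :=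
    card_lt_card (ssubset_iff_of_subset sdiff_subset |>.2 ⟨d, c.hA c.hd, hdU⟩)
  have h4' : 4 ≤ (V \ A).card := by
    have : ({w, z, a, b} : Finset α).card = 4 := by
      rw [card_insert_of_notMem (by simp [w₃, w₄, w₅]),
        card_eq_three.2 ⟨z, a, b, g3.symm, k3.symm, g4, rfl⟩]
    rw [← this]
    refine card_le_card fun q hq => ?_
    simp only [mem_insert, mem_singleton] at hq
    rcases hq with rfl | rfl | rfl | rfl
    exacts [mem_sdiff.2 ⟨w₁, w₂⟩, hzU, haU, hbU]
  obtain ⟨β₀, β₁, β₂, β₃, β₄, hf⟩ := exists_form hx y hzU haU hbU g3.symm k3.symm g4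
  have rng : ∀ v ∈ V, v ≠ z → ∀ s, -T ≤ s → s ≤ τ →
      -T ≤ s * y s(z, v) ∧ s * y s(z, v) ≤ τ := by
    intro v hv hvz s a1 a2
    rcases w1 v hv hvz with e | e <;> rw [e]
    · rw [mul_one]; exact ⟨a1, a2⟩
    · constructor <;> nlinarith
  have pos : ∀ v ∈ V, v ≠ z → 0 ≤ y s(z, v) := by
    intro v hv hvz
    rcases w1 v hv hvz with e | e <;> rw [e]
    · exact zero_le_one
    · exact hτ.le
  have hab01 := h.w0 a g1 b k1 g3 k3 g4
  have hTτ : -T ≤ τ := by linarith
  have G1 := c.edge_nonneg P ih hn h4 h h2 w1 hmax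
  rw [hf.eval (y' := Function.update y s(a, b) 0) (fun u _ v _ _ a2 a3 =>
      Function.update_of_ne (by simp [a2, a3]) _ _), Function.update_self,
    Function.update_of_ne (by simp [g3.symm, k3.symm]),
    Function.update_of_ne (by simp [g3.symm, k3.symm])] at G1
  have G2 := ih _ _ z (by omega) (c.cls_fields P h h2
    (y' := set3 y z a b (τ * y s(z, a)) (τ * y s(z, b)) (y s(a, b)))
    (fun p q a1 a2 a3 => set3_out _ a1 a2 a3 _ _ _ _) (set3_ab _ g3.symm k3.symm _ _ _)
    (by rw [set3_ra]; exact rng a g1 g3 τ hTτ le_rfl)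
    (by rw [set3_rb _ g4]; exact rng b k1 k3 τ hTτ le_rfl)) (by omega)
  rw [hf] at G2
  have G3 : ∀ s, -T ≤ s → s ≤ τ → 0 ≤ y s(z, a) * (β₁ + s * y s(z, b) * y s(a, b) * β₄) := by
    intro s a1 a2
    refine mul_nonneg (pos a g1 g3) ?_
    rw [← hf.merge₁ hx hzU haU g3.symm k3.symm g4]
    refine ih _ _ z (by rw [card_erase_of_mem haU]; omega) (c.cls_merge P h h2
      (fun p q a1 a2 a3 => set3_out _ a1 a2 a3 _ _ _ _)
      (by rw [set3_ab _ g3.symm k3.symm]; exact hab01)
      (by rw [set3_rb _ g4]; exact rng b k1 k3 s a1 a2)) (by rw [card_erase_of_mem haU]; omega)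
  have G4 : ∀ s, -T ≤ s → s ≤ τ → 0 ≤ y s(z, b) * (β₂ + s * y s(z, a) * y s(a, b) * β₄) := by
    intro s a1 a2
    refine mul_nonneg (pos b k1 k3) ?_
    rw [← (hf.swap g3.symm k3.symm g4).merge₁ hx hzU hbU k3.symm g3.symm g4.symm]
    refine ih _ _ z (by rw [card_erase_of_mem hbU]; omega) (c.swap.cls_merge P h h2
      (fun p q a1 a2 a3 => set3_out _ a1 a2 a3 _ _ _ _)
      (by rw [set3_ab _ k3.symm g3.symm]; exact hab01)
      (by rw [set3_rb _ g4.symm]; exact rng a g1 g3 s a1 a2))
      (by rw [card_erase_of_mem hbU]; omega)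
  have hv := vertex3 hx hdU hzU haU hbU g3.symm k3.symm g4 (y := y)
    (fun v hv a1 a2 a3 => c.cl d c.hd v (mem_sdiff.1 hv).1 (mem_sdiff.1 hv).2 (by simp [a1, a2, a3]))
    hf
  have hda01 := h.w0 d (c.hA c.hd) a g1 hdz g3 hda
  have hdb01 := h.w0 d (c.hA c.hd) b k1 hdz k3 hdb
  obtain ⟨D, W₁, W₂, M, A', hg, hsix⟩ : ∃ D W₁ W₂ M A' : ℝ, Glue x (A.erase d) y d a b D W₁ W₂ M A' ∧
      Six x τ D (W₁ * y s(d, a)) (W₂ * y s(d, b)) M (A' * (y s(d, a) * y s(d, b))) := by
    rcases (A.erase d).eq_empty_or_nonempty with hK | hK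
    · have hA : ∀ p ∈ A, p = d := fun p hp => by
        by_contra hpd
        exact notMem_empty p (hK ▸ mem_erase.2 ⟨hpd, hp⟩)
      have e1 : y s(d, a) = 0 := hda01.resolve_right fun e =>
        c.narrow h h2 fun p hp q hq a1 a2 => by
          by_cases hqa : q = a
          · rw [hA p hp, hqa, e]
          · simp only [mem_insert, mem_singleton, not_or] at a2
            exact c.cl p hp q hq a1 (by simp [a2.1, a2.2, hqa])
      have e2 : y s(d, b) = 0 := hdb01.resolve_right fun e =>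
        c.swap.narrow h h2 fun p hp q hq a1 a2 => by
          by_cases hqb : q = b
          · rw [hA p hp, hqb, e]
          · simp only [mem_insert, mem_singleton, not_or] at a2
            exact c.cl p hp q hq a1 (by simp [a2.1, a2.2, hqb])
      refine ⟨1, 1, 1, 1, 1, hK ▸ glue_empty y d a b, ?_⟩
      rw [e1, e2, mul_zero, mul_zero, mul_zero]
      exact six_path P
    · obtain ⟨D, W₁, W₂, M, A', hg⟩ := exists_glue hx hda hdb g4 (A.erase d) y
      have hsub : A ∪ {a, b} ⊆ V := union_subset c.hA (insert_subset g1 (by simpa using k1))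
      have hzn : z ∉ A ∪ {a, b} := by simp [c.hz, g3.symm, k3.symm]
      have fr : ∀ p ∈ A.erase d, y s(z, p) = 1 := fun p hp =>
        c.free p (mem_of_mem_erase hp) (ne_of_mem_erase hp)
      refine ⟨D, W₁, W₂, M, A', hg, six_net P ih (U := A ∪ {a, b}) ⟨fun q => ?_, notMem_erase _ _,
        fun e => g2 (mem_of_mem_erase e), fun e => k2 (mem_of_mem_erase e), hda, hdb, g4, hK,
        fun X e e' hX hne hc => ?_, fun p hp q hq hpq => ?_⟩ hzn ?_ fr hd hda01 hdb01 hg⟩
      · simp only [mem_union, mem_insert, mem_singleton, mem_erase]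
        constructor
        · rintro (k | k)
          · by_cases e : q = d
            · exact Or.inr (Or.inl e)
            · exact Or.inl ⟨e, k⟩
          · exact Or.inr (Or.inr k)
        · rintro (k | k | k)
          · exact Or.inl k.2
          · exact Or.inl (k ▸ c.hd)
          · exact Or.inr k
      · have hXA : X ⊆ A := hX.trans (erase_subset _ _)
        refine h.hC X e e' (hXA.trans c.hA) (fun k => c.hz (hXA k)) hne (fun p hp => fr p (hX hp))
          fun p hp q hq a1 a2 => ?_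
        by_cases hq' : q ∈ A ∪ {a, b}
        · exact hc p hp q hq' a1 a2
        by_cases hqz : q = z
        · rw [hqz, Sym2.eq_swap]; exact fr p (hX hp)
        simp only [mem_union, mem_insert, mem_singleton, not_or] at hq'
        exact c.cl p (hXA hp) q hq hq'.1 (by simp [hqz, hq'.2.1, hq'.2.2])
      · exact h.w0 p (c.hA (mem_of_mem_erase hp)) q (hsub hq)
          (fun e => c.hz (e ▸ mem_of_mem_erase hp)) (fun e => hzn (e ▸ hq)) hpq
      · rw [← card_insert_of_notMem hzn]
        refine lt_of_lt_of_le (card_lt_card (ssubset_iff_of_subset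
          (insert_subset h.hz hsub) |>.2 ⟨w, w₁, by simp [w₂, w₃, w₄, w₅]⟩)) hn
  have hV : V = A.erase d ∪ insert d (V \ A) := by
    rw [union_insert, ← insert_union, insert_erase c.hd, union_sdiff_of_subset c.hA]
  rw [hV, hg _ y _ _ _ _ _ _ (mem_insert_self _ _) (mem_insert_of_mem haU) (mem_insert_of_mem hbU)
    _ (fun _ _ _ _ => rfl) hv, hd]
  · have key := alg_final P hsix (r₀ := β₀) (r₁ := y s(z, a) * β₁) (r₂ := y s(z, b) * β₂)
      (r₃ := y s(a, b) * β₃) (r₄ := y s(z, a) * y s(z, b) * y s(a, b) * β₄) (by linarith)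
      (by linarith) (by linarith [G3 τ hTτ le_rfl]) (by linarith [G3 (-T) le_rfl hTτ])
      (by linarith [G4 τ hTτ le_rfl]) (by linarith [G4 (-T) le_rfl hTτ])
    linarith
  · rw [disjoint_left]
    intro p hp hp'
    rcases mem_insert.1 hp' with e | e
    · exact ne_of_mem_erase hp e
    · exact (mem_sdiff.1 e).2 (mem_of_mem_erase hp)
  · intro u hu v hv' a1 a2 a3
    have hv'' := mem_sdiff.1 ((mem_insert.1 hv').resolve_left a1)
    by_cases hvz : v = z
    · rw [hvz, Sym2.eq_swap]; exact c.free u (mem_of_mem_erase hu) (ne_of_mem_erase hu)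
    · exact c.cl u (mem_of_mem_erase hu) v hv''.1 hv''.2 (by simp [hvz, a2, a3])

/-- The secondary measure. -/
noncomputable def lev (τ t : ℝ) : ℕ := if t = 1 then 0 else if t = τ then 1 else 2

omit [Fintype α] in
theorem lev_lt {V : Finset α} {y : Sym2 α → ℝ} {z v : α} (hv : v ∈ V) {t : ℝ}
    (h : lev τ t < lev τ (y s(z, v))) :
    ∑ w ∈ V, lev τ (Function.update y s(z, v) t s(z, w)) < ∑ w ∈ V, lev τ (y s(z, w)) := by
  refine sum_lt_sum (fun w _ => ?_) ⟨v, hv, by rw [Function.update_self]; exact h⟩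
  by_cases e : w = v
  · rw [e, Function.update_self]; exact h.le
  · rw [Function.update_of_ne (fun k => e (Sym2.congr_right.1 k))]

theorem ih_succ (P : Pm x τ T) {n : ℕ} (ih : IH α x τ T n) (V : Finset α) (z : α)
    (hn : V.card ≤ n) (h3 : 3 ≤ V.card) : ∀ (m : ℕ) (y : Sym2 α → ℝ),
      ∑ w ∈ V, lev τ (y s(z, w)) < m → Cls τ T V y z → 0 ≤ ff x V y := by
  have hx := P.hx
  have hτ := P.τ_pos
  have hT := P.T_pos
  have hτ1 : τ < 1 := by linarith [P.τ_lt]
  intro m
  induction m with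
  | zero => intro y hm; omega
  | succ m ihm =>
    intro y hm h
    rcases h3.eq_or_lt with h3' | h4
    · exact base_three P h h3'.symm
    by_cases h2 : C2 V y z
    swap
    · exact cut_step P ih hn h h2
    have hS : ∀ v ∈ V, v ≠ z → 0 ≤ Sv x V y s(z, v) := by
      intro v hv hvz
      rw [Sv_merge hx h.hz hv hvz.symm]
      exact ih _ _ z (by rw [card_erase_of_mem hv]; omega) (h.merge hτ.le hT.le h2 hv hvz)
        (by rw [card_erase_of_mem hv]; omega)
    have step : ∀ v ∈ V, v ≠ z → ∀ t, y s(z, v) ≤ t → 0 ≤ ff x V (Function.update y s(z, v) t) →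
        0 ≤ ff x V y := by
      intro v hv hvz t a1 a2
      rw [ff_aff] at a2
      rw [ff_self V y s(z, v)]
      nlinarith [mul_nonneg (sub_nonneg.2 a1) (hS v hv hvz)]
    by_cases w1 : ∀ v ∈ V, v ≠ z → y s(z, v) = 1 ∨ y s(z, v) = τ
    swap
    · push Not at w1
      obtain ⟨v, hv, hvz, a1, a2⟩ := w1
      refine step v hv hvz τ ((h.w1 v hv hvz).resolve_left a1).2
        (ihm _ ?_ (h.update hτ1 v (by linarith) le_rfl))
      have := lev_lt (τ := τ) (y := y) (z := z) hv (t := τ) (by simp [lev, a1, a2, hτ1.ne])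
      omega
    obtain ⟨d, hd, hdz, -, -, hd1⟩ := h.big h4 z z
    have hdτ := (w1 d hd hdz).resolve_left hd1
    by_cases hc : ∃ A a b, Cand V y z d A a b
    · classical
      obtain ⟨A₀, a₀, b₀, c₀⟩ := hc
      obtain ⟨A, hA, hmax⟩ := exists_max_image
        ((univ : Finset (Finset α)).filter fun A => ∃ a b, Cand V y z d A a b) card
        ⟨A₀, by simpa using ⟨a₀, b₀, c₀⟩⟩
      obtain ⟨a, b, c⟩ := (mem_filter.1 hA).2
      exact cand_step P ih hn h4 h h2 w1 hdτ c fun A' a' b' c' =>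
        hmax A' (by simpa using ⟨a', b', c'⟩)
    refine step d hd hdz 1 (by linarith) ?_
    set y' := Function.update y s(z, d) 1 with hy'
    have e1 : ∀ p q, p ≠ z → q ≠ z → y' s(p, q) = y s(p, q) :=
      fun p q a1 a2 => Function.update_of_ne (by simp [a1, a2]) _ _
    have e2 : ∀ q, q ≠ d → y' s(z, q) = y s(z, q) :=
      fun q a1 => Function.update_of_ne (fun k => a1 (Sym2.congr_right.1 k)) _ _
    refine del_root P ih hn h4 h.hz (fun p hp q hq a1 a2 a3 => ?_) (fun v hv hvz => ?_)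
      (fun A hA a1 hne hcl => ?_) (fun c => ?_) (fun X c c' hX a1 hne f1 hcl w hw => ?_)
      (fun hcls => ihm _ ?_ hcls)
    · rw [e1 p q a1 a2]; exact h.w0 p hp q hq a1 a2 a3
    · by_cases e : v = d
      · rw [e]; exact Or.inl (Function.update_self _ _ _)
      · rw [e2 v e]; exact w1 v hv hvz
    · refine h.conn A hA a1 hne fun p hp q hq b1 b2 => ?_
      rw [← e1 p q (fun e => a1 (e ▸ hp)) (by simpa using b2)]
      exact hcl p hp q hq b1 b2
    · obtain ⟨v, v1, v2, v3, v4, v5⟩ := h.big h4 c d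
      exact ⟨v, v1, v2, v3, by rw [e2 v v4]; exact v5⟩
    · by_cases hdX : d ∈ X
      · by_contra hw'
        push Not at hw'
        refine hc ⟨X, c, c', hX, a1, hdX, fun p hp hpd => by rw [← e2 p hpd]; exact f1 p hp,
          fun p hp q hq b1 b2 => ?_, w, hw, hw'.2.2.2, hw'.1, hw'.2.1, hw'.2.2.1⟩
        rw [mem_insert, not_or] at b2
        rw [← e1 p q (fun e => a1 (e ▸ hp)) b2.1]
        exact hcl p hp q hq b1 b2.2
      · have f2 : ∀ p ∈ X, y s(z, p) = 1 := fun p hp => by
          rw [← e2 p (fun e => hdX (e ▸ hp))]; exact f1 p hp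
        refine absurd (fun p hp q hq b1 b2 => ?_) (h.hC X c c' hX a1 hne f2)
        by_cases hqz : q = z
        · rw [hqz, Sym2.eq_swap]; exact f2 p hp
        · rw [← e1 p q (fun e => a1 (e ▸ hp)) hqz]; exact hcl p hp q hq b1 b2
    · have := lev_lt (τ := τ) (y := y) (z := z) hd (t := 1) (by simp [lev, hdτ, hτ1.ne])
      rw [← hy'] at this
      omega

theorem cls_nonneg (P : Pm x τ T) (n : ℕ) : IH α x τ T n := by
  induction n with
  | zero => intro V y z hn; omega
  | succ n ih =>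
    intro V y z hn h h3
    exact ih_succ P ih V z (by omega) h3 _ y (Nat.lt_succ_self _) h

theorem plain_ne (P : Pm x τ T) (n : ℕ) : ∀ (V : Finset α) (y : Sym2 α → ℝ) (z : α), V.card < n →
    z ∈ V → (∀ u ∈ V, ∀ v ∈ V, u ≠ v → y s(u, v) = 0 ∨ y s(u, v) = 1) →
    (∀ (A : Finset α) (c d : α), A ⊆ V → z ∉ A → A.Nonempty → (∀ p ∈ A, y s(z, p) = 1) →
      ¬ Cl V y A {c, d}) → ff x V y ≠ 0 := by
  have hx := P.hx
  have hτ := P.τ_pos
  have hT := P.T_pos
  have hτ1 : τ < 1 := by linarith [P.τ_lt]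
  have hq : (1 + x) ≠ 0 := by linarith
  induction n with
  | zero => intro V y z hn; omega
  | succ n ih =>
    intro V y z hn hz w hC
    by_cases conn : ∀ A : Finset α, A ⊆ V → z ∉ A → A.Nonempty → Cl V y A {z} →
        ∀ v ∈ V, v ≠ z → v ∈ A
    swap
    · push Not at conn
      obtain ⟨A, hA, hzA, hne, hcl, v, hv, hvz, hvA⟩ := conn
      have hcut := ff_cut hx hA hz hv hvz.symm hzA hvA (y := y)
        (fun p hp q hq a1 a2 _ => hcl p hp q hq a1 (by simpa using a2))
      have hvU : v ∉ insert z A := by simp [hvz, hvA]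
      have hva : ∀ p ∈ A, y s(v, p) = 1 := fun p hp => by
        rw [Sym2.eq_swap]; exact hcl p hp v hv hvA (by simpa using hvz)
      have s1 : Sv x (insert z (insert v A)) y s(z, v) = ff x (insert z A) y := by
        rw [Sv_merge hx (by simp) (by simp) hvz.symm, Finset.insert_comm, erase_insert hvU]
        refine ff_congr fun p hp q hq hpq => ?_
        by_cases a1 : p = z
        · rw [a1, mergeW_self, hva q ((mem_insert.1 hq).resolve_left fun e => hpq (a1.trans e.symm)),
            mul_one]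
        by_cases a2 : q = z
        · rw [a2, Sym2.eq_swap, mergeW_self, hva p ((mem_insert.1 hp).resolve_left a1), mul_one]
        rw [mergeW_of_ne _ _ a1 a2]
      have s2 := ff_aff (x := x) (insert z (insert v A)) y s(z, v) 1
      rw [s1, Finset.insert_comm z v, ff_isolated hx hvU, ff_congr (y' := y),
        Finset.insert_comm v z] at s2
      · have s3 : Dv x (insert z (insert v A)) y s(z, v) = -x * ff x (insert z A) y := by linarith
        rw [s1, s3] at hcut
        have s4 := ff_self (x := x) (V \ A) y s(z, v)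
        have k1 := ih (insert z A) y z (by
            have : (insert z A).card < V.card := card_lt_card
              (ssubset_iff_of_subset (insert_subset hz hA) |>.2 ⟨v, hv, hvU⟩)
            omega) (mem_insert_self _ _)
          (fun p hp q hq => w p (insert_subset hz hA hp) q (insert_subset hz hA hq))
          (fun X c d hX a1 hne' f1 hc => hC X c d (hX.trans (insert_subset hz hA)) a1 hne' f1
            fun p hp q hq b1 b2 => by
              by_cases hq' : q ∈ insert z A
              · exact hc p hp q hq' b1 b2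
              · rw [mem_insert, not_or] at hq'
                exact hcl p ((mem_insert.1 (hX hp)).resolve_left fun e => a1 (e ▸ hp)) q hq hq'.2
                  (by simpa using hq'.1))
        have k2 := ih (V \ A) y z (by
            obtain ⟨p, hp⟩ := hne
            have : (V \ A).card < V.card := card_lt_card
              (ssubset_iff_of_subset sdiff_subset |>.2 ⟨p, hA hp, by simp [hp]⟩)
            omega) (mem_sdiff.2 ⟨hz, hzA⟩)
          (fun p hp q hq => w p (mem_sdiff.1 hp).1 q (mem_sdiff.1 hq).1)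
          (fun X c d hX a1 hne' f1 hc => hC X c d (hX.trans sdiff_subset) a1 hne' f1
            fun p hp q hq b1 b2 => by
              by_cases hq' : q ∈ A
              · rw [Sym2.eq_swap]
                exact hcl q hq' p (mem_sdiff.1 (hX hp)).1 (mem_sdiff.1 (hX hp)).2
                  (by simpa using fun e : p = z => a1 (e ▸ hp))
              · exact hc p hp q (mem_sdiff.2 ⟨hq, hq'⟩) b1 b2)
        intro h0
        rw [h0] at hcut
        have : x * (ff x (insert z A) y * ff x (V \ A) y) = 0 := by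
          rw [s4]; linear_combination hcut
        exact mul_ne_zero hx.ne' (mul_ne_zero k1 k2) this
      · intro p hp q hq _
        refine Function.update_of_ne (fun e => ?_) _ _
        rcases Sym2.eq_iff.1 e with e | e
        · exact hvU (e.2 ▸ hq)
        · exact hvU (e.1 ▸ hp)
      · intro p hp
        by_cases a1 : p = z
        · rw [a1, Sym2.eq_swap, Function.update_self]
        · rw [Function.update_of_ne (by simp [a1, hvz]),
            hva p ((mem_insert.1 hp).resolve_left a1)]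
    have h : Cls τ T V y z := ⟨hz, fun p hp q hq _ _ => w p hp q hq, fun v hv hvz => by
      rcases w z hz v hv hvz.symm with e | e
      · rw [e]; exact Or.inr ⟨by linarith, hτ.le⟩
      · exact Or.inl e, hC, conn⟩
    by_cases h1 : V.card ≤ 1
    · rw [ff_ones hx fun a ha b hb hab => absurd (card_le_one.1 h1 a ha b hb) hab]
      exact mul_ne_zero (pow_ne_zero _ (by norm_num)) (pow_ne_zero _ hq)
    by_cases h2 : V.card = 2
    · refine (ff_card_two hx h2 fun p hp q hq hpq => ?_).ne'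
      rcases w p hp q hq hpq with e | e <;> simp [e]
    obtain ⟨v, hv, hv0⟩ : ∃ v ∈ V.erase z, y s(z, v) ≠ 1 := by
      by_contra hno
      push Not at hno
      refine hC (V.erase z) z z (erase_subset _ _) (notMem_erase _ _)
        (by rw [← card_pos, card_erase_of_mem hz]; omega) hno fun p _ q hq a1 a2 => ?_
      exact absurd (mem_erase.2 ⟨by simpa using a2, hq⟩) a1
    have hvz := ne_of_mem_erase hv
    have hvV := mem_of_mem_erase hv
    have e0 := (w z hz v hvV hvz.symm).resolve_right hv0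
    have k1 := cls_nonneg P _ V _ z (Nat.lt_succ_self _) (h.update hτ1 v (t := τ) (by linarith) le_rfl)
      (by omega)
    have k2 := cls_nonneg P _ V _ z (Nat.lt_succ_self _)
      (h.update hτ1 v (t := -T) le_rfl (by linarith)) (by omega)
    have w' : ∀ p ∈ V.erase v, ∀ q ∈ V.erase v, p ≠ q →
        mergeW y z v s(p, q) = 0 ∨ mergeW y z v s(p, q) = 1 := by
      have key : ∀ q ∈ V.erase v, z ≠ q →
          mergeW y z v s(z, q) = 0 ∨ mergeW y z v s(z, q) = 1 := by
        intro q hq hzq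
        rw [mergeW_self]
        rcases w z hz q (mem_of_mem_erase hq) hzq with e | e <;>
        rcases w v hvV q (mem_of_mem_erase hq) (ne_of_mem_erase hq).symm with e' | e' <;>
        simp [e, e']
      intro p hp q hq hpq
      by_cases a1 : p = z
      · rw [a1]; exact key q hq (a1 ▸ hpq)
      by_cases a2 : q = z
      · rw [a2, Sym2.eq_swap]; exact key p hp (Ne.symm a1)
      rw [mergeW_of_ne _ _ a1 a2]
      exact w p (mem_of_mem_erase hp) q (mem_of_mem_erase hq) hpq
    have k3 := ih (V.erase v) (mergeW y z v) z (by rw [card_erase_of_mem hvV]; omega)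
      (mem_erase.2 ⟨hvz.symm, hz⟩) w' (fun X c d hX a1 hne f1 hc => by
        have key : ∀ p ∈ X, y s(z, p) = 1 ∧ y s(v, p) = 1 := by
          intro p hp
          have h1 := f1 p hp
          rw [mergeW_self] at h1
          exact mul_eq_one_of (w v hvV p (mem_of_mem_erase (hX hp))
            (ne_of_mem_erase (hX hp)).symm) h1
        refine hC X c d (hX.trans (erase_subset _ _)) a1 hne (fun p hp => (key p hp).1)
          fun p hp q hq b1 b2 => ?_
        by_cases hqv : q = v
        · rw [hqv, Sym2.eq_swap]; exact (key p hp).2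
        by_cases hqz : q = z
        · rw [hqz, Sym2.eq_swap]; exact (key p hp).1
        rw [← mergeW_of_ne y v (u := z) (fun e => a1 (e ▸ hp)) hqz]
        exact hc p hp q (mem_erase.2 ⟨hqv, hq⟩) b1 b2)
    rw [← Sv_merge hx hz hvV hvz.symm] at k3
    rw [ff_aff] at k1 k2
    rw [ff_self V y s(z, v), e0]
    intro h0
    rcases lt_or_gt_of_ne k3 with k | k
    · nlinarith
    · nlinarith

theorem closed_walk {n : ℕ} (G : SimpleGraph (Fin n)) [DecidableRel G.Adj] {S A : Finset (Fin n)}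
    (hG : (G.induce ((↑S : Set (Fin n))ᶜ)).Connected)
    (hc : Cl univ (fun e => if e ∈ G.edgeFinset then (0 : ℝ) else 1) A S) {u w : Fin n}
    (hu : u ∈ A) (huS : u ∉ S) (hwS : w ∉ S) : w ∈ A := by
  have key : ∀ (p q : ↥((↑S : Set (Fin n))ᶜ)) (_ : (G.induce ((↑S : Set (Fin n))ᶜ)).Walk p q),
      p.1 ∈ A → q.1 ∈ A := by
    intro p q W
    induction W with
    | nil => exact id
    | @cons a b _ hab _ ih =>
      intro ha
      refine ih ?_
      by_contra hb
      have h1 := hc _ ha _ (mem_univ _) hb (fun e => b.2 (mem_coe.2 e))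
      have h2 : s(a.1, b.1) ∈ G.edgeFinset := by simpa using hab
      simp only [if_pos h2] at h1
      exact zero_ne_one h1
  obtain ⟨W⟩ := hG.preconnected ⟨u, by simpa using huS⟩ ⟨w, by simpa using hwS⟩
  exact key _ _ W hu

theorem whitney_eq (hx : 0 < x) {n : ℕ} (G : SimpleGraph (Fin n)) [DecidableRel G.Adj] :
    ff x univ (fun e => if e ∈ G.edgeFinset then (0 : ℝ) else 1) =
      (-1 : ℝ) ^ n * ∑ T ∈ G.edgeFinset.powerset, (-1 : ℝ) ^ T.card * (1 + x) ^
        Nat.card (SimpleGraph.fromEdgeSet (↑T : Set (Sym2 (Fin n)))).ConnectedComponent := by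
  have hc : (univ : Finset (Fin n)).card = n := by simp
  rw [ff, hc, Fintype.card_fin, mul_div_assoc, div_self (pow_ne_zero _ (by linarith)), mul_one, Zp,
    Polynomial.eval_finsetSum]
  have hsub : G.edgeFinset ⊆ pairs univ := by
    intro e he
    induction e using Sym2.ind with
    | h a b => exact mk_mem_pairs.2 ⟨mem_univ _, mem_univ _, (by simpa using he : G.Adj a b).ne⟩
  congr 1
  rw [← sum_subset (powerset_mono.2 hsub)]
  · refine sum_congr rfl fun T hT => ?_
    rw [Polynomial.eval_mul, Polynomial.eval_C, Polynomial.eval_pow, Polynomial.eval_X, comps,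
      ← prod_const]
    congr 1
    refine prod_congr rfl fun e he => ?_
    simp only [if_pos (mem_powerset.1 hT he)]
    ring
  · intro T _ hT
    obtain ⟨e, he, he'⟩ := not_subset.1 fun h => hT (mem_powerset.2 h)
    rw [Polynomial.eval_mul, Polynomial.eval_C, prod_eq_zero he, zero_mul]
    simp only [if_neg he']
    ring

theorem chrom_pos_root (P : Pm x τ T) {n : ℕ} (G : SimpleGraph (Fin n)) [DecidableRel G.Adj]
    (hn : 3 ≤ n) (z : Fin n)
    (hz : (G.induce ((↑({z} : Finset (Fin n)) : Set (Fin n))ᶜ)).Connected)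
    (hG : ∀ S : Finset (Fin n), S.card ≤ 2 → z ∉ S →
      (G.induce ((↑S : Set (Fin n))ᶜ)).Connected) :
    0 < (-1 : ℝ) ^ n * ∑ T ∈ G.edgeFinset.powerset, (-1 : ℝ) ^ T.card * (1 + x) ^
      Nat.card (SimpleGraph.fromEdgeSet (↑T : Set (Sym2 (Fin n)))).ConnectedComponent := by
  rw [← whitney_eq P.hx G]
  set y : Sym2 (Fin n) → ℝ := fun e => if e ∈ G.edgeFinset then (0 : ℝ) else 1 with hy
  have w : ∀ e, y e = 0 ∨ y e = 1 := fun e => by
    rw [hy]
    by_cases h : e ∈ G.edgeFinset <;> simp only [h, if_true, if_false] <;> simp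
  have hC : ∀ (A : Finset (Fin n)) (c d : Fin n), A ⊆ univ → z ∉ A → A.Nonempty →
      (∀ p ∈ A, y s(z, p) = 1) → ¬ Cl univ y A {c, d} := by
    intro A c d _ hzA ⟨u, hu⟩ f1 hc
    have hS : ((({c, d} : Finset (Fin n)) \ A).erase z).card ≤ 2 :=
      (card_le_card ((erase_subset _ _).trans sdiff_subset)).trans card_le_two
    refine hzA (closed_walk G (hG _ hS (notMem_erase _ _)) (fun p hp q hq a1 a2 => ?_) hu
      (fun e => (mem_sdiff.1 (mem_of_mem_erase e)).2 hu) (notMem_erase _ _))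
    by_cases hqz : q = z
    · rw [hqz, Sym2.eq_swap]; exact f1 p hp
    · exact hc p hp q hq a1 fun e => a2 (mem_erase.2 ⟨hqz, mem_sdiff.2 ⟨e, a1⟩⟩)
  have h : Cls τ T univ y z := ⟨mem_univ _, fun _ _ _ _ _ _ _ => w _, fun v _ _ => by
      rcases w s(z, v) with e | e
      · rw [e]; exact Or.inr ⟨by linarith [P.T_pos], P.τ_pos.le⟩
      · exact Or.inl e, hC, fun A _ hzA ⟨u, hu⟩ hc v _ hvz =>
    closed_walk G hz hc hu (by simpa using fun e : u = z => hzA (e ▸ hu)) (by simpa using hvz)⟩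
  exact lt_of_le_of_ne (cls_nonneg P _ _ _ z (Nat.lt_succ_self _) h (by simpa using hn))
    (plain_ne P _ _ _ z (Nat.lt_succ_self _) (mem_univ _) (fun _ _ _ _ _ => w _) hC).symm

theorem pm_of (h0 : 0 < x) (h1 : x ≤ Real.sqrt 5 - 2) : Pm x ((1 - x) / 2) (2 * x / (1 - x)) := by
  have h5 : Real.sqrt 5 ^ 2 = 5 := Real.sq_sqrt (by norm_num)
  have h6 : (x + 2) ^ 2 ≤ 5 := by
    rw [← h5]
    exact pow_le_pow_left₀ (by linarith) (by linarith) 2
  have h7 : 0 < 1 - x := by nlinarith
  refine ⟨h0, by ring, by field_simp, ?_⟩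
  rw [div_pow, div_le_div_iff₀ (by positivity) (by norm_num)]
  have : (1 - x) * (1 - x) ^ 2 - (2 * x) ^ 2 * 2 = (1 + x) * (1 - 4 * x - x ^ 2) := by ring
  nlinarith [mul_nonneg (by linarith : 0 ≤ 1 + x) (by nlinarith : 0 ≤ 1 - 4 * x - x ^ 2)]

end Pool.Agent.Lib.MP_efe3d7_co
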