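import Pool.Agent.Lib.MP_efe3d7_co.R5

/-! Rooted networks with a marked vertex: the class and the algebra. -/

set_option autoImplicit false

open Finset

namespace Pool.Agent.Lib.MP_efe3d7_co

variable {α : Type} [DecidableEq α] {x μ L : ℝ}

/-- The parameters. -/
structure Pn (x μ L : ℝ) : Prop where
  hμ : 0 < μ
  hμ2 : μ ≤ 1 / 2
  hx : x = μ * (1 - μ)
  hL : μ * L = 1 - μ

theorem Pn.ρ_pos (P : Pn x μ L) : 0 < 1 - μ := by linarith [P.hμ2]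

theorem Pn.ρ_lt (P : Pn x μ L) : 1 - μ < 1 := by linarith [P.hμ]

theorem Pn.x_pos (P : Pn x μ L) : 0 < x := by rw [P.hx]; exact mul_pos P.hμ P.ρ_pos

theorem Pn.L_ge (P : Pn x μ L) : 1 ≤ L := by
  by_contra h
  nlinarith [P.hL, P.hμ, P.hμ2]

theorem Pn.φ_pos (P : Pn x μ L) : 0 < μ ^ 2 := pow_pos P.hμ 2

theorem Pn.φ_lt (P : Pn x μ L) : μ ^ 2 < 1 - μ := by nlinarith [P.hμ, P.hμ2]

/-- Rooted networks with a marked vertex `u` and a half-marked vertex `p`. -/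
structure Mk (μ L : ℝ) (V : Finset α) (y : Sym2 α → ℝ) (z u p : α) : Prop where
  cls : Cls (1 - μ) L V y z
  hu : u ∈ V
  uz : u ≠ z
  u1 : y s(z, u) ≠ 1
  lo : ∀ v ∈ V, v ≠ z → v ≠ u → -μ ≤ y s(z, v)
  hi : ∀ v ∈ V, v ≠ z → v ≠ u → v ≠ p → y s(z, v) = 1 ∨ y s(z, v) ≤ μ ^ 2
  hP : ∀ (A : Finset α) (c : α), A ⊆ V → z ∉ A → u ∉ A → p ∈ A → μ ^ 2 < y s(z, p) →
    (∀ q ∈ A, q ≠ p → y s(z, q) = 1) → ¬ Cl V y A {z, c}

theorem Mk.wu {V : Finset α} {y : Sym2 α → ℝ} {z u p : α} (h : Mk μ L V y z u p) :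
    -L ≤ y s(z, u) ∧ y s(z, u) ≤ 1 - μ := (h.cls.w1 u h.hu h.uz).resolve_left h.u1

/-- Without a half-marked vertex. -/
theorem mk_of (P : Pn x μ L) {V : Finset α} {y : Sym2 α → ℝ} {z u : α} (h : Cls (1 - μ) L V y z)
    (hu : u ∈ V) (uz : u ≠ z) (u1 : y s(z, u) ≠ 1)
    (w : ∀ v ∈ V, v ≠ z → v ≠ u → y s(z, v) = 1 ∨ (-μ ≤ y s(z, v) ∧ y s(z, v) ≤ μ ^ 2)) :
    Mk μ L V y z u z := by
  refine ⟨h, hu, uz, u1, fun v hv a1 a2 => ?_, fun v hv a1 a2 _ => ?_,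
    fun A c _ a1 _ a2 => absurd a2 a1⟩
  · rcases w v hv a1 a2 with e | e
    · rw [e]; linarith [P.hμ]
    · exact e.1
  · exact (w v hv a1 a2).imp id And.right

theorem Cls.exists_field {τ T : ℝ} {V : Finset α} {y : Sym2 α → ℝ} {z : α} (h : Cls τ T V y z)
    (h2 : 2 ≤ V.card) : ∃ v ∈ V, v ≠ z ∧ y s(z, v) ≠ 1 := by
  by_contra hno
  push Not at hno
  refine h.hC (V.erase z) z z (erase_subset _ _) (notMem_erase _ _)
    (by rw [← card_pos, card_erase_of_mem h.hz]; omega)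
    (fun p hp => hno p (mem_of_mem_erase hp) (ne_of_mem_erase hp)) fun p _ q hq a1 a2 => ?_
  exact absurd (mem_erase.2 ⟨by simpa using a2, hq⟩) a1

theorem mk_plain (P : Pn x μ L) {V : Finset α} {y : Sym2 α → ℝ} {z : α} (h : Cls (1 - μ) L V y z)
    (h2 : 2 ≤ V.card) (w : ∀ v ∈ V, v ≠ z → y s(z, v) = 0 ∨ y s(z, v) = 1) :
    ∃ u, Mk μ L V y z u z := by
  obtain ⟨u, hu, uz, u1⟩ := h.exists_field h2
  refine ⟨u, mk_of P h hu uz u1 fun v hv a1 _ => ?_⟩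
  rcases w v hv a1 with e | e
  · rw [e]; exact Or.inr ⟨by linarith [P.hμ], P.φ_pos.le⟩
  · exact Or.inl e

/-- Merging a vertex into the root. -/
theorem Mk.merge (P : Pn x μ L) {V : Finset α} {y : Sym2 α → ℝ} {z u p v u' : α}
    (h : Mk μ L V y z u p) (h2 : C2 V y z) (hv : v ∈ V) (hvz : v ≠ z) (hu' : u' ∈ V.erase v)
    (uz : u' ≠ z) (u1 : mergeW y z v s(z, u') ≠ 1) (huu : u = v ∨ u = u') :
    Mk μ L (V.erase v) (mergeW y z v) z u' p := by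
  have hL : 0 ≤ L := by linarith [P.L_ge]
  have w01 : ∀ q ∈ V.erase v, q ≠ z → y s(v, q) = 0 ∨ y s(v, q) = 1 := fun q hq hqz =>
    h.cls.w0 v hv q (mem_of_mem_erase hq) hvz hqz (ne_of_mem_erase hq).symm
  have hne : ∀ q ∈ V.erase v, q ≠ u' → q ≠ u := by
    intro q hq a e
    rcases huu with k | k
    · exact ne_of_mem_erase hq (e.trans k)
    · exact a (e.trans k)
  refine ⟨h.cls.merge P.ρ_pos.le hL h2 hv hvz, hu', uz, u1, fun q hq a1 a2 => ?_,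
    fun q hq a1 a2 a3 => ?_, fun A c hA a1 a2 a3 a4 a5 hc => ?_⟩
  · rw [mergeW_self]
    rcases w01 q hq a1 with e | e <;> rw [e]
    · linarith [P.hμ]
    · rw [mul_one]; exact h.lo q (mem_of_mem_erase hq) a1 (hne q hq a2)
  · rw [mergeW_self]
    rcases w01 q hq a1 with e | e <;> rw [e]
    · rw [mul_zero]; exact Or.inr P.φ_pos.le
    · rw [mul_one]; exact h.hi q (mem_of_mem_erase hq) a1 (hne q hq a2) a3
  · have hz : ∀ q ∈ A, q ≠ z := fun q hq e => a1 (e ▸ hq)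
    rw [mergeW_self] at a4
    have e1 : y s(v, p) = 1 := (w01 p (hA a3) (hz p a3)).resolve_left fun e => by
      rw [e, mul_zero] at a4; linarith [P.φ_pos]
    rw [e1, mul_one] at a4
    have key : ∀ q ∈ A, q ≠ p → y s(z, q) = 1 ∧ y s(v, q) = 1 := fun q hq hqp => by
      have := a5 q hq hqp
      rw [mergeW_self] at this
      exact mul_eq_one_of (w01 q (hA hq) (hz q hq)) this
    refine h.hP A c (hA.trans (erase_subset _ _)) a1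
      (fun e => hne u (hA e) (fun k => a2 (k ▸ e)) rfl) a3 a4 (fun q hq hqp => (key q hq hqp).1)
      fun q hq r hr b1 b2 => ?_
    by_cases hrv : r = v
    · rw [hrv, Sym2.eq_swap]
      by_cases hqp : q = p
      · rw [hqp]; exact e1
      · exact (key q hq hqp).2
    · rw [← mergeW_of_ne y v (u := z) (hz q hq) (fun e => b2 (by simp [e]))]
      exact hc q hq r (mem_erase.2 ⟨hrv, hr⟩) b1 b2

/-- One side of a cut vertex. -/
theorem Mk.side (P : Pn x μ L) {V U : Finset α} {y : Sym2 α → ℝ} {z u p w u' : α}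
    (h : Mk μ L V y z u p) (hU : U ⊆ V) (hzU : z ∈ U) (hw : w ∈ U) (hwz : w ≠ z)
    (hcl : ∀ p ∈ U, p ≠ z → p ≠ w → ∀ q ∈ V, q ∉ U → y s(p, q) = 1) {t : ℝ} (h1 : -L ≤ t)
    (h2 : t ≤ 1 - μ) (hu' : u' ∈ U) (hcase : (u' = w ∧ (u ∈ U → u = w)) ∨
      (u' = u ∧ u ≠ w ∧ -μ ≤ t ∧ t ≤ μ ^ 2)) :
    Mk μ L U (Function.update y s(z, w) t) z u' p := by
  have e1 : ∀ q, q ≠ w → Function.update y s(z, w) t s(z, q) = y s(z, q) := fun q hq =>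
    Function.update_of_ne (fun e => hq (Sym2.congr_right.1 e)) _ _
  have e2 : Function.update y s(z, w) t s(z, w) = t := Function.update_self _ _ _
  have e3 : ∀ p q, p ≠ z → q ≠ z → Function.update y s(z, w) t s(p, q) = y s(p, q) :=
    fun p q hp hq => Function.update_of_ne (by simp [hp, hq]) _ _
  have hne : ∀ q ∈ U, q ≠ u' → q ≠ w → q ≠ u := by
    intro q hq a1 a2 e
    rcases hcase with k | k
    · exact a2 (e.trans (k.2 (e ▸ hq)))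
    · exact a1 (e.trans k.1.symm)
  have hwt : w ≠ u' → -μ ≤ t ∧ t ≤ μ ^ 2 := fun a =>
    hcase.elim (fun k => absurd k.1.symm a) fun k => k.2.2
  refine ⟨h.cls.side P.ρ_lt hU hzU hw hwz hcl h1 h2, hu', ?_, ?_, fun q hq a1 a2 => ?_,
    fun q hq a1 a2 a3 => ?_, fun A c hA a1 a2 a3 a4 a5 hc => ?_⟩
  · rcases hcase with k | k <;> rw [k.1]
    exacts [hwz, h.uz]
  · rcases hcase with k | k <;> rw [k.1]
    · rw [e2]; linarith [P.hμ]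
    · rw [e1 u k.2.1]; exact h.u1
  · by_cases e : q = w
    · rw [e, e2]; exact (hwt (e ▸ a2)).1
    · rw [e1 q e]; exact h.lo q (hU hq) a1 (hne q hq a2 e)
  · by_cases e : q = w
    · rw [e, e2]; exact Or.inr (hwt (e ▸ a2)).2
    · rw [e1 q e]; exact h.hi q (hU hq) a1 (hne q hq a2 e) a3
  · have hwA : w ∉ A := by
      intro hwA
      have k := hwt fun e => a2 (e ▸ hwA)
      by_cases e : w = p
      · rw [← e, e2] at a4; linarith [k.2]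
      · have := a5 w hwA e
        rw [e2] at this
        linarith [P.hμ]
    have hw' : ∀ q ∈ A, q ≠ w := fun q hq e => hwA (e ▸ hq)
    have hz : ∀ q ∈ A, q ≠ z := fun q hq e => a1 (e ▸ hq)
    rw [e1 p (hw' p a3)] at a4
    refine h.hP A c (hA.trans hU) a1 (fun e => hne u (hA e) (fun k => a2 (k ▸ e)) (hw' u e) rfl) a3
      a4 (fun q hq hqp => by rw [← e1 q (hw' q hq)]; exact a5 q hq hqp) fun q hq r hr b1 b2 => ?_
    by_cases hrU : r ∈ U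
    · rw [← e3 q r (hz q hq) (fun e => b2 (by simp [e]))]
      exact hc q hq r hrU b1 b2
    · exact hcl q (hA hq) (hz q hq) (hw' q hq) r hr hrU

/-- Without a cut vertex the condition at the half-marked vertex is automatic. -/
theorem hP_of_C2 {τ T : ℝ} {V : Finset α} {y : Sym2 α → ℝ} {z u p : α} (h : Cls τ T V y z)
    (h2 : C2 V y z) (h4 : 4 ≤ V.card) (hu : u ∈ V) (uz : u ≠ z) (A : Finset α) (c : α) (hA : A ⊆ V)
    (a1 : z ∉ A) (a2 : u ∉ A) (a3 : p ∈ A) (a5 : ∀ q ∈ A, q ≠ p → y s(z, q) = 1) :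
    ¬ Cl V y A {z, c} := by
  intro hc
  by_cases hcA : c ∈ A
  · refine a2 (h.conn A hA a1 ⟨p, a3⟩ (fun q hq r hr b1 b2 => hc q hq r hr b1 ?_) u hu uz)
    simp only [mem_insert, mem_singleton, not_or] at b2 ⊢
    exact ⟨b2, fun e => b1 (e ▸ hcA)⟩
  have k := h2 A c hA a1 hcA ⟨p, a3⟩ hc
  obtain ⟨v, v1, v2, v3, v4, v5⟩ := h.big h4 c p
  exact v5 (a5 v (k v v1 v2 v3) v4)

/-- The six inequalities on the five parameters of the inner network. -/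
structure Six2 (μ D U W M A : ℝ) : Prop where
  f1 : 0 ≤ μ ^ 2 * M - A
  f2 : 0 ≤ (1 + μ ^ 2) * D - U - W - (μ ^ 2 * M - A)
  f3 : 0 ≤ μ * (D - U) - (1 - μ ^ 2) * (μ ^ 2 * M - A)
  f4 : 0 ≤ μ * (D - W) - (1 - μ ^ 2) * (μ ^ 2 * M - A)
  f5 : 0 ≤ (1 - μ) * (μ * (2 * D - U - W) - 2 * (1 - μ ^ 2) * (μ ^ 2 * M - A)) -
    (μ * (1 - μ) * M + (1 - μ) * A + μ ^ 4 * (μ ^ 2 * M - A))
  f6 : 0 ≤ μ * (μ * (2 * D - U - W) - 2 * (1 - μ ^ 2) * (μ ^ 2 * M - A)) +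
    (μ * (1 - μ) * M + (1 - μ) * A + μ ^ 4 * (μ ^ 2 * M - A))

theorem alg_final2 (P : Pn x μ L) {D U W M A r₀ r₁ r₂ r₃ r₄ : ℝ} (h : Six2 μ D U W M A)
    (g1 : 0 ≤ r₀ - r₁ - r₂) (g2 : 0 ≤ r₀ - μ ^ 2 * r₁ - μ ^ 2 * r₂ - r₃ - μ ^ 4 * r₄)
    (g3 : 0 ≤ r₁ + (1 - μ) * r₄) (g3' : 0 ≤ r₁ - μ * r₄) (g4 : 0 ≤ r₂ + (1 - μ) * r₄)
    (g4' : 0 ≤ r₂ - μ * r₄) :
    0 ≤ D * ((2 - x - (1 - μ)) * r₀ - (1 - x) * r₁ - (1 - x) * r₂) -
      U * (r₀ - (1 - μ) * r₁ - r₂) - W * (r₀ - r₁ - (1 - μ) * r₂) -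
      M * ((1 - x - (1 - μ)) * r₃ - x * r₄) - A * (-r₃ - (1 - μ) * r₄) := by
  obtain ⟨f1, f2, f3, f4, f5, f6⟩ := h
  set ρ := μ * (1 - μ) * M + (1 - μ) * A + μ ^ 4 * (μ ^ 2 * M - A) with hρ
  set k₁ := μ * (D - U) - (1 - μ ^ 2) * (μ ^ 2 * M - A) with hk₁
  set k₂ := μ * (D - W) - (1 - μ ^ 2) * (μ ^ 2 * M - A) with hk₂
  have f5' : 0 ≤ (1 - μ) * (k₁ + k₂) - ρ := by rw [hk₁, hk₂]; linarith
  have f6' : 0 ≤ μ * (k₁ + k₂) + ρ := by rw [hk₁, hk₂]; linarith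
  have key : 0 ≤ k₁ * r₁ + k₂ * r₂ + ρ * r₄ := by
    rcases le_total 0 r₄ with h | h
    · nlinarith [mul_nonneg f3 g3', mul_nonneg f4 g4', mul_nonneg f6' h]
    · nlinarith [mul_nonneg f3 g3, mul_nonneg f4 g4, mul_nonneg f5' (neg_nonneg.2 h)]
  have e : D * ((2 - x - (1 - μ)) * r₀ - (1 - x) * r₁ - (1 - x) * r₂) -
      U * (r₀ - (1 - μ) * r₁ - r₂) - W * (r₀ - r₁ - (1 - μ) * r₂) -
      M * ((1 - x - (1 - μ)) * r₃ - x * r₄) - A * (-r₃ - (1 - μ) * r₄) =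
      (μ ^ 2 * M - A) * (r₀ - μ ^ 2 * r₁ - μ ^ 2 * r₂ - r₃ - μ ^ 4 * r₄) +
      ((1 + μ ^ 2) * D - U - W - (μ ^ 2 * M - A)) * (r₀ - r₁ - r₂) +
      (k₁ * r₁ + k₂ * r₂ + ρ * r₄) := by
    rw [hk₁, hk₂, hρ, P.hx]; ring
  rw [e]
  exact add_nonneg (add_nonneg (mul_nonneg f1 g2) (mul_nonneg f2 g1)) key

theorem six_path2 (P : Pn x μ L) : Six2 μ 1 0 0 1 0 := by
  have h1 := P.hμ
  have h2 := P.hμ2
  have h3 : μ ^ 2 ≤ μ / 2 := by nlinarith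
  have h4 : μ ^ 3 ≤ μ / 4 := by nlinarith
  have h5 : μ ^ 4 ≤ μ / 8 := by nlinarith
  have h6 : μ ^ 5 ≤ μ / 16 := by nlinarith
  have h7 : μ ^ 6 ≤ μ / 32 := by nlinarith
  have p3 := pow_pos h1 3
  have p4 := pow_pos h1 4
  have p5 := pow_pos h1 5
  have p6 := pow_pos h1 6
  refine ⟨by nlinarith, by nlinarith, by nlinarith, by nlinarith, by nlinarith, by nlinarith⟩

theorem six_of_tests2 (P : Pn x μ L) {D U W M A : ℝ}
    (td1 : 0 ≤ (1 - μ + μ ^ 2) * D - (1 - μ) * U - μ ^ 2 * W - M - μ * A)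
    (td2 : 0 ≤ (1 - μ + μ ^ 2) * D - μ ^ 2 * U - (1 - μ) * W - M - μ * A)
    (ta : 0 ≤ μ * (1 - μ + μ ^ 2) * D - μ * (1 - μ) * U - μ * W - μ * (1 - μ) * M - (1 - μ) * A)
    (tb : 0 ≤ μ * (1 - μ + μ ^ 2) * D - μ * U - μ * (1 - μ) * W - μ * (1 - μ) * M - (1 - μ) * A)
    (kab : 0 ≤ μ * M + A) (f1 : 0 ≤ μ ^ 2 * M - A) (kda : 0 ≤ μ * U + A) (kdb : 0 ≤ μ * W + A)
    (st1 : 0 ≤ μ * (1 - μ + μ ^ 2) * D - μ * (1 - μ) * U - μ ^ 3 * W - μ ^ 3 * M +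
      (1 + μ * (1 - μ)) * A)
    (st2 : 0 ≤ μ * (1 - μ + μ ^ 2) * D - μ ^ 3 * U - μ * (1 - μ) * W - μ ^ 3 * M +
      (1 + μ * (1 - μ)) * A) :
    Six2 μ D U W M A := by
  have h1 := P.hμ
  have h2 := P.hμ2
  have hρ := P.ρ_pos
  have hy : 0 < 1 - μ + μ ^ 2 := by positivity
  refine ⟨f1, ?_, ?_, ?_, ?_, ?_⟩
  · refine nn_of (mul_pos h1 hy) ?_ (add_nonneg (add_nonneg (add_nonneg (add_nonneg
      (mul_nonneg hρ.le ta) (mul_nonneg (pow_pos h1 2).le tb)) (mul_nonneg (pow_pos hρ 2).le kab))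
      (mul_nonneg (mul_pos (pow_pos h1 2) hρ).le f1)) (mul_nonneg h1.le st1))
    ring
  · refine nn_of hy ?_ (add_nonneg (add_nonneg (add_nonneg (mul_nonneg h1.le tb)
      (mul_nonneg (a := μ * (1 - μ) ^ 2 * (1 + μ)) (by positivity) f1))
      (mul_nonneg (a := μ * (1 - μ) * (1 + μ)) (by positivity) kdb)) (mul_nonneg hρ.le st1))
    ring
  · refine nn_of hy ?_ (add_nonneg (add_nonneg (add_nonneg (mul_nonneg h1.le ta)
      (mul_nonneg (a := μ * (1 - μ) ^ 2 * (1 + μ)) (by positivity) f1))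
      (mul_nonneg (a := μ * (1 - μ) * (1 + μ)) (by positivity) kda)) (mul_nonneg hρ.le st2))
    ring
  · have c : 0 ≤ μ * (1 - 2 * μ + 2 * μ ^ 3 - μ ^ 4 - μ ^ 5) := by
      refine mul_nonneg h1.le ?_
      have : 0 ≤ μ ^ 3 * (2 - μ - μ ^ 2) := mul_nonneg (pow_pos h1 3).le (by nlinarith)
      nlinarith
    refine nn_of hy ?_ (add_nonneg (add_nonneg (add_nonneg
      (mul_nonneg (mul_pos (pow_pos h1 2) (pow_pos hρ 2)).le td1)
      (mul_nonneg (mul_pos h1 hρ).le td2)) (mul_nonneg c f1)) (mul_nonneg (mul_pos hρ hy).le st1))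
    ring
  · have c1 : 0 ≤ (1 - μ) * (1 - μ - μ ^ 2) := mul_nonneg hρ.le (by nlinarith)
    have c2 : 0 ≤ μ ^ 2 * (2 - μ ^ 2 + μ ^ 3 + μ ^ 4) := by
      refine mul_nonneg (pow_pos h1 2).le ?_
      have := pow_pos h1 3
      have := pow_pos h1 4
      nlinarith
    refine nn_of hy ?_ (add_nonneg (add_nonneg (add_nonneg (mul_nonneg c1 kab)
      (mul_nonneg c2 f1)) (mul_nonneg h1.le st1)) (mul_nonneg h1.le st2))
    ring

end Pool.Agent.Lib.MP_efe3d7_co
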