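import Pool.Agent.Lib.MP_efe3d7_co.R6

/-! The inequalities for the inner network of an essential root edge. -/

set_option autoImplicit false

open Finset

namespace Pool.Agent.Lib.MP_efe3d7_co

variable {α : Type} [Fintype α] [DecidableEq α] {x μ L : ℝ}

/-- The induction hypothesis. -/
def IH2 (α : Type) [Fintype α] [DecidableEq α] (x μ L : ℝ) (n : ℕ) : Prop :=
  ∀ (V : Finset α) (y : Sym2 α → ℝ) (z u p : α), V.card < n → Mk μ L V y z u p → 3 ≤ V.card →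
    0 ≤ ff x V y

omit [Fintype α] in
theorem Net.hP {K U V Y : Finset α} {y : Sym2 α → ℝ} {d a b r c : α} (h : Net K U y d a b)
    (hU : U ⊆ V) (hd2 : ∃ q ∈ U, q ≠ d ∧ q ≠ r ∧ q ≠ c ∧ y s(d, q) ≠ 1)
    (hY : ∀ q ∈ Y, q ≠ d → q ∈ K) (hd : d ∈ Y) (free : ∀ q ∈ Y, q ≠ d → y s(r, q) = 1) :
    ¬ Cl V y Y {r, c} := by
  intro hc
  obtain ⟨q, q1, q2, q3, q4, q5⟩ := hd2
  have hq : q ∈ Y := by
    by_contra hq
    exact q5 (hc d hd q (hU q1) hq (by simp [q3, q4]))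
  refine h.net (Y.erase d) d c (fun p hp => hY p (mem_of_mem_erase hp) (ne_of_mem_erase hp))
    ⟨q, mem_erase.2 ⟨q2, hq⟩⟩ fun p hp w hw e1 e2 => ?_
  simp only [mem_insert, mem_singleton, not_or] at e2
  by_cases hwr : w = r
  · rw [hwr, Sym2.eq_swap]; exact free p (mem_of_mem_erase hp) (ne_of_mem_erase hp)
  · exact hc p (mem_of_mem_erase hp) w (hU hw) (fun k => e1 (mem_erase.2 ⟨e2.1, k⟩))
      (by simp [hwr, e2.2])

omit [Fintype α] in
theorem Net.inner {K U : Finset α} {y : Sym2 α → ℝ} {r u v q : α} (h : Net K U y r u v)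
    (hq : q ∈ U) (h1 : q ≠ r) (h2 : q ≠ u) (h3 : q ≠ v) : q ∈ K := by
  rcases (h.mem q).1 hq with e | e | e | e
  exacts [e, absurd e h1, absurd e h2, absurd e h3]

omit [Fintype α] in
theorem Net.fld {K U : Finset α} {y : Sym2 α → ℝ} {r u v q : α} (h : Net K U y r u v)
    (hq : q ∈ K) : y s(r, q) = 0 ∨ y s(r, q) = 1 := by
  rw [Sym2.eq_swap]
  exact h.w01 q hq r ((h.mem r).2 (by simp)) fun e => h.hr (e ▸ hq)

omit [Fintype α] in
/-- Root at a terminal, mark the second terminal, half-mark the third one. -/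
theorem Net.mk₁ (P : Pn x μ L) {K U : Finset α} {y : Sym2 α → ℝ} {r u v : α} (h : Net K U y r u v)
    (hu : -L ≤ y s(r, u) ∧ y s(r, u) ≤ 1 - μ) (hv : -μ ≤ y s(r, v) ∧ y s(r, v) ≤ 1 - μ)
    (huv : y s(u, v) = 0 ∨ y s(u, v) = 1)
    (hd2 : μ ^ 2 < y s(r, v) → ∀ c, ∃ q ∈ U, q ≠ v ∧ q ≠ r ∧ q ≠ c ∧ y s(v, q) ≠ 1) :
    Mk μ L U y r u v := by
  have hL := P.L_ge
  have hμ := P.hμ
  have hμ2 := P.hμ2
  refine ⟨h.cls₁ P.ρ_pos.le (by linarith) P.ρ_lt hu ⟨by linarith [hv.1], hv.2⟩ huv,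
    (h.mem u).2 (by simp), h.ru.symm, by linarith [hu.2], fun q hq a1 a2 => ?_,
    fun q hq a1 a2 a3 => ?_, fun A c hA a1 a2 a3 a4 a5 => ?_⟩
  · by_cases e : q = v
    · rw [e]; exact hv.1
    · rcases h.fld (h.inner hq a1 a2 e) with k | k <;> rw [k] <;> linarith
  · rcases h.fld (h.inner hq a1 a2 a3) with k | k
    · rw [k]; exact Or.inr P.φ_pos.le
    · exact Or.inl k
  · exact h.swap₂.swap₁.hP Subset.rfl (hd2 a4 c) (fun q hq e => h.inner (hA hq)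
      (fun k => a1 (k ▸ hq)) (fun k => a2 (k ▸ hq)) e) a3 a5

omit [Fintype α] in
/-- Merge two terminals and mark the third one. -/
theorem Net.mk₂ (P : Pn x μ L) {K U : Finset α} {y : Sym2 α → ℝ} {r u v : α} (h : Net K U y r u v)
    (hv : -L ≤ y s(r, v) ∧ y s(r, v) ≤ 1 - μ) (huv : y s(u, v) = 0 ∨ y s(u, v) = 1) :
    Mk μ L (U.erase u) (mergeW y r u) r v r := by
  have hL := P.L_ge
  have hμ := P.hμ
  refine mk_of P (h.cls₂ P.ρ_pos.le (by linarith) P.ρ_lt hv huv)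
    (mem_erase.2 ⟨h.uv.symm, (h.mem v).2 (by simp)⟩) h.rv.symm ?_ fun q hq a1 a2 => ?_
  · rw [mergeW_self]
    rcases huv with e | e <;> rw [e]
    · simp
    · linarith [hv.2]
  · have hK := h.inner (mem_of_mem_erase hq) a1 (ne_of_mem_erase hq) a2
    rw [mergeW_self]
    rcases h.fld hK with e | e <;> rcases h.swap₁.fld hK with e' | e' <;> rw [e, e']
    · exact Or.inr ⟨by linarith, by linarith [P.φ_pos]⟩
    · exact Or.inr ⟨by linarith, by linarith [P.φ_pos]⟩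
    · exact Or.inr ⟨by linarith, by linarith [P.φ_pos]⟩
    · exact Or.inl (mul_one _)

omit [Fintype α] in
/-- A new root joined to the three terminals. -/
theorem Net.mk₃ (P : Pn x μ L) {K U : Finset α} {y : Sym2 α → ℝ} {r u v z : α}
    (h : Net K U y r u v) (hz : z ∉ U) (hK : ∀ p ∈ K, y s(z, p) = 1) (hr : y s(z, r) = 1 - μ)
    (hu : y s(z, u) = 1 - μ) (hv : y s(z, v) = μ ^ 2) (hru : y s(r, u) = 0 ∨ y s(r, u) = 1)
    (hrv : y s(r, v) = 0 ∨ y s(r, v) = 1) (huv : y s(u, v) = 0 ∨ y s(u, v) = 1)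
    (hd2 : ∀ c, ∃ q ∈ U, q ≠ r ∧ q ≠ c ∧ y s(r, q) ≠ 1) : Mk μ L (insert z U) y z u r := by
  have hL := P.L_ge
  have hμ := P.hμ
  have hρ := P.ρ_pos
  have hφ := P.φ_pos
  have hφ' := P.φ_lt
  have huU : u ∈ U := (h.mem u).2 (by simp)
  refine ⟨h.cls₃ P.ρ_lt hz hK (by rw [hr]; exact ⟨by linarith, le_rfl⟩)
    (by rw [hu]; exact ⟨by linarith, le_rfl⟩) (by rw [hv]; exact ⟨by linarith, by linarith⟩)
    hru hrv huv, mem_insert_of_mem huU, fun e => hz (e ▸ huU), by linarith,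
    fun q hq a1 a2 => ?_, fun q hq a1 a2 a3 => ?_, fun A c hA a1 a2 a3 _ a5 => ?_⟩
  · rcases (h.mem q).1 ((mem_insert.1 hq).resolve_left a1) with e | e | e | e
    · rw [hK q e]; linarith
    · rw [e, hr]; linarith
    · exact absurd e a2
    · rw [e, hv]; linarith
  · rcases (h.mem q).1 ((mem_insert.1 hq).resolve_left a1) with e | e | e | e
    · exact Or.inl (hK q e)
    · exact absurd e a3
    · exact absurd e a2
    · rw [e, hv]; exact Or.inr le_rfl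
  · obtain ⟨q, q1, q2, q3, q4⟩ := hd2 c
    refine h.hP (subset_insert _ _) ⟨q, q1, q2, fun e => hz (e ▸ q1), q3, q4⟩
      (fun w hw e => h.inner ((mem_insert.1 (hA hw)).resolve_left fun k => a1 (k ▸ hw)) e
        (fun k => a2 (k ▸ hw)) fun k => ?_) a3 a5
    have := a5 w hw e
    rw [k, hv] at this
    linarith

theorem six_net2 (P : Pn x μ L) {n : ℕ} (ih : IH2 α x μ L n) {K U : Finset α} {y : Sym2 α → ℝ}
    {d a b z : α} (h : Net K U y d a b) (hz : z ∉ U) (hn : U.card + 1 < n)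
    (hK : ∀ p ∈ K, y s(z, p) = 1) (hzd : y s(z, d) = 1 - μ)
    (h1 : y s(d, a) = 0 ∨ y s(d, a) = 1) (h2 : y s(d, b) = 0 ∨ y s(d, b) = 1)
    (hd2 : ∀ c, ∃ q ∈ U, q ≠ d ∧ q ≠ c ∧ y s(d, q) ≠ 1) {D W₁ W₂ M A : ℝ}
    (hg : Glue x K y d a b D W₁ W₂ M A) :
    Six2 μ D (W₁ * y s(d, a)) (W₂ * y s(d, b)) M (A * (y s(d, a) * y s(d, b))) := by
  have hx := P.x_pos
  have hq : 0 < 1 + x := by linarith
  have hμ := P.hμ
  have hρ := P.ρ_pos
  have hφ := P.φ_pos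
  have hφ' := P.φ_lt
  have hL := P.L_ge
  have hμ2 := P.hμ2
  have hU : U = K ∪ {d, a, b} := by
    ext q
    rw [h.mem]
    simp only [mem_union, mem_insert, mem_singleton]
  have hdj : Disjoint K {d, a, b} := by
    rw [disjoint_right]
    intro q hq
    simp only [mem_insert, mem_singleton] at hq
    rcases hq with rfl | rfl | rfl
    exacts [h.hr, h.hu, h.hv]
  have hcard : 4 ≤ U.card := by
    rw [hU, card_union_of_disjoint hdj, card_eq_three.2 ⟨d, a, b, h.ru, h.rv, h.uv, rfl⟩]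
    have := card_pos.2 h.ne
    omega
  have hdU : d ∈ U := (h.mem d).2 (by simp)
  have haU : a ∈ U := (h.mem a).2 (by simp)
  have hbU : b ∈ U := (h.mem b).2 (by simp)
  have kne : ∀ p ∈ K, p ≠ d ∧ p ≠ a ∧ p ≠ b := fun p hp =>
    ⟨fun e => h.hr (e ▸ hp), fun e => h.hu (e ▸ hp), fun e => h.hv (e ▸ hp)⟩
  have gev : ∀ y' : Sym2 α → ℝ, (∀ p ∈ K, ∀ q, y' s(p, q) = y s(p, q)) → ff x U y' =
      (1 + x) * (x * (1 - x) * D - x * W₁ * y' s(d, a) - x * W₂ * y' s(d, b) - x * M * y' s(a, b) -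
        A * (y' s(d, a) * y' s(d, b) * y' s(a, b))) := by
    intro y' hy'
    rw [hU, hg {d, a, b} y' _ _ _ _ _ hdj (by simp) (by simp) (by simp)
      (fun u _ v hv e1 e2 e3 => by simp [e1, e2, e3] at hv) (fun u hu v _ => hy' u hu v)
      (form_three hx y' h.ru h.rv h.uv)]
    ring
  have ag : ∀ t₁ t₂ t₃ : ℝ, ∀ p ∈ K, ∀ q, set3 y d a b t₁ t₂ t₃ s(p, q) = y s(p, q) :=
    fun t₁ t₂ t₃ p hp q => set3_out _ (kne p hp).1 (kne p hp).2.1 (kne p hp).2.2 _ _ _ _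
  have nt : ∀ t₁ t₂ t₃ : ℝ, Net K U (set3 y d a b t₁ t₂ t₃) d a b :=
    fun t₁ t₂ t₃ => h.congr fun p hp q _ => ag t₁ t₂ t₃ p hp q
  have G : ∀ t₁ t₂ t₃ : ℝ, ff x U (set3 y d a b t₁ t₂ t₃) =
      (1 + x) * (x * (1 - x) * D - x * W₁ * t₁ - x * W₂ * t₂ - x * M * t₃ - A * (t₁ * t₂ * t₃)) := by
    intro t₁ t₂ t₃
    rw [gev _ (ag t₁ t₂ t₃), set3_ra, set3_rb _ h.uv, set3_ab _ h.ru h.rv]
  have va : ∀ t₁ t₂ t₃ : ℝ, set3 y d a b t₁ t₂ t₃ s(d, a) = t₁ := fun _ _ _ => set3_ra _ _ _ _ _ _ _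
  have vb : ∀ t₁ t₂ t₃ : ℝ, set3 y d a b t₁ t₂ t₃ s(d, b) = t₂ := fun _ _ _ => set3_rb _ h.uv _ _ _
  have vc : ∀ t₁ t₂ t₃ : ℝ, set3 y d a b t₁ t₂ t₃ s(a, b) = t₃ :=
    fun _ _ _ => set3_ab _ h.ru h.rv _ _ _
  have va' : ∀ t₁ t₂ t₃ : ℝ, set3 y d a b t₁ t₂ t₃ s(a, d) = t₁ :=
    fun _ _ _ => by rw [Sym2.eq_swap, va]
  have vb' : ∀ t₁ t₂ t₃ : ℝ, set3 y d a b t₁ t₂ t₃ s(b, d) = t₂ :=
    fun _ _ _ => by rw [Sym2.eq_swap, vb]
  have vc' : ∀ t₁ t₂ t₃ : ℝ, set3 y d a b t₁ t₂ t₃ s(b, a) = t₃ :=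
    fun _ _ _ => by rw [Sym2.eq_swap, vc]
  have vk : ∀ t₁ t₂ t₃ : ℝ, ∀ q ∈ U, q ≠ d → q ≠ a → q ≠ b →
      set3 y d a b t₁ t₂ t₃ s(d, q) = y s(d, q) := fun _ _ _ q _ e1 e2 e3 =>
    set3_out' _ e1 e2 e3 _ _ _ _
  have n1 : s(d, b) ≠ s(d, a) := fun e => h.uv (Sym2.congr_right.1 e).symm
  have n2 : s(a, b) ≠ s(d, a) := by
    rw [Sym2.eq_swap (a := d)]
    exact fun e => h.rv (Sym2.congr_right.1 e).symm
  have n3 : s(a, b) ≠ s(d, b) := fun e => h.ru (Sym2.congr_left.1 e).symm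
  have upd : ∀ (y' : Sym2 α → ℝ) (u v : α), u ∉ K → v ∉ K →
      (∀ p ∈ K, ∀ q, y' s(p, q) = y s(p, q)) →
      ∀ p ∈ K, ∀ q, Function.update y' s(u, v) 1 s(p, q) = y s(p, q) := by
    intro y' u v hu hv hy' p hp q
    rw [Function.update_of_ne, hy' p hp q]
    intro e
    rcases Sym2.eq_iff.1 e with e | e
    · exact hu (e.1 ▸ hp)
    · exact hv (e.1 ▸ hp)
  have ce : ∀ u ∈ U, (U.erase u).card < n ∧ 3 ≤ (U.erase u).card := fun u hu => by
    rw [card_erase_of_mem hu]; omega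
  set s₁ := y s(d, a) with hs₁
  set s₂ := y s(d, b) with hs₂
  have s1n : 0 ≤ s₁ := by rcases h1 with e | e <;> rw [e] <;> norm_num
  have s2n : 0 ≤ s₂ := by rcases h2 with e | e <;> rw [e] <;> norm_num
  have rg : ∀ s t lo hi : ℝ, (s = 0 ∨ s = 1) → lo ≤ 0 → 0 ≤ hi → lo ≤ t → t ≤ hi →
      lo ≤ t * s ∧ t * s ≤ hi := by
    intro s t lo hi hs a1 a2 a3 a4
    rcases hs with rfl | rfl
    · rw [mul_zero]; exact ⟨a1, a2⟩
    · rw [mul_one]; exact ⟨a3, a4⟩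
  have td1 := ih U _ d a b (by omega) ((nt ((1 - μ) * s₁) (μ ^ 2 * s₂) 1).mk₁ P
    (by rw [va]; exact rg _ _ _ _ h1 (by linarith) hρ.le (by linarith) le_rfl)
    (by rw [vb]; exact rg _ _ _ _ h2 (by linarith) hρ.le (by linarith) hφ'.le)
    (by rw [vc]; exact Or.inr rfl)
    (by rw [vb]; exact fun k => absurd (rg _ _ (-μ) _ h2 (by linarith) hφ.le (by linarith)
      le_rfl).2 (not_le.2 k))) (by omega)
  have td2 := ih U _ d b a (by omega) ((nt (μ ^ 2 * s₁) ((1 - μ) * s₂) 1).swap₂.mk₁ P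
    (by rw [vb]; exact rg _ _ _ _ h2 (by linarith) hρ.le (by linarith) le_rfl)
    (by rw [va]; exact rg _ _ _ _ h1 (by linarith) hρ.le (by linarith) hφ'.le)
    (by rw [vc']; exact Or.inr rfl)
    (by rw [va]; exact fun k => absurd (rg _ _ (-μ) _ h1 (by linarith) hφ.le (by linarith)
      le_rfl).2 (not_le.2 k))) (by omega)
  have ta := ih U _ a b d (by omega) ((nt ((1 - μ) * s₁) s₂ (1 - μ)).swap₁.swap₂.mk₁ P
    (by rw [vc]; exact ⟨by linarith, le_rfl⟩)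
    (by rw [va']; exact rg _ _ _ _ h1 (by linarith) hρ.le (by linarith) le_rfl)
    (by rw [vb']; exact h2) (by
      rw [va']
      intro k c
      have e : s₁ = 1 := h1.resolve_left fun e => by rw [e, mul_zero] at k; linarith
      obtain ⟨q, q1, q2, q3, q4⟩ := hd2 c
      have qa : q ≠ a := fun k => q4 (k ▸ e)
      refine ⟨q, q1, q2, qa, q3, ?_⟩
      by_cases qb : q = b
      · rw [qb, vb]; rw [qb] at q4; exact q4
      · rw [vk _ _ _ q q1 q2 qa qb]; exact q4)) (by omega)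
  have tb := ih U _ b a d (by omega) ((nt s₁ ((1 - μ) * s₂) (1 - μ)).swap₂.swap₁.swap₂.mk₁ P
    (by rw [vc']; exact ⟨by linarith, le_rfl⟩)
    (by rw [vb']; exact rg _ _ _ _ h2 (by linarith) hρ.le (by linarith) le_rfl)
    (by rw [va']; exact h1) (by
      rw [vb']
      intro k c
      have e : s₂ = 1 := h2.resolve_left fun e => by rw [e, mul_zero] at k; linarith
      obtain ⟨q, q1, q2, q3, q4⟩ := hd2 c
      have qb : q ≠ b := fun k => q4 (k ▸ e)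
      refine ⟨q, q1, q2, qb, q3, ?_⟩
      by_cases qa : q = a
      · rw [qa, va]; rw [qa] at q4; exact q4
      · rw [vk _ _ _ q q1 q2 qa qb]; exact q4)) (by omega)
  rw [G] at td1 td2 ta tb
  have kab : ∀ s : ℝ, -L ≤ s → s ≤ 1 - μ → 0 ≤ x * M + s * (A * (s₁ * s₂)) := by
    intro s e1 e2
    have k := ih _ _ a d a (ce b hbU).1 ((nt (s * s₁) s₂ 0).swap₁.swap₂.mk₂ P
      (by rw [va']; exact rg _ _ _ _ h1 (by linarith) hρ.le e1 e2) (by rw [vb']; exact h2))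
      (ce b hbU).2
    have e := ff_del hx haU hbU h.uv (set3 y d a b (s * s₁) s₂ 0)
    rw [G, gev _ (upd _ a b h.hu h.hv (ag _ _ _)), Function.update_self,
      Function.update_of_ne n2.symm, Function.update_of_ne n3.symm, va, vb, vc] at e
    refine nn_of hq ?_ k
    linear_combination e
  have kda : 0 ≤ x * W₁ + (1 - μ) * (A * s₂) := by
    have k := ih _ _ d b d (ce a haU).1 ((nt 0 ((1 - μ) * s₂) 1).mk₂ P
      (by rw [vb]; exact rg _ _ _ _ h2 (by linarith) hρ.le (by linarith) le_rfl)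
      (by rw [vc]; exact Or.inr rfl)) (ce a haU).2
    have e := ff_del hx hdU haU h.ru (set3 y d a b 0 ((1 - μ) * s₂) 1)
    rw [G, gev _ (upd _ d a h.hr h.hu (ag _ _ _)), Function.update_self,
      Function.update_of_ne n1, Function.update_of_ne n2, va, vb, vc] at e
    refine nn_of hq ?_ k
    linear_combination e
  have kdb : 0 ≤ x * W₂ + (1 - μ) * (A * s₁) := by
    have k := ih _ _ d a d (ce b hbU).1 ((nt ((1 - μ) * s₁) 0 1).swap₂.mk₂ P
      (by rw [va]; exact rg _ _ _ _ h1 (by linarith) hρ.le (by linarith) le_rfl)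
      (by rw [vc']; exact Or.inr rfl)) (ce b hbU).2
    have e := ff_del hx hdU hbU h.rv (set3 y d a b ((1 - μ) * s₁) 0 1)
    rw [G, gev _ (upd _ d b h.hr h.hv (ag _ _ _)), Function.update_self,
      Function.update_of_ne n1.symm, Function.update_of_ne n3, va, vb, vc] at e
    refine nn_of hq ?_ k
    linear_combination e
  have st : ∀ t₁ t₂ : ℝ, (t₁ = 1 - μ ∧ t₂ = μ ^ 2 ∨ t₁ = μ ^ 2 ∧ t₂ = 1 - μ) →
      0 ≤ x * (1 - x) * (2 - x - (1 - μ) - t₁ - t₂) * D -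
        x * (1 - x - (1 - μ) * t₁ - t₂) * (W₁ * s₁) - x * (1 - x - t₁ - (1 - μ) * t₂) * (W₂ * s₂) -
        x * (1 - x - (1 - μ) - t₁ * t₂) * M + (x + (1 - μ) * t₁ * t₂) * (A * (s₁ * s₂)) := by
    intro t₁ t₂ ht
    have hza : z ≠ a := fun e => hz (e ▸ haU)
    have hzb : z ≠ b := fun e => hz (e ▸ hbU)
    have hzd' : z ≠ d := fun e => hz (e ▸ hdU)
    have kz : ∀ p ∈ K, p ≠ z := fun p hp e => hz (e ▸ (h.mem p).2 (Or.inl hp))
    set y' := set3 y z a b t₁ t₂ 1 with hy'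
    have ag' : ∀ p ∈ K, ∀ q, y' s(p, q) = y s(p, q) :=
      fun p hp q => set3_out _ (kz p hp) (kne p hp).2.1 (kne p hp).2.2 _ _ _ _
    have agd : ∀ q, y' s(d, q) = y s(d, q) := fun q => set3_out _ hzd'.symm h.ru h.rv _ _ _ _
    have e1 : y' s(z, a) = t₁ := set3_ra _ _ _ _ _ _ _
    have e2 : y' s(z, b) = t₂ := set3_rb _ h.uv _ _ _
    have e3 : y' s(a, b) = 1 := set3_ab _ hza hzb _ _ _
    have e4 : y' s(z, d) = 1 - μ := by rw [Sym2.eq_swap, agd, Sym2.eq_swap, hzd]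
    have hN := h.congr fun p hp q _ => ag' p hp q
    have hK' : ∀ p ∈ K, y' s(z, p) = 1 := fun p hp => by
      rw [Sym2.eq_swap, ag' p hp, Sym2.eq_swap, hK p hp]
    have hd2' : ∀ c, ∃ q ∈ U, q ≠ d ∧ q ≠ c ∧ y' s(d, q) ≠ 1 := fun c => by
      simpa only [agd] using hd2 c
    have k : 0 ≤ ff x (insert z U) y' := by
      rcases ht with ht | ht
      · exact ih _ y' z a d (by rw [card_insert_of_notMem hz]; exact hn)
          (hN.mk₃ P hz hK' e4 (e1.trans ht.1) (e2.trans ht.2) (by rw [agd]; exact h1)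
            (by rw [agd]; exact h2) (Or.inr e3) hd2') (by rw [card_insert_of_notMem hz]; omega)
      · exact ih _ y' z b d (by rw [card_insert_of_notMem hz]; exact hn)
          (hN.swap₂.mk₃ P hz hK' e4 (e2.trans ht.2) (e1.trans ht.1) (by rw [agd]; exact h2)
            (by rw [agd]; exact h1) (by rw [Sym2.eq_swap]; exact Or.inr e3) hd2')
          (by rw [card_insert_of_notMem hz]; omega)
    have hf := vertex3 hx (U := {z, a, b}) (y := y') (d := d) (by simp [hzd'.symm, h.ru, h.rv])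
      (by simp) (by simp) (by simp) hza hzb h.uv (fun v hv e1 e2 e3 => by simp [e1, e2, e3] at hv)
      (form_three hx y' hza hzb h.uv)
    have hV : insert z U = K ∪ insert d {z, a, b} := by
      ext q
      simp only [mem_union, mem_insert, mem_singleton, h.mem]
      tauto
    rw [hV, hg _ y' _ _ _ _ _ _ (by simp) (by simp) (by simp) _ (fun u hu v _ => ag' u hu v) hf,
      agd, agd, e1, e2, e3, e4, ← hs₁, ← hs₂] at k
    · refine nn_of hq ?_ k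
      ring
    · rw [disjoint_right]
      intro q hq
      simp only [mem_insert, mem_singleton] at hq
      rcases hq with rfl | rfl | rfl | rfl
      exacts [h.hr, fun e => kz _ e rfl, h.hu, h.hv]
    · intro u hu v hv c1 c2 c3
      have : v = z := by simpa [c1, c2, c3] using hv
      rw [this, ag' u hu, Sym2.eq_swap, hK u hu]
  have hxe := P.hx
  refine six_of_tests2 P (nn_of (mul_pos hq hx) ?_ td1) (nn_of (mul_pos hq hx) ?_ td2)
    (nn_of (mul_pos hq hρ) ?_ ta) (nn_of (mul_pos hq hρ) ?_ tb)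
    (nn_of hρ ?_ (kab _ (by linarith) le_rfl))
    (nn_of hρ ?_ (mul_nonneg hμ.le (kab _ le_rfl (by linarith))))
    (nn_of hρ ?_ (mul_nonneg s1n kda)) (nn_of hρ ?_ (mul_nonneg s2n kdb))
    (nn_of hx ?_ (st _ _ (Or.inl ⟨rfl, rfl⟩))) (nn_of hx ?_ (st _ _ (Or.inr ⟨rfl, rfl⟩)))
  · rw [hxe]; ring
  · rw [hxe]; ring
  · rw [hxe]; ring
  · rw [hxe]; ring
  · rw [hxe]; ring
  · rw [hxe]; linear_combination (A * (s₁ * s₂)) * P.hL
  · rw [hxe]; ring
  · rw [hxe]; ring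
  · rw [hxe]; ring
  · rw [hxe]; ring

end Pool.Agent.Lib.MP_efe3d7_co
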