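import Pool.Agent.Lib.MP_efe3d7_co.R7

/-! The reduction steps for rooted networks with a marked vertex. -/

set_option autoImplicit false

open Finset

namespace Pool.Agent.Lib.MP_efe3d7_co

variable {α : Type} [Fintype α] [DecidableEq α] {x μ L : ℝ}

/-- After deleting a root edge: either we stay in the class or the root has degree two. -/
theorem del_root2 (P : Pn x μ L) {n : ℕ} (ih : IH2 α x μ L n) {V : Finset α} {y : Sym2 α → ℝ}
    {z u : α} (hn : V.card ≤ n) (h4 : 4 ≤ V.card) (hz : z ∈ V) (hu : u ∈ V) (huz : u ≠ z)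
    (hu1 : y s(z, u) = 1 - μ)
    (w0 : ∀ u ∈ V, ∀ v ∈ V, u ≠ z → v ≠ z → u ≠ v → y s(u, v) = 0 ∨ y s(u, v) = 1)
    (w1 : ∀ v ∈ V, v ≠ z → v ≠ u → y s(z, v) = 1 ∨ y s(z, v) = μ ^ 2)
    (conn : ∀ A : Finset α, A ⊆ V → z ∉ A → A.Nonempty → Cl V y A {z} → ∀ v ∈ V, v ≠ z → v ∈ A)
    (NB : ∃ v ∈ V, v ≠ z ∧ v ≠ u ∧ y s(z, v) ≠ 1)
    (NP : ∀ (X : Finset α) (c c' : α), X ⊆ V → z ∉ X → X.Nonempty → (∀ p ∈ X, y s(z, p) = 1) →
      Cl V y X {c, c'} → ∀ w ∈ V, w = z ∨ w = c ∨ w = c' ∨ w ∈ X)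
    (hI : Mk μ L V y z u z → 0 ≤ ff x V y) : 0 ≤ ff x V y := by
  have hx := P.x_pos
  have hμ := P.hμ
  have hτ := P.ρ_pos
  have hT : 0 < L := by linarith [P.L_ge]
  have hφ := P.φ_pos
  have hφ' := P.φ_lt
  by_cases hno : ∀ (A : Finset α) (c d : α), A ⊆ V → z ∉ A → A.Nonempty →
      (∀ p ∈ A, y s(z, p) = 1) → ¬ Cl V y A {c, d}
  · refine hI (mk_of P ⟨hz, w0, fun v hv hvz => ?_, hno, conn⟩ hu huz (by linarith)
      fun v hv a1 a2 => ?_)
    · by_cases e : v = u
      · rw [e, hu1]; exact Or.inr ⟨by linarith, le_rfl⟩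
      rcases w1 v hv hvz e with h | h
      · exact Or.inl h
      · rw [h]; exact Or.inr ⟨by linarith, hφ'.le⟩
    · rcases w1 v hv a1 a2 with h | h
      · exact Or.inl h
      · rw [h]; exact Or.inr ⟨by linarith, le_rfl⟩
  push Not at hno
  obtain ⟨X, c, c', hX, hzX, hne, hfree, hcl⟩ := hno
  have hN' : ∀ v ∈ V, v ≠ z → y s(z, v) ≠ 1 → v = c ∨ v = c' := by
    intro v hv h1 h2
    rcases NP X c c' hX hzX hne hfree hcl v hv with h | h | h | h
    · exact absurd h h1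
    · exact Or.inl h
    · exact Or.inr h
    · exact absurd (hfree v h) h2
  obtain ⟨v, hv, hvz, hvu, hv1⟩ := NB
  have huv : u ≠ v := hvu.symm
  have hN : ∀ w ∈ V, w ≠ z → w ≠ u → w ≠ v → y s(z, w) = 1 := by
    intro w hw h1 h2 h3
    by_contra h4
    rcases hN' u hu huz (by linarith) with k1 | k1 <;> rcases hN' v hv hvz hv1 with k2 | k2 <;>
      rcases hN' w hw h1 h4 with k3 | k3
    all_goals first
      | exact huv (k1.trans k2.symm) | exact h2 (k3.trans k1.symm) | exact h3 (k3.trans k2.symm)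
  have e1 : y s(u, z) = 1 - μ := by rw [Sym2.eq_swap]; exact hu1
  have e2 : y s(v, z) = μ ^ 2 := by rw [Sym2.eq_swap]; exact (w1 v hv hvz hvu).resolve_left hv1
  have hcut := ff_cut hx (A := {z}) (by simpa using hz) hu hv huv (by simpa using huz)
    (by simpa using hvz) (y := y) (fun p hp q hq h1 h2 h3 => by
      rw [mem_singleton.1 hp]; exact hN q hq (by simpa using h1) h2 h3)
  have hu' : u ∈ V \ {z} := by simp [hu, huz]
  have hv' : v ∈ V \ {z} := by simp [hv, hvz]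
  rw [Dv_three hx huv huz hvz, Sv_three hx huv huz hvz, e1, e2, Sv_merge hx hu' hv' huv] at hcut
  have hmem : ∀ p ∈ V \ {z}, p ∈ V ∧ p ≠ z := fun p hp => by simpa using hp
  have hS : 0 ≤ y s(u, v) * ff x ((V \ {z}).erase v) (mergeW y u v) := by
    rcases w0 u hu v hv huz hvz huv with h | h
    · rw [h, zero_mul]
    rw [h, one_mul]
    have hc : ((V \ {z}).erase v).card + 2 = V.card := by
      rw [card_erase_of_mem hv', card_sdiff_of_subset (by simpa using hz), card_singleton]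
      omega
    have lift : ∀ (A S : Finset α), A ⊆ V \ {z} → u ∉ A → v ∉ A → Cl (V \ {z}) y A S →
        A ⊆ V ∧ z ∉ A ∧ (∀ p ∈ A, y s(z, p) = 1) ∧ Cl V y A S := by
      intro A S hA h1 h2 hcA
      have fr : ∀ p ∈ A, y s(z, p) = 1 := fun p hp =>
        hN p (hmem p (hA hp)).1 (hmem p (hA hp)).2 (fun e => h1 (e ▸ hp)) (fun e => h2 (e ▸ hp))
      refine ⟨fun p hp => (hmem p (hA hp)).1, fun h => (hmem z (hA h)).2 rfl, fr, ?_⟩
      intro p hp q hq a1 a2
      by_cases hqz : q = z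
      · rw [hqz, Sym2.eq_swap]; exact fr p hp
      · exact hcA p hp q (by simp [hq, hqz]) a1 a2
    have hcls : Cls (1 - μ) L ((V \ {z}).erase v) (mergeW y u v) u := by
      refine cls_merge hτ.le hT.le hu' huv.symm
        (fun p hp q hq _ _ h3 => w0 p (hmem p hp).1 q (hmem q hq).1 (hmem p hp).2 (hmem q hq).2 h3)
        hv' (fun p hp h1 _ => ?_) (fun A c d hA h1 h2 hne' f1 f2 hcA => ?_)
        (fun A hA h1 h2 hne' hcA w hw a1 a2 => ?_)
      · rcases w0 u hu p (hmem p hp).1 huz (hmem p hp).2 h1.symm with h | h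
        · rw [h]; exact Or.inr ⟨by linarith, hτ.le⟩
        · exact Or.inl h
      · obtain ⟨l1, l2, l3, l4⟩ := lift A _ hA h1 h2 hcA
        have k1 := NP A c d l1 l2 hne' l3 l4 u hu
        have k2 := NP A c d l1 l2 hne' l3 l4 v hv
        obtain ⟨p₀, hp₀⟩ := hne'
        have k3 := NP A p₀ p₀ l1 l2 ⟨p₀, hp₀⟩ l3 (fun p hp q hq a1 _ => by
          by_cases hqu : q = u
          · rw [hqu, Sym2.eq_swap]; exact f1 p hp
          by_cases hqv : q = v
          · rw [hqv, Sym2.eq_swap]; exact f2 p hp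
          refine l4 p hp q hq a1 ?_
          simp only [mem_insert, mem_singleton, not_or]
          rcases k1 with k | k | k | k
          · exact absurd k huz
          · rcases k2 with k' | k' | k' | k'
            · exact absurd k' hvz
            · exact absurd (k.trans k'.symm) huv
            · exact ⟨k ▸ hqu, k' ▸ hqv⟩
            · exact absurd k' h2
          · rcases k2 with k' | k' | k' | k'
            · exact absurd k' hvz
            · exact ⟨k' ▸ hqv, k ▸ hqu⟩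
            · exact absurd (k.trans k'.symm) huv
            · exact absurd k' h2
          · exact absurd k h1) u hu
        rcases k3 with k | k | k | k
        · exact huz k
        · exact h1 (k ▸ hp₀)
        · exact h1 (k ▸ hp₀)
        · exact h1 k
      · obtain ⟨l1, l2, l3, l4⟩ := lift A _ hA h1 h2 hcA
        rcases NP A u v l1 l2 hne' l3 l4 w (hmem w hw).1 with k | k | k | k
        · exact absurd k (hmem w hw).2
        · exact absurd k a1
        · exact absurd k a2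
        · exact k
    by_cases h3 : 3 ≤ ((V \ {z}).erase v).card
    · obtain ⟨u', hu'⟩ := mk_plain P hcls (by omega) fun p hp hpu => by
        have hp' := hmem p (mem_of_mem_erase hp)
        rw [mergeW_self]
        rcases w0 u hu p hp'.1 huz hp'.2 (Ne.symm hpu) with e | e <;>
          rcases w0 v hv p hp'.1 hvz hp'.2 (ne_of_mem_erase hp).symm with e' | e' <;> simp [e, e']
      exact ih _ _ u u' u (by omega) hu' h3
    · refine (ff_card_two hx (by omega) fun p hp q hq hpq => ?_).le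
      have nn : ∀ p ∈ V \ {z}, ∀ q ∈ V \ {z}, p ≠ q → 0 ≤ y s(p, q) := by
        intro p hp q hq hpq
        rcases w0 p (hmem p hp).1 q (hmem q hq).1 (hmem p hp).2 (hmem q hq).2 hpq with h | h <;>
          simp [h]
      by_cases hpu : p = u
      · rw [hpu, mergeW_self]
        exact mul_nonneg (nn u hu' q (mem_of_mem_erase hq) (hpu ▸ hpq))
          (nn v hv' q (mem_of_mem_erase hq) (ne_of_mem_erase hq).symm)
      by_cases hqu : q = u
      · rw [hqu, Sym2.eq_swap, mergeW_self]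
        exact mul_nonneg (nn u hu' p (mem_of_mem_erase hp) (Ne.symm hpu))
          (nn v hv' p (mem_of_mem_erase hp) (ne_of_mem_erase hp).symm)
      rw [mergeW_of_ne _ _ hpu hqu]
      exact nn p (mem_of_mem_erase hp) q (mem_of_mem_erase hq) hpq
  have h0 : 1 - x - (1 - μ) - μ ^ 2 = 0 := by rw [P.hx]; ring
  rw [h0] at hcut
  refine nn_of (c := (1 + x) * x) (by positivity) hcut ?_
  have : 0 ≤ x * ((1 + x) * (x + (1 - μ) * μ ^ 2)) := by positivity
  nlinarith [mul_nonneg this hS]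

theorem base_three2 (P : Pn x μ L) {V : Finset α} {y : Sym2 α → ℝ} {z u p : α}
    (h : Mk μ L V y z u p) (h3 : V.card = 3) : 0 ≤ ff x V y := by
  have huz := h.uz
  have h2 : ((V.erase z).erase u).card = 1 := by
    rw [card_erase_of_mem (mem_erase.2 ⟨huz, h.hu⟩), card_erase_of_mem h.cls.hz, h3]
  obtain ⟨v, e⟩ := card_eq_one.1 h2
  have hv : v ∈ (V.erase z).erase u := by rw [e]; simp
  have huv : u ≠ v := (ne_of_mem_erase hv).symm
  have hvz := ne_of_mem_erase (mem_of_mem_erase hv)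
  have hvV := mem_of_mem_erase (mem_of_mem_erase hv)
  have hV : V = {z, u, v} := by
    rw [← e, insert_erase (mem_erase.2 ⟨huz, h.hu⟩), insert_erase h.cls.hz]
  have hcl : Cl V y {v} {z, u} := by
    intro p hp q hq a1 a2
    rw [hV] at hq
    simp only [mem_insert, mem_singleton, not_or] at hq a1 a2
    exact absurd ((hq.resolve_left a2.1).resolve_left a2.2) a1
  have k0 : y s(z, v) ≠ 1 := by
    intro h1
    refine h.cls.hC {v} u u (by simpa using hvV) (by simpa using hvz.symm) (by simp)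
      (by simpa using h1) fun p hp q hq a1 a2 => ?_
    by_cases hqz : q = z
    · rw [mem_singleton.1 hp, hqz, Sym2.eq_swap, h1]
    · exact hcl p hp q hq a1 (by simpa [hqz] using a2)
  have k1 : y s(z, v) ≤ μ ^ 2 := by
    by_contra k
    by_cases hvp : v = p
    · exact h.hP {v} u (by simpa using hvV) (by simpa using hvz.symm) (by simpa using huv)
        (by simp [hvp]) (by rw [← hvp]; exact not_le.1 k)
        (fun q hq hqp => absurd ((mem_singleton.1 hq).trans hvp) hqp) hcl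
    · exact (h.hi v hvV hvz huv.symm hvp).elim k0 k
  have e0 : y s(u, v) = 0 := by
    refine (h.cls.w0 u h.hu v hvV huz hvz huv).resolve_right fun h1 => ?_
    have := h.cls.conn {u} (by simpa using h.hu) (by simpa using huz.symm) (by simp)
      (fun p hp q hq a1 a2 => by
        rw [hV] at hq
        have : q = v := by simp_all
        rw [mem_singleton.1 hp, this, h1]) v hvV hvz
    exact huv (mem_singleton.1 this).symm
  have k2 := h.wu.2
  have hx := P.x_pos
  rw [hV, ff_three hx huz.symm hvz.symm huv, e0]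
  have : 0 ≤ 1 - x - y s(z, u) - y s(z, v) - 0 := by nlinarith [P.hx]
  have := mul_nonneg hx.le this
  nlinarith

theorem cut_alg2 (P : Pn x μ L) {D₁ S₁ D₂ S₂ t : ℝ} (a1 : 0 ≤ D₁ - (1 - μ) * S₁)
    (a2 : 0 ≤ D₁ - -L * S₁) (b1 : 0 ≤ D₂ - t * -μ * S₂) (b2 : 0 ≤ D₂ - t * μ ^ 2 * S₂) :
    0 ≤ D₁ * D₂ + x * t * (S₁ * S₂) := by
  have hμ := P.hμ
  refine nn_of (c := 1 + μ) (by linarith) ?_
    (add_nonneg (mul_nonneg a1 b2) (mul_nonneg (mul_nonneg hμ.le a2) b1))
  rw [P.hx]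
  linear_combination (-(S₁ * D₂) - t * μ * S₁ * S₂) * P.hL

theorem cut_step2 (P : Pn x μ L) {n : ℕ} (ih : IH2 α x μ L n) {V : Finset α} {y : Sym2 α → ℝ}
    {z u p : α} (hn : V.card ≤ n) (h : Mk μ L V y z u p) (h2 : ¬ C2 V y z) : 0 ≤ ff x V y := by
  have hx := P.x_pos
  have hμ := P.hμ
  have hμ2 := P.hμ2
  have hρ := P.ρ_pos
  have hL := P.L_ge
  have hφ := P.φ_pos
  have hφ' := P.φ_lt
  obtain ⟨A, w, hA, hzA, hwA, hne, hcl, huA, v, hv, hvz, hvw, hvA⟩ : ∃ (A : Finset α) (w : α),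
      A ⊆ V ∧ z ∉ A ∧ w ∉ A ∧ A.Nonempty ∧ Cl V y A {z, w} ∧ u ∉ A ∧
      ∃ v ∈ V, v ≠ z ∧ v ≠ w ∧ v ∉ A := by
    unfold C2 at h2
    push Not at h2
    obtain ⟨A, w, hA, hzA, hwA, hne, hcl, v, hv, hvz, hvw, hvA⟩ := h2
    by_cases huA : u ∈ A
    · exact ⟨(V \ A) \ {z, w}, w, sdiff_subset.trans sdiff_subset, by simp, by simp,
        ⟨v, by simp [hv, hvz, hvw, hvA]⟩, hcl.compl hA, by simp [huA], u, h.hu, h.uz,
        fun e => hwA (e ▸ huA), by simp [huA]⟩
    · exact ⟨A, w, hA, hzA, hwA, hne, hcl, huA, v, hv, hvz, hvw, hvA⟩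
  have hz := h.cls.hz
  have hw : w ∈ V ∧ w ≠ z := by
    by_contra hw
    refine hvA (h.cls.conn A hA hzA hne (fun p hp q hq a1 a2 => hcl p hp q hq a1 ?_) v hv hvz)
    simp only [mem_insert, mem_singleton, not_or] at a2 ⊢
    exact ⟨a2, fun e => hw ⟨e ▸ hq, e ▸ a2⟩⟩
  have hcut := ff_cut hx hA hz hw.1 hw.2.symm hzA hwA (y := y)
    (fun p hp q hq a1 a2 a3 => hcl p hp q hq a1 (by simp [a2, a3]))
  have hsub : insert z (insert w A) ⊆ V := insert_subset hz (insert_subset hw.1 hA)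
  have c1 : (insert z (insert w A)).card < V.card :=
    card_lt_card (ssubset_iff_of_subset hsub |>.2 ⟨v, hv, by simp [hvz, hvw, hvA]⟩)
  have c2 : 3 ≤ (insert z (insert w A)).card := by
    rw [card_insert_of_notMem (by simp [hzA, hw.2.symm]), card_insert_of_notMem hwA]
    have := card_pos.2 hne
    omega
  obtain ⟨p₀, hp₀⟩ := hne
  have c3 : (V \ A).card < V.card :=
    card_lt_card (ssubset_iff_of_subset sdiff_subset |>.2 ⟨p₀, hA hp₀, by simp [hp₀]⟩)
  have c4 : 3 ≤ (V \ A).card := by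
    rw [← card_eq_three.2 ⟨z, w, v, hw.2.symm, hvz.symm, hvw.symm, rfl⟩]
    refine card_le_card fun q hq => ?_
    simp only [mem_insert, mem_singleton] at hq
    rcases hq with rfl | rfl | rfl
    exacts [mem_sdiff.2 ⟨hz, hzA⟩, mem_sdiff.2 ⟨hw.1, hwA⟩, mem_sdiff.2 ⟨hv, hvA⟩]
  have t1 : ∀ t, -L ≤ t → t ≤ 1 - μ → 0 ≤ Dv x (insert z (insert w A)) y s(z, w) -
      t * Sv x (insert z (insert w A)) y s(z, w) := fun t a1 a2 => by
    rw [← ff_aff]
    refine ih _ _ z w p (by omega) (h.side P hsub (by simp) (by simp) hw.2 ?_ a1 a2 (by simp)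
      (Or.inl ⟨rfl, fun k => by simpa [h.uz, huA] using k⟩)) c2
    intro p hp b1 b2 q hq b3
    simp only [mem_insert, not_or] at b3
    exact hcl p (by simpa [b1, b2] using hp) q hq b3.2.2 (by simp [b3.1, b3.2.1])
  have t2 : ∀ s, -μ ≤ s → s ≤ μ ^ 2 →
      0 ≤ Dv x (V \ A) y s(z, w) - y s(z, w) * s * Sv x (V \ A) y s(z, w) := fun s a1 a2 => by
    rw [← ff_aff]
    have key : (-L ≤ y s(z, w) * s ∧ y s(z, w) * s ≤ 1 - μ) ∧
        (u ≠ w → -μ ≤ y s(z, w) * s ∧ y s(z, w) * s ≤ μ ^ 2) := by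
      have k : u ≠ w → -μ ≤ y s(z, w) * s ∧ y s(z, w) * s ≤ μ ^ 2 := by
        intro huw
        have b1 := h.lo w hw.1 hw.2 huw.symm
        have b2 : y s(z, w) ≤ 1 := (h.cls.w1 w hw.1 hw.2).elim le_of_eq fun k => by linarith [k.2]
        constructor
        · rcases le_total 0 s with hs | hs <;> nlinarith
        · rcases le_total 0 s with hs | hs <;> nlinarith
      refine ⟨?_, k⟩
      by_cases huw : u = w
      · obtain ⟨b1, b2⟩ := h.wu
        rw [huw] at b1 b2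
        have b3 := P.hL
        constructor
        · rcases le_total 0 s with hs | hs <;> nlinarith
        · rcases le_total 0 s with hs | hs <;> nlinarith
      · exact ⟨by linarith [(k huw).1], by linarith [(k huw).2]⟩
    refine ih _ _ z u p (by omega) (h.side P sdiff_subset (mem_sdiff.2 ⟨hz, hzA⟩)
      (mem_sdiff.2 ⟨hw.1, hwA⟩) hw.2 ?_ key.1.1 key.1.2 (mem_sdiff.2 ⟨h.hu, huA⟩) ?_) c4
    · intro p hp b1 b2 q hq b3
      have hqA : q ∈ A := by
        by_contra hqA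
        exact b3 (mem_sdiff.2 ⟨hq, hqA⟩)
      rw [Sym2.eq_swap]
      exact hcl q hqA p (mem_sdiff.1 hp).1 (mem_sdiff.1 hp).2 (by simp [b1, b2])
    · by_cases huw : u = w
      · exact Or.inl ⟨huw, fun _ => huw⟩
      · exact Or.inr ⟨rfl, huw, key.2 huw⟩
  exact nn_of (by positivity) hcut (cut_alg2 P (t1 _ (by linarith) le_rfl)
    (t1 (-L) le_rfl (by linarith)) (t2 _ le_rfl (by linarith)) (t2 _ (by linarith) le_rfl))

omit [Fintype α] in
theorem Cand.cls_merge2 {τ T : ℝ} (hτ : 0 ≤ τ) (hT : 0 ≤ T) (hτ1 : τ < 1)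
    {V : Finset α} {y y' : Sym2 α → ℝ} {z d : α} {A : Finset α}
    {a b : α} (h : Cls τ T V y z) (h2 : C2 V y z) (c : Cand V y z d A a b)
    (hy : ∀ p q, p ≠ z → p ≠ a → p ≠ b → y' s(p, q) = y s(p, q))
    (hab : y' s(a, b) = 0 ∨ y' s(a, b) = 1) (hzb : -T ≤ y' s(z, b) ∧ y' s(z, b) ≤ τ) :
    Cls τ T ((V \ A).erase a) (mergeW y' z a) z := by
  obtain ⟨g1, g2, g3, g4⟩ := c.genuine h h2
  obtain ⟨k1, k2, k3, k4⟩ := c.swap.genuine h h2
  refine Pool.Agent.Lib.MP_efe3d7_co.cls_merge hτ hT (mem_sdiff.2 ⟨h.hz, c.hz⟩) g3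
    (Cand.side_w0 h hy hab) (mem_sdiff.2 ⟨g1, g2⟩) (fun w hw a1 a2 => ?_)
    (fun X e e' hX a1 a2 hne f1 _ hc => ?_) ?_
  · by_cases hwb : w = b
    · rw [hwb]; exact Or.inr hzb
    · rw [Sym2.eq_swap, hy w z a1 a2 hwb, Sym2.eq_swap]; exact h.w1 w (mem_sdiff.1 hw).1 a1
  · have hb : b ∉ X := fun hb => by have := f1 b hb; linarith [hzb.2]
    refine h.hC X e e' (hX.trans sdiff_subset) a1 hne (fun p hp => ?_) (c.lift hX a1 a2 hb hy hc)
    rw [Sym2.eq_swap, ← hy p z (fun e => a1 (e ▸ hp)) (fun e => a2 (e ▸ hp))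
      (fun e => hb (e ▸ hp)), Sym2.eq_swap]
    exact f1 p hp
  · have key : ∀ Z : Finset α, Z ⊆ V \ A → z ∉ Z → a ∉ Z → b ∉ Z → Z.Nonempty →
        ¬ Cl (V \ A) y' Z {z, a} := by
      intro Z hZ a1 a2 a3 hne hc
      have := h2 Z a (hZ.trans sdiff_subset) a1 a2 hne (c.lift hZ a1 a2 a3 hy hc) d (c.hA c.hd)
        (fun e => c.hz (e ▸ c.hd)) (fun e => g2 (e ▸ c.hd))
      exact (mem_sdiff.1 (hZ this)).2 c.hd
    intro X hX a1 a2 hne hc w hw b1 b2
    by_cases hb : b ∈ X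
    · by_contra hwX
      exact key (((V \ A) \ X) \ {z, a}) (sdiff_subset.trans sdiff_subset) (by simp) (by simp)
        (by simp [hb]) ⟨w, by simp only [mem_sdiff] at hw ⊢; simp [hw, hwX, b1, b2]⟩ (hc.compl hX)
    · exact absurd hc (key X hX a1 a2 hb hne)

omit [Fintype α] in
theorem Cand.cls_fields2 {τ T : ℝ} (hτ1 : τ < 1)
    {V : Finset α} {y y' : Sym2 α → ℝ} {z d : α}
    {A : Finset α} {a b : α} (h : Cls τ T V y z) (h2 : C2 V y z) (c : Cand V y z d A a b)
    (hy : ∀ p q, p ≠ z → p ≠ a → p ≠ b → y' s(p, q) = y s(p, q))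
    (hab : y' s(a, b) = y s(a, b)) (hza : -T ≤ y' s(z, a) ∧ y' s(z, a) ≤ τ)
    (hzb : -T ≤ y' s(z, b) ∧ y' s(z, b) ≤ τ) : Cls τ T (V \ A) y' z := by
  obtain ⟨g1, g2, g3, g4⟩ := c.genuine h h2
  obtain ⟨k1, k2, k3, k4⟩ := c.swap.genuine h h2
  have hd : d ≠ z := fun e => c.hz (e ▸ c.hd)
  refine ⟨mem_sdiff.2 ⟨h.hz, c.hz⟩,
    Cand.side_w0 h hy (by rw [hab]; exact h.w0 a g1 b k1 g3 k3 g4), fun w hw a1 => ?_,
    fun X e e' hX a1 hne f1 hc => ?_, ?_⟩
  · by_cases hwa : w = a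
    · rw [hwa]; exact Or.inr hza
    by_cases hwb : w = b
    · rw [hwb]; exact Or.inr hzb
    · rw [Sym2.eq_swap, hy w z a1 hwa hwb, Sym2.eq_swap]; exact h.w1 w (mem_sdiff.1 hw).1 a1
  · have ha : a ∉ X := fun ha => by have := f1 a ha; linarith [hza.2]
    have hb : b ∉ X := fun hb => by have := f1 b hb; linarith [hzb.2]
    refine h.hC X e e' (hX.trans sdiff_subset) a1 hne (fun p hp => ?_) (c.lift hX a1 ha hb hy hc)
    rw [Sym2.eq_swap, ← hy p z (fun e => a1 (e ▸ hp)) (fun e => ha (e ▸ hp))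
      (fun e => hb (e ▸ hp)), Sym2.eq_swap]
    exact f1 p hp
  · have key : ∀ (Z : Finset α) (u : α), u ∉ A → Z ⊆ V \ A → z ∉ Z → (a ∈ Z → a = u) →
        (b ∈ Z → b = u) → Cl (V \ A) y' Z {z} → ∀ p ∈ Z, p = u := by
      intro Z u hu hZ a1 a2 a3 hc p hp
      by_contra hpu
      have hs : Z.erase u ⊆ V \ A := (erase_subset _ _).trans hZ
      have b1 : z ∉ Z.erase u := fun e => a1 (mem_of_mem_erase e)
      have := h2 (Z.erase u) u (hs.trans sdiff_subset) b1 (notMem_erase _ _)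
        ⟨p, mem_erase.2 ⟨hpu, hp⟩⟩ (c.lift hs b1
          (fun e => ne_of_mem_erase e (a2 (mem_of_mem_erase e)))
          (fun e => ne_of_mem_erase e (a3 (mem_of_mem_erase e))) hy
          (fun r hr q hq n1 n2 => by
            simp only [mem_insert, mem_singleton, not_or] at n2
            exact hc r (mem_of_mem_erase hr) q hq (fun e => n1 (mem_erase.2 ⟨n2.2, e⟩))
              (by simpa using n2.1))) d (c.hA c.hd) hd (fun e => hu (e ▸ c.hd))
      exact (mem_sdiff.1 (hs this)).2 c.hd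
    refine conn_of (mem_sdiff.2 ⟨g1, g2⟩) g3 fun X hX a1 a2 hne hc => ?_
    have hXb := key X b k2 hX a1 (fun e => absurd e a2) (fun _ => rfl) hc
    obtain ⟨p, hp⟩ := hne
    have hb : b ∈ X := hXb p hp ▸ hp
    obtain ⟨w, w1, w2, w3, w4, w5⟩ := c.prop
    refine w4 (key (((V \ A) \ X) \ {z}) a g2 (sdiff_subset.trans sdiff_subset) (by simp)
      (fun _ => rfl) (fun e => by simp [hb] at e) (hc.compl hX) w ?_)
    simp only [mem_sdiff, mem_singleton]
    exact ⟨⟨⟨w1, w2⟩, fun e => w5 (hXb w e)⟩, w3⟩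

theorem Cand.edge_nonneg2 (P : Pn x μ L) {n : ℕ} (ih : IH2 α x μ L n) {V : Finset α}
    {y : Sym2 α → ℝ} {z d u : α} {A : Finset α} {a b : α} (hn : V.card ≤ n) (h4 : 4 ≤ V.card)
    (h : Cls (1 - μ) L V y z) (h2 : C2 V y z) (hu : u ∈ V) (huz : u ≠ z) (huA : u ∉ A)
    (hu1 : y s(z, u) = 1 - μ)
    (w1 : ∀ v ∈ V, v ≠ z → v ≠ u → v ≠ d → y s(z, v) = 1 ∨ y s(z, v) = μ ^ 2)
    (c : Cand V y z d A a b)
    (hmax : ∀ (A' : Finset α) (a' b' : α), Cand V y z d A' a' b' → A'.card ≤ A.card) :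
    0 ≤ ff x (V \ A) (Function.update y s(a, b) 0) := by
  obtain ⟨g1, g2, g3, g4⟩ := c.genuine h h2
  obtain ⟨k1, k2, k3, k4⟩ := c.swap.genuine h h2
  set y' := Function.update y s(a, b) 0 with hy'
  have hab : y' s(a, b) = 0 := Function.update_self _ _ _
  have hy : ∀ p q, p ≠ a → p ≠ b → y' s(p, q) = y s(p, q) := fun p q a1 a2 =>
    Function.update_of_ne (by simp [a1, a2]) _ _
  have hyz : ∀ q, y' s(z, q) = y s(z, q) := fun q => hy z q g3.symm k3.symm
  have hlt : (V \ A).card < V.card :=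
    card_lt_card (ssubset_iff_of_subset sdiff_subset |>.2 ⟨d, c.hA c.hd, by simp [c.hd]⟩)
  have h4' : 4 ≤ (V \ A).card := by
    obtain ⟨w, w1, w2, w3, w4, w5⟩ := c.prop
    have : ({w, z, a, b} : Finset α).card = 4 := by
      rw [card_insert_of_notMem (by simp [w3, w4, w5]),
        card_eq_three.2 ⟨z, a, b, g3.symm, k3.symm, g4, rfl⟩]
    rw [← this]
    refine card_le_card fun q hq => ?_
    simp only [mem_insert, mem_singleton] at hq
    rcases hq with rfl | rfl | rfl | rfl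
    exacts [mem_sdiff.2 ⟨w1, w2⟩, mem_sdiff.2 ⟨h.hz, c.hz⟩, mem_sdiff.2 ⟨g1, g2⟩,
      mem_sdiff.2 ⟨k1, k2⟩]
  have both : ∀ X S : Finset α, Cl (V \ A) y' X S → (a ∈ X → b ∈ X ∨ b ∈ S) ∧
      (b ∈ X → a ∈ X ∨ a ∈ S) := by
    intro X S hc
    constructor
    · intro ha
      by_contra hno
      push Not at hno
      have := hc a ha b (mem_sdiff.2 ⟨k1, k2⟩) hno.1 hno.2
      rw [hab] at this; norm_num at this
    · intro hb
      by_contra hno
      push Not at hno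
      have := hc b hb a (mem_sdiff.2 ⟨g1, g2⟩) hno.1 hno.2
      rw [Sym2.eq_swap, hab] at this; norm_num at this
  refine del_root2 P ih (by omega) h4' (mem_sdiff.2 ⟨h.hz, c.hz⟩) (mem_sdiff.2 ⟨hu, huA⟩) huz
    (by rw [hyz]; exact hu1) (Cand.side_w0 h (fun p q _ => hy p q) (Or.inl hab))
    (fun v hv hvz hvu => by
      rw [hyz]
      exact w1 v (mem_sdiff.1 hv).1 hvz hvu fun e => (mem_sdiff.1 hv).2 (e ▸ c.hd)) ?_ ?_ ?_
    (fun hc => ih _ _ z u z (by omega) hc (by omega))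
  · refine conn_of (mem_sdiff.2 ⟨g1, g2⟩) g3 fun X hX a1 a2 hne hc => ?_
    have hb : b ∉ X := fun hb => by
      rcases (both X _ hc).2 hb with e | e
      · exact a2 e
      · exact g3 (mem_singleton.1 e)
    have := h.conn X (hX.trans sdiff_subset) a1 hne (c.lift hX a1 a2 hb (fun p q _ => hy p q) hc)
      d (c.hA c.hd) (fun e => c.hz (e ▸ c.hd))
    exact (mem_sdiff.1 (hX this)).2 c.hd
  · obtain ⟨v, v1, v2, v3, v4, v5⟩ := h.big h4 u d
    exact ⟨v, mem_sdiff.2 ⟨v1, fun hvA => v5 (c.free v hvA v4)⟩, v2, v3, by rw [hyz]; exact v5⟩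
  · intro X e e' hX a1 hne f1 hc w hw
    have f2 : ∀ p ∈ X, y s(z, p) = 1 := fun p hp => by rw [← hyz]; exact f1 p hp
    by_cases hno : a ∉ X ∧ b ∉ X
    · exact absurd (c.lift hX a1 hno.1 hno.2 (fun p q _ => hy p q) hc)
        (h.hC X e e' (hX.trans sdiff_subset) a1 hne f2)
    have hboth : (a ∈ X ∨ a ∈ ({e, e'} : Finset α)) ∧ (b ∈ X ∨ b ∈ ({e, e'} : Finset α)) := by
      rw [not_and_or, not_not, not_not] at hno
      rcases hno with k | k
      · exact ⟨Or.inl k, (both X _ hc).1 k⟩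
      · exact ⟨(both X _ hc).2 k, Or.inl k⟩
    by_contra hw'
    push Not at hw'
    have hcand : Cand V y z d (A ∪ X) e e' := by
      refine ⟨union_subset c.hA (hX.trans sdiff_subset), by simp [c.hz, a1],
        mem_union_left _ c.hd, fun p hp hpd => ?_, fun p hp q hq b1 b2 => ?_,
        w, (mem_sdiff.1 hw).1, by simp [(mem_sdiff.1 hw).2, hw'.2.2.2], hw'.1, hw'.2.1, hw'.2.2.1⟩
      · rcases mem_union.1 hp with k | k
        · exact c.free p k hpd
        · exact f2 p k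
      · rw [mem_union, not_or] at b1
        rw [mem_insert, not_or] at b2
        have qa : q ≠ a := fun e => hboth.1.elim (fun k => b1.2 (e ▸ k)) fun k => b2.2 (e ▸ k)
        have qb : q ≠ b := fun e => hboth.2.elim (fun k => b1.2 (e ▸ k)) fun k => b2.2 (e ▸ k)
        rcases mem_union.1 hp with k | k
        · exact c.cl p k q hq b1.1 (by simp [b2.1, qa, qb])
        · rw [Sym2.eq_swap, ← hy q p qa qb, Sym2.eq_swap]
          exact hc p k q (mem_sdiff.2 ⟨hq, b1.1⟩) b1.2 b2.2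
    have k1 := hmax _ _ _ hcand
    obtain ⟨p, hp⟩ := hne
    have k2 : A.card < (A ∪ X).card := card_lt_card (ssubset_iff_of_subset subset_union_left |>.2
      ⟨p, mem_union_right _ hp, (mem_sdiff.1 (hX hp)).2⟩)
    omega

end Pool.Agent.Lib.MP_efe3d7_co
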