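import Pool.Agent.Lib.MP_efe3d7_co.R8

/-! The essential root edge for rooted networks with a marked vertex. -/

set_option autoImplicit false

open Finset

namespace Pool.Agent.Lib.MP_efe3d7_co

variable {α : Type} [Fintype α] [DecidableEq α] {x μ L : ℝ}

omit [Fintype α] in
theorem Cand.mk_merge (P : Pn x μ L) {V : Finset α} {y y' : Sym2 α → ℝ} {z d u : α}
    {A : Finset α} {a b : α} (h : Cls (1 - μ) L V y z) (h2 : C2 V y z) (hu : u ∈ V) (huz : u ≠ z)
    (huA : u ∉ A) (hu1 : y s(z, u) = 1 - μ)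
    (w1 : ∀ v ∈ V, v ≠ z → v ≠ u → v ≠ d → y s(z, v) = 1 ∨ y s(z, v) = μ ^ 2)
    (c : Cand V y z d A a b)
    (hmax : ∀ (A' : Finset α) (a' b' : α), Cand V y z d A' a' b' → A'.card ≤ A.card)
    (hy : ∀ p q, p ≠ z → p ≠ a → p ≠ b → y' s(p, q) = y s(p, q)) (hab : y' s(a, b) = y s(a, b))
    {s : ℝ} (s1 : -μ ≤ s) (s2 : s ≤ 1 - μ) (hzb : y' s(z, b) = s * y s(z, b)) :
    ∃ u' p', Mk μ L ((V \ A).erase a) (mergeW y' z a) z u' p' := by
  have hμ := P.hμ
  have hρ := P.ρ_pos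
  have hL := P.L_ge
  have hφ := P.φ_pos
  have hφ' := P.φ_lt
  have hμ2 := P.hμ2
  obtain ⟨g1, g2, g3, g4⟩ := c.genuine h h2
  obtain ⟨k1, k2, k3, -⟩ := c.swap.genuine h h2
  have hbd : b ≠ d := fun e => k2 (e ▸ c.hd)
  have hab01 := h.w0 a g1 b k1 g3 k3 g4
  have tb : 0 ≤ y s(z, b) ∧ y s(z, b) ≤ 1 := by
    by_cases e : b = u
    · rw [e, hu1]; constructor <;> linarith
    · rcases w1 b k1 k3 e hbd with k | k <;> rw [k] <;> constructor <;> linarith
  have fb0 : -μ ≤ s * y s(z, b) ∧ s * y s(z, b) ≤ 1 - μ := by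
    constructor <;> rcases le_total 0 s with hs | hs <;> nlinarith [tb.1, tb.2]
  have hcls := c.cls_merge2 hρ.le (by linarith) P.ρ_lt h h2 hy (by rw [hab]; exact hab01)
    (by rw [hzb]; exact ⟨by linarith [fb0.1], fb0.2⟩)
  have eb : mergeW y' z a s(z, b) = s * y s(z, b) * y s(a, b) := by rw [mergeW_self, hzb, hab]
  have fb : -μ ≤ mergeW y' z a s(z, b) ∧ mergeW y' z a s(z, b) ≤ 1 - μ := by
    rw [eb]
    rcases hab01 with e | e <;> rw [e]
    · constructor <;> linarith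
    · rw [mul_one]; exact fb0
  have eq : ∀ q ∈ (V \ A).erase a, q ≠ z → q ≠ b →
      mergeW y' z a s(z, q) = y s(z, q) * y s(a, q) := by
    intro q hq a1 a2
    rw [mergeW_self, Sym2.eq_swap (a := z), Sym2.eq_swap (a := a),
      hy q z a1 (ne_of_mem_erase hq) a2, hy q a a1 (ne_of_mem_erase hq) a2]
  have mV : ∀ q ∈ (V \ A).erase a, q ∈ V ∧ q ∉ A := fun q hq => mem_sdiff.1 (mem_of_mem_erase hq)
  have w01 : ∀ q ∈ (V \ A).erase a, q ≠ z → y s(a, q) = 0 ∨ y s(a, q) = 1 := fun q hq a1 =>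
    h.w0 a g1 q (mV q hq).1 g3 a1 (ne_of_mem_erase hq).symm
  have ford : ∀ q ∈ (V \ A).erase a, q ≠ z → q ≠ b → q ≠ u → mergeW y' z a s(z, q) = 1 ∨
      (-μ ≤ mergeW y' z a s(z, q) ∧ mergeW y' z a s(z, q) ≤ μ ^ 2) := by
    intro q hq a1 a2 a3
    rw [eq q hq a1 a2]
    rcases w01 q hq a1 with e | e <;> rw [e]
    · exact Or.inr ⟨by linarith, by linarith⟩
    · rcases w1 q (mV q hq).1 a1 a3 (fun k => (mV q hq).2 (k ▸ c.hd)) with k | k <;> rw [k]
      · exact Or.inl (mul_one _)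
      · exact Or.inr ⟨by linarith, by linarith⟩
  have hbV : b ∈ (V \ A).erase a := mem_erase.2 ⟨g4.symm, mem_sdiff.2 ⟨k1, k2⟩⟩
  by_cases hc1 : u ≠ a ∧ u ≠ b ∧ y s(a, u) = 1
  swap
  · refine ⟨b, z, mk_of P hcls hbV k3 (by linarith [fb.2]) fun q hq a1 a2 => ?_⟩
    by_cases e : q = u
    · have : y s(a, q) = 0 := (w01 q hq a1).resolve_right fun k =>
        hc1 ⟨e ▸ ne_of_mem_erase hq, e ▸ a2, e ▸ k⟩
      rw [eq q hq a1 a2, this]
      exact Or.inr ⟨by linarith, by linarith⟩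
    · exact ford q hq a1 a2 e
  obtain ⟨hua, hub, hau⟩ := hc1
  have huV : u ∈ (V \ A).erase a := mem_erase.2 ⟨hua, mem_sdiff.2 ⟨hu, huA⟩⟩
  refine ⟨u, b, hcls, huV, huz, by rw [eq u huV huz hub, hu1, hau]; linarith,
    fun q hq a1 a2 => ?_, fun q hq a1 a2 a3 => (ford q hq a1 a3 a2).imp id And.right,
    fun Y e hY a1 a2 a3 a4 a5 hc => ?_⟩
  · by_cases k : q = b
    · rw [k]; exact fb.1
    · rcases ford q hq a1 k a2 with k' | k'
      · rw [k']; linarith
      · exact k'.1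
  have hz : ∀ q ∈ Y, q ≠ z := fun q hq k => a1 (k ▸ hq)
  rw [eb] at a4
  have e1 : y s(a, b) = 1 := hab01.resolve_left fun k => by rw [k, mul_zero] at a4; linarith
  have e2 : y s(z, b) = 1 := (w1 b k1 k3 hub.symm hbd).resolve_right fun k => by
    rw [e1, k, mul_one] at a4; nlinarith
  have fr : ∀ q ∈ Y, y s(z, q) = 1 ∧ y s(a, q) = 1 := by
    intro q hq
    by_cases k : q = b
    · rw [k]; exact ⟨e2, e1⟩
    · have := a5 q hq k
      rw [eq q (hY hq) (hz q hq) k] at this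
      exact mul_eq_one_of (w01 q (hY hq) (hz q hq)) this
  by_cases hw : ∃ w ∈ V, w ∉ A ∪ Y ∧ w ≠ z ∧ w ≠ a ∧ w ≠ e
  · have hcand : Cand V y z d (A ∪ Y) a e := by
      refine ⟨union_subset c.hA fun q hq => (mV q (hY hq)).1, by simp [c.hz, a1],
        mem_union_left _ c.hd, fun p hp hpd => ?_, fun p hp q hq b1 b2 => ?_, hw⟩
      · rcases mem_union.1 hp with k | k
        · exact c.free p k hpd
        · exact (fr p k).1
      · rw [mem_union, not_or] at b1
        simp only [mem_insert, mem_singleton, not_or] at b2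
        have qb : q ≠ b := fun k => b1.2 (k ▸ a3)
        rcases mem_union.1 hp with k | k
        · exact c.cl p k q hq b1.1 (by simp [b2.1, b2.2.1, qb])
        · have := hc p k q (mem_erase.2 ⟨b2.2.1, mem_sdiff.2 ⟨hq, b1.1⟩⟩) b1.2
            (by simp [b2.1, b2.2.2])
          rw [mergeW_of_ne _ _ (hz p k) b2.1, Sym2.eq_swap, hy q p b2.1 b2.2.1 qb] at this
          rw [Sym2.eq_swap]; exact this
    have c1 := hmax _ _ _ hcand
    have c2 : A.card < (A ∪ Y).card := card_lt_card (ssubset_iff_of_subset subset_union_left |>.2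
      ⟨b, mem_union_right _ a3, k2⟩)
    omega
  push Not at hw
  have hue : u = e := hw u hu (by simp [huA, a2]) huz hua
  have := h2 (insert a A) b (insert_subset g1 c.hA) (by simp [g3.symm, c.hz])
    (by simp [g4.symm, k2]) (insert_nonempty _ _) (fun p hp q hq b1 b2 => by
      simp only [mem_insert, mem_singleton, not_or] at b1 b2
      rcases mem_insert.1 hp with k | k
      · rw [k]
        by_cases hqY : q ∈ Y
        · exact (fr q hqY).2
        · rw [hw q hq (by simp [b1.2, hqY]) b2.1 b1.1, ← hue]; exact hau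
      · exact c.cl p k q hq b1.2 (by simp [b2.1, b2.2, b1.1])) u hu huz hub
  simp [hua, huA] at this

theorem cand_step2 (P : Pn x μ L) {n : ℕ} (ih : IH2 α x μ L n) {V : Finset α}
    {y : Sym2 α → ℝ} {z d u : α} {A : Finset α} {a b : α} (hn : V.card ≤ n) (h4 : 4 ≤ V.card)
    (h : Cls (1 - μ) L V y z) (h2 : C2 V y z) (hu : u ∈ V) (huz : u ≠ z) (hud : u ≠ d)
    (hu1 : y s(z, u) = 1 - μ)
    (w1 : ∀ v ∈ V, v ≠ z → v ≠ u → v ≠ d → y s(z, v) = 1 ∨ y s(z, v) = μ ^ 2)
    (hd : y s(z, d) = 1 - μ) (c : Cand V y z d A a b)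
    (hmax : ∀ (A' : Finset α) (a' b' : α), Cand V y z d A' a' b' → A'.card ≤ A.card) :
    0 ≤ ff x V y := by
  have hx := P.x_pos
  have hμ := P.hμ
  have hρ := P.ρ_pos
  have hL := P.L_ge
  have hφ := P.φ_pos
  have hφ' := P.φ_lt
  have huA : u ∉ A := fun k => by have := c.free u k hud; linarith
  obtain ⟨g1, g2, g3, g4⟩ := c.genuine h h2
  obtain ⟨k1, k2, k3, -⟩ := c.swap.genuine h h2
  have hzU : z ∈ V \ A := mem_sdiff.2 ⟨h.hz, c.hz⟩
  have haU : a ∈ V \ A := mem_sdiff.2 ⟨g1, g2⟩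
  have hbU : b ∈ V \ A := mem_sdiff.2 ⟨k1, k2⟩
  have hdU : d ∉ V \ A := by simp [c.hd]
  have hdz : d ≠ z := fun e => c.hz (e ▸ c.hd)
  have hda : d ≠ a := fun e => g2 (e ▸ c.hd)
  have hdb : d ≠ b := fun e => k2 (e ▸ c.hd)
  obtain ⟨w, w₁, w₂, w₃, w₄, w₅⟩ := c.prop
  have hlt : (V \ A).card < V.card :=
    card_lt_card (ssubset_iff_of_subset sdiff_subset |>.2 ⟨d, c.hA c.hd, hdU⟩)
  have h4' : 4 ≤ (V \ A).card := by
    have : ({w, z, a, b} : Finset α).card = 4 := by
      rw [card_insert_of_notMem (by simp [w₃, w₄, w₅]),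
        card_eq_three.2 ⟨z, a, b, g3.symm, k3.symm, g4, rfl⟩]
    rw [← this]
    refine card_le_card fun q hq => ?_
    simp only [mem_insert, mem_singleton] at hq
    rcases hq with rfl | rfl | rfl | rfl
    exacts [mem_sdiff.2 ⟨w₁, w₂⟩, hzU, haU, hbU]
  obtain ⟨β₀, β₁, β₂, β₃, β₄, hf⟩ := exists_form hx y hzU haU hbU g3.symm k3.symm g4
  have pos : ∀ v ∈ V, v ≠ z → v ≠ d → 0 ≤ y s(z, v) ∧ y s(z, v) ≤ 1 := by
    intro v hv hvz hvd
    by_cases e : v = u
    · rw [e, hu1]; constructor <;> linarith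
    · rcases w1 v hv hvz e hvd with k | k <;> rw [k] <;> constructor <;> linarith
  have rng : ∀ v ∈ V, v ≠ z → v ≠ d → 0 ≤ μ ^ 2 * y s(z, v) ∧ μ ^ 2 * y s(z, v) ≤ μ ^ 2 := by
    intro v hv hvz hvd
    obtain ⟨a1, a2⟩ := pos v hv hvz hvd
    constructor <;> nlinarith
  have hab01 := h.w0 a g1 b k1 g3 k3 g4
  have G1 := c.edge_nonneg2 P ih hn h4 h h2 hu huz huA hu1 w1 hmax
  rw [hf.eval (y' := Function.update y s(a, b) 0) (fun u _ v _ _ a2 a3 =>
      Function.update_of_ne (by simp [a2, a3]) _ _), Function.update_self,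
    Function.update_of_ne (by simp [g3.symm, k3.symm]),
    Function.update_of_ne (by simp [g3.symm, k3.symm])] at G1
  have G2 : 0 ≤ ff x (V \ A)
      (set3 y z a b (μ ^ 2 * y s(z, a)) (μ ^ 2 * y s(z, b)) (y s(a, b))) := by
    set y' := set3 y z a b (μ ^ 2 * y s(z, a)) (μ ^ 2 * y s(z, b)) (y s(a, b)) with hy'
    have ra : 0 ≤ y' s(z, a) ∧ y' s(z, a) ≤ μ ^ 2 := by
      rw [hy', set3_ra]; exact rng a g1 g3 hda.symm
    have rb : 0 ≤ y' s(z, b) ∧ y' s(z, b) ≤ μ ^ 2 := by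
      rw [hy', set3_rb _ g4]; exact rng b k1 k3 hdb.symm
    have ro : ∀ q, q ≠ z → q ≠ a → q ≠ b → y' s(z, q) = y s(z, q) := fun q a1 a2 a3 =>
      set3_out' _ a1 a2 a3 _ _ _ _
    refine ih _ _ z u z (by omega) (mk_of P (c.cls_fields2 P.ρ_lt h h2
      (fun p q a1 a2 a3 => set3_out _ a1 a2 a3 _ _ _ _) (set3_ab _ g3.symm k3.symm _ _ _)
      ⟨by linarith [ra.1], by linarith [ra.2]⟩ ⟨by linarith [rb.1], by linarith [rb.2]⟩)
      (mem_sdiff.2 ⟨hu, huA⟩) huz ?_ fun v hv a1 a2 => ?_) (by omega)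
    · by_cases e1 : u = a
      · rw [e1]; linarith [ra.2]
      by_cases e2 : u = b
      · rw [e2]; linarith [rb.2]
      rw [ro u huz e1 e2]; linarith
    · by_cases e1 : v = a
      · rw [e1]; exact Or.inr ⟨by linarith [ra.1], ra.2⟩
      by_cases e2 : v = b
      · rw [e2]; exact Or.inr ⟨by linarith [rb.1], rb.2⟩
      rw [ro v a1 e1 e2]
      rcases w1 v (mem_sdiff.1 hv).1 a1 a2 (fun e => hdU (e ▸ hv)) with k | k
      · exact Or.inl k
      · rw [k]; exact Or.inr ⟨by linarith, le_rfl⟩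
  rw [hf] at G2
  have G3 : ∀ s, -μ ≤ s → s ≤ 1 - μ →
      0 ≤ y s(z, a) * (β₁ + s * y s(z, b) * y s(a, b) * β₄) := by
    intro s a1 a2
    refine mul_nonneg (pos a g1 g3 hda.symm).1 ?_
    rw [← hf.merge₁ hx hzU haU g3.symm k3.symm g4]
    obtain ⟨u', p', hm⟩ := c.mk_merge P h h2 hu huz huA hu1 w1 hmax
      (y' := set3 y z a b 0 (s * y s(z, b)) (y s(a, b)))
      (fun p q a1 a2 a3 => set3_out _ a1 a2 a3 _ _ _ _) (set3_ab _ g3.symm k3.symm _ _ _) a1 a2
      (set3_rb _ g4 _ _ _)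
    exact ih _ _ z u' p' (by rw [card_erase_of_mem haU]; omega) hm
      (by rw [card_erase_of_mem haU]; omega)
  have G4 : ∀ s, -μ ≤ s → s ≤ 1 - μ →
      0 ≤ y s(z, b) * (β₂ + s * y s(z, a) * y s(a, b) * β₄) := by
    intro s a1 a2
    refine mul_nonneg (pos b k1 k3 hdb.symm).1 ?_
    rw [← (hf.swap g3.symm k3.symm g4).merge₁ hx hzU hbU k3.symm g3.symm g4.symm]
    obtain ⟨u', p', hm⟩ := c.swap.mk_merge P h h2 hu huz huA hu1 w1 hmax
      (y' := set3 y z b a 0 (s * y s(z, a)) (y s(a, b)))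
      (fun p q a1 a2 a3 => set3_out _ a1 a2 a3 _ _ _ _)
      (by rw [set3_ab _ k3.symm g3.symm, Sym2.eq_swap]) a1 a2 (set3_rb _ g4.symm _ _ _)
    exact ih _ _ z u' p' (by rw [card_erase_of_mem hbU]; omega) hm
      (by rw [card_erase_of_mem hbU]; omega)
  have hv := vertex3 hx hdU hzU haU hbU g3.symm k3.symm g4 (y := y)
    (fun v hv a1 a2 a3 => c.cl d c.hd v (mem_sdiff.1 hv).1 (mem_sdiff.1 hv).2 (by simp [a1, a2, a3]))
    hf
  have hda01 := h.w0 d (c.hA c.hd) a g1 hdz g3 hda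
  have hdb01 := h.w0 d (c.hA c.hd) b k1 hdz k3 hdb
  obtain ⟨D, W₁, W₂, M, A', hg, hsix⟩ : ∃ D W₁ W₂ M A' : ℝ, Glue x (A.erase d) y d a b D W₁ W₂ M A' ∧
      Six2 μ D (W₁ * y s(d, a)) (W₂ * y s(d, b)) M (A' * (y s(d, a) * y s(d, b))) := by
    rcases (A.erase d).eq_empty_or_nonempty with hK | hK
    · have hA : ∀ p ∈ A, p = d := fun p hp => by
        by_contra hpd
        exact notMem_empty p (hK ▸ mem_erase.2 ⟨hpd, hp⟩)
      have e1 : y s(d, a) = 0 := hda01.resolve_right fun e =>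
        c.narrow h h2 fun p hp q hq a1 a2 => by
          by_cases hqa : q = a
          · rw [hA p hp, hqa, e]
          · simp only [mem_insert, mem_singleton, not_or] at a2
            exact c.cl p hp q hq a1 (by simp [a2.1, a2.2, hqa])
      have e2 : y s(d, b) = 0 := hdb01.resolve_right fun e =>
        c.swap.narrow h h2 fun p hp q hq a1 a2 => by
          by_cases hqb : q = b
          · rw [hA p hp, hqb, e]
          · simp only [mem_insert, mem_singleton, not_or] at a2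
            exact c.cl p hp q hq a1 (by simp [a2.1, a2.2, hqb])
      refine ⟨1, 1, 1, 1, 1, hK ▸ glue_empty y d a b, ?_⟩
      rw [e1, e2, mul_zero, mul_zero, mul_zero]
      exact six_path2 P
    · obtain ⟨D, W₁, W₂, M, A', hg⟩ := exists_glue hx hda hdb g4 (A.erase d) y
      have hsub : A ∪ {a, b} ⊆ V := union_subset c.hA (insert_subset g1 (by simpa using k1))
      have hzn : z ∉ A ∪ {a, b} := by simp [c.hz, g3.symm, k3.symm]
      have fr : ∀ p ∈ A.erase d, y s(z, p) = 1 := fun p hp =>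
        c.free p (mem_of_mem_erase hp) (ne_of_mem_erase hp)
      refine ⟨D, W₁, W₂, M, A', hg, six_net2 P ih (U := A ∪ {a, b}) ⟨fun q => ?_, notMem_erase _ _,
        fun e => g2 (mem_of_mem_erase e), fun e => k2 (mem_of_mem_erase e), hda, hdb, g4, hK,
        fun X e e' hX hne hc => ?_, fun p hp q hq hpq => ?_⟩ hzn ?_ fr hd hda01 hdb01 (fun e => ?_) hg⟩
      · simp only [mem_union, mem_insert, mem_singleton, mem_erase]
        constructor
        · rintro (k | k)
          · by_cases e : q = d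
            · exact Or.inr (Or.inl e)
            · exact Or.inl ⟨e, k⟩
          · exact Or.inr (Or.inr k)
        · rintro (k | k | k)
          · exact Or.inl k.2
          · exact Or.inl (k ▸ c.hd)
          · exact Or.inr k
      · have hXA : X ⊆ A := hX.trans (erase_subset _ _)
        refine h.hC X e e' (hXA.trans c.hA) (fun k => c.hz (hXA k)) hne (fun p hp => fr p (hX hp))
          fun p hp q hq a1 a2 => ?_
        by_cases hq' : q ∈ A ∪ {a, b}
        · exact hc p hp q hq' a1 a2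
        by_cases hqz : q = z
        · rw [hqz, Sym2.eq_swap]; exact fr p (hX hp)
        simp only [mem_union, mem_insert, mem_singleton, not_or] at hq'
        exact c.cl p (hXA hp) q hq hq'.1 (by simp [hqz, hq'.2.1, hq'.2.2])
      · exact h.w0 p (c.hA (mem_of_mem_erase hp)) q (hsub hq)
          (fun e => c.hz (e ▸ mem_of_mem_erase hp)) (fun e => hzn (e ▸ hq)) hpq
      · rw [← card_insert_of_notMem hzn]
        refine lt_of_lt_of_le (card_lt_card (ssubset_iff_of_subset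
          (insert_subset h.hz hsub) |>.2 ⟨w, w₁, by simp [w₂, w₃, w₄, w₅]⟩)) hn
      · by_contra hno
        push Not at hno
        refine hP_of_C2 (p := d) h h2 h4 hu huz {d} e (by simpa using c.hA c.hd)
          (by simpa using hdz.symm) (by simpa using hud) (by simp)
          (fun q hq k => absurd (mem_singleton.1 hq) k) fun p hp q hq a1 a2 => ?_
        simp only [mem_insert, mem_singleton, not_or] at hp a1 a2
        rw [hp]
        by_cases hq' : q ∈ A ∪ {a, b}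
        · exact hno q hq' a1 a2.2
        simp only [mem_union, mem_insert, mem_singleton, not_or] at hq'
        exact c.cl d c.hd q hq hq'.1 (by simp [a2.1, hq'.2.1, hq'.2.2])
  have hV : V = A.erase d ∪ insert d (V \ A) := by
    rw [union_insert, ← insert_union, insert_erase c.hd, union_sdiff_of_subset c.hA]
  rw [hV, hg _ y _ _ _ _ _ _ (mem_insert_self _ _) (mem_insert_of_mem haU) (mem_insert_of_mem hbU)
    _ (fun _ _ _ _ => rfl) hv, hd]
  · have hm : -μ ≤ 1 - μ := by linarith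
    have key := alg_final2 P hsix (r₀ := β₀) (r₁ := y s(z, a) * β₁) (r₂ := y s(z, b) * β₂)
      (r₃ := y s(a, b) * β₃) (r₄ := y s(z, a) * y s(z, b) * y s(a, b) * β₄) (by linarith)
      (by linarith) (by linarith [G3 _ hm le_rfl]) (by linarith [G3 _ le_rfl hm])
      (by linarith [G4 _ hm le_rfl]) (by linarith [G4 _ le_rfl hm])
    linarith
  · rw [disjoint_left]
    intro p hp hp'
    rcases mem_insert.1 hp' with e | e
    · exact ne_of_mem_erase hp e
    · exact (mem_sdiff.1 e).2 (mem_of_mem_erase hp)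
  · intro u hu v hv' a1 a2 a3
    have hv'' := mem_sdiff.1 ((mem_insert.1 hv').resolve_left a1)
    by_cases hvz : v = z
    · rw [hvz, Sym2.eq_swap]; exact c.free u (mem_of_mem_erase hu) (ne_of_mem_erase hu)
    · exact c.cl u (mem_of_mem_erase hu) v hv''.1 hv''.2 (by simp [hvz, a2, a3])

end Pool.Agent.Lib.MP_efe3d7_co
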