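import Mathlib

set_option autoImplicit false

namespace Pool.Agent.Lib.MP_efe3d7_co.Whit

open Finset SimpleGraph

/-- Maps constant on the edges of `T` are the maps on the components of `(V, T)`. -/
theorem card_mono {V : Type} [Fintype V] [DecidableEq V] (T : Finset (Sym2 V)) (q : ℕ) :
    (univ.filter fun c : V → Fin q => ∀ e ∈ T, (e.map c).IsDiag).card =
      q ^ Nat.card (fromEdgeSet (↑T : Set (Sym2 V))).ConnectedComponent := by
  classical
  have h : ∀ c : V → Fin q, (∀ e ∈ T, (e.map c).IsDiag) → ∀ u v : V,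
      (fromEdgeSet (↑T : Set (Sym2 V))).Reachable u v → c u = c v := by
    intro c hc u v ⟨w⟩
    induction w with
    | nil => rfl
    | cons a _ ih =>
      rw [← ih]
      simpa using hc _ ((fromEdgeSet_adj _).1 a).1
  let E : {c : V → Fin q // ∀ e ∈ T, (e.map c).IsDiag} ≃
      ((fromEdgeSet (↑T : Set (Sym2 V))).ConnectedComponent → Fin q) :=
    { toFun := fun c => Quot.lift c.1 (h c.1 c.2)
      invFun := fun f => ⟨fun v => f ((fromEdgeSet (↑T : Set (Sym2 V))).connectedComponentMk v), by
        intro e he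
        induction e using Sym2.ind with
        | _ a b =>
          by_cases k : a = b
          · simp [k]
          · have : (fromEdgeSet (↑T : Set (Sym2 V))).Adj a b := (fromEdgeSet_adj _).2 ⟨he, k⟩
            simp [ConnectedComponent.sound this.reachable]⟩
      left_inv := fun c => rfl
      right_inv := fun f => by
        funext x
        induction x using ConnectedComponent.ind with
        | _ v => rfl }
  rw [← Fintype.card_subtype, ← Nat.card_eq_fintype_card, Nat.card_congr E, Nat.card_fun]
  simp

theorem card_col {V : Type} [Fintype V] [DecidableEq V] (G : SimpleGraph V) [DecidableRel G.Adj]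
    (q : ℕ) : Nat.card (G.Coloring (Fin q)) =
      (univ.filter fun c : V → Fin q => ∀ u v, G.Adj u v → c u ≠ c v).card := by
  let E : G.Coloring (Fin q) ≃ {c : V → Fin q // ∀ u v, G.Adj u v → c u ≠ c v} :=
    { toFun := fun c => ⟨c, fun _ _ h => c.valid h⟩
      invFun := fun c => Coloring.mk c.1 fun h => c.2 _ _ h
      left_inv := fun _ => rfl
      right_inv := fun _ => rfl }
  rw [Nat.card_congr E, Nat.card_eq_fintype_card, Fintype.card_subtype]

/-- Whitney's expansion of the number of proper colourings. -/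
theorem whitney {V : Type} [Fintype V] [DecidableEq V] (G : SimpleGraph V) [DecidableRel G.Adj]
    (q : ℕ) : (Nat.card (G.Coloring (Fin q)) : ℝ) = ∑ T ∈ G.edgeFinset.powerset,
      (-1 : ℝ) ^ T.card *
        (q : ℝ) ^ Nat.card (fromEdgeSet (↑T : Set (Sym2 V))).ConnectedComponent := by
  classical
  have a : ∀ c : V → Fin q, (if ∀ u v, G.Adj u v → c u ≠ c v then (1 : ℝ) else 0) =
      ∑ T ∈ G.edgeFinset.powerset, (-1 : ℝ) ^ T.card *
        if ∀ e ∈ T, (e.map c).IsDiag then (1 : ℝ) else 0 := by
    intro c
    have b : ∀ T ∈ G.edgeFinset.powerset, (-1 : ℝ) ^ T.card *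
        (if ∀ e ∈ T, (e.map c).IsDiag then (1 : ℝ) else 0) =
        ∏ e ∈ T, -(if (e.map c).IsDiag then (1 : ℝ) else 0) := by
      intro T _
      rw [prod_neg, prod_boole]
      congr
    rw [sum_congr rfl b, ← prod_one_add]
    split_ifs with k
    · refine (prod_eq_one fun e he => ?_).symm
      induction e using Sym2.ind with
      | _ u v => simp [k u v (by simpa using he)]
    · push Not at k
      obtain ⟨u, v, h, k⟩ := k
      exact (prod_eq_zero (i := s(u, v)) (by simpa using h) (by simp [k])).symm
  rw [card_col, card_filter, Nat.cast_sum]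
  simp only [Nat.cast_ite, Nat.cast_one, Nat.cast_zero, a]
  rw [sum_comm]
  refine sum_congr rfl fun T _ => ?_
  rw [← mul_sum, ← Nat.cast_pow, ← card_mono, card_filter]
  simp

/-- The number of proper colourings of `K_{3,4}`. -/
theorem k34 (q : ℕ) :
    (Nat.card ((completeBipartiteGraph (Fin 3) (Fin 4)).Coloring (Fin q)) : ℝ) =
      q * (q - 1) ^ 4 + 3 * q * (q - 1) * (q - 2) ^ 4 + q * (q - 1) * (q - 2) * (q - 3) ^ 4 := by
  classical
  let E : (completeBipartiteGraph (Fin 3) (Fin 4)).Coloring (Fin q) ≃
      Σ a : Fin q × Fin q × Fin q, Fin 4 → ↥(({a.1, a.2.1, a.2.2} : Finset (Fin q))ᶜ) :=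
    { toFun := fun c => ⟨(c (.inl 0), c (.inl 1), c (.inl 2)), fun j => ⟨c (.inr j), by
        simp only [mem_compl, mem_insert, mem_singleton, not_or]
        exact ⟨c.valid (by simp), c.valid (by simp), c.valid (by simp)⟩⟩⟩
      invFun := fun p => Coloring.mk (Sum.elim ![p.1.1, p.1.2.1, p.1.2.2] fun j => (p.2 j).1) (by
        have k : ∀ (i : Fin 3) (j : Fin 4), ![p.1.1, p.1.2.1, p.1.2.2] i ≠ (p.2 j).1 := by
          intro i j e
          have := (p.2 j).2
          simp only [mem_compl, mem_insert, mem_singleton, not_or] at this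
          fin_cases i
          exacts [this.1 e.symm, this.2.1 e.symm, this.2.2 e.symm]
        rintro (u | u) (v | v) h
        · simp at h
        · exact k u v
        · exact (k v u).symm
        · simp at h)
      left_inv := fun c => by
        ext v
        rcases v with v | v
        · fin_cases v <;> rfl
        · rfl
      right_inv := fun p => rfl }
  have s : ∀ (A : Finset (Fin q)) (u w : ℝ) (f : Fin q → ℝ), (∀ a ∈ A, f a = u) →
      (∀ a, a ∉ A → f a = w) → ∑ a, f a = A.card * u + (q - A.card) * w := by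
    intro A u w f h1 h2
    rw [← sum_add_sum_compl A, sum_congr rfl h1, sum_congr rfl fun a h => h2 a (mem_compl.1 h)]
    simp [card_compl, Nat.cast_sub (show A.card ≤ q by simpa using card_le_univ A)]
  rw [Nat.card_congr E, Nat.card_eq_fintype_card, Fintype.card_sigma, Nat.cast_sum]
  have t : ∀ A : Finset (Fin q), ((Fintype.card (Fin 4 → ↥(Aᶜ)) : ℕ) : ℝ) = (q - A.card) ^ 4 := by
    intro A
    simp [Nat.cast_sub (show A.card ≤ q by simpa using card_le_univ A)]
  simp only [t, Fintype.sum_prod_type]
  have i : ∀ a : Fin q, ∑ b : Fin q, ∑ c : Fin q, ((q : ℝ) - ({a, b, c} : Finset (Fin q)).card) ^ 4 =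
      (q - 1) ^ 4 + 3 * (q - 1) * (q - 2) ^ 4 + (q - 1) * (q - 2) * (q - 3) ^ 4 := by
    intro a
    rw [s {a} ((q - 1) ^ 4 + (q - 1) * (q - 2) ^ 4) (2 * (q - 2) ^ 4 + (q - 2) * (q - 3) ^ 4)]
    · simp only [card_singleton, Nat.cast_one]; ring
    · intro b hb
      rw [mem_singleton.1 hb, s {a} ((q - 1) ^ 4) ((q - 2) ^ 4)]
      · simp
      · intro c hc
        simp [mem_singleton.1 hc]
      · intro c hc
        rw [mem_singleton] at hc
        simp [card_pair (Ne.symm hc)]
    · intro b hb
      rw [mem_singleton] at hb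
      rw [s {a, b} ((q - 2) ^ 4) ((q - 3) ^ 4)]
      · simp [card_pair (Ne.symm hb)]
      · intro c hc
        rcases mem_insert.1 hc with k | k
        · rw [k, pair_comm b a, insert_idem, card_pair (Ne.symm hb)]; simp
        · rw [mem_singleton.1 k]; simp [card_pair (Ne.symm hb)]
      · intro c hc
        simp only [mem_insert, mem_singleton, not_or] at hc
        rw [card_eq_three.2 ⟨a, b, c, Ne.symm hb, Ne.symm hc.1, Ne.symm hc.2, rfl⟩]; simp
  simp only [i, sum_const, card_univ, Fintype.card_fin, nsmul_eq_mul]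
  ring

/-- Two real polynomials that agree at all positive integers agree everywhere. -/
theorem ext_pos (P Q : Polynomial ℝ) (h : ∀ q : ℕ, 0 < q → P.eval (q : ℝ) = Q.eval (q : ℝ)) :
    P = Q := by
  refine Polynomial.eq_of_infinite_eval_eq P Q
    (Set.infinite_of_injective_forall_mem (f := fun q : ℕ => ((q + 1 : ℕ) : ℝ)) ?_ ?_)
  · intro a b e
    simpa using e
  · exact fun q => h _ q.succ_pos

end Pool.Agent.Lib.MP_efe3d7_co.Whit
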