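import Pool.Agent.Lib.MP_efe3d7_co.Whit

set_option autoImplicit false

namespace Pool.Agent.Lib.MP_efe3d7_co.Whit

open Polynomial

/-- The chromatic polynomial exists (the hypotheses of `Results.MP_efe3d7_co.Jackson` can be met). -/
theorem exists_poly {V : Type} [Fintype V] (G : SimpleGraph V) : ∃ P : Polynomial ℝ,
    ∀ q : ℕ, 0 < q → P.eval (q : ℝ) = (Nat.card (G.Coloring (Fin q)) : ℝ) := by
  classical
  refine ⟨∑ T ∈ G.edgeFinset.powerset, C ((-1 : ℝ) ^ T.card) *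
    X ^ Nat.card (SimpleGraph.fromEdgeSet (↑T : Set (Sym2 V))).ConnectedComponent, fun q _ => ?_⟩
  rw [whitney, eval_finsetSum]
  simp only [eval_mul, eval_C, eval_pow, eval_X]

/-- The chromatic polynomial of `K_{3,4}` has a zero beginning `1.781`. -/
theorem exists_root (K : Polynomial ℝ) (hK : ∀ q : ℕ, 0 < q → K.eval (q : ℝ) =
    (Nat.card ((completeBipartiteGraph (Fin 3) (Fin 4)).Coloring (Fin q)) : ℝ)) :
    ∃ t : ℝ, K.eval t = 0 ∧ 1781 / 1000 ≤ t ∧ t < 1782 / 1000 := by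
  have eK := ext_pos K (X * (X - 1) ^ 4 + 3 * X * (X - 1) * (X - 2) ^ 4
      + X * (X - 1) * (X - 2) * (X - 3) ^ 4) fun q h => by
    rw [hK q h, k34]
    simp
  obtain ⟨t, ht, e⟩ := intermediate_value_Ico (a := (1781 / 1000 : ℝ)) (b := 1782 / 1000)
    (by norm_num) K.continuous.continuousOn (show (0 : ℝ) ∈ Set.Ico _ _ by
      rw [eK]
      constructor <;> norm_num)
  exact ⟨t, e, ht.1, ht.2⟩

end Pool.Agent.Lib.MP_efe3d7_co.Whit
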