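import Mathlib

/-! The Potts partition function of a weighted graph: colourings, Whitney expansion. -/

set_option autoImplicit false

open Finset Polynomial

namespace Pool.Agent.Lib.MP_efe3d7_co

variable {α : Type} [Fintype α] [DecidableEq α]

/-- Pairs of distinct vertices of `V`. -/
def pairs (V : Finset α) : Finset (Sym2 α) := V.sym2.filter fun e => ¬ e.IsDiag

omit [Fintype α] in
theorem mk_mem_pairs {V : Finset α} {a b : α} : s(a, b) ∈ pairs V ↔ a ∈ V ∧ b ∈ V ∧ a ≠ b := by
  simp [pairs, and_assoc]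

/-- Weight of a pair under a colouring. -/
noncomputable def om {β : Type} [DecidableEq β] (y : Sym2 α → ℝ) (c : α → β) (e : Sym2 α) : ℝ :=
  if (e.map c).IsDiag then y e else 1

omit [Fintype α] [DecidableEq α] in
theorem om_mk {β : Type} [DecidableEq β] (y : Sym2 α → ℝ) (c : α → β) (a b : α) :
    om y c s(a, b) = if c a = c b then y s(a, b) else 1 := by
  simp [om]

/-- Weight of a colouring. -/
noncomputable def W {β : Type} [DecidableEq β] (V : Finset α) (y : Sym2 α → ℝ) (c : α → β) : ℝ :=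
  ∏ e ∈ pairs V, om y c e

/-- Number of components of the spanning subgraph with edge set `T`. -/
noncomputable def comps (T : Finset (Sym2 α)) : ℕ :=
  Nat.card (SimpleGraph.fromEdgeSet (↑T : Set (Sym2 α))).ConnectedComponent

/-- The Whitney expansion. -/
noncomputable def Zp (V : Finset α) (y : Sym2 α → ℝ) : ℝ[X] :=
  ∑ T ∈ (pairs V).powerset, C (∏ e ∈ T, (y e - 1)) * X ^ comps T

omit [DecidableEq α] in
theorem card_mono (T : Finset (Sym2 α)) (n : ℕ) :
    Nat.card {c : α → Fin n // ∀ e ∈ T, (e.map c).IsDiag} = n ^ comps T := by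
  classical
  set G := SimpleGraph.fromEdgeSet (↑T : Set (Sym2 α)) with hG
  have key : ∀ c : α → Fin n, (∀ e ∈ T, (e.map c).IsDiag) →
      ∀ (v w : α) (p : G.Walk v w), c v = c w := by
    intro c hc v w p
    induction p with
    | nil => rfl
    | cons h p ih =>
      rw [← ih]
      have h1 := (SimpleGraph.fromEdgeSet_adj _).1 h
      simpa using hc _ h1.1
  let eqv : {c : α → Fin n // ∀ e ∈ T, (e.map c).IsDiag} ≃ (G.ConnectedComponent → Fin n) :=
    { toFun := fun c => SimpleGraph.ConnectedComponent.lift c.1 fun v w p _ => key c.1 c.2 v w p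
      invFun := fun g => ⟨fun v => g (G.connectedComponentMk v), by
        intro e he
        induction e using Sym2.ind with
        | h a b =>
          by_cases hab : a = b
          · subst hab; simp
          · have : G.Adj a b := (SimpleGraph.fromEdgeSet_adj _).2 ⟨he, hab⟩
            simp [SimpleGraph.ConnectedComponent.connectedComponentMk_eq_of_adj this]⟩
      left_inv := fun c => by ext v; rfl
      right_inv := fun g => by
        funext k
        induction k using SimpleGraph.ConnectedComponent.ind with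
        | h v => rfl }
  rw [Nat.card_congr eqv, Nat.card_fun, Nat.card_eq_fintype_card (α := Fin n), Fintype.card_fin]
  rfl

theorem eval_Zp (V : Finset α) (y : Sym2 α → ℝ) (n : ℕ) :
    (Zp V y).eval (n : ℝ) = ∑ c : α → Fin n, W V y c := by
  classical
  have h1 : ∀ c : α → Fin n, W V y c = ∑ T ∈ (pairs V).powerset,
      if ∀ e ∈ T, (e.map c).IsDiag then ∏ e ∈ T, (y e - 1) else 0 := by
    intro c
    have : W V y c = ∏ e ∈ pairs V, (1 + if (e.map c).IsDiag then y e - 1 else 0) := by
      refine prod_congr rfl fun e _ => ?_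
      unfold om
      split_ifs <;> ring
    rw [this, prod_one_add]
    refine sum_congr rfl fun T _ => ?_
    rw [prod_ite_zero]
    split_ifs <;> rfl
  simp only [h1]
  rw [sum_comm, Zp, eval_finsetSum]
  refine sum_congr rfl fun T _ => ?_
  rw [← sum_filter, sum_const, nsmul_eq_mul, eval_mul, eval_C, eval_pow, eval_X, mul_comm]
  congr 1
  have := card_mono T n
  rw [Nat.card_eq_fintype_card, Fintype.card_subtype] at this
  exact_mod_cast this.symm

theorem poly_ext {p q : ℝ[X]} (h : ∀ n : ℕ, p.eval (n : ℝ) = q.eval (n : ℝ)) : p = q := by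
  refine Polynomial.eq_of_infinite_eval_eq p q ?_
  exact Set.infinite_of_injective_forall_mem (f := fun n : ℕ => (n : ℝ)) Nat.cast_injective h

omit [Fintype α] in
theorem W_congr {β γ : Type} [DecidableEq β] [DecidableEq γ] {V : Finset α} {y y' : Sym2 α → ℝ}
    {c : α → β} {c' : α → γ} (hy : ∀ a ∈ V, ∀ b ∈ V, a ≠ b → y s(a, b) = y' s(a, b))
    (hc : ∀ a ∈ V, ∀ b ∈ V, c a = c b ↔ c' a = c' b) : W V y c = W V y' c' := by
  refine prod_congr rfl fun e he => ?_
  induction e using Sym2.ind with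
  | h a b =>
    obtain ⟨ha, hb, hab⟩ := mk_mem_pairs.1 he
    rw [om_mk, om_mk, hy a ha b hb hab]
    simp only [hc a ha b hb]

omit [Fintype α] in
theorem W_insert {β : Type} [DecidableEq β] {V : Finset α} {v : α} (hv : v ∉ V) (y : Sym2 α → ℝ)
    (c : α → β) :
    W (insert v V) y c = (∏ z ∈ V, if c v = c z then y s(v, z) else 1) * W V y c := by
  have h1 : pairs (insert v V) = V.image (fun z => s(v, z)) ∪ pairs V := by
    ext e
    induction e using Sym2.ind with
    | h a b =>
      simp only [mk_mem_pairs, mem_insert, mem_union, mem_image, Sym2.eq_iff]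
      constructor
      · rintro ⟨rfl | ha, rfl | hb, hab⟩
        · exact absurd rfl hab
        · exact Or.inl ⟨b, hb, Or.inl ⟨rfl, rfl⟩⟩
        · exact Or.inl ⟨a, ha, Or.inr ⟨rfl, rfl⟩⟩
        · exact Or.inr ⟨ha, hb, hab⟩
      · rintro (⟨z, hz, ⟨rfl, rfl⟩ | ⟨rfl, rfl⟩⟩ | ⟨ha, hb, hab⟩)
        · exact ⟨Or.inl rfl, Or.inr hz, fun h => hv (h ▸ hz)⟩
        · exact ⟨Or.inr hz, Or.inl rfl, fun h => hv (h ▸ hz)⟩
        · exact ⟨Or.inr ha, Or.inr hb, hab⟩
  have h2 : Disjoint (V.image (fun z => s(v, z))) (pairs V) := by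
    rw [disjoint_left]
    intro e he he'
    obtain ⟨z, _, rfl⟩ := mem_image.1 he
    exact hv (mk_mem_pairs.1 he').1
  rw [W, h1, prod_union h2, prod_image]
  · simp only [om_mk]; rfl
  · intro z _ w _ h
    exact (Sym2.congr_right.1 h)

omit [Fintype α] in
theorem W_update {β : Type} [DecidableEq β] {V : Finset α} {a b : α} (ha : a ∈ V) (hb : b ∈ V)
    (hab : a ≠ b) (y : Sym2 α → ℝ) (c : α → β) (t : ℝ) :
    W V (Function.update y s(a, b) t) c =
      (if c a = c b then t else 1) * W V (Function.update y s(a, b) 1) c := by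
  have hm : s(a, b) ∈ pairs V := mk_mem_pairs.2 ⟨ha, hb, hab⟩
  have key : ∀ t : ℝ, W V (Function.update y s(a, b) t) c =
      (if c a = c b then t else 1) * ∏ e ∈ (pairs V).erase s(a, b), om y c e := by
    intro t
    rw [W, ← mul_prod_erase _ _ hm, om_mk, Function.update_self]
    congr 1
    refine prod_congr rfl fun e he => ?_
    unfold om
    rw [Function.update_of_ne (ne_of_mem_erase he)]
  rw [key t, key 1]
  simp

/-- Weights after merging `v` into `u`. -/
noncomputable def mergeW (y : Sym2 α → ℝ) (u v : α) (e : Sym2 α) : ℝ :=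
  y e * if h : u ∈ e then y s(v, Sym2.Mem.other h) else 1

omit [Fintype α] in
theorem mergeW_self (y : Sym2 α → ℝ) (u v z : α) :
    mergeW y u v s(u, z) = y s(u, z) * y s(v, z) := by
  have h : u ∈ s(u, z) := Sym2.mem_mk_left u z
  have h2 : Sym2.Mem.other h = z := Sym2.congr_right.1 (Sym2.other_spec h)
  rw [mergeW, dif_pos h, h2]

omit [Fintype α] in
theorem mergeW_of_ne (y : Sym2 α → ℝ) {u : α} (v : α) {a b : α} (ha : a ≠ u) (hb : b ≠ u) :
    mergeW y u v s(a, b) = y s(a, b) := by
  have h : u ∉ s(a, b) := by simp [ha.symm, hb.symm]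
  rw [mergeW, dif_neg h, mul_one]

omit [Fintype α] in
theorem W_merge {β : Type} [DecidableEq β] {V : Finset α} {u v : α} (hu : u ∈ V) (hv : v ∈ V)
    (huv : u ≠ v) (y : Sym2 α → ℝ) {c : α → β} (hc : c u = c v) :
    W V (Function.update y s(u, v) 1) c = W (V.erase v) (mergeW y u v) c := by
  set U := (V.erase v).erase u with hU
  have huU : u ∉ U := notMem_erase _ _
  have hvU : v ∉ U := fun h => notMem_erase v V (mem_of_mem_erase h)
  have h1 : V.erase v = insert u U := (insert_erase (mem_erase.2 ⟨huv, hu⟩)).symm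
  have h2 : V = insert v (insert u U) := by rw [← h1, insert_erase hv]
  have hv' : v ∉ insert u U := by rw [← h1]; exact notMem_erase v V
  have hne : ∀ z ∈ U, z ≠ u ∧ z ≠ v := fun z hz => ⟨fun h => huU (h ▸ hz), fun h => hvU (h ▸ hz)⟩
  rw [h1]
  conv_lhs => rw [h2]
  rw [W_insert hv', W_insert huU, W_insert huU, prod_insert huU, if_pos hc.symm,
    Sym2.eq_swap (a := v), Function.update_self, one_mul, ← mul_assoc, ← prod_mul_distrib]
  congr 1
  · refine prod_congr rfl fun z hz => ?_
    obtain ⟨h3, h4⟩ := hne z hz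
    rw [mergeW_self, Function.update_of_ne, Function.update_of_ne, hc]
    · split_ifs <;> ring
    · simp [h4]; tauto
    · simp [h3, huv.symm]
  · refine W_congr (fun a ha b hb _ => ?_) fun _ _ _ _ => Iff.rfl
    rw [mergeW_of_ne y v (hne a ha).1 (hne b hb).1, Function.update_of_ne]
    simp [(hne a ha).1, (hne a ha).2]

theorem sum_eq_of_indep {n : ℕ} {u v : α} (huv : u ≠ v) (Φ : (α → Fin n) → ℝ)
    (h : ∀ c i, Φ (Function.update c v i) = Φ c) :
    (n : ℝ) * ∑ c : α → Fin n, (if c u = c v then Φ c else 0) = ∑ c : α → Fin n, Φ c := by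
  have h1 : ∑ p : (α → Fin n) × Fin n, (if p.1 u = p.1 v then Φ p.1 else 0) =
      ∑ p : (α → Fin n) × Fin n, (if p.1 u = p.2 then Φ p.1 else 0) := by
    refine sum_nbij' (fun p => (Function.update p.1 v p.2, p.1 v))
      (fun p => (Function.update p.1 v p.2, p.1 v)) (by simp) (by simp) (by simp) (by simp) ?_
    intro p _
    simp only [Function.update_of_ne huv, h]
  rw [Fintype.sum_prod_type, Fintype.sum_prod_type] at h1
  simp only [sum_const, card_univ, Fintype.card_fin, nsmul_eq_mul, sum_ite_eq, mem_univ,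
    if_true] at h1
  rw [← h1, mul_sum]

theorem Zp_merge {V : Finset α} {u v : α} (hu : u ∈ V) (hv : v ∈ V) (huv : u ≠ v)
    (y : Sym2 α → ℝ) :
    X * (Zp V (Function.update y s(u, v) 1) - Zp V (Function.update y s(u, v) 0)) =
      Zp (V.erase v) (mergeW y u v) := by
  refine poly_ext fun n => ?_
  rw [eval_mul, eval_X, eval_sub, eval_Zp, eval_Zp, eval_Zp, ← sum_sub_distrib,
    ← sum_eq_of_indep huv (fun c => W (V.erase v) (mergeW y u v) c)]
  · congr 1
    refine sum_congr rfl fun c _ => ?_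
    rw [W_update hu hv huv y c 0]
    split_ifs with h
    · rw [W_merge hu hv huv y h]; ring
    · ring
  · intro c i
    refine W_congr (fun _ _ _ _ _ => rfl) fun a ha b hb => ?_
    rw [Function.update_of_ne (ne_of_mem_erase ha), Function.update_of_ne (ne_of_mem_erase hb)]

theorem Zp_congr {V : Finset α} {y y' : Sym2 α → ℝ}
    (hy : ∀ a ∈ V, ∀ b ∈ V, a ≠ b → y s(a, b) = y' s(a, b)) : Zp V y = Zp V y' := by
  refine poly_ext fun n => ?_
  rw [eval_Zp, eval_Zp]
  exact sum_congr rfl fun c _ => W_congr hy fun _ _ _ _ => Iff.rfl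

theorem Zp_aff (V : Finset α) (y : Sym2 α → ℝ) (e : Sym2 α) (t : ℝ) :
    Zp V (Function.update y e t) = Zp V (Function.update y e 0) +
      C t * (Zp V (Function.update y e 1) - Zp V (Function.update y e 0)) := by
  by_cases he : e ∈ pairs V
  · induction e using Sym2.ind with
    | h a b =>
      obtain ⟨ha, hb, hab⟩ := mk_mem_pairs.1 he
      refine poly_ext fun n => ?_
      rw [eval_add, eval_mul, eval_C, eval_sub, eval_Zp, eval_Zp, eval_Zp, ← sum_sub_distrib,
        mul_sum, ← sum_add_distrib]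
      refine sum_congr rfl fun c _ => ?_
      rw [W_update ha hb hab y c t, W_update ha hb hab y c 0]
      split_ifs <;> ring
  · have h : ∀ t : ℝ, Zp V (Function.update y e t) = Zp V y := fun t =>
      Zp_congr fun a ha b hb hab => Function.update_of_ne
        (fun h : s(a, b) = e => he (h ▸ mk_mem_pairs.2 ⟨ha, hb, hab⟩)) _ _
    rw [h, h, h]
    simp

theorem Zp_ones {V : Finset α} {y : Sym2 α → ℝ}
    (hy : ∀ a ∈ V, ∀ b ∈ V, a ≠ b → y s(a, b) = 1) : Zp V y = X ^ Fintype.card α := by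
  refine poly_ext fun n => ?_
  rw [eval_Zp, eval_pow, eval_X]
  have : ∀ c : α → Fin n, W V y c = 1 := by
    intro c
    refine prod_eq_one fun e he => ?_
    induction e using Sym2.ind with
    | h a b =>
      obtain ⟨ha, hb, hab⟩ := mk_mem_pairs.1 he
      rw [om_mk, hy a ha b hb hab, ite_self]
  simp [this]

theorem exists_perm {n : ℕ} (i j i' j' : Fin n) :
    ∃ π : Equiv.Perm (Fin n), (i = j ↔ i' = j') → π i = i' ∧ π j = j' := by
  by_cases h : i = j ↔ i' = j'
  · by_cases hij : i = j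
    · refine ⟨Equiv.swap i i', fun _ => ?_⟩
      rw [← hij, ← h.1 hij]
      simp
    · have hij' : i' ≠ j' := fun e => hij (h.2 e)
      refine ⟨Equiv.swap (Equiv.swap i i' j) j' * Equiv.swap i i', fun _ => ⟨?_, ?_⟩⟩
      · rw [Equiv.Perm.mul_apply, Equiv.swap_apply_left, Equiv.swap_apply_of_ne_of_ne _ hij']
        intro e
        have := (Equiv.swap i i').injective (a₁ := i) (a₂ := j) (by rw [← e]; simp)
        exact hij this
      · rw [Equiv.Perm.mul_apply, Equiv.swap_apply_left]
  · exact ⟨1, fun h' => absurd h' h⟩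

theorem sum_mul_sum_indep {n : ℕ} {A : Finset α} {a b : α} (ha : a ∉ A) (hb : b ∉ A)
    (R : Prop) [Decidable R] (Φ₁ Φ₂ : (α → Fin n) → ℝ)
    (h₁ : ∀ c c' : α → Fin n, (∀ z ∈ insert a (insert b A), ∀ w ∈ insert a (insert b A),
      c z = c w ↔ c' z = c' w) → Φ₁ c = Φ₁ c')
    (h₂ : ∀ c c' : α → Fin n, (∀ z, z ∉ A → c z = c' z) → Φ₂ c = Φ₂ c') :
    (∑ c ∈ univ.filter fun c : α → Fin n => (c a = c b ↔ R), Φ₁ c) *
      (∑ c ∈ univ.filter fun c : α → Fin n => (c a = c b ↔ R), Φ₂ c) =
    (∑ _c ∈ univ.filter fun c : α → Fin n => (c a = c b ↔ R), (1 : ℝ)) *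
      ∑ c ∈ univ.filter fun c : α → Fin n => (c a = c b ↔ R), Φ₁ c * Φ₂ c := by
  choose π hπ using exists_perm (n := n)
  set Ω := univ.filter fun c : α → Fin n => (c a = c b ↔ R) with hΩ
  rw [sum_mul_sum, sum_mul_sum, ← sum_product', ← sum_product']
  refine sum_nbij'
    (fun p => (A.piecewise (fun z => (π (p.1 a) (p.1 b) (p.2 a) (p.2 b)).symm (p.2 z)) p.1,
      A.piecewise (fun z => π (p.1 a) (p.1 b) (p.2 a) (p.2 b) (p.1 z)) p.2))
    (fun p => (A.piecewise (fun z => (π (p.1 a) (p.1 b) (p.2 a) (p.2 b)).symm (p.2 z)) p.1,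
      A.piecewise (fun z => π (p.1 a) (p.1 b) (p.2 a) (p.2 b) (p.1 z)) p.2)) ?_ ?_ ?_ ?_ ?_
  · intro p hp
    simpa [hΩ, piecewise_eq_of_notMem _ _ _ ha, piecewise_eq_of_notMem _ _ _ hb] using hp
  · intro p hp
    simpa [hΩ, piecewise_eq_of_notMem _ _ _ ha, piecewise_eq_of_notMem _ _ _ hb] using hp
  · intro p _
    simp only [piecewise_eq_of_notMem _ _ _ ha, piecewise_eq_of_notMem _ _ _ hb]
    refine Prod.ext (funext fun z => ?_) (funext fun z => ?_) <;>
    by_cases hz : z ∈ A <;> simp [hz]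
  · intro p _
    simp only [piecewise_eq_of_notMem _ _ _ ha, piecewise_eq_of_notMem _ _ _ hb]
    refine Prod.ext (funext fun z => ?_) (funext fun z => ?_) <;>
    by_cases hz : z ∈ A <;> simp [hz]
  · intro p hp
    have hp' : (p.1 a = p.1 b ↔ R) ∧ (p.2 a = p.2 b ↔ R) := by simpa [hΩ] using hp
    obtain ⟨e1, e2⟩ := hπ (p.1 a) (p.1 b) (p.2 a) (p.2 b) (hp'.1.trans hp'.2.symm)
    rw [one_mul]
    have key : ∀ z ∈ insert a (insert b A),
        A.piecewise (fun z => π (p.1 a) (p.1 b) (p.2 a) (p.2 b) (p.1 z)) p.2 z =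
          π (p.1 a) (p.1 b) (p.2 a) (p.2 b) (p.1 z) := by
      intro z hz
      rcases mem_insert.1 hz with rfl | hz
      · rw [piecewise_eq_of_notMem _ _ _ ha, e1]
      rcases mem_insert.1 hz with rfl | hz
      · rw [piecewise_eq_of_notMem _ _ _ hb, e2]
      · rw [piecewise_eq_of_mem _ _ _ hz]
    congr 1
    · refine h₁ _ _ fun z hz w hw => ?_
      dsimp only
      rw [key z hz, key w hw, Equiv.apply_eq_iff_eq]
    · refine h₂ _ _ fun z hz => ?_
      dsimp only
      rw [piecewise_eq_of_notMem _ _ _ hz]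

omit [Fintype α] in
theorem W_split {β : Type} [DecidableEq β] {V A : Finset α} {a b : α} (hA : A ⊆ V) (ha : a ∈ V)
    (hb : b ∈ V) (haA : a ∉ A) (hbA : b ∉ A) {y : Sym2 α → ℝ} (hab1 : y s(a, b) = 1)
    (hy : ∀ u ∈ A, ∀ v ∈ V, v ∉ A → v ≠ a → v ≠ b → y s(u, v) = 1) (c : α → β) :
    W V y c = W (insert a (insert b A)) y c * W (V \ A) y c := by
  have h1 : ∏ e ∈ pairs (insert a (insert b A)) ∩ pairs (V \ A), om y c e = 1 := by
    refine prod_eq_one fun e he => ?_
    induction e using Sym2.ind with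
    | h u v =>
      simp only [mem_inter, mk_mem_pairs, mem_insert, mem_sdiff] at he
      obtain ⟨⟨h1, h2, h3⟩, ⟨_, h4⟩, ⟨_, h5⟩, _⟩ := he
      have : s(u, v) = s(a, b) := by
        rcases h1 with rfl | rfl | h1
        · rcases h2 with rfl | rfl | h2
          · exact absurd rfl h3
          · rfl
          · exact absurd h2 h5
        · rcases h2 with rfl | rfl | h2
          · exact Sym2.eq_swap
          · exact absurd rfl h3
          · exact absurd h2 h5
        · exact absurd h1 h4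
      rw [om_mk, this, hab1, ite_self]
  rw [W, W, W, ← prod_union_inter, h1, mul_one]
  symm
  refine prod_subset ?_ ?_
  · intro e he
    induction e using Sym2.ind with
    | h u v =>
      have hs : ∀ z ∈ insert a (insert b A), z ∈ V := by
        intro z hz
        rcases mem_insert.1 hz with rfl | hz
        · exact ha
        rcases mem_insert.1 hz with rfl | hz
        · exact hb
        · exact hA hz
      rcases mem_union.1 he with h | h
      · obtain ⟨h1, h2, h3⟩ := mk_mem_pairs.1 h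
        exact mk_mem_pairs.2 ⟨hs u h1, hs v h2, h3⟩
      · obtain ⟨h1, h2, h3⟩ := mk_mem_pairs.1 h
        exact mk_mem_pairs.2 ⟨(mem_sdiff.1 h1).1, (mem_sdiff.1 h2).1, h3⟩
  · intro e he he'
    induction e using Sym2.ind with
    | h u v =>
      obtain ⟨h1, h2, h3⟩ := mk_mem_pairs.1 he
      simp only [mem_union, mk_mem_pairs, mem_insert, mem_sdiff, not_or] at he'
      have : y s(u, v) = 1 := by
        by_cases hu : u ∈ A
        · have h4 : ¬ (v = a ∨ v = b ∨ v ∈ A) := fun h => he'.1 ⟨Or.inr (Or.inr hu), h, h3⟩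
          push Not at h4
          exact hy u hu v h2 h4.2.2 h4.1 h4.2.1
        · have hv : v ∈ A := by
            by_contra hv
            exact he'.2 ⟨⟨h1, hu⟩, ⟨h2, hv⟩, h3⟩
          have h4 : ¬ (u = a ∨ u = b ∨ u ∈ A) := fun h => he'.1 ⟨h, Or.inr (Or.inr hv), h3⟩
          push Not at h4
          rw [Sym2.eq_swap]
          exact hy v hv u h1 hu h4.1 h4.2.1
      rw [om_mk, this, ite_self]

theorem Zp_cut {V A : Finset α} {a b : α} (hA : A ⊆ V) (ha : a ∈ V) (hb : b ∈ V) (hab : a ≠ b)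
    (haA : a ∉ A) (hbA : b ∉ A) {y : Sym2 α → ℝ}
    (hy : ∀ u ∈ A, ∀ v ∈ V, v ∉ A → v ≠ a → v ≠ b → y s(u, v) = 1) :
    X ^ Fintype.card α * (X * (X - 1)) * Zp V y = X ^ 2 *
      (Zp (insert a (insert b A)) (Function.update y s(a, b) 0) *
        Zp (V \ A) (Function.update y s(a, b) 0) + (X - 1) * C (y s(a, b)) *
      ((Zp (insert a (insert b A)) (Function.update y s(a, b) 1) -
          Zp (insert a (insert b A)) (Function.update y s(a, b) 0)) *
        (Zp (V \ A) (Function.update y s(a, b) 1) - Zp (V \ A) (Function.update y s(a, b) 0)))) := by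
  refine poly_ext fun n => ?_
  simp only [eval_mul, eval_add, eval_sub, eval_pow, eval_X, eval_one, eval_C, eval_Zp]
  set y₁ := Function.update y s(a, b) 1 with hy₁
  set Φ₁ : (α → Fin n) → ℝ := fun c => W (insert a (insert b A)) y₁ c with hΦ₁
  set Φ₂ : (α → Fin n) → ℝ := fun c => W (V \ A) y₁ c with hΦ₂
  have ha1 : a ∈ insert a (insert b A) := mem_insert_self _ _
  have hb1 : b ∈ insert a (insert b A) := mem_insert_of_mem (mem_insert_self _ _)
  have ha2 : a ∈ V \ A := mem_sdiff.2 ⟨ha, haA⟩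
  have hb2 : b ∈ V \ A := mem_sdiff.2 ⟨hb, hbA⟩
  have hsplit : ∀ c : α → Fin n, W V y₁ c = Φ₁ c * Φ₂ c := by
    intro c
    refine W_split hA ha hb haA hbA (Function.update_self _ _ _) (fun u hu v hv h1 h2 h3 => ?_) c
    rw [Function.update_of_ne, hy u hu v hv h1 h2 h3]
    simp only [ne_eq, Sym2.eq_iff, not_or]
    exact ⟨fun h => h3 h.2, fun h => h2 h.2⟩
  have hI := fun (R : Prop) [Decidable R] => sum_mul_sum_indep haA hbA R Φ₁ Φ₂
    (fun c c' h => W_congr (fun _ _ _ _ _ => rfl) h)
    (fun c c' h => W_congr (fun _ _ _ _ _ => rfl) fun z hz w hw => by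
      rw [h z (mem_sdiff.1 hz).2, h w (mem_sdiff.1 hw).2])
  have hE := hI True
  have hN := hI False
  simp only [iff_true, iff_false, sum_filter] at hE hN
  have e0 : ∀ (U : Finset α), a ∈ U → b ∈ U → ∀ t : ℝ,
      ∑ c : α → Fin n, W U (Function.update y s(a, b) t) c =
        (∑ c : α → Fin n, if ¬ c a = c b then W U y₁ c else 0) +
          t * ∑ c : α → Fin n, if c a = c b then W U y₁ c else 0 := by
    intro U h1 h2 t
    rw [mul_sum, ← sum_add_distrib]
    refine sum_congr rfl fun c _ => ?_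
    rw [W_update h1 h2 hab y c t]
    by_cases h : c a = c b <;> simp [h, hy₁]
  have e1 := e0 V ha hb (y s(a, b))
  rw [Function.update_eq_self] at e1
  simp only [hsplit] at e1
  have e2 := sum_eq_of_indep hab (fun _ : α → Fin n => (1 : ℝ)) fun _ _ => rfl
  have e3 : (∑ c : α → Fin n, if ¬ c a = c b then (1 : ℝ) else 0) +
      (∑ c : α → Fin n, if c a = c b then (1 : ℝ) else 0) = ∑ _c : α → Fin n, (1 : ℝ) := by
    rw [← sum_add_distrib]
    refine sum_congr rfl fun c _ => ?_
    by_cases h : c a = c b <;> simp [h]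
  have e4 : ∑ _c : α → Fin n, (1 : ℝ) = (n : ℝ) ^ Fintype.card α := by simp
  rw [e4] at e2 e3
  rw [e1, e0 _ ha1 hb1 0, e0 _ ha1 hb1 1, e0 _ ha2 hb2 0, e0 _ ha2 hb2 1]
  simp only [hΦ₁, hΦ₂] at hE hN ⊢
  generalize (∑ c : α → Fin n, if ¬ c a = c b then (1 : ℝ) else 0) = nN at *
  generalize (∑ c : α → Fin n, if c a = c b then (1 : ℝ) else 0) = nE at *
  have e5 : nN = (n : ℝ) ^ Fintype.card α - nE := by linarith
  rw [e5] at hN
  linear_combination (-(n : ℝ) ^ 2) * hN + (-(n : ℝ) ^ 2 * (n - 1) * y s(a, b)) * hE +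
    ((n : ℝ) * (∑ c : α → Fin n, if ¬ c a = c b then W (insert a (insert b A)) y₁ c *
      W (V \ A) y₁ c else 0) - n * (n - 1) * y s(a, b) *
      (∑ c : α → Fin n, if c a = c b then W (insert a (insert b A)) y₁ c *
      W (V \ A) y₁ c else 0)) * e2

end Pool.Agent.Lib.MP_efe3d7_co
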